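import Pool.Agent.Lib.MP_e91a1a_an.DA.Stm2

/-!
# [E4] Accretivity consequences
-/

open scoped ComplexConjugate Topology
open Filter

namespace DA91

private theorem acc_ev_add (F G : HH) (z : ℂ × ℂ) : ev (F + G) z = ev F z + ev G z := by
  unfold ev; rw [inner_add_right]

private theorem acc_ev_sub (F G : HH) (z : ℂ × ℂ) : ev (F - G) z = ev F z - ev G z := by
  unfold ev; rw [inner_sub_right]

private theorem acc_ev_smul (c : ℂ) (F : HH) (z : ℂ × ℂ) : ev (c • F) z = c * ev F z := by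
  unfold ev; rw [inner_smul_right]

private theorem acc_ev_eq (hinj : S_inj) {F G : HH} (h : ∀ z ∈ BB, ev F z = ev G z) : F = G :=
  sub_eq_zero.1 (hinj _ fun z hz => by rw [acc_ev_sub, h z hz, sub_self])

/-- the operator of multiplication by a multiplier -/
private theorem acc_op (hinj : S_inj) (m : ℂ × ℂ → ℂ) (C : ℝ) (hm : Mul m C) :
    ∃ T : HH →L[ℂ] HH, ∀ g : HH, ∀ z ∈ BB, ev (T g) z = m z * ev g z := by
  choose G hG1 hG2 using hm
  refine ⟨LinearMap.mkContinuous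
    { toFun := G
      map_add' := fun x y => ?_
      map_smul' := fun c x => ?_ } C hG1, fun g z hz => hG2 g z hz⟩
  · refine acc_ev_eq hinj fun z hz => ?_
    rw [acc_ev_add, hG2 _ z hz, hG2 _ z hz, hG2 _ z hz, acc_ev_add]
    ring
  · refine acc_ev_eq hinj fun z hz => ?_
    rw [RingHom.id_apply, acc_ev_smul, hG2 _ z hz, hG2 _ z hz, acc_ev_smul]
    ring

private theorem acc_surj (T : HH →L[ℂ] HH) (h : ∀ g, ‖g‖ ^ 2 ≤ (inner ℂ g (T g)).re) :
    (∀ g, ‖g‖ ≤ ‖T g‖) ∧ ∀ k, ∃ g, T g = k := by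
  have h1 : ∀ g, ‖g‖ ≤ ‖T g‖ := by
    intro g
    have h2 : ‖g‖ ^ 2 ≤ ‖g‖ * ‖T g‖ :=
      (h g).trans ((Complex.re_le_norm _).trans (norm_inner_le_norm _ _))
    by_cases hg : ‖g‖ = 0
    · rw [hg]; exact norm_nonneg _
    · have : 0 < ‖g‖ := lt_of_le_of_ne (norm_nonneg _) (Ne.symm hg)
      nlinarith
  refine ⟨h1, ?_⟩
  have hanti : AntilipschitzWith 1 T := T.antilipschitz_of_bound (fun x => by simpa using h1 x)
  have hcl : IsClosed (Set.range T) := hanti.isClosed_range T.uniformContinuous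
  have hcl' : IsClosed ((LinearMap.range (T : HH →ₗ[ℂ] HH) : Submodule ℂ HH) : Set HH) := by
    rw [LinearMap.coe_range]; exact hcl
  have : CompleteSpace (LinearMap.range (T : HH →ₗ[ℂ] HH)) := hcl'.completeSpace_coe
  have hbot : (LinearMap.range (T : HH →ₗ[ℂ] HH))ᗮ = ⊥ := by
    rw [Submodule.eq_bot_iff]
    intro x hx
    have h3 : inner ℂ (T x) x = 0 :=
      Submodule.inner_right_of_mem_orthogonal (LinearMap.mem_range_self (T : HH →ₗ[ℂ] HH) x) hx
    have h4 : inner ℂ x (T x) = 0 := by rw [← inner_conj_symm, h3, map_zero]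
    have h5 := h x
    rw [h4, Complex.zero_re] at h5
    have : ‖x‖ = 0 := by nlinarith [norm_nonneg x]
    exact norm_eq_zero.1 this
  have htop := Submodule.orthogonal_eq_bot_iff.1 hbot
  intro k
  have : k ∈ LinearMap.range (T : HH →ₗ[ℂ] HH) := by rw [htop]; trivial
  exact this

theorem piece_accr (h1 : S_ker) (h2 : S_inj) (_h3 : S_mulAlg) (h4 : S_poly) : S_accr := by
  intro F V hF hV hFV
  obtain ⟨CF, -, hCF⟩ := h4.1 F hF
  obtain ⟨CV, -, hCV⟩ := h4.1 V hV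
  obtain ⟨TF, hTF⟩ := acc_op h2 _ _ hCF
  obtain ⟨TV, hTV⟩ := acc_op h2 _ _ hCV
  have hre : ∀ z ∈ BB, 0 ≤ (ev V z).re := by
    intro z hz
    have a1 := hFV (ker z) (TF (ker z)) (TV (ker z)) (hTF _) (hTV _)
    have a2 : inner ℂ (ker z) (TV (ker z)) = ev V z * (1 / (1 - kip z z)) := by
      have : inner ℂ (ker z) (TV (ker z)) = ev (TV (ker z)) z := rfl
      rw [this, hTV _ z hz]
      congr 1
      exact h1.2.1 z hz z hz
    have a3 : (1 / (1 - kip z z) : ℂ) = ((1 / (1 - (‖z.1‖ ^ 2 + ‖z.2‖ ^ 2)) : ℝ) : ℂ) := by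
      unfold kip
      rw [Complex.mul_conj', Complex.mul_conj']
      push_cast
      rfl
    rw [a2, a3, mul_comm, Complex.re_ofReal_mul] at a1
    have a4 : 0 < 1 / (1 - (‖z.1‖ ^ 2 + ‖z.2‖ ^ 2)) := by
      have : ‖z.1‖ ^ 2 + ‖z.2‖ ^ 2 < 1 := hz
      apply one_div_pos.2
      linarith
    have a5 : 0 ≤ 1 / (1 - (‖z.1‖ ^ 2 + ‖z.2‖ ^ 2)) * (ev V z).re := le_trans (sq_nonneg _) a1
    exact nonneg_of_mul_nonneg_right a5 a4
  have hne : ∀ ε : ℝ, 0 < ε → ∀ z ∈ BB, (1 : ℂ) + ε * ev V z ≠ 0 := by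
    intro ε hε z hz h0
    have := congrArg Complex.re h0
    rw [Complex.add_re, Complex.one_re, Complex.re_ofReal_mul, Complex.zero_re] at this
    nlinarith [hre z hz]
  -- solving `g + ε V g = k`
  have hsol : ∀ ε : ℝ, 0 < ε → ∀ k : HH, ∃ g : HH, ‖g‖ ≤ ‖k‖ ∧ g + (ε : ℂ) • TV g = k := by
    intro ε hε k
    obtain ⟨T, hT⟩ : ∃ T : HH →L[ℂ] HH, T = ContinuousLinearMap.id ℂ HH + (ε : ℂ) • TV := ⟨_, rfl⟩
    have hTg : ∀ g, T g = g + (ε : ℂ) • TV g := by intro g; rw [hT]; rfl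
    obtain ⟨b1, b2⟩ := acc_surj T (fun g => by
      have c1 := hFV g (TF g) (TV g) (hTF g) (hTV g)
      rw [hTg, inner_add_right, inner_smul_right, Complex.add_re, Complex.re_ofReal_mul]
      have c2 : (inner ℂ g g).re = ‖g‖ ^ 2 := inner_self_eq_norm_sq (𝕜 := ℂ) g
      rw [c2]
      nlinarith [sq_nonneg ‖TF g‖])
    obtain ⟨g, hg⟩ := b2 k
    refine ⟨g, ?_, ?_⟩
    · rw [← hg]; exact b1 g
    · rw [← hTg, hg]
  refine ⟨hre, ?_, ?_⟩
  · intro ε hε k
    obtain ⟨g, hg1, hg2⟩ := hsol ε hε k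
    refine ⟨g, by rw [one_mul]; exact hg1, fun z hz => ?_⟩
    have e1 : ev k z = (1 + ε * ev V z) * ev g z := by
      rw [← hg2, acc_ev_add, acc_ev_smul, hTV _ z hz]
      ring
    rw [e1]
    field_simp [hne ε hε z hz]
  · intro k
    obtain ⟨g, hg1, hg2⟩ := hsol 1 one_pos k
    refine ⟨(2 : ℂ) • TF g, ?_, fun z hz => ?_⟩
    · have c1 := hFV g (TF g) (TV g) (hTF g) (hTV g)
      have c3 : TV g = k - g := by
        rw [← hg2]
        simp
      rw [c3, inner_sub_right, Complex.sub_re] at c1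
      have c2 : (inner ℂ g g).re = ‖g‖ ^ 2 := inner_self_eq_norm_sq (𝕜 := ℂ) g
      have c4 : (inner ℂ g k).re ≤ ‖g‖ * ‖k‖ := (Complex.re_le_norm _).trans (norm_inner_le_norm _ _)
      rw [norm_smul, one_mul]
      have c5 : ‖(2 : ℂ)‖ = 2 := by norm_num
      rw [c5]
      have c6 : (2 * ‖TF g‖) ^ 2 ≤ ‖k‖ ^ 2 := by nlinarith [sq_nonneg (‖g‖ - ‖k‖ / 2)]
      exact le_of_sq_le_sq c6 (norm_nonneg _)
    · have e1 : ev k z = (1 + ev V z) * ev g z := by
        rw [← hg2, acc_ev_add, acc_ev_smul, hTV _ z hz]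
        push_cast
        ring
      have e2 : (1 : ℂ) + ev V z ≠ 0 := by
        have := hne 1 one_pos z hz
        simpa using this
      rw [e1, acc_ev_smul, hTF _ z hz]
      field_simp

end DA91
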