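import Pool.Agent.Lib.MP_e91a1a_an.DA.Stm

/-! [B4] Asymptotic lemma for a node. -/

open scoped ComplexConjugate Topology
open Filter

namespace DA91

noncomputable section

private theorem asym_delta (nd : Node) (z : ℂ × ℂ) (hz : z ∈ BB) : nd.δ z ≠ 0 := by
  intro h
  have hg := nd.gram z hz z hz
  rw [h, zero_mul, zero_mul] at hg
  have hB : ‖(nd.Φ z).1‖ ^ 2 + ‖(nd.Φ z).2‖ ^ 2 < 1 := nd.mapB z hz
  have h1 : kip (nd.Φ z) (nd.Φ z) = ((‖(nd.Φ z).1‖ ^ 2 + ‖(nd.Φ z).2‖ ^ 2 : ℝ) : ℂ) := by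
    unfold kip
    rw [Complex.mul_conj, Complex.mul_conj, Complex.normSq_eq_norm_sq, Complex.normSq_eq_norm_sq]
    push_cast
    ring
  rw [h1] at hg
  have h2 : ((‖(nd.Φ z).1‖ ^ 2 + ‖(nd.Φ z).2‖ ^ 2 : ℝ) : ℂ) = ((1 : ℝ) : ℂ) := by
    rw [Complex.ofReal_one]
    exact (sub_eq_zero.1 hg.symm).symm
  have h3 := Complex.ofReal_injective h2
  linarith

theorem piece_asym (h1 : S_inj) (h2 : S_asym0) (h3 : S_unit) : S_asym := by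
  have _ := h1
  intro nd a r ha hr hr1 F M hM hF ε hε
  obtain ⟨hu1, hu2⟩ := h3 nd
  obtain ⟨G, -, hG⟩ := hu1 F
  have hGM : ∀ w : ℂ, ‖w‖ < 1 → ‖ev G (w, 0)‖ ≤ M := by
    intro w hw
    have hB : (w, (0 : ℂ)) ∈ BB := by
      change ‖w‖ ^ 2 + ‖(0 : ℂ)‖ ^ 2 < 1
      rw [norm_zero]
      have := norm_nonneg w
      nlinarith
    rw [hG _ hB]
    exact hF w hw
  obtain ⟨n0, hn0⟩ := h2 a r ha hr hr1 G M hM hGM ε hε
  refine ⟨n0, fun n hn => ?_⟩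
  obtain ⟨D0, hD0, hD0n⟩ := hn0 n hn
  obtain ⟨D, hDn, hD⟩ := hu2 D0
  refine ⟨D, fun z hz => ?_, by rw [← hDn]; exact hD0n⟩
  have hz' : nd.Ψ z ∈ BB := nd.mapB' z hz
  have hzK : z ∈ KK := le_of_lt (show ‖z.1‖ ^ 2 + ‖z.2‖ ^ 2 < 1 from hz)
  have hΦ : nd.Φ (nd.Ψ z) = z := nd.rinv z hzK
  have e1 := hD _ hz'
  have e2 := hD0 _ hz'
  have e3 := hG _ hz'
  rw [hΦ] at e1 e3
  rw [e3] at e2
  rw [e2] at e1
  have e4 : nd.δ (nd.Ψ z) * ev D z =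
      nd.δ (nd.Ψ z) * ((Xf a r (nd.Y z ^ n) - 1) * ev F z) := by
    rw [← e1]
    unfold Node.Y
    ring
  exact mul_left_cancel₀ (asym_delta nd _ hz') e4

end

end DA91
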