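import Pool.Agent.Lib.MP_e91a1a_an.DA.Stm

/-!
# MP_e91a1a_an : piece A13, the asymptotic lemma for the root
-/

open scoped ComplexConjugate Topology
open Filter

namespace DA91

noncomputable section

private theorem as_ev_add (F G : HH) (z : ℂ × ℂ) : ev (F + G) z = ev F z + ev G z := by
  unfold ev
  exact inner_add_right _ _ _

private theorem as_fst_lt {z : ℂ × ℂ} (hz : z ∈ BB) : ‖z.1‖ < 1 := by
  have h : ‖z.1‖ ^ 2 + ‖z.2‖ ^ 2 < 1 := hz
  have h2 : 0 ≤ ‖z.2‖ ^ 2 := sq_nonneg _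
  have h0 : 0 ≤ ‖z.1‖ := norm_nonneg _
  nlinarith

private theorem as_pair_mem {w : ℂ} (hw : ‖w‖ < 1) : ((w, 0) : ℂ × ℂ) ∈ BB := by
  show ‖w‖ ^ 2 + ‖(0 : ℂ)‖ ^ 2 < 1
  have h0 : 0 ≤ ‖w‖ := norm_nonneg _
  rw [norm_zero]
  nlinarith

private theorem as_pow_lt {w : ℂ} (hw : ‖w‖ < 1) {n : ℕ} (hn : 1 ≤ n) : ‖w ^ n‖ < 1 := by
  rw [norm_pow]
  exact pow_lt_one₀ (norm_nonneg _) hw (by omega)

private theorem as_mul_lt {r : ℝ} (hr : 0 < r) (hr1 : r < 1) {v : ℂ} (hv : ‖v‖ < 1) :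
    ‖(r : ℂ) * v‖ < 1 := by
  rw [norm_mul, Complex.norm_real, Real.norm_eq_abs, abs_of_pos hr]
  have h0 : 0 ≤ ‖v‖ := norm_nonneg _
  nlinarith

private theorem as_ne {r : ℝ} (hr : 0 < r) (hr1 : r < 1) {v : ℂ} (hv : ‖v‖ < 1) :
    (1 : ℂ) - r * v ≠ 0 := by
  intro h
  have h1 := as_mul_lt hr hr1 hv
  have h2 : (r : ℂ) * v = 1 := (sub_eq_zero.1 h).symm
  rw [h2, norm_one] at h1
  exact lt_irrefl _ h1

private theorem as_re {u : ℂ} (hu : ‖u‖ < 1) : -1 ≤ (2 * u / (1 - u)).re := by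
  have h1 : Complex.normSq u < 1 := by
    rw [Complex.normSq_eq_norm_sq]
    have h0 : 0 ≤ ‖u‖ := norm_nonneg _
    nlinarith
  rw [Complex.normSq_apply] at h1
  have hN : 0 < Complex.normSq (1 - u) := by
    rw [Complex.normSq_pos]
    intro h
    have : u = 1 := (sub_eq_zero.1 h).symm
    rw [this, norm_one] at hu
    exact lt_irrefl _ hu
  rw [Complex.div_re]
  have e : (2 * u).re * (1 - u).re / Complex.normSq (1 - u) +
      (2 * u).im * (1 - u).im / Complex.normSq (1 - u) =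
      ((2 * u).re * (1 - u).re + (2 * u).im * (1 - u).im) / Complex.normSq (1 - u) := by
    rw [add_div]
  rw [e, le_div_iff₀ hN, Complex.normSq_apply]
  simp only [Complex.mul_re, Complex.mul_im, Complex.sub_re, Complex.sub_im, Complex.one_re,
    Complex.one_im, Complex.re_ofNat, Complex.im_ofNat]
  nlinarith

private theorem as_X {a r : ℝ} (ha : 0 < a) (hr : 0 < r) (hr1 : r < 1) {v : ℂ} (hv : ‖v‖ < 1) :
    ‖Xf a r v‖ ≤ Real.exp a := by
  unfold Xf
  rw [Complex.norm_exp]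
  apply Real.exp_le_exp.2
  have h1 := as_re (as_mul_lt hr hr1 hv)
  have h2 : psi r v = 2 * ((r : ℂ) * v) / (1 - (r : ℂ) * v) := by
    unfold psi
    rw [mul_assoc]
  rw [← h2] at h1
  have h3 : (-(a : ℂ) * psi r v).re = -a * (psi r v).re := by
    simp
  rw [h3]
  nlinarith

private theorem as_diffX {a r : ℝ} (hr : 0 < r) (hr1 : r < 1) {n : ℕ} (hn : 1 ≤ n) :
    DifferentiableOn ℂ (fun w : ℂ => Xf a r (w ^ n)) (Metric.ball 0 1) := by
  unfold Xf psi
  refine DifferentiableOn.cexp ?_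
  refine DifferentiableOn.mul (differentiableOn_const _) ?_
  refine DifferentiableOn.div ?_ ?_ ?_
  · fun_prop
  · fun_prop
  · intro w hw
    have hw' : ‖w‖ < 1 := by simpa using hw
    exact as_ne hr hr1 (as_pow_lt hw' hn)

private theorem as_mulPow (h4 : S_ops) (h5 : S_mulAlg) (n : ℕ) :
    Mul (fun z : ℂ × ℂ => z.1 ^ n) 1 := by
  obtain ⟨hc, hm, _, hcong, _, _⟩ := h5
  obtain ⟨M₁, M₂, hM1, _, hMn, _⟩ := h4
  have hz : Mul (fun z : ℂ × ℂ => z.1) 1 := by
    intro F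
    refine ⟨M₁ F, ?_, hM1 F⟩
    have h := hMn F 0
    rw [map_zero, add_zero, norm_zero] at h
    have h0 : 0 ≤ ‖F‖ := norm_nonneg _
    have h0' : 0 ≤ ‖M₁ F‖ := norm_nonneg _
    rw [one_mul]
    nlinarith
  induction n with
  | zero =>
    have h := hc 1
    rw [norm_one] at h
    simpa using h
  | succ n ih =>
    have h := hm _ _ 1 1 ih hz zero_le_one zero_le_one
    rw [mul_one] at h
    refine hcong _ _ 1 h fun z _ => ?_
    rw [pow_succ]

theorem piece_asym0 (_h1 : S_ker) (_h2 : S_inj) (h3 : S_diff) (h4 : S_ops) (h5 : S_mulAlg)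
    (h6 : S_mulExp) (h7 : S_lift) (h8 : S_kill) (h9 : S_split) : S_asym0 := by
  intro a r ha hr hr1 F M hM hF ε hε
  obtain ⟨F0, F', hFF, hF0, hF'⟩ := h9 F
  obtain ⟨CQ, hCQ, Q, hQ, hQm⟩ := h6.2.2 a r ha hr hr1
  have hε' : 0 < ε / (CQ + 1) := by positivity
  obtain ⟨n0, hn0⟩ := h8 F' hF' (ε / (CQ + 1)) hε'
  refine ⟨max n0 1, fun n hn => ?_⟩
  have hn1 : 1 ≤ n := le_trans (le_max_right _ _) hn
  have hn2 : n0 ≤ n := le_trans (le_max_left _ _) hn
  -- the part which depends only on the first coordinate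
  have hE : 0 ≤ Real.exp a + 1 := by positivity
  obtain ⟨D1, hD1, hD1'⟩ := h7 (fun w => (Xf a r (w ^ n) - 1) * ev F (w, 0))
    (by
      refine DifferentiableOn.mul ((as_diffX hr hr1 hn1).sub (differentiableOn_const _)) ?_
      refine DifferentiableOn.comp (g := ev F) (f := fun w : ℂ => ((w, 0) : ℂ × ℂ)) (t := BB)
        (h3 F) ?_ ?_
      · fun_prop
      · intro w hw
        have hw' : ‖w‖ < 1 := by simpa using hw
        exact as_pair_mem hw') (M * (Real.exp a + 1)) (mul_nonneg hM hE)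
    (by
      intro w hw
      have e1 : ‖Xf a r (w ^ n) - 1‖ ≤ Real.exp a + 1 := by
        refine (norm_sub_le _ _).trans ?_
        rw [norm_one]
        have := as_X ha hr hr1 (as_pow_lt hw hn1)
        linarith
      rw [norm_mul, mul_comm M]
      exact mul_le_mul e1 (hF w hw) (norm_nonneg _) hE)
  -- the part which vanishes on the disc
  obtain ⟨G, _, hG⟩ := as_mulPow h4 h5 n F'
  have hGn := hn0 n hn2 G hG
  obtain ⟨D2, hD2, hD2'⟩ := hQm _ (as_mulPow h4 h5 n) G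
  refine ⟨D1 + D2, fun z hz => ?_, ?_⟩
  · have hz1 := as_fst_lt hz
    have e1 : ev F z = ev F (z.1, 0) + ev F' z := by
      rw [hFF, as_ev_add, hF0 z hz, ← hFF]
    have e2 := hQ _ (as_pow_lt hz1 hn1)
    rw [as_ev_add, hD1' z hz, hD2' z hz, hG z hz, e1]
    show (Xf a r (z.1 ^ n) - 1) * ev F (z.1, 0) + Q (z.1 ^ n) * (z.1 ^ n * ev F' z) = _
    rw [e2]
    ring
  · refine (norm_add_le _ _).trans ?_
    have e3 : ‖D2‖ ≤ ε := by
      refine hD2.trans ?_
      refine (mul_le_mul_of_nonneg_left hGn hCQ).trans ?_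
      rw [← mul_div_assoc, div_le_iff₀ (by positivity)]
      nlinarith
    linarith

end

end DA91
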