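import Pool.Agent.Lib.MP_e91a1a_an.DA.Stm

/-!
# [B8] Bounds for `Y` and `β`
-/

open scoped ComplexConjugate Topology
open Filter

namespace DA91

theorem piece_ballY : S_ballY := by
  intro nd
  have hlt : ∀ z ∈ BB, ‖nd.Y z‖ < 1 := by
    intro z hz
    have h : ‖(nd.Ψ z).1‖ ^ 2 + ‖(nd.Ψ z).2‖ ^ 2 < 1 := nd.mapB' z hz
    have h1 : ‖nd.Y z‖ ^ 2 < 1 := by
      have h2 : 0 ≤ ‖(nd.Ψ z).2‖ ^ 2 := sq_nonneg _
      change ‖(nd.Ψ z).1‖ ^ 2 < 1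
      linarith
    exact (sq_lt_one_iff₀ (norm_nonneg _)).1 h1
  refine ⟨fun z hz => nd.mapK' z hz, hlt, fun R hR hR0 => ?_⟩
  have hR2 : R ^ 2 < 1 := (sq_lt_one_iff₀ hR0).2 hR
  let K : Set (ℂ × ℂ) := {z | ‖z.1‖ ^ 2 + ‖z.2‖ ^ 2 ≤ R ^ 2}
  have hcl : IsClosed K := by
    have hc : Continuous fun z : ℂ × ℂ => ‖z.1‖ ^ 2 + ‖z.2‖ ^ 2 := by fun_prop
    exact isClosed_le hc continuous_const
  have hbd : Bornology.IsBounded K := by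
    refine (Metric.isBounded_closedBall (x := (0 : ℂ × ℂ)) (r := 1)).subset fun z hz => ?_
    rw [mem_closedBall_zero_iff, Prod.norm_def]
    have hz' : ‖z.1‖ ^ 2 + ‖z.2‖ ^ 2 ≤ R ^ 2 := hz
    have h1 : ‖z.1‖ ^ 2 ≤ 1 := by nlinarith [sq_nonneg ‖z.2‖]
    have h2 : ‖z.2‖ ^ 2 ≤ 1 := by nlinarith [sq_nonneg ‖z.1‖]
    exact max_le ((sq_le_one_iff₀ (norm_nonneg _)).1 h1) ((sq_le_one_iff₀ (norm_nonneg _)).1 h2)
  have hK : IsCompact K := Metric.isCompact_of_isClosed_isBounded hcl hbd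
  have hne : K.Nonempty := ⟨0, by
    change ‖(0 : ℂ)‖ ^ 2 + ‖(0 : ℂ)‖ ^ 2 ≤ R ^ 2
    simp [sq_nonneg]⟩
  have hsub : K ⊆ KK := by
    intro z hz
    have hz' : ‖z.1‖ ^ 2 + ‖z.2‖ ^ 2 ≤ R ^ 2 := hz
    exact hz'.trans hR2.le
  have hcont : ContinuousOn (fun z => ‖nd.Y z‖) K := by
    have h1 : ContinuousOn nd.Ψ K := nd.contΨ.mono hsub
    exact (continuous_fst.comp_continuousOn h1).norm
  obtain ⟨z0, hz0, hmax⟩ := hK.exists_isMaxOn hne hcont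
  have hz0' : ‖z0.1‖ ^ 2 + ‖z0.2‖ ^ 2 ≤ R ^ 2 := hz0
  refine ⟨‖nd.Y z0‖, norm_nonneg _, hlt z0 (lt_of_le_of_lt hz0' hR2), fun z hz => ?_⟩
  exact hmax hz

end DA91
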