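import Pool.Agent.Lib.MP_e91a1a_an.DA.Stm

/-!
# MP_e91a1a_an : the product of the `β_j`
-/

open scoped ComplexConjugate Topology
open Filter

namespace DA91

private theorem bl_zero_mem : (0 : ℂ × ℂ) ∈ BB := by
  change ‖(0 : ℂ × ℂ).1‖ ^ 2 + ‖(0 : ℂ × ℂ).2‖ ^ 2 < 1
  simp

private theorem bl_phase (β : ℂ) : ∃ c : ℂ, ‖c‖ = 1 ∧ c * β = (‖β‖ : ℂ) := by
  by_cases h : β = 0
  · exact ⟨1, by simp, by simp [h]⟩
  · have h1 : (‖β‖ : ℂ) ≠ 0 := by
      simpa using h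
    refine ⟨conj β / (‖β‖ : ℂ), ?_, ?_⟩
    · rw [norm_div, RCLike.norm_conj, Complex.norm_real, norm_norm]
      exact div_self (norm_ne_zero_iff.2 h)
    · rw [div_mul_eq_mul_div, mul_comm (conj β) β, Complex.mul_conj, Complex.normSq_eq_norm_sq]
      push_cast
      rw [sq, mul_div_assoc, div_self h1, mul_one]

private theorem bl_prod (h3 : S_mulAlg) {ι : Type} (s : Finset ι) (m : ι → ℂ × ℂ → ℂ)
    (hm : ∀ j, Mul (m j) 1) : Mul (fun z => ∏ j ∈ s, m j z) 1 := by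
  classical
  induction s using Finset.induction_on with
  | empty =>
    have h := h3.1 1
    rw [norm_one] at h
    simpa using h
  | insert a s ha ih =>
    have h := h3.2.1 _ _ _ _ (hm a) ih zero_le_one zero_le_one
    rw [one_mul] at h
    have e : (fun z => ∏ j ∈ insert a s, m j z) = fun z => m a z * ∏ j ∈ s, m j z := by
      funext z
      rw [Finset.prod_insert ha]
    rw [e]
    exact h

theorem piece_blaschke (h1 : S_ker) (_h2 : S_inj) (h3 : S_mulAlg) (h4 : S_mulY) :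
    S_blaschke := by
  intro ι _ nd ε hε
  choose c hc1 hc2 using fun j => bl_phase ((nd j).β 0)
  have hm : ∀ j, Mul (fun z => c j * (nd j).β z) 1 := by
    intro j
    have h := h3.2.1 _ _ _ _ (h3.1 (c j)) (h4 (nd j)).2 (norm_nonneg _) zero_le_one
    rw [hc1 j, one_mul] at h
    exact h
  have hM : Mul (fun z => ∏ j, c j * (nd j).β z) 1 := bl_prod h3 Finset.univ _ hm
  obtain ⟨_, _, _, k1, k2, k3, _⟩ := h1
  obtain ⟨b, hb1, hb2⟩ := hM one
  have hb2' : ∀ z ∈ BB, ev b z = ∏ j, c j * (nd j).β z := by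
    intro z hz
    rw [hb2 z hz, k1 z hz, mul_one]
  rw [k2, one_mul] at hb1
  refine ⟨b, h3.2.2.2.1 _ _ _ hM fun z hz => (hb2' z hz).symm, ?_, ?_⟩
  · have h0 : inner ℂ one b = ((∏ j, ‖(nd j).β 0‖ : ℝ) : ℂ) := by
      rw [k3 b, hb2' 0 bl_zero_mem]
      push_cast
      exact Finset.prod_congr rfl fun j _ => hc2 j
    rw [← norm_sub_rev, norm_sub_sq (𝕜 := ℂ), h0, k2]
    have h5 : RCLike.re (((∏ j, ‖(nd j).β 0‖ : ℝ) : ℂ)) = ∏ j, ‖(nd j).β 0‖ :=
      Complex.ofReal_re _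
    rw [h5]
    have h6 : ‖b‖ ^ 2 ≤ 1 := by
      have := pow_le_pow_left₀ (norm_nonneg b) hb1 2
      simpa using this
    nlinarith
  · intro j w hw
    have hwB : ((w, 0) : ℂ × ℂ) ∈ BB := by
      change ‖w‖ ^ 2 + ‖(0 : ℂ)‖ ^ 2 < 1
      rw [norm_zero]
      nlinarith [norm_nonneg w]
    have hwK : ((w, 0) : ℂ × ℂ) ∈ KK := by
      change ‖w‖ ^ 2 + ‖(0 : ℂ)‖ ^ 2 ≤ 1
      rw [norm_zero]
      nlinarith [norm_nonneg w]
    rw [hb2' _ ((nd j).mapB _ hwB)]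
    refine Finset.prod_eq_zero (Finset.mem_univ j) ?_
    have : (nd j).β ((nd j).Φ (w, 0)) = 0 := by
      unfold Node.β
      rw [(nd j).linv _ hwK]
    rw [this, mul_zero]

end DA91
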