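import Pool.Agent.Lib.MP_e91a1a_an.DA.Stm

/-!
# [B7] The child of a node
-/

open scoped ComplexConjugate Topology
open Filter

namespace DA91

private theorem child_ident (Y w : ℂ) :
    ‖Y - w‖ ^ 2 = ‖1 - conj w * Y‖ ^ 2 - (1 - ‖Y‖ ^ 2) * (1 - ‖w‖ ^ 2) := by
  simp only [← Complex.normSq_eq_norm_sq, Complex.normSq_apply, Complex.sub_re, Complex.sub_im,
    Complex.mul_re, Complex.mul_im, Complex.conj_re, Complex.conj_im, Complex.one_re, Complex.one_im]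
  ring

private theorem child_ne (Y w : ℂ) (hY : ‖Y‖ ≤ 1) (hw : ‖w‖ < 1) : 1 - conj w * Y ≠ 0 := by
  intro h
  have h1 : conj w * Y = 1 := (sub_eq_zero.1 h).symm
  have h2 : ‖conj w * Y‖ = 1 := by rw [h1, norm_one]
  rw [norm_mul, RCLike.norm_conj] at h2
  nlinarith [norm_nonneg w, norm_nonneg Y]

theorem piece_child (h1 : S_elem) (h2 : S_comp) : S_child := by
  intro nd w hw
  obtain ⟨ne, he1, he2, he3⟩ := h1 w hw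
  obtain ⟨nc, hc1, hc2, hc3⟩ := h2 nd ne
  have hβ : ∀ z, nc.β z = (nd.Y z - w) / (1 - conj w * nd.Y z) := by
    intro z
    change (nc.Ψ z).2 = _
    rw [hc2, he2]
    rfl
  have hYK : ∀ z ∈ KK, ‖nd.Y z‖ ≤ 1 := by
    intro z hz
    have h : ‖(nd.Ψ z).1‖ ^ 2 + ‖(nd.Ψ z).2‖ ^ 2 ≤ 1 := nd.mapK' z hz
    have h3 : ‖nd.Y z‖ ^ 2 ≤ 1 := by
      have h4 : 0 ≤ ‖(nd.Ψ z).2‖ ^ 2 := sq_nonneg _
      change ‖(nd.Ψ z).1‖ ^ 2 ≤ 1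
      linarith
    exact (sq_le_one_iff₀ (norm_nonneg _)).1 h3
  refine ⟨nc, ?_, fun z hz => ?_, fun C hC v hv => ?_, ?_⟩
  · rw [hc1, he1]
    congr 1
    unfold Phw
    simp
  · rw [hβ, div_eq_zero_iff, sub_eq_zero]
    have := child_ne (nd.Y z) w (hYK z hz) hw
    tauto
  · rw [hc3, he1, he3, norm_mul]
    have h3 : dlw w (v, 0) = (sw w : ℂ) := by
      unfold dlw
      simp
    have h4 : 0 ≤ sw w := Real.sqrt_nonneg _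
    rw [h3, Complex.norm_real, Real.norm_of_nonneg h4]
    refine mul_le_mul_of_nonneg_right (hC _ ?_) h4
    rw [← he1]
    apply ne.mapK
    change ‖v‖ ^ 2 + ‖(0 : ℂ)‖ ^ 2 ≤ 1
    have : ‖v‖ ^ 2 ≤ 1 := (sq_le_one_iff₀ (norm_nonneg _)).2 hv.le
    simpa using this
  · rw [hβ]
    have h0 : (0 : ℂ × ℂ) ∈ BB := by
      change ‖(0 : ℂ)‖ ^ 2 + ‖(0 : ℂ)‖ ^ 2 < 1
      simp
    have hY1 : ‖nd.Y 0‖ < 1 := by
      have h : ‖(nd.Ψ 0).1‖ ^ 2 + ‖(nd.Ψ 0).2‖ ^ 2 < 1 := nd.mapB' 0 h0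
      have h3 : ‖nd.Y 0‖ ^ 2 < 1 := by
        have h4 : 0 ≤ ‖(nd.Ψ 0).2‖ ^ 2 := sq_nonneg _
        change ‖(nd.Ψ 0).1‖ ^ 2 < 1
        linarith
      exact (sq_lt_one_iff₀ (norm_nonneg _)).1 h3
    obtain ⟨Y, hYd⟩ : ∃ Y : ℂ, Y = nd.Y 0 := ⟨_, rfl⟩
    rw [← hYd] at hY1 ⊢
    have hne := child_ne Y w hY1.le hw
    have hpos : 0 < ‖1 - conj w * Y‖ := norm_pos_iff.2 hne
    have hlow : 1 - ‖Y‖ ≤ ‖1 - conj w * Y‖ := by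
      have h3 : ‖(1 : ℂ)‖ - ‖conj w * Y‖ ≤ ‖1 - conj w * Y‖ := norm_sub_norm_le _ _
      rw [norm_one, norm_mul, RCLike.norm_conj] at h3
      nlinarith [norm_nonneg w, norm_nonneg Y]
    have hY0 : 0 < 1 - ‖Y‖ := by linarith
    have hw2 : 0 ≤ 1 - ‖w‖ ^ 2 := by
      have := (sq_lt_one_iff₀ (norm_nonneg w)).2 hw
      linarith
    rw [norm_div, div_pow, child_ident, sub_div, div_self (pow_ne_zero 2 hpos.ne')]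
    have h5 : (1 - ‖Y‖ ^ 2) * (1 - ‖w‖ ^ 2) / ‖1 - conj w * Y‖ ^ 2 ≤
        2 * (1 - ‖w‖ ^ 2) / (1 - ‖Y‖) := by
      rw [div_le_div_iff₀ (pow_pos hpos 2) hY0]
      have h6 : (1 - ‖Y‖) ^ 2 ≤ ‖1 - conj w * Y‖ ^ 2 := pow_le_pow_left₀ hY0.le hlow 2
      have h7 : (1 - ‖Y‖ ^ 2) * (1 - ‖Y‖) ≤ 2 * (1 - ‖Y‖) ^ 2 := by
        nlinarith [norm_nonneg Y]
      calc (1 - ‖Y‖ ^ 2) * (1 - ‖w‖ ^ 2) * (1 - ‖Y‖)
          = (1 - ‖w‖ ^ 2) * ((1 - ‖Y‖ ^ 2) * (1 - ‖Y‖)) := by ring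
        _ ≤ (1 - ‖w‖ ^ 2) * (2 * ‖1 - conj w * Y‖ ^ 2) :=
            mul_le_mul_of_nonneg_left (by linarith) hw2
        _ = 2 * (1 - ‖w‖ ^ 2) * ‖1 - conj w * Y‖ ^ 2 := by ring
    linarith

end DA91
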