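import Pool.Agent.Lib.MP_e91a1a_an.DA.Stm

/-!
# [B6] Composition of nodes
-/

open scoped ComplexConjugate Topology
open Filter

namespace DA91

theorem piece_comp : S_comp := by
  intro n₁ n₂
  refine ⟨{ Φ := fun z => n₁.Φ (n₂.Φ z)
            Ψ := fun z => n₂.Ψ (n₁.Ψ z)
            δ := fun z => n₁.δ (n₂.Φ z) * n₂.δ z
            mapK := fun z hz => n₁.mapK _ (n₂.mapK z hz)
            mapK' := fun z hz => n₂.mapK' _ (n₁.mapK' z hz)
            mapB := fun z hz => n₁.mapB _ (n₂.mapB z hz)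
            mapB' := fun z hz => n₂.mapB' _ (n₁.mapB' z hz)
            linv := fun z hz => by rw [n₁.linv _ (n₂.mapK z hz), n₂.linv z hz]
            rinv := fun z hz => by rw [n₂.rinv _ (n₁.mapK' z hz), n₁.rinv z hz]
            contΦ := n₁.contΦ.comp n₂.contΦ n₂.mapK
            contΨ := n₂.contΨ.comp n₁.contΨ n₁.mapK'
            contδ := (n₁.contδ.comp n₂.contΦ n₂.mapK).mul n₂.contδ
            diffΦ := n₁.diffΦ.comp n₂.diffΦ n₂.mapB
            gram := ?_ }, fun z => rfl, fun z => rfl, fun z => rfl⟩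
  intro z hz w hw
  have h1 := n₂.gram z hz w hw
  have h2 := n₁.gram _ (n₂.mapB z hz) _ (n₂.mapB w hw)
  rw [← h2, ← h1, map_mul]
  ring

end DA91
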