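import Pool.Agent.Lib.MP_e91a1a_an.DA.Stm2

/-!
# MP_e91a1a_an : piece E6, conversion of the vector into a multiplier
-/

open scoped ComplexConjugate Topology
open Filter

namespace DA91

noncomputable section

private theorem cv_zero_mem : (0 : ℂ × ℂ) ∈ BB := by
  show ‖(0 : ℂ × ℂ).1‖ ^ 2 + ‖(0 : ℂ × ℂ).2‖ ^ 2 < 1
  simp

private theorem cv_ne {w : ℂ} (hw : 0 ≤ w.re) {e : ℝ} (he : 0 < e) : (1 : ℂ) + e * w ≠ 0 := by
  intro h
  have h1 := congrArg Complex.re h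
  simp at h1
  nlinarith

private theorem cv_norm {w : ℂ} (hw : 0 ≤ w.re) {e : ℝ} (he : 0 < e) : 1 ≤ ‖(1 : ℂ) + e * w‖ := by
  have h1 : ((1 : ℂ) + e * w).re = 1 + e * w.re := by simp
  have h2 := Complex.re_le_norm ((1 : ℂ) + e * w)
  rw [h1] at h2
  have : 0 ≤ e * w.re := mul_nonneg he.le hw
  linarith

private theorem cv_ne1 {w : ℂ} (hw : 0 ≤ w.re) : (1 : ℂ) + w ≠ 0 := by
  have := cv_ne hw one_pos
  simpa using this

private theorem cv_norm1 {w : ℂ} (hw : 0 ≤ w.re) : 1 ≤ ‖(1 : ℂ) + w‖ := by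
  have := cv_norm hw one_pos
  simpa using this

/-- near one -/
private theorem cv_near {w : ℂ} (hw : 0 ≤ w.re) {e : ℝ} (he : 0 < e) :
    1 - e * ‖w‖ ≤ (1 / ((1 : ℂ) + e * w)).re := by
  have h1 : (1 : ℂ) - 1 / (1 + e * w) = e * w / (1 + e * w) := by
    have := cv_ne hw he
    field_simp
    ring
  have h2 : ‖(1 : ℂ) - 1 / (1 + e * w)‖ ≤ e * ‖w‖ := by
    rw [h1, norm_div, norm_mul, Complex.norm_real, Real.norm_eq_abs, abs_of_pos he]
    exact div_le_self (by positivity) (cv_norm hw he)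
  have h3 := Complex.re_le_norm ((1 : ℂ) - 1 / (1 + e * w))
  rw [Complex.sub_re, Complex.one_re] at h3
  linarith

theorem piece_conv (h1 : S_ker) (h2 : S_mulAlg) (h3 : S_accrAll) : S_conv := by
  intro F
  obtain ⟨V, hV, hVe, hVF⟩ := h3 F
  obtain ⟨hc, hm, ha, hcong, _, _⟩ := h2
  obtain ⟨_, _, _, hone, hn1, hin, _⟩ := h1
  refine ⟨fun z => 2 / (1 + V z), fun z hz => ⟨?_, ?_⟩, ?_, ?_, ?_⟩
  · exact div_ne_zero two_ne_zero (cv_ne1 (hV z hz))
  · show ‖2 / (1 + V z)‖ ≤ 2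
    rw [norm_div]
    have e2 : ‖(2 : ℂ)‖ = 2 := by simp
    rw [e2]
    exact div_le_self zero_le_two (cv_norm1 (hV z hz))
  · refine hcong _ _ 1 hVF fun z _ => ?_
    show 2 * ev F z / (1 + V z) = ev F z * (2 / (1 + V z))
    ring
  · have e1 := hm _ _ _ 1 (hc 2) (hVe 1 one_pos) (norm_nonneg _) zero_le_one
    have e2 : ‖(2 : ℂ)‖ * 1 = 2 := by simp
    rw [e2] at e1
    refine hcong _ _ 2 e1 fun z _ => ?_
    show (2 : ℂ) * (1 / (1 + ((1 : ℝ) : ℂ) * V z)) = 2 / (1 + V z)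
    rw [Complex.ofReal_one, one_mul]
    ring
  · intro ε hε
    have hK : 0 < ‖V 0‖ + 1 := by positivity
    obtain ⟨e, he, heK⟩ : ∃ e : ℝ, 0 < e ∧ 2 * (e * ‖V 0‖) ≤ ε ^ 2 := by
      refine ⟨ε ^ 2 / (2 * (‖V 0‖ + 1)), by positivity, ?_⟩
      rw [div_mul_eq_mul_div, mul_div_assoc', div_le_iff₀ (by positivity)]
      have : 0 ≤ ε ^ 2 := sq_nonneg _
      nlinarith [norm_nonneg (V 0)]
    have heC : (e : ℂ) ≠ 0 := by exact_mod_cast he.ne'
    have hmul := hVe e he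
    obtain ⟨G, hG, hG'⟩ := hmul one
    rw [hn1, mul_one] at hG
    have hGz : ∀ z ∈ BB, ev G z = 1 / (1 + (e : ℂ) * V z) := by
      intro z hz
      rw [hG' z hz, hone z hz, mul_one]
    refine ⟨fun z => 1 / (2 * (e : ℂ)) + (-((1 - (e : ℂ)) / (2 * e))) * (1 / (1 + (e : ℂ) * V z)),
      ‖(1 / (2 * (e : ℂ)))‖ + ‖(-((1 - (e : ℂ)) / (2 * e)))‖ * 1, by positivity, ?_, G, ?_, ?_⟩
    · exact ha _ _ _ _ (hc _) (hm _ _ _ 1 (hc _) hmul (norm_nonneg _) zero_le_one)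
    · intro z hz
      rw [hGz z hz]
      have n1 := cv_ne (hV z hz) he
      have n2 := cv_ne1 (hV z hz)
      show 1 / (1 + (e : ℂ) * V z) =
        (1 / (2 * (e : ℂ)) + (-((1 - (e : ℂ)) / (2 * e))) * (1 / (1 + (e : ℂ) * V z))) *
          (2 / (1 + V z))
      field_simp
      ring
    · have e3 : ‖G - one‖ ^ 2 ≤ ε ^ 2 := by
        rw [@norm_sub_sq ℂ, hn1]
        have e4 : RCLike.re (inner ℂ G one) = (ev G 0).re := by
          rw [inner_re_symm, hin]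
          rfl
        rw [e4, hGz 0 cv_zero_mem]
        have e5 := cv_near (hV 0 cv_zero_mem) he
        have e6 : ‖G‖ ^ 2 ≤ 1 := by
          have := norm_nonneg G
          nlinarith
        linarith
      exact (pow_le_pow_iff_left₀ (norm_nonneg _) hε.le two_ne_zero).1 e3

end

end DA91
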