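import Pool.Agent.Lib.MP_e91a1a_an.DA.Stm3

/-!
# MP_e91a1a_an : density of the range from the approximation of the constant one
-/

open scoped ComplexConjugate Topology ComplexOrder
open Filter DruryArveson

namespace DA91

theorem piece_cyc (h1 : S_psd) (h2 : S_psdMul) : S_cyc := by
  intro d H _ _ _ _ hH m hm I hI hap
  refine ⟨hm, ?_⟩
  let R : Submodule ℂ H :=
    { carrier := {g : H | ∃ f : H, ∀ z, g z = m z * f z}
      add_mem' := by
        rintro g g' ⟨f, hf⟩ ⟨f', hf'⟩
        refine ⟨f + f', fun z => ?_⟩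
        rw [RKHS.coe_add, RKHS.coe_add, Pi.add_apply, Pi.add_apply, hf, hf', mul_add]
      zero_mem' := ⟨0, fun z => by rw [RKHS.coe_zero, Pi.zero_apply, mul_zero]⟩
      smul_mem' := by
        rintro c g ⟨f, hf⟩
        refine ⟨c • f, fun z => ?_⟩
        rw [RKHS.coe_smul, RKHS.coe_smul, Pi.smul_apply, Pi.smul_apply, hf, smul_eq_mul,
          smul_eq_mul]
        ring }
  have hRmem : ∀ g : H, g ∈ R ↔ ∃ f : H, ∀ z, g z = m z * f z := fun g => Iff.rfl
  have hI' : I ∈ R.topologicalClosure := by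
    rw [← SetLike.mem_coe, Submodule.topologicalClosure_coe, Metric.mem_closure_iff]
    intro ε hε
    obtain ⟨F, G, hG, hGI⟩ := hap (ε / 2) (by positivity)
    exact ⟨G, ⟨F, hG⟩, by rw [dist_comm, dist_eq_norm]; linarith⟩
  have hker : ∀ a : Ball d, RKHS.kerFun H a 1 ∈ R.topologicalClosure := by
    intro a
    have ha1 : ‖(a : EuclideanSpace ℂ (Fin d))‖ < 1 := mem_ball_zero_iff.1 a.2
    set t : Ball d → ℂ := fun z =>
      inner ℂ (a : EuclideanSpace ℂ (Fin d)) (z : EuclideanSpace ℂ (Fin d)) with ht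
    have hT : MultNormLE H t ‖(a : EuclideanSpace ℂ (Fin d))‖ :=
      h2 d H hH t _ (norm_nonneg _) ((h1 d).2.1 a)
    obtain ⟨hTm, hTC⟩ := hT
    choose T hTz using hTm
    have hsub : ∀ f g, ‖T f - T g‖ ≤ ‖(a : EuclideanSpace ℂ (Fin d))‖ * ‖f - g‖ := fun f g =>
      hTC (f - g) (T f - T g) fun z => by
        rw [RKHS.coe_sub, RKHS.coe_sub, Pi.sub_apply, Pi.sub_apply, hTz, hTz, mul_sub]
    have hcont : Continuous T := by
      refine (LipschitzWith.of_dist_le_mul (K := ‖(a : EuclideanSpace ℂ (Fin d))‖₊)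
        fun f g => ?_).continuous
      rw [dist_eq_norm, dist_eq_norm]
      exact hsub f g
    have hinv : ∀ g ∈ R.topologicalClosure, T g ∈ R.topologicalClosure := by
      intro g hg
      rw [← SetLike.mem_coe, Submodule.topologicalClosure_coe] at hg ⊢
      refine map_mem_closure hcont hg ?_
      rintro x ⟨f, hf⟩
      refine ⟨T f, fun z => ?_⟩
      rw [hTz, hTz, hf]
      ring
    let u : ℕ → H := fun n => Nat.rec I (fun _ x => T x) n
    have hu0 : u 0 = I := rfl
    have hus : ∀ n, u (n + 1) = T (u n) := fun _ => rfl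
    have hu : ∀ n z, u n z = t z ^ n := by
      intro n z
      induction n with
      | zero => rw [hu0, hI, pow_zero]
      | succ n ih => rw [hus, hTz, ih, pow_succ']
    have hun : ∀ n, ‖u n‖ ≤ ‖(a : EuclideanSpace ℂ (Fin d))‖ ^ n * ‖I‖ := by
      intro n
      induction n with
      | zero => rw [hu0, pow_zero, one_mul]
      | succ n ih =>
        rw [hus]
        calc ‖T (u n)‖ ≤ ‖(a : EuclideanSpace ℂ (Fin d))‖ * ‖u n‖ := hTC _ _ (hTz _)
          _ ≤ ‖(a : EuclideanSpace ℂ (Fin d))‖ * (‖(a : EuclideanSpace ℂ (Fin d))‖ ^ n * ‖I‖) :=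
            mul_le_mul_of_nonneg_left ih (norm_nonneg _)
          _ = _ := by rw [pow_succ']; ring
    have hmem : ∀ n, u n ∈ R.topologicalClosure := by
      intro n
      induction n with
      | zero => exact hI'
      | succ n ih => exact hinv _ ih
    have hsum : Summable u :=
      Summable.of_norm_bounded
        ((summable_geometric_of_lt_one (norm_nonneg _) ha1).mul_right ‖I‖) hun
    have hk : RKHS.kerFun H a 1 = ∑' n, u n := by
      refine RKHS.ext fun z => ?_
      have h3 := hsum.hasSum.mapL (ContinuousLinearMap.adjoint (RKHS.kerFun H z))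
      simp only [RKHS.adjoint_kerFun, hu] at h3
      have h4 : ‖t z‖ < 1 := by
        have hz1 : ‖(z : EuclideanSpace ℂ (Fin d))‖ < 1 := mem_ball_zero_iff.1 z.2
        calc ‖t z‖ ≤ ‖(a : EuclideanSpace ℂ (Fin d))‖ * ‖(z : EuclideanSpace ℂ (Fin d))‖ :=
              norm_inner_le_norm _ _
          _ < 1 := mul_lt_one_of_nonneg_of_lt_one_left (norm_nonneg _) ha1 hz1.le
      have h5 := h3.unique (hasSum_geometric_of_norm_lt_one h4)
      rw [h5, RKHS.kerFun_apply, hH, one_div]
    rw [hk]
    exact R.isClosed_topologicalClosure.mem_of_tendsto hsum.hasSum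
      (Eventually.of_forall fun s => R.topologicalClosure.sum_mem fun n _ => hmem n)
  have hspan : Submodule.span ℂ {x : H | ∃ (y : Ball d) (v : ℂ), RKHS.kerFun H y v = x} ≤
      R.topologicalClosure := by
    rw [Submodule.span_le]
    rintro x ⟨a, v, rfl⟩
    have h6 : RKHS.kerFun H a v = v • RKHS.kerFun H a 1 := by
      rw [← map_smul, smul_eq_mul, mul_one]
    rw [h6]
    exact R.topologicalClosure.smul_mem v (hker a)
  have htop : R.topologicalClosure = ⊤ := by
    rw [eq_top_iff, ← RKHS.kerFun_dense (𝕜 := ℂ) (X := Ball d) (V := ℂ) H]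
    exact Submodule.topologicalClosure_minimal _ hspan R.isClosed_topologicalClosure
  have hd : Dense (R : Set H) := by
    rw [dense_iff_closure_eq, ← Submodule.topologicalClosure_coe, htop]
    rfl
  exact hd

end DA91
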