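import Pool.Agent.Lib.MP_e91a1a_an.DA.Stm2

/-!
# MP_e91a1a_an : if `one` can be approximated by `m * HH` then everything can
-/

open scoped ComplexConjugate Topology
open Filter

namespace DA91

theorem piece_dense (h1 : S_ker) (_h2 : S_inj) (_h3 : S_mulAlg) (h4 : S_poly) : S_dense := by
  intro m hm g ε hε
  obtain ⟨_, _, _, k1, _⟩ := h1
  obtain ⟨P, hP1, hP2⟩ := h4.2 g
  obtain ⟨n, hn⟩ := (Metric.tendsto_atTop.1 hP2 (ε / 2) (by positivity))
  have hPn := hn n le_rfl
  rw [dist_eq_norm] at hPn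
  obtain ⟨C, hC, hMul⟩ := h4.1 (P n) (hP1 n)
  obtain ⟨F0, G0, h5, h6⟩ := hm (ε / (2 * (C + 1))) (by positivity)
  obtain ⟨F, _, hF⟩ := hMul F0
  obtain ⟨D, hD1, hD2⟩ := hMul (G0 - one)
  refine ⟨F, P n + D, fun z hz => ?_, ?_⟩
  · have e1 : ev (P n + D) z = ev (P n) z + ev D z := by
      unfold ev; rw [inner_add_right]
    have e2 : ev (G0 - one) z = ev G0 z - ev one z := by
      unfold ev; rw [inner_sub_right]
    rw [e1, hD2 z hz, e2, k1 z hz, h5 z hz, hF z hz]
    ring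
  · have h7 : ‖D‖ ≤ ε / 2 := by
      refine hD1.trans ((mul_le_mul_of_nonneg_left h6 hC).trans ?_)
      have h8 : C * (ε / (2 * (C + 1))) = (ε / 2) * (C / (C + 1)) := by
        field_simp
      rw [h8]
      have h9 : C / (C + 1) ≤ 1 := by
        rw [div_le_one (by positivity)]
        linarith
      nlinarith
    calc ‖P n + D - g‖ = ‖(P n - g) + D‖ := by congr 1; abel
      _ ≤ ‖P n - g‖ + ‖D‖ := norm_add_le _ _
      _ ≤ ε := by linarith

end DA91
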