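import Pool.Agent.Lib.MP_e91a1a_an.DA.Stm

/-!
# MP_e91a1a_an, piece A3: the functions of the space are holomorphic on the ball
-/

set_option autoImplicit false

open scoped ComplexConjugate Topology
open Filter

namespace DA91

noncomputable section

private theorem pdf_pow {s t : ℝ} (hs : 0 ≤ s) (hst : s ≤ t) (a : ℕ) :
    (a : ℝ) * s ^ (a - 1) * (t - s) + s ^ a ≤ t ^ a := by
  induction a with
  | zero => simp
  | succ a ih =>
    have h1 : (a : ℝ) * s ^ (a - 1) * s = a * s ^ a := by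
      rcases Nat.eq_zero_or_pos a with h | h
      · subst h; simp
      · have e : s ^ a = s ^ (a - 1) * s := by
          rw [← pow_succ]
          congr 1
          omega
        rw [e]; ring
    have h2 : s ^ a ≤ t ^ a := pow_le_pow_left₀ hs hst a
    have h3 : 0 ≤ t - s := by linarith
    calc ((a + 1 : ℕ) : ℝ) * s ^ (a + 1 - 1) * (t - s) + s ^ (a + 1) =
        s * ((a : ℝ) * s ^ (a - 1) * (t - s) + s ^ a) + s ^ a * (t - s) := by
          rw [Nat.add_sub_cancel]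
          push_cast
          linear_combination (-(t - s)) * h1
      _ ≤ s * t ^ a + t ^ a * (t - s) := by gcongr
      _ = t ^ (a + 1) := by ring

private theorem pdf_pow' {s δ : ℝ} (hs : 0 ≤ s) (hδ : 0 < δ) (a : ℕ) :
    (a : ℝ) * s ^ (a - 1) ≤ (1 / δ) * (s + δ) ^ a := by
  have h := pdf_pow hs (by linarith : s ≤ s + δ) a
  have h2 : 0 ≤ s ^ a := by positivity
  have h3 : (a : ℝ) * s ^ (a - 1) * δ ≤ (s + δ) ^ a := by
    have e : s + δ - s = δ := by ring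
    rw [e] at h
    linarith
  rw [one_div, ← div_eq_inv_mul, le_div_iff₀ hδ]
  exact h3

private theorem pdf_deriv (c : ℂ) (p : ℕ × ℕ) (z : ℂ × ℂ) :
    HasFDerivAt (fun z : ℂ × ℂ => c * z.1 ^ p.1 * z.2 ^ p.2)
      ((c * (p.1 * z.1 ^ (p.1 - 1)) * z.2 ^ p.2) • ContinuousLinearMap.fst ℂ ℂ ℂ +
        (c * z.1 ^ p.1 * (p.2 * z.2 ^ (p.2 - 1))) • ContinuousLinearMap.snd ℂ ℂ ℂ) z := by
  have h1 : HasFDerivAt (fun z : ℂ × ℂ => z.1 ^ p.1)
      ((p.1 * z.1 ^ (p.1 - 1)) • ContinuousLinearMap.fst ℂ ℂ ℂ) z := by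
    have := (hasFDerivAt_fst (𝕜 := ℂ) (E := ℂ) (F := ℂ) (p := z)).pow p.1
    refine this.congr_fderiv ?_
    ext <;> simp
  have h2 : HasFDerivAt (fun z : ℂ × ℂ => z.2 ^ p.2)
      ((p.2 * z.2 ^ (p.2 - 1)) • ContinuousLinearMap.snd ℂ ℂ ℂ) z := by
    have := (hasFDerivAt_snd (𝕜 := ℂ) (E := ℂ) (F := ℂ) (p := z)).pow p.2
    refine this.congr_fderiv ?_
    ext <;> simp
  have h3 := (h1.const_mul c).mul h2
  refine h3.congr_fderiv ?_
  ext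
  · simp
    ring
  · simp

/-- [A3] The functions are holomorphic on the ball. -/
theorem piece_diff (h1 : S_ker) : S_diff := by
  intro F z0 hz0
  apply DifferentiableAt.differentiableWithinAt
  obtain ⟨hmem, _, hsum, _⟩ := h1
  have hz0' : ‖z0.1‖ ^ 2 + ‖z0.2‖ ^ 2 < 1 := hz0
  have n1 := norm_nonneg z0.1
  have n2 := norm_nonneg z0.2
  obtain ⟨δ, hδ, hδ1⟩ : ∃ δ : ℝ, 0 < δ ∧ (‖z0.1‖ + δ + δ) ^ 2 + (‖z0.2‖ + δ + δ) ^ 2 < 1 := by
    refine ⟨(1 - (‖z0.1‖ ^ 2 + ‖z0.2‖ ^ 2)) / 32, by linarith, ?_⟩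
    have m1 : ‖z0.1‖ ≤ 1 := by nlinarith
    have m2 : ‖z0.2‖ ≤ 1 := by nlinarith
    set ρ := ‖z0.1‖ ^ 2 + ‖z0.2‖ ^ 2 with hρ
    have hρ0 : 0 ≤ ρ := by positivity
    have e : (‖z0.1‖ + (1 - ρ) / 32 + (1 - ρ) / 32) ^ 2 + (‖z0.2‖ + (1 - ρ) / 32 + (1 - ρ) / 32) ^ 2 =
        ρ + (1 - ρ) / 8 * (‖z0.1‖ + ‖z0.2‖) + (1 - ρ) ^ 2 / 128 := by
      rw [hρ]; ring
    rw [e]
    nlinarith
  set s1 := ‖z0.1‖ + δ with hs1
  set s2 := ‖z0.2‖ + δ with hs2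
  have hs1p : 0 ≤ s1 := by positivity
  have hs2p : 0 ≤ s2 := by positivity
  set t : ℂ × ℂ := (((s1 + δ : ℝ) : ℂ), ((s2 + δ : ℝ) : ℂ)) with ht
  have hn1 : ‖t.1‖ = s1 + δ := by
    show ‖((s1 + δ : ℝ) : ℂ)‖ = s1 + δ
    rw [Complex.norm_real, Real.norm_of_nonneg (by positivity)]
  have hn2 : ‖t.2‖ = s2 + δ := by
    show ‖((s2 + δ : ℝ) : ℂ)‖ = s2 + δ
    rw [Complex.norm_real, Real.norm_of_nonneg (by positivity)]
  have htB : t ∈ BB := by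
    show ‖t.1‖ ^ 2 + ‖t.2‖ ^ 2 < 1
    rw [hn1, hn2]
    exact hδ1
  have hk : ∀ p, ‖kfun t p‖ = wt p * (s1 + δ) ^ p.1 * (s2 + δ) ^ p.2 := by
    intro p
    have w0 : 0 ≤ wt p := Real.sqrt_nonneg _
    unfold kfun
    rw [Complex.norm_conj, norm_mul, norm_mul, norm_pow, norm_pow, hn1, hn2, Complex.norm_real,
      Real.norm_of_nonneg w0]
  set U : Set (ℂ × ℂ) := Metric.ball 0 s1 ×ˢ Metric.ball 0 s2 with hU
  have hUo : IsOpen U := Metric.isOpen_ball.prod Metric.isOpen_ball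
  have hUc : IsPreconnected U := ((convex_ball (0 : ℂ) s1).prod (convex_ball (0 : ℂ) s2)).isPreconnected
  have hUB : U ⊆ BB := by
    rintro z ⟨hz1, hz2⟩
    rw [mem_ball_zero_iff] at hz1 hz2
    show ‖z.1‖ ^ 2 + ‖z.2‖ ^ 2 < 1
    have a1 : ‖z.1‖ ^ 2 ≤ (s1 + δ) ^ 2 := by
      have := norm_nonneg z.1
      gcongr
      linarith
    have a2 : ‖z.2‖ ^ 2 ≤ (s2 + δ) ^ 2 := by
      have := norm_nonneg z.2
      gcongr
      linarith
    linarith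
  have hz0U : z0 ∈ U := by
    refine ⟨?_, ?_⟩
    · rw [mem_ball_zero_iff]; linarith
    · rw [mem_ball_zero_iff]; linarith
  set f : ℕ × ℕ → ℂ × ℂ → ℂ := fun p z => (F p * wt p) * z.1 ^ p.1 * z.2 ^ p.2 with hf
  set f' : ℕ × ℕ → ℂ × ℂ → (ℂ × ℂ →L[ℂ] ℂ) := fun p z =>
    (((F p * wt p) * (p.1 * z.1 ^ (p.1 - 1)) * z.2 ^ p.2) • ContinuousLinearMap.fst ℂ ℂ ℂ +
        ((F p * wt p) * z.1 ^ p.1 * (p.2 * z.2 ^ (p.2 - 1))) • ContinuousLinearMap.snd ℂ ℂ ℂ) with hf'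
  have hu : Summable (fun p => 2 / δ * (‖F p‖ * ‖kfun t p‖)) := by
    apply Summable.mul_left
    have q1 : Summable fun p => ‖F p‖ ^ (2 : ℝ) := by
      have := (lp.memℓp F).summable (by norm_num)
      simpa using this
    have q2 : Summable fun p => ‖kfun t p‖ ^ (2 : ℝ) := by
      have := (hmem t htB).summable (by norm_num)
      simpa using this
    refine Summable.of_nonneg_of_le (fun p => by positivity) (fun p => ?_) (q1.add q2)
    rw [Real.rpow_two, Real.rpow_two]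
    nlinarith [sq_nonneg (‖F p‖ - ‖kfun t p‖), sq_nonneg (‖F p‖), sq_nonneg (‖kfun t p‖)]
  have hb : ∀ p z, z ∈ U → ‖f' p z‖ ≤ 2 / δ * (‖F p‖ * ‖kfun t p‖) := by
    intro p z hz
    have z1 : ‖z.1‖ ≤ s1 := by have := hz.1; rw [mem_ball_zero_iff] at this; exact this.le
    have z2 : ‖z.2‖ ≤ s2 := by have := hz.2; rw [mem_ball_zero_iff] at this; exact this.le
    have w0 : 0 ≤ wt p := Real.sqrt_nonneg _
    have g1 := pdf_pow' hs1p hδ p.1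
    have g2 := pdf_pow' hs2p hδ p.2
    have g3 : s1 ^ p.1 ≤ (s1 + δ) ^ p.1 := pow_le_pow_left₀ hs1p (by linarith) _
    have g4 : s2 ^ p.2 ≤ (s2 + δ) ^ p.2 := pow_le_pow_left₀ hs2p (by linarith) _
    have e1 : ‖(F p * wt p) * (p.1 * z.1 ^ (p.1 - 1)) * z.2 ^ p.2‖ ≤
        1 / δ * (‖F p‖ * ‖kfun t p‖) := by
      rw [norm_mul, norm_mul, norm_mul, norm_mul, norm_pow, norm_pow, Complex.norm_natCast,
        Complex.norm_real, Real.norm_of_nonneg w0, hk]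
      calc ‖F p‖ * wt p * (p.1 * ‖z.1‖ ^ (p.1 - 1)) * ‖z.2‖ ^ p.2 ≤
          ‖F p‖ * wt p * (p.1 * s1 ^ (p.1 - 1)) * s2 ^ p.2 := by gcongr
        _ ≤ ‖F p‖ * wt p * ((1 / δ) * (s1 + δ) ^ p.1) * (s2 + δ) ^ p.2 := by gcongr
        _ = _ := by ring
    have e2 : ‖(F p * wt p) * z.1 ^ p.1 * (p.2 * z.2 ^ (p.2 - 1))‖ ≤
        1 / δ * (‖F p‖ * ‖kfun t p‖) := by
      rw [norm_mul, norm_mul, norm_mul, norm_mul, norm_pow, norm_pow, Complex.norm_natCast,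
        Complex.norm_real, Real.norm_of_nonneg w0, hk]
      calc ‖F p‖ * wt p * ‖z.1‖ ^ p.1 * (p.2 * ‖z.2‖ ^ (p.2 - 1)) ≤
          ‖F p‖ * wt p * s1 ^ p.1 * (p.2 * s2 ^ (p.2 - 1)) := by gcongr
        _ ≤ ‖F p‖ * wt p * (s1 + δ) ^ p.1 * ((1 / δ) * (s2 + δ) ^ p.2) := by gcongr
        _ = _ := by ring
    have e3 : ‖ContinuousLinearMap.fst ℂ ℂ ℂ‖ ≤ 1 := ContinuousLinearMap.norm_fst_le ..
    have e4 : ‖ContinuousLinearMap.snd ℂ ℂ ℂ‖ ≤ 1 := ContinuousLinearMap.norm_snd_le ..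
    calc ‖f' p z‖ ≤ _ := norm_add_le _ _
      _ ≤ 1 / δ * (‖F p‖ * ‖kfun t p‖) * 1 + 1 / δ * (‖F p‖ * ‖kfun t p‖) * 1 := by
        rw [norm_smul, norm_smul]
        gcongr
      _ = _ := by ring
  have hs0 : Summable (fun p => f p z0) := by
    refine (hsum z0 hz0 F).summable.congr fun p => ?_
    show _ = (F p * wt p) * z0.1 ^ p.1 * z0.2 ^ p.2
    ring
  have key := hasFDerivAt_tsum_of_isPreconnected hu hUo hUc
    (fun p z _ => pdf_deriv (F p * wt p) p z) hb hz0U hs0 hz0U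
  refine key.differentiableAt.congr_of_eventuallyEq ?_
  filter_upwards [hUo.mem_nhds hz0U] with z hz
  rw [← (hsum z (hUB hz) F).tsum_eq]
  refine tsum_congr fun p => ?_
  ring

end

end DA91
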