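import Pool.Agent.Lib.MP_e91a1a_an.DA.Stm

/-!
# MP_e91a1a_an : the elementary automorphism
-/

open scoped ComplexConjugate Topology
open Filter

namespace DA91

noncomputable section

private theorem el_A (w wb s z1 z2 c1 c2 : ℂ) (hs : s * s = 1 - w * wb) (h1 : 1 + wb * z2 ≠ 0)
    (h2 : 1 + w * c2 ≠ 0) :
    s / (1 + wb * z2) * (s / (1 + w * c2)) * (1 - (z1 * c1 + z2 * c2)) =
      1 - ((w + z2) / (1 + wb * z2) * ((wb + c2) / (1 + w * c2)) +
        s * z1 / (1 + wb * z2) * (s * c1 / (1 + w * c2))) := by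
  field_simp
  linear_combination (1 - z2 * c2) * hs

private theorem el_B (w wb s u1 u2 c1 c2 : ℂ) (hs : s * s = 1 - w * wb) (h1 : 1 - wb * u1 ≠ 0)
    (h2 : 1 - w * c1 ≠ 0) :
    s / (1 - wb * u1) * (s / (1 - w * c1)) * (1 - (u1 * c1 + u2 * c2)) =
      1 - (s * u2 / (1 - wb * u1) * (s * c2 / (1 - w * c1)) +
        (u1 - w) / (1 - wb * u1) * ((c1 - wb) / (1 - w * c1))) := by
  field_simp
  linear_combination (1 - u1 * c1) * hs

private theorem el_kip (z : ℂ × ℂ) : kip z z = ((‖z.1‖ ^ 2 + ‖z.2‖ ^ 2 : ℝ) : ℂ) := by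
  unfold kip
  rw [Complex.mul_conj', Complex.mul_conj']
  push_cast
  ring

private theorem el_real {δ : ℂ} {z u : ℂ × ℂ} (h : δ * conj δ * (1 - kip z z) = 1 - kip u u) :
    ‖δ‖ ^ 2 * (1 - (‖z.1‖ ^ 2 + ‖z.2‖ ^ 2)) = 1 - (‖u.1‖ ^ 2 + ‖u.2‖ ^ 2) := by
  rw [el_kip, el_kip, Complex.mul_conj'] at h
  exact_mod_cast h

section
variable {w : ℂ} (hw : ‖w‖ < 1)
include hw

private theorem el_s0 : (sw w : ℂ) ≠ 0 := by
  have h : 0 < sw w := Real.sqrt_pos.2 (by nlinarith [norm_nonneg w])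
  exact_mod_cast h.ne'

private theorem el_ss : (sw w : ℂ) * (sw w : ℂ) = 1 - w * conj w := by
  have h : sw w * sw w = 1 - ‖w‖ ^ 2 := Real.mul_self_sqrt (by nlinarith [norm_nonneg w])
  rw [Complex.mul_conj']
  exact_mod_cast h

private theorem el_ne {c : ℂ} (hc : ‖c‖ ≤ 1) : 1 + conj w * c ≠ 0 := by
  intro h
  have h1 : conj w * c = -1 := by linear_combination h
  have h2 : ‖conj w * c‖ = 1 := by rw [h1]; simp
  rw [norm_mul, RCLike.norm_conj] at h2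
  nlinarith [norm_nonneg w, norm_nonneg c]

private theorem el_ne' {c : ℂ} (hc : ‖c‖ ≤ 1) : 1 - conj w * c ≠ 0 := by
  have h := el_ne hw (c := -c) (by rwa [norm_neg])
  rwa [mul_neg, ← sub_eq_add_neg] at h

omit hw in
private theorem el_K1 {z : ℂ × ℂ} (hz : z ∈ KK) : ‖z.1‖ ≤ 1 := by
  have hz : ‖z.1‖ ^ 2 + ‖z.2‖ ^ 2 ≤ 1 := hz
  nlinarith [norm_nonneg z.1, norm_nonneg z.2]

omit hw in
private theorem el_K2 {z : ℂ × ℂ} (hz : z ∈ KK) : ‖z.2‖ ≤ 1 := by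
  have hz : ‖z.1‖ ^ 2 + ‖z.2‖ ^ 2 ≤ 1 := hz
  nlinarith [norm_nonneg z.1, norm_nonneg z.2]

private theorem el_gram {z ζ : ℂ × ℂ} (hz : z ∈ KK) (hζ : ζ ∈ KK) :
    dlw w z * conj (dlw w ζ) * (1 - kip z ζ) = 1 - kip (Phw w z) (Phw w ζ) := by
  have h1 := el_ne hw (el_K2 hz)
  have h2 := el_ne hw (el_K2 hζ)
  have h2' : 1 + w * conj ζ.2 ≠ 0 := by
    have h3 := (map_ne_zero (starRingEnd ℂ)).2 h2
    simpa using h3
  have h := el_A w (conj w) (sw w) z.1 z.2 (conj ζ.1) (conj ζ.2) (el_ss hw) h1 h2'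
  unfold dlw kip Phw
  simp only [map_div₀, map_mul, map_add, map_one, Complex.conj_conj, Complex.conj_ofReal]
  rw [h]

private theorem el_gram' {z : ℂ × ℂ} (hz : z ∈ KK) :
    ((sw w : ℂ) / (1 - conj w * z.1)) * conj ((sw w : ℂ) / (1 - conj w * z.1)) * (1 - kip z z) =
      1 - kip (Psw w z) (Psw w z) := by
  have h1 := el_ne' hw (el_K1 hz)
  have h2' : 1 - w * conj z.1 ≠ 0 := by
    have h3 := (map_ne_zero (starRingEnd ℂ)).2 h1
    simpa using h3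
  have h := el_B w (conj w) (sw w) z.1 z.2 (conj z.1) (conj z.2) (el_ss hw) h1 h2'
  unfold kip Psw
  simp only [map_div₀, map_mul, map_sub, map_one, Complex.conj_conj, Complex.conj_ofReal]
  rw [h]

omit hw in
private theorem el_BK {z : ℂ × ℂ} (hz : z ∈ BB) : z ∈ KK := by
  have hz : ‖z.1‖ ^ 2 + ‖z.2‖ ^ 2 < 1 := hz
  exact hz.le

private theorem el_linv {z : ℂ × ℂ} (hz : z ∈ KK) : Psw w (Phw w z) = z := by
  have h1 := el_ne hw (el_K2 hz)
  have hs := el_ss hw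
  have hs0 := el_s0 hw
  have hss : (1 : ℂ) - w * conj w ≠ 0 := by rw [← hs]; exact mul_ne_zero hs0 hs0
  have e1 : 1 - conj w * ((w + z.2) / (1 + conj w * z.2)) =
      (1 - w * conj w) / (1 + conj w * z.2) := by
    rw [eq_div_iff h1, sub_mul, mul_assoc, div_mul_cancel₀ _ h1]
    ring
  have e2 : (w + z.2) / (1 + conj w * z.2) - w = (1 - w * conj w) * z.2 / (1 + conj w * z.2) := by
    rw [eq_div_iff h1, sub_mul, div_mul_cancel₀ _ h1]
    ring
  unfold Psw Phw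
  apply Prod.ext
  · change (sw w : ℂ) * ((sw w : ℂ) * z.1 / (1 + conj w * z.2)) /
      (1 - conj w * ((w + z.2) / (1 + conj w * z.2))) = z.1
    rw [e1, ← hs]
    field_simp
  · change ((w + z.2) / (1 + conj w * z.2) - w) /
      (1 - conj w * ((w + z.2) / (1 + conj w * z.2))) = z.2
    rw [e1, e2, ← hs, div_div_div_cancel_right₀ h1, mul_div_cancel_left₀ _ (mul_ne_zero hs0 hs0)]

private theorem el_rinv {z : ℂ × ℂ} (hz : z ∈ KK) : Phw w (Psw w z) = z := by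
  have h1 := el_ne' hw (el_K1 hz)
  have hs := el_ss hw
  have hs0 := el_s0 hw
  have e1 : 1 + conj w * ((z.1 - w) / (1 - conj w * z.1)) =
      (1 - w * conj w) / (1 - conj w * z.1) := by
    rw [eq_div_iff h1, add_mul, mul_assoc, div_mul_cancel₀ _ h1]
    ring
  have e2 : w + (z.1 - w) / (1 - conj w * z.1) = (1 - w * conj w) * z.1 / (1 - conj w * z.1) := by
    rw [eq_div_iff h1, add_mul, div_mul_cancel₀ _ h1]
    ring
  unfold Psw Phw
  apply Prod.ext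
  · change (w + (z.1 - w) / (1 - conj w * z.1)) /
      (1 + conj w * ((z.1 - w) / (1 - conj w * z.1))) = z.1
    rw [e1, e2, ← hs, div_div_div_cancel_right₀ h1, mul_div_cancel_left₀ _ (mul_ne_zero hs0 hs0)]
  · change (sw w : ℂ) * ((sw w : ℂ) * z.2 / (1 - conj w * z.1)) /
      (1 + conj w * ((z.1 - w) / (1 - conj w * z.1))) = z.2
    rw [e1, ← hs]
    field_simp

end

theorem piece_elem : S_elem := by
  intro w hw
  have c1 : ContinuousOn (fun z : ℂ × ℂ => z.1) KK := continuous_fst.continuousOn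
  have c2 : ContinuousOn (fun z : ℂ × ℂ => z.2) KK := continuous_snd.continuousOn
  have d1 : DifferentiableOn ℂ (fun z : ℂ × ℂ => z.1) BB := differentiable_fst.differentiableOn
  have d2 : DifferentiableOn ℂ (fun z : ℂ × ℂ => z.2) BB := differentiable_snd.differentiableOn
  refine ⟨⟨Phw w, Psw w, dlw w, ?_, ?_, ?_, ?_, fun z hz => el_linv hw hz,
    fun z hz => el_rinv hw hz, ?_, ?_, ?_, ?_, fun z hz ζ hζ => el_gram hw (el_BK hz) (el_BK hζ)⟩,
    rfl, rfl, rfl⟩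
  · intro z hz
    have h := el_real (el_gram hw hz hz)
    have hz' : ‖z.1‖ ^ 2 + ‖z.2‖ ^ 2 ≤ 1 := hz
    have h2 : 0 ≤ ‖dlw w z‖ ^ 2 * (1 - (‖z.1‖ ^ 2 + ‖z.2‖ ^ 2)) :=
      mul_nonneg (sq_nonneg _) (by linarith)
    change ‖(Phw w z).1‖ ^ 2 + ‖(Phw w z).2‖ ^ 2 ≤ 1
    linarith
  · intro z hz
    have h := el_real (el_gram' hw hz)
    have hz' : ‖z.1‖ ^ 2 + ‖z.2‖ ^ 2 ≤ 1 := hz
    have h2 : 0 ≤ ‖(sw w : ℂ) / (1 - conj w * z.1)‖ ^ 2 * (1 - (‖z.1‖ ^ 2 + ‖z.2‖ ^ 2)) :=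
      mul_nonneg (sq_nonneg _) (by linarith)
    change ‖(Psw w z).1‖ ^ 2 + ‖(Psw w z).2‖ ^ 2 ≤ 1
    linarith
  · intro z hz
    have h := el_real (el_gram hw (el_BK hz) (el_BK hz))
    have hz' : ‖z.1‖ ^ 2 + ‖z.2‖ ^ 2 < 1 := hz
    have h0 : dlw w z ≠ 0 := div_ne_zero (el_s0 hw) (el_ne hw (el_K2 (el_BK hz)))
    have h2 : 0 < ‖dlw w z‖ ^ 2 * (1 - (‖z.1‖ ^ 2 + ‖z.2‖ ^ 2)) :=
      mul_pos (pow_pos (norm_pos_iff.2 h0) 2) (by linarith)
    change ‖(Phw w z).1‖ ^ 2 + ‖(Phw w z).2‖ ^ 2 < 1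
    linarith
  · intro z hz
    have h := el_real (el_gram' hw (el_BK hz))
    have hz' : ‖z.1‖ ^ 2 + ‖z.2‖ ^ 2 < 1 := hz
    have h0 : (sw w : ℂ) / (1 - conj w * z.1) ≠ 0 :=
      div_ne_zero (el_s0 hw) (el_ne' hw (el_K1 (el_BK hz)))
    have h2 : 0 < ‖(sw w : ℂ) / (1 - conj w * z.1)‖ ^ 2 * (1 - (‖z.1‖ ^ 2 + ‖z.2‖ ^ 2)) :=
      mul_pos (pow_pos (norm_pos_iff.2 h0) 2) (by linarith)
    change ‖(Psw w z).1‖ ^ 2 + ‖(Psw w z).2‖ ^ 2 < 1
    linarith
  · have hd : ContinuousOn (fun z : ℂ × ℂ => 1 + conj w * z.2) KK :=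
      continuousOn_const.add (continuousOn_const.mul c2)
    exact ((continuousOn_const.add c2).div hd fun z hz => el_ne hw (el_K2 hz)).prodMk
      ((continuousOn_const.mul c1).div hd fun z hz => el_ne hw (el_K2 hz))
  · have hd : ContinuousOn (fun z : ℂ × ℂ => 1 - conj w * z.1) KK :=
      continuousOn_const.sub (continuousOn_const.mul c1)
    exact ((continuousOn_const.mul c2).div hd fun z hz => el_ne' hw (el_K1 hz)).prodMk
      ((c1.sub continuousOn_const).div hd fun z hz => el_ne' hw (el_K1 hz))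
  · have hd : ContinuousOn (fun z : ℂ × ℂ => 1 + conj w * z.2) KK :=
      continuousOn_const.add (continuousOn_const.mul c2)
    exact continuousOn_const.div hd fun z hz => el_ne hw (el_K2 hz)
  · have hd : DifferentiableOn ℂ (fun z : ℂ × ℂ => 1 + conj w * z.2) BB :=
      (differentiableOn_const _).add ((differentiableOn_const _).mul d2)
    have hi : DifferentiableOn ℂ (fun z : ℂ × ℂ => (1 + conj w * z.2)⁻¹) BB :=
      hd.inv fun z hz => el_ne hw (el_K2 (el_BK hz))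
    have h := (((differentiableOn_const w).add d2).mul hi).prodMk
      (((differentiableOn_const (sw w : ℂ)).mul d1).mul hi)
    refine h.congr fun z _ => ?_
    simp only [Phw, div_eq_mul_inv]
    rfl

end

end DA91
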