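import Pool.Agent.Lib.MP_e91a1a_an.DA.Stm3

/-!
# MP_e91a1a_an : elementary facts on multipliers
-/

open scoped ComplexConjugate Topology ComplexOrder
open Filter DruryArveson

namespace DA91

private theorem elemMul_one (d : ℕ) (H : Type) [NormedAddCommGroup H] [InnerProductSpace ℂ H]
    [CompleteSpace H] [RKHS ℂ H (Ball d) ℂ] (hH : IsDruryArveson d H) : ∃ I : H, ∀ z, I z = 1 := by
  refine ⟨RKHS.kerFun H (⟨0, by simp⟩ : Ball d) 1, fun z => ?_⟩
  rw [RKHS.kerFun_apply, hH]
  simp

private theorem elemMul_inner (d : ℕ) (H : Type) [NormedAddCommGroup H] [InnerProductSpace ℂ H]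
    [CompleteSpace H] [RKHS ℂ H (Ball d) ℂ] (z : Ball d) (f : H) :
    inner ℂ (RKHS.kerFun H z 1) f = f z := by
  rw [RKHS.kerFun_inner]
  simp

theorem piece_elemMul : S_elemMul := by
  intro d H _ _ _ _ hH
  obtain ⟨I, hI⟩ := elemMul_one d H hH
  refine ⟨⟨I, hI⟩, ?_, ?_, ?_⟩
  · rintro m ⟨_, hm⟩ z hz
    have hcl : IsClosed {f : H | f z = 0} :=
      isClosed_eq (RKHS.continuous_eval z) continuous_const
    have hsub : {g : H | ∃ f : H, ∀ z, g z = m z * f z} ⊆ {f : H | f z = 0} := by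
      rintro g ⟨f, hf⟩
      change g z = 0
      rw [hf z, hz, zero_mul]
    have h1 : closure {g : H | ∃ f : H, ∀ z, g z = m z * f z} ⊆ {f : H | f z = 0} :=
      closure_minimal hsub hcl
    rw [hm.closure_eq] at h1
    have h2 : I z = 0 := h1 (Set.mem_univ I)
    rw [hI z] at h2
    exact one_ne_zero h2
  · rintro m C _ ⟨hm, hmC⟩ z
    obtain ⟨g, hg⟩ := hm (RKHS.kerFun H z 1)
    have h1 := hmC _ g hg
    have h2 : g z = m z * (RKHS.kerFun H z 1) z := hg z
    have h3 := elemMul_inner d H z g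
    have h4 := elemMul_inner d H z (RKHS.kerFun H z 1)
    set k : H := RKHS.kerFun H z 1 with hk
    have h5 : k z = ((‖k‖ ^ 2 : ℝ) : ℂ) := by
      rw [← h4, inner_self_eq_norm_sq_to_K]
      norm_cast
    have hkpos : 0 < ‖k‖ := by
      rw [norm_pos_iff]
      intro h0
      have h6 := elemMul_inner d H z I
      rw [← hk, h0, inner_zero_left, hI z] at h6
      exact zero_ne_one h6
    have h7 : ‖g z‖ ≤ ‖k‖ * ‖g‖ := by
      rw [← h3]
      exact norm_inner_le_norm k g
    rw [h2, norm_mul, h5, Complex.norm_real, Real.norm_of_nonneg (by positivity)] at h7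
    have h8 : ‖m z‖ * ‖k‖ ^ 2 ≤ C * ‖k‖ ^ 2 := by
      calc ‖m z‖ * ‖k‖ ^ 2 ≤ ‖k‖ * ‖g‖ := h7
        _ ≤ ‖k‖ * (C * ‖k‖) := mul_le_mul_of_nonneg_left h1 hkpos.le
        _ = C * ‖k‖ ^ 2 := by ring
    exact le_of_mul_le_mul_right h8 (by positivity)
  · intro m hm
    choose T hT using hm
    let L : H →ₗ[ℂ] H :=
      { toFun := T
        map_add' := fun f g => RKHS.ext fun z => by
          rw [hT, RKHS.coe_add, RKHS.coe_add, Pi.add_apply, Pi.add_apply, hT, hT, mul_add]
        map_smul' := fun c f => RKHS.ext fun z => by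
          rw [hT, RKHS.coe_smul, RingHom.id_apply, RKHS.coe_smul, Pi.smul_apply, Pi.smul_apply,
            hT, smul_eq_mul, smul_eq_mul]
          ring }
    have hcont : Continuous L := by
      refine L.continuous_of_seq_closed_graph fun u x y hu hLu => ?_
      refine RKHS.ext fun z => ?_
      have h1 : Tendsto (fun n => (L (u n)) z) atTop (𝓝 (y z)) :=
        ((RKHS.continuous_eval z).tendsto y).comp hLu
      have h2 : Tendsto (fun n => (L (u n)) z) atTop (𝓝 ((L x) z)) := by
        have h3 : ∀ f : H, (L f) z = m z * f z := fun f => hT f z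
        simp only [h3]
        exact (((RKHS.continuous_eval z).tendsto x).comp hu).const_mul _
      exact tendsto_nhds_unique h1 h2
    refine ⟨‖(⟨L, hcont⟩ : H →L[ℂ] H)‖, norm_nonneg _, fun f => ⟨T f, hT f⟩, fun f g hg => ?_⟩
    have h1 : g = (⟨L, hcont⟩ : H →L[ℂ] H) f := RKHS.ext fun z => by
      rw [hg z]
      exact (hT f z).symm
    rw [h1]
    exact ContinuousLinearMap.le_opNorm _ _

end DA91
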