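import Pool.Agent.Lib.MP_e91a1a_an.DA.Stm3

/-!
# MP_e91a1a_an : piece F5, the isometric embedding of the model into `H²_d`
-/

open scoped ComplexConjugate Topology ComplexOrder
open Filter DruryArveson

namespace DA91

noncomputable section

private theorem em_dense (h2 : S_inj) :
    DenseRange (Finsupp.linearCombination ℂ (fun z : BB => ker z.1)) := by
  have h1 : (Submodule.span ℂ (Set.range fun z : BB => ker z.1)).topologicalClosure = ⊤ := by
    rw [Submodule.topologicalClosure_eq_top_iff, Submodule.eq_bot_iff]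
    intro F hF
    refine h2 F fun z hz => ?_
    exact (Submodule.mem_orthogonal _ _).1 hF (ker z) (Submodule.subset_span ⟨⟨z, hz⟩, rfl⟩)
  intro x
  have h3 : Set.range (Finsupp.linearCombination ℂ (fun z : BB => ker z.1)) =
      ((Submodule.span ℂ (Set.range fun z : BB => ker z.1) : Submodule ℂ HH) : Set HH) := by
    rw [← Finsupp.range_linearCombination]
    rfl
  rw [h3, ← Submodule.topologicalClosure_coe, h1]
  exact Set.mem_univ _

private theorem em_inner {H : Type} [NormedAddCommGroup H] [InnerProductSpace ℂ H]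
    {ξ : ℂ × ℂ → H}
    (h : ∀ z ∈ BB, ∀ w ∈ BB, inner ℂ (ξ z) (ξ w) = inner ℂ (ker z) (ker w)) (c d : BB →₀ ℂ) :
    inner ℂ (Finsupp.linearCombination ℂ (fun z : BB => ξ z.1) c)
      (Finsupp.linearCombination ℂ (fun z : BB => ξ z.1) d) =
    inner ℂ (Finsupp.linearCombination ℂ (fun z : BB => ker z.1) c)
      (Finsupp.linearCombination ℂ (fun z : BB => ker z.1) d) := by
  induction c using Finsupp.induction_linear with
  | zero => simp only [map_zero, inner_zero_left]
  | add c c' hc hc' => rw [map_add, map_add, inner_add_left, inner_add_left, hc, hc']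
  | single z a =>
    rw [Finsupp.linearCombination_single, Finsupp.linearCombination_single, inner_smul_left,
      inner_smul_left]
    congr 1
    induction d using Finsupp.induction_linear with
    | zero => simp only [map_zero, inner_zero_right]
    | add c c' hc hc' => rw [map_add, map_add, inner_add_right, inner_add_right, hc, hc']
    | single w b =>
      rw [Finsupp.linearCombination_single, Finsupp.linearCombination_single, inner_smul_right,
        inner_smul_right, h z.1 z.2 w.1 w.2]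

private theorem em_iso (h2 : S_inj) {H : Type} [NormedAddCommGroup H] [InnerProductSpace ℂ H]
    [CompleteSpace H] (ξ : ℂ × ℂ → H)
    (h : ∀ z ∈ BB, ∀ w ∈ BB, inner ℂ (ξ z) (ξ w) = inner ℂ (ker z) (ker w)) :
    ∃ W : HH →L[ℂ] H, (∀ x, ‖W x‖ = ‖x‖) ∧ ∀ z ∈ BB, W (ker z) = ξ z := by
  have hd := em_dense h2
  have hn : ∀ c : BB →₀ ℂ, ‖Finsupp.linearCombination ℂ (fun z : BB => ξ z.1) c‖ =
      ‖Finsupp.linearCombination ℂ (fun z : BB => ker z.1) c‖ := by
    intro c
    have h3 := em_inner h c c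
    rw [inner_self_eq_norm_sq_to_K, inner_self_eq_norm_sq_to_K] at h3
    have h4 : ‖Finsupp.linearCombination ℂ (fun z : BB => ξ z.1) c‖ ^ 2 =
        ‖Finsupp.linearCombination ℂ (fun z : BB => ker z.1) c‖ ^ 2 := by
      exact_mod_cast h3
    exact (sq_eq_sq₀ (norm_nonneg _) (norm_nonneg _)).1 h4
  have hb : ∀ c : BB →₀ ℂ, ‖Finsupp.linearCombination ℂ (fun z : BB => ξ z.1) c‖ ≤
      1 * ‖Finsupp.linearCombination ℂ (fun z : BB => ker z.1) c‖ := by
    intro c
    rw [hn c, one_mul]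
  let W : HH →L[ℂ] H := (Finsupp.linearCombination ℂ (fun z : BB => ξ z.1)).extendOfNorm
    (Finsupp.linearCombination ℂ (fun z : BB => ker z.1))
  have hW : ∀ c : BB →₀ ℂ, W (Finsupp.linearCombination ℂ (fun z : BB => ker z.1) c) =
      Finsupp.linearCombination ℂ (fun z : BB => ξ z.1) c := fun c =>
    LinearMap.extendOfNorm_eq hd ⟨1, hb⟩ c
  have hiso : ∀ x : HH, ‖W x‖ = ‖x‖ := by
    intro x
    refine hd.induction_on (p := fun x => ‖W x‖ = ‖x‖) x ?_ ?_
    · exact isClosed_eq W.continuous.norm continuous_norm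
    · intro c
      rw [hW c, hn c]
  refine ⟨W, hiso, fun z hz => ?_⟩
  have h5 := hW (Finsupp.single ⟨z, hz⟩ 1)
  rw [Finsupp.linearCombination_single, Finsupp.linearCombination_single, one_smul,
    one_smul] at h5
  exact h5

private theorem em_norm (k : ℕ) (w : ℂ × ℂ) : ‖emb (k + 2) w‖ ^ 2 = ‖w.1‖ ^ 2 + ‖w.2‖ ^ 2 := by
  rw [EuclideanSpace.norm_sq_eq, Fin.sum_univ_succ, Fin.sum_univ_succ]
  unfold emb
  simp

private theorem em_pr_norm (k : ℕ) (z : EuclideanSpace ℂ (Fin (k + 2))) :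
    ‖z 0‖ ^ 2 + ‖z 1‖ ^ 2 ≤ ‖z‖ ^ 2 := by
  rw [EuclideanSpace.norm_sq_eq, Fin.sum_univ_succ, Fin.sum_univ_succ]
  have : 0 ≤ ∑ i : Fin k, ‖z i.succ.succ‖ ^ 2 := Finset.sum_nonneg fun i _ => sq_nonneg _
  have e : z (Fin.succ 0) = z 1 := rfl
  rw [e]
  linarith

private theorem em_kip (k : ℕ) (w : ℂ × ℂ) (z : EuclideanSpace ℂ (Fin (k + 2))) :
    inner ℂ (emb (k + 2) w) z = kip (z 0, z 1) w := by
  rw [PiLp.inner_apply, Fin.sum_univ_succ, Fin.sum_univ_succ]
  unfold emb kip
  simp

theorem piece_embed (h1 : S_ker) (h2 : S_inj) : S_embed := by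
  intro d hd H _ _ _ _ hH
  obtain ⟨k, rfl⟩ : ∃ k, d = k + 2 := ⟨d - 2, by omega⟩
  have hpr : ∀ z : EuclideanSpace ℂ (Fin (k + 2)), pr hd z = (z 0, z 1) := fun z => rfl
  have e1 : ∀ w ∈ BB, emb (k + 2) w ∈ Metric.ball (0 : EuclideanSpace ℂ (Fin (k + 2))) 1 := by
    intro w hw
    rw [mem_ball_zero_iff]
    have h3 : ‖w.1‖ ^ 2 + ‖w.2‖ ^ 2 < 1 := hw
    rw [← em_norm] at h3
    have h4 := norm_nonneg (emb (k + 2) w)
    nlinarith
  have e2 : ∀ z : Ball (k + 2), pr hd z ∈ BB := by
    intro z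
    have h3 : ‖(z : EuclideanSpace ℂ (Fin (k + 2)))‖ < 1 := by
      have := z.2
      rwa [mem_ball_zero_iff] at this
    have h4 := em_pr_norm k z
    show ‖(z : EuclideanSpace ℂ (Fin (k + 2))) 0‖ ^ 2 +
      ‖(z : EuclideanSpace ℂ (Fin (k + 2))) 1‖ ^ 2 < 1
    have h5 := norm_nonneg (z : EuclideanSpace ℂ (Fin (k + 2)))
    nlinarith
  have e3 : ∀ w : ℂ × ℂ, pr hd (emb (k + 2) w) = w := by
    intro w
    rw [hpr]
    unfold emb
    simp
  classical
  let ξ : ℂ × ℂ → H := fun w =>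
    if h : emb (k + 2) w ∈ Metric.ball (0 : EuclideanSpace ℂ (Fin (k + 2))) 1 then
      RKHS.kerFun H (⟨emb (k + 2) w, h⟩ : Ball (k + 2)) 1 else 0
  have hξ : ∀ w (hw : emb (k + 2) w ∈ Metric.ball (0 : EuclideanSpace ℂ (Fin (k + 2))) 1),
      ξ w = RKHS.kerFun H (⟨emb (k + 2) w, hw⟩ : Ball (k + 2)) 1 := by
    intro w hw
    exact dif_pos hw
  have hval : ∀ (f : H) (x : Ball (k + 2)), inner ℂ (RKHS.kerFun H x 1) f = f x := by
    intro f x
    rw [RKHS.kerFun_inner]
    simp
  have hξz : ∀ w ∈ BB, ∀ z : Ball (k + 2), (ξ w) z = 1 / (1 - kip (pr hd z) w) := by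
    intro w hw z
    rw [hξ w (e1 w hw), RKHS.kerFun_apply, hH, hpr]
    show 1 / (1 - inner ℂ (emb (k + 2) w) (z : EuclideanSpace ℂ (Fin (k + 2)))) = _
    rw [em_kip]
  obtain ⟨W, hW, hWk⟩ := em_iso h2 ξ (by
    intro z hz w hw
    rw [hξ z (e1 z hz), hval, hξz w hw, h1.2.1 z hz w hw, e3])
  refine ⟨e1, e2, e3, fun F => ⟨W F, hW F, fun z => ?_⟩, fun f =>
    ⟨ContinuousLinearMap.adjoint W f, fun w hw hw' => ?_⟩⟩
  · refine (em_dense h2).induction_on
      (p := fun F => (W F) z = ev F (pr hd z)) F ?_ ?_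
    · refine isClosed_eq ?_ ?_
      · exact (RKHS.continuous_eval z).comp W.continuous
      · unfold ev
        fun_prop
    · intro c
      induction c using Finsupp.induction_linear with
      | zero =>
        rw [map_zero, map_zero, RKHS.coe_zero]
        unfold ev
        rw [inner_zero_right]
        rfl
      | add c c' hc hc' =>
        rw [map_add, map_add, RKHS.coe_add, Pi.add_apply, hc, hc']
        unfold ev
        rw [inner_add_right]
      | single x a =>
        rw [Finsupp.linearCombination_single, map_smul, RKHS.coe_smul, Pi.smul_apply,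
          hWk x.1 x.2, hξz x.1 x.2]
        unfold ev
        rw [inner_smul_right, h1.2.1 _ (e2 z) _ x.2]
        rfl
  · show inner ℂ (ker w) (ContinuousLinearMap.adjoint W f) = _
    rw [ContinuousLinearMap.adjoint_inner_right, hWk w hw, hξ w hw', hval]

end

end DA91
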