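import Pool.Agent.Lib.MP_e91a1a_an.DA.Stm3

/-!
# MP_e91a1a_an : existence of the Drury-Arveson space as an `RKHS`
-/

open scoped ComplexConjugate Topology ComplexOrder
open Filter DruryArveson

namespace DA91

noncomputable section

/-- the operator valued kernel -/
private def exK (d : ℕ) : Matrix (Ball d) (Ball d) (ℂ →L[ℂ] ℂ) :=
  Matrix.of fun z w => Kd d z w • (1 : ℂ →L[ℂ] ℂ)

private theorem exK_psd (h1 : S_psd) (d : ℕ) : (exK d).PosSemidef := by
  have h := (h1 d).1
  have hH : ∀ z w, conj (Kd d w z) = Kd d z w := by
    intro z w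
    have := h.1.apply z w
    simpa using this
  have key := (RKHS.posSemidef_tfae (K := exK d)).out 0 2
  refine key.2 ⟨?_, fun vv => ?_⟩
  · ext z w
    simp only [Matrix.conjTranspose_apply, exK, Matrix.of_apply]
    rw [star_smul, star_one]
    simp only [RCLike.star_def, hH]
  · have h2 := h.2 vv
    have h3 : (vv.sum fun x w => vv.sum fun x' w' => inner ℂ (exK d x' x w) w') =
        vv.sum fun i xi => vv.sum fun j xj => star xi * (Matrix.of (Kd d)) i j * xj := by
      refine Finsupp.sum_congr fun x _ => Finsupp.sum_congr fun x' _ => ?_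
      simp only [exK, Matrix.of_apply, RCLike.inner_apply, RCLike.star_def]
      rw [← hH x x']
      simp only [smul_apply, one_apply_eq_self, smul_eq_mul,
        map_mul]
      ring
    rw [h3]
    exact (Complex.le_def.1 h2).1

theorem piece_exists (h1 : S_psd) : S_exists := by
  intro d
  have : Fact (exK d).PosSemidef := ⟨exK_psd h1 d⟩
  refine ⟨RKHS.OfKernel (exK d), inferInstance, inferInstance, inferInstance, inferInstance, ?_⟩
  intro z w
  rw [RKHS.OfKernel.kernel_ofKernel]
  simp only [exK, Matrix.of_apply, smul_apply, one_apply_eq_self,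
    smul_eq_mul, mul_one, Kd]

end

end DA91
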