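import Pool.Agent.Lib.MP_e91a1a_an.DA.Stm2

open scoped ComplexConjugate Topology
open Filter

namespace DA91

noncomputable section

private lemma geo_psi_bound {r q : ℝ} (hr : 0 < r) (hr1 : r < 1) (hq1 : q ≤ 1) {w : ℂ} (hw : ‖w‖ ≤ q) :
    ‖psi r w‖ ≤ 2 * q / (1 - r) := by
  have hq0 : 0 ≤ q := (norm_nonneg _).trans hw
  have h1 : ‖(2 * (r : ℂ) * w)‖ ≤ 2 * q := by
    rw [norm_mul, norm_mul]
    have h2 : ‖(2 : ℂ)‖ = 2 := by norm_num
    have h3 : ‖(r : ℂ)‖ = r := by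
      rw [Complex.norm_real, Real.norm_of_nonneg hr.le]
    rw [h2, h3]
    nlinarith [norm_nonneg w, mul_le_mul hr1.le hw (norm_nonneg _) zero_le_one]
  have h4 : 1 - r ≤ ‖(1 - (r : ℂ) * w)‖ := by
    have h5 : ‖(r : ℂ) * w‖ ≤ r := by
      rw [norm_mul, Complex.norm_real, Real.norm_of_nonneg hr.le]
      nlinarith [norm_nonneg w]
    have h6 := norm_sub_norm_le (1 : ℂ) ((r : ℂ) * w)
    rw [norm_one] at h6
    linarith
  unfold psi
  rw [norm_div]
  have h7 : 0 < 1 - r := by linarith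
  exact div_le_div₀ (by positivity) h1 h7 h4

private lemma geo_prod_bound {κ : Type} (s : Finset κ) (x b : κ → ℝ) (hx0 : ∀ i ∈ s, 0 ≤ x i)
    (hx1 : ∀ i ∈ s, x i ≤ 1) (hb : ∀ i ∈ s, 1 - x i ≤ b i) :
    1 - ∑ i ∈ s, x i ≤ ∏ i ∈ s, b i := by
  classical
  induction s using Finset.induction_on with
  | empty => simp
  | insert i s hi ih =>
    rw [Finset.sum_insert hi, Finset.prod_insert hi]
    have ih' := ih (fun j hj => hx0 j (Finset.mem_insert_of_mem hj))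
      (fun j hj => hx1 j (Finset.mem_insert_of_mem hj)) (fun j hj => hb j (Finset.mem_insert_of_mem hj))
    have hi0 := hx0 i (Finset.mem_insert_self _ _)
    have hi1 := hx1 i (Finset.mem_insert_self _ _)
    have hib := hb i (Finset.mem_insert_self _ _)
    have hs0 : 0 ≤ ∑ j ∈ s, x j := Finset.sum_nonneg (fun j hj => hx0 j (Finset.mem_insert_of_mem hj))
    have hP0 : 0 ≤ ∏ j ∈ s, b j := by
      apply Finset.prod_nonneg
      intro j hj
      have h1 := hx1 j (Finset.mem_insert_of_mem hj)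
      have h2 := hb j (Finset.mem_insert_of_mem hj)
      linarith
    have e1 : (1 - x i) * ∏ j ∈ s, b j ≤ b i * ∏ j ∈ s, b j := mul_le_mul_of_nonneg_right hib hP0
    have e2 : (1 - x i) * (1 - ∑ j ∈ s, x j) ≤ (1 - x i) * ∏ j ∈ s, b j :=
      mul_le_mul_of_nonneg_left ih' (by linarith)
    nlinarith [mul_nonneg hi0 hs0]

private lemma geo_sup {κ : Type} [Fintype κ] (f : κ → ℝ) (hf : ∀ i, f i < 1) (R' : ℝ) (hR0 : 0 ≤ R') (hR1 : R' < 1) :
    ∃ R : ℝ, R' ≤ R ∧ R < 1 ∧ ∀ i, f i ≤ R ^ 2 := by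
  classical
  suffices h : ∀ s : Finset κ, ∃ R : ℝ, R' ≤ R ∧ R < 1 ∧ ∀ i ∈ s, f i ≤ R ^ 2 by
    obtain ⟨R, h1, h2, h3⟩ := h Finset.univ
    exact ⟨R, h1, h2, fun i => h3 i (Finset.mem_univ _)⟩
  intro s
  induction s using Finset.induction_on with
  | empty => exact ⟨R', le_rfl, hR1, by simp⟩
  | insert i s hi ih =>
    obtain ⟨R, h1, h2, h3⟩ := ih
    refine ⟨max R (Real.sqrt (max (f i) 0)), h1.trans (le_max_left _ _), ?_, ?_⟩
    · apply max_lt h2
      rw [Real.sqrt_lt' one_pos]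
      simpa using (hf i)
    · intro j hj
      have hRn : 0 ≤ R := hR0.trans h1
      rcases Finset.mem_insert.1 hj with rfl | hj
      · calc f j ≤ max (f j) 0 := le_max_left _ _
          _ = (Real.sqrt (max (f j) 0)) ^ 2 := (Real.sq_sqrt (le_max_right _ _)).symm
          _ ≤ _ := by
            apply pow_le_pow_left₀ (Real.sqrt_nonneg _)
            exact le_max_right _ _
      · calc f j ≤ R ^ 2 := h3 j hj
          _ ≤ _ := by
            apply pow_le_pow_left₀ hRn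
            exact le_max_left _ _

private lemma geo_mul_pow (hA : S_mulAlg) {m : ℂ × ℂ → ℂ} (hm : Mul m 1) (n : ℕ) : Mul (fun z => m z ^ n) 1 := by
  induction n with
  | zero =>
    have h := hA.1 1
    rw [norm_one] at h
    simpa using h
  | succ n ih =>
    have h := hA.2.1 _ _ 1 1 ih hm zero_le_one zero_le_one
    rw [mul_one] at h
    refine hA.2.2.2.1 _ _ 1 h ?_
    intro z _
    exact (pow_succ _ _).symm

private lemma geo_mul_sum (hA : S_mulAlg) {κ : Type} (s : Finset κ) (m : κ → ℂ × ℂ → ℂ) (C : ℝ) (hC : 0 ≤ C)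
    (hm : ∀ j, Mul (m j) C) : ∃ C' : ℝ, 0 ≤ C' ∧ Mul (fun z => ∑ j ∈ s, m j z) C' := by
  classical
  induction s using Finset.induction_on with
  | empty =>
    refine ⟨0, le_rfl, ?_⟩
    have h := hA.1 0
    rw [norm_zero] at h
    simpa using h
  | insert i s hi ih =>
    obtain ⟨C', hC', h⟩ := ih
    refine ⟨C + C', by positivity, ?_⟩
    have h2 := hA.2.2.1 _ _ _ _ (hm i) h
    refine hA.2.2.2.1 _ _ _ h2 ?_
    intro z _
    rw [Finset.sum_insert hi]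

private lemma geo_mul_next (hY : S_mulY) (hA : S_mulAlg) (hE : S_mulExp) (S : Stage) (hS : S.Good) (a r : ℝ)
    (hr : 0 < r) (hr1 : r < 1) (n : S.ι → ℕ) : ∃ C' : ℝ, 0 ≤ C' ∧ Mul (nextH S a r n) C' := by
  have h1 : ∀ j, Mul (fun z => psi r ((S.nd j).Y z ^ n j)) (2 * r / (1 - r)) := by
    intro j
    exact hE.2.1 r hr hr1 _ (geo_mul_pow hA (hY (S.nd j)).1 (n j))
  have h0 : 0 ≤ 2 * r / (1 - r) := div_nonneg (by linarith) (by linarith)
  let _ := S.fin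
  obtain ⟨C', hC', h2⟩ := geo_mul_sum hA (Finset.univ : Finset S.ι) _ _ h0 h1
  have h3 := hA.2.1 _ _ _ _ (hA.1 (a : ℂ)) h2 (norm_nonneg _) hC'
  have h4 := hA.2.2.1 _ _ _ _ hS.mul h3
  refine ⟨S.Ch + ‖(a : ℂ)‖ * C', add_nonneg hS.hCh (by positivity), ?_⟩
  refine hA.2.2.2.1 _ _ _ h4 ?_
  intro z _
  rfl

private lemma geo_mem1 {z : ℂ × ℂ} (hz : z ∈ KK) : ‖z.1‖ ≤ 1 := by
  have h : ‖z.1‖ ^ 2 + ‖z.2‖ ^ 2 ≤ 1 := hz
  nlinarith [norm_nonneg z.1, norm_nonneg z.2, sq_nonneg ‖z.2‖]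

private lemma geo_Y_le (nd : Node) {z : ℂ × ℂ} (hz : z ∈ KK) : ‖nd.Y z‖ ≤ 1 := geo_mem1 (nd.mapK' z hz)

private lemma geo_Y_cont (nd : Node) : ContinuousOn nd.Y KK := by
  unfold Node.Y
  exact nd.contΨ.fst

private lemma geo_cont_next (S : Stage) (hS : S.Good) (a r : ℝ) (hr : 0 < r) (hr1 : r < 1) (n : S.ι → ℕ) :
    ContinuousOn (nextH S a r n) KK := by
  let _ := S.fin
  unfold nextH
  apply ContinuousOn.add hS.cont
  apply ContinuousOn.mul continuousOn_const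
  apply continuousOn_finsetSum
  intro j _
  unfold psi
  have hc : ContinuousOn (fun z => (S.nd j).Y z ^ n j) KK := (geo_Y_cont (S.nd j)).pow _
  apply ContinuousOn.div
  · exact continuousOn_const.mul hc
  · exact continuousOn_const.sub (continuousOn_const.mul hc)
  · intro z hz h0
    have h1 : ‖(r : ℂ) * (S.nd j).Y z ^ n j‖ < 1 := by
      rw [norm_mul, Complex.norm_real, Real.norm_of_nonneg hr.le, norm_pow]
      have h2 : ‖(S.nd j).Y z‖ ^ n j ≤ 1 := pow_le_one₀ (norm_nonneg _) (geo_Y_le (S.nd j) hz)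
      nlinarith [pow_nonneg (norm_nonneg ((S.nd j).Y z)) (n j)]
    rw [sub_eq_zero] at h0
    rw [← h0, norm_one] at h1
    exact lt_irrefl _ h1

private lemma geo_isCompact : IsCompact KK := by
  have hb : KK ⊆ Metric.closedBall (0 : ℂ × ℂ) 1 := by
    intro z hz
    rw [mem_closedBall_zero_iff]
    have h : ‖z.1‖ ^ 2 + ‖z.2‖ ^ 2 ≤ 1 := hz
    rw [Prod.norm_def]
    apply max_le
    · nlinarith [norm_nonneg z.1, norm_nonneg z.2, sq_nonneg ‖z.2‖]
    · nlinarith [norm_nonneg z.1, norm_nonneg z.2, sq_nonneg ‖z.1‖]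
  have hc : IsClosed KK := by
    apply isClosed_le
    · fun_prop
    · exact continuous_const
  exact (isCompact_closedBall (0 : ℂ × ℂ) 1).of_isClosed_subset hc hb

private lemma geo_delta (nd : Node) : ∃ C : ℝ, 0 ≤ C ∧ ∀ z ∈ KK, ‖nd.δ z‖ ≤ C := by
  obtain ⟨C, hC⟩ := geo_isCompact.exists_bound_of_continuousOn nd.contδ
  exact ⟨max C 0, le_max_right _ _, fun z hz => (hC z hz).trans (le_max_left _ _)⟩

private lemma geo_BB_KK {z : ℂ × ℂ} (hz : z ∈ BB) : z ∈ KK := by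
  have h : ‖z.1‖ ^ 2 + ‖z.2‖ ^ 2 < 1 := hz
  exact h.le

private lemma geo_zero_BB : (0 : ℂ × ℂ) ∈ BB := by
  show ‖(0 : ℂ × ℂ).1‖ ^ 2 + ‖(0 : ℂ × ℂ).2‖ ^ 2 < 1
  simp

private lemma geo_w_BB {w : ℂ} (hw : ‖w‖ < 1) : ((w, 0) : ℂ × ℂ) ∈ BB := by
  show ‖w‖ ^ 2 + ‖(0 : ℂ)‖ ^ 2 < 1
  rw [norm_zero]
  nlinarith [norm_nonneg w]

/-- the other nodes contribute little -/
private lemma geo_small (S : Stage) (a r x0 : ℝ) (ha : 0 ≤ a) (n : S.ι → ℕ) (κ : ℝ) 
    (hx : letI := S.fin; a * (Fintype.card S.ι * x0) ≤ κ / 2) (hκ : 0 ≤ κ) (z : ℂ × ℂ)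
    (hz : ∀ i, ‖psi r ((S.nd i).Y z ^ n i)‖ ≤ x0) : ‖nextH S a r n z - S.h z‖ ≤ κ := by
  let _ := S.fin
  have e : nextH S a r n z - S.h z = (a : ℂ) * ∑ j, psi r ((S.nd j).Y z ^ n j) := by
    unfold nextH
    ring
  rw [e, norm_mul, Complex.norm_real, Real.norm_of_nonneg ha]
  have h1 : ‖∑ j, psi r ((S.nd j).Y z ^ n j)‖ ≤ Fintype.card S.ι * x0 := by
    refine (norm_sum_le _ _).trans ?_
    refine (Finset.sum_le_sum (fun i _ => hz i)).trans ?_
    simp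
  have h2 := mul_le_mul_of_nonneg_left h1 ha
  linarith

private lemma geo_re (S : Stage) (a r x0 : ℝ) (ha : 0 ≤ a) (n : S.ι → ℕ) (κ : ℝ)
    (hx : letI := S.fin; a * (Fintype.card S.ι * x0) ≤ κ / 2) (hx0 : 0 ≤ x0) (z : ℂ × ℂ) (j : S.ι) (v : ℝ)
    (hj : psi r ((S.nd j).Y z ^ n j) = (v : ℂ))
    (hz : ∀ i, i ≠ j → ‖psi r ((S.nd i).Y z ^ n i)‖ ≤ x0) :
    (S.h z).re + a * v - κ / 2 ≤ (nextH S a r n z).re := by
  classical
  let _ := S.fin
  have e : (nextH S a r n z).re = (S.h z).re + a * ∑ j, (psi r ((S.nd j).Y z ^ n j)).re := by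
    unfold nextH
    rw [Complex.add_re, Complex.re_ofReal_mul, Complex.re_sum]
  rw [e, ← Finset.add_sum_erase _ _ (Finset.mem_univ j), hj, Complex.ofReal_re]
  have h1 : -(Fintype.card S.ι * x0) ≤ ∑ i ∈ (Finset.univ : Finset S.ι).erase j, (psi r ((S.nd i).Y z ^ n i)).re := by
    have h2 : ∑ i ∈ (Finset.univ : Finset S.ι).erase j, (-x0) ≤
        ∑ i ∈ (Finset.univ : Finset S.ι).erase j, (psi r ((S.nd i).Y z ^ n i)).re := by
      apply Finset.sum_le_sum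
      intro i hi
      have h3 := hz i (Finset.ne_of_mem_erase hi)
      have h4 := Complex.abs_re_le_norm (psi r ((S.nd i).Y z ^ n i))
      have h5 := neg_abs_le (psi r ((S.nd i).Y z ^ n i)).re
      linarith
    refine le_trans ?_ h2
    rw [Finset.sum_const, nsmul_eq_mul]
    have h6 : (((Finset.univ : Finset S.ι).erase j).card : ℝ) ≤ Fintype.card S.ι := by
      exact_mod_cast Finset.card_le_univ _
    nlinarith
  have h7 := mul_le_mul_of_nonneg_left h1 ha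
  nlinarith

theorem piece_geo (h1 : S_tube) (h2 : S_ballY) (h3 : S_roots) (h4 : S_har) (h5 : S_child) (h6 : S_mulY)
    (h7 : S_mulAlg) (h8 : S_mulExp) : S_geo := by
  classical
  intro S hS η κ R' hη hη2 hκ hσκ hRR' hR'1
  let _ := S.fin
  have hR'0 : 0 ≤ R' := hS.hR.trans hRR'
  have hκ1 : κ < 1 := by have := hS.hσ; linarith
  choose C hC0 hC using fun j => geo_delta (S.nd j)
  have hY0 : ∀ j, ‖(S.nd j).Y 0‖ < 1 := fun j => (h2 (S.nd j)).2.1 0 geo_zero_BB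
  obtain ⟨A, hA⟩ : ∃ A : ℝ, A = ∑ j, C j ^ 2 := ⟨_, rfl⟩
  obtain ⟨B, hB⟩ : ∃ B : ℝ, B = ∑ j, 1 / (1 - ‖(S.nd j).Y 0‖) := ⟨_, rfl⟩
  have hA0 : 0 ≤ A := by rw [hA]; exact Finset.sum_nonneg (fun j _ => sq_nonneg _)
  have hB0 : 0 ≤ B := by
    rw [hB]
    exact Finset.sum_nonneg (fun j _ => div_nonneg zero_le_one (by have := hY0 j; linarith))
  obtain ⟨c, hc0, hcA, hcB⟩ : ∃ c : ℝ, 0 < c ∧ 2 * c * A ≤ 1 ∧ 4 * c * B ≤ κ := by
    refine ⟨min (1 / (2 * (A + 1))) (κ / (4 * (B + 1))), lt_min (by positivity) (by positivity), ?_, ?_⟩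
    · have e1 : min (1 / (2 * (A + 1))) (κ / (4 * (B + 1))) ≤ 1 / (2 * (A + 1)) := min_le_left _ _
      have e2 : (1 / (2 * (A + 1))) * (2 * (A + 1)) = 1 := by
        rw [one_div, inv_mul_cancel₀]; positivity
      have e3 : 0 ≤ 1 / (2 * (A + 1)) := by positivity
      nlinarith
    · have e1 : min (1 / (2 * (A + 1))) (κ / (4 * (B + 1))) ≤ κ / (4 * (B + 1)) := min_le_right _ _
      have e2 : (κ / (4 * (B + 1))) * (4 * (B + 1)) = κ := by
        rw [div_mul_cancel₀]; positivity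
      have e3 : 0 ≤ κ / (4 * (B + 1)) := by positivity
      nlinarith
  refine ⟨Real.exp (-c), Real.exp_pos _, by rw [Real.exp_lt_one_iff]; linarith, ?_⟩
  intro ρ r hρ0 hρ1 hr hr1
  have hρpos : 0 < ρ := (Real.exp_pos _).trans hρ0
  have hlog : Real.log (1 / ρ) ≤ c := by
    rw [one_div, Real.log_inv]
    have := (Real.lt_log_iff_exp_lt hρpos).2 hρ0
    linarith
  have hlog0 : 0 ≤ Real.log (1 / ρ) := by
    rw [one_div, Real.log_inv]
    have := Real.log_nonpos hρpos.le hρ1.le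
    linarith
  have h2A : 2 * Real.log (1 / ρ) * A ≤ 1 := by nlinarith
  have h4B : 4 * Real.log (1 / ρ) * B ≤ κ := by nlinarith
  obtain ⟨a, ha⟩ : ∃ a : ℝ, a = (1 - η) * S.N := ⟨_, rfl⟩
  have ha0 : 0 < a := by rw [ha]; exact mul_pos (by linarith) (by have := hS.hN; linarith)
  obtain ⟨ε₀, hε₀, q1, hq10, hq11, ht1, ht2⟩ := h1 S.ι S.nd S.h (S.N - S.σ) hS.cont hS.s1 hS.s2 (κ / 2) (by positivity)
  choose q2 hq20 hq21 hq22 using fun j => (h2 (S.nd j)).2.2 R' hR'1 hR'0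
  obtain ⟨q, hq1, hqlt, hq2⟩ := geo_sup q2 hq21 q1 hq10 hq11
  have hq0 : 0 ≤ q := hq10.trans hq1
  have hq2' : ∀ j, q2 j ≤ q := fun j => (hq2 j).trans (by nlinarith)
  obtain ⟨x0, hx0, hxa⟩ : ∃ x0 : ℝ, 0 < x0 ∧ a * (Fintype.card S.ι * x0) ≤ κ / 2 := by
    refine ⟨κ / (2 * a * (Fintype.card S.ι + 1)), by positivity, ?_⟩
    have e1 : a * ((Fintype.card S.ι : ℝ) * (κ / (2 * a * (Fintype.card S.ι + 1)))) =
        (κ / 2) * ((Fintype.card S.ι : ℝ) / (Fintype.card S.ι + 1)) := by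
      field_simp
    rw [e1]
    have e2 : (Fintype.card S.ι : ℝ) / (Fintype.card S.ι + 1) ≤ 1 := by
      rw [div_le_one (by positivity)]
      linarith
    nlinarith [half_pos hκ]
  have hev : ∀ᶠ n : ℕ in atTop, 2 * q ^ n / (1 - r) ≤ x0 := by
    have t1 : Tendsto (fun n : ℕ => 2 * q ^ n / (1 - r)) atTop (𝓝 (2 * 0 / (1 - r))) :=
      ((tendsto_pow_atTop_nhds_zero_of_lt_one hq0 hqlt).const_mul 2).div_const _
    rw [mul_zero, zero_div] at t1
    exact t1.eventually (eventually_le_nhds hx0)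
  obtain ⟨n1, hn1⟩ := eventually_atTop.1 hev
  obtain ⟨n2, hn2⟩ := exists_nat_ge (2 * Real.log (1 / ρ) / ε₀ ^ 2)
  refine ⟨max (max n1 n2) 1, ?_⟩
  intro n hn
  have hnn1 : ∀ j, n1 ≤ n j := fun j => (le_max_left _ _).trans ((le_max_left _ _).trans (hn j))
  have hnn2 : ∀ j, n2 ≤ n j := fun j => (le_max_right _ _).trans ((le_max_left _ _).trans (hn j))
  have hnn3 : ∀ j, 1 ≤ n j := fun j => (le_max_right _ _).trans (hn j)
  have hψ : ∀ i z, ‖(S.nd i).Y z‖ ≤ q → ‖psi r ((S.nd i).Y z ^ n i)‖ ≤ x0 := by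
    intro i z hz
    refine (geo_psi_bound (q := q ^ n i) hr hr1 (pow_le_one₀ hq0 hqlt.le) ?_).trans (hn1 _ (hnn1 i))
    rw [norm_pow]
    exact pow_le_pow_left₀ (norm_nonneg _) hz _
  choose w hwinj hwpow hwsurj hwlt hwlog using fun j => h3 (n j) (hnn3 j) ρ hρpos hρ1
  choose nc hcΦ hcβ hcδ hc1 using fun (p : Σ j, Fin (n j)) => h5 (S.nd p.1) (w p.1 p.2) (hwlt p.1 p.2)
  have hw0 : ∀ j l, 0 ≤ 1 - ‖w j l‖ ^ 2 := by
    intro j l
    have := hwlt j l
    nlinarith [norm_nonneg (w j l)]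
  have hwε : ∀ j l, 1 - ‖w j l‖ ^ 2 ≤ ε₀ ^ 2 := by
    intro j l
    have e1 := hwlog j l
    have e2 : (n2 : ℝ) ≤ n j := by exact_mod_cast hnn2 j
    have e3 : 2 * Real.log (1 / ρ) ≤ n j * ε₀ ^ 2 := by
      have e4 := (div_le_iff₀ (by positivity : (0 : ℝ) < ε₀ ^ 2)).1 (hn2.trans e2)
      exact e4
    have e5 : (0 : ℝ) < n j := by
      have := hnn3 j
      exact_mod_cast this
    have e6 : (n j : ℝ) * (1 - ‖w j l‖ ^ 2) ≤ n j * ε₀ ^ 2 := e1.trans e3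
    exact le_of_mul_le_mul_left e6 e5
  have hwsum : ∀ j, ∑ l, (1 - ‖w j l‖ ^ 2) ≤ 2 * Real.log (1 / ρ) := by
    intro j
    have e5 : (0 : ℝ) < n j := by
      have := hnn3 j
      exact_mod_cast this
    have e1 : ∀ l ∈ (Finset.univ : Finset (Fin (n j))), (1 - ‖w j l‖ ^ 2) ≤ 2 * Real.log (1 / ρ) / n j := by
      intro l _
      rw [le_div_iff₀ e5, mul_comm]
      exact hwlog j l
    refine (Finset.sum_le_sum e1).trans ?_
    rw [Finset.sum_const, Finset.card_univ, Fintype.card_fin, nsmul_eq_mul, mul_div_cancel₀ _ e5.ne']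
  have hβε : ∀ (p : Σ j, Fin (n j)), ∀ z ∈ KK, (nc p).β z = 0 → ‖(S.nd p.1).β z‖ ≤ ε₀ := by
    intro p z hz h0
    have e1 := (hcβ p z hz).1 h0
    have e2 := (h2 (S.nd p.1)).1 z hz
    rw [e1] at e2
    have e3 := hwε p.1 p.2
    have e4 : ‖(S.nd p.1).β z‖ ^ 2 ≤ ε₀ ^ 2 := by linarith
    exact (pow_le_pow_iff_left₀ (norm_nonneg _) hε₀.le two_ne_zero).1 e4
  obtain ⟨R2, hR21, hR22, hR23⟩ := geo_sup (fun p : (Σ j, Fin (n j)) => ‖((nc p).Φ 0).1‖ ^ 2 + ‖((nc p).Φ 0).2‖ ^ 2)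
    (fun p => (nc p).mapB 0 geo_zero_BB) R' hR'0 hR'1
  obtain ⟨C', hC'0, hC'⟩ := geo_mul_next h6 h7 h8 S hS a r hr hr1 n
  have hrρ : 0 < 1 - r * ρ := by nlinarith
  have hv0 : 0 ≤ 2 * r * ρ / (1 - r * ρ) := by positivity
  have hβ1 : ∀ p, ‖(nc p).β 0‖ ≤ 1 := by
    intro p
    have e2 := (h2 (nc p)).1 0 (geo_BB_KK geo_zero_BB)
    nlinarith [norm_nonneg ((nc p).β 0), sq_nonneg ‖(nc p).Y 0‖]
  rw [← ha]
  refine ⟨⟨Σ j, Fin (n j), inferInstance, nc, nextH S a r n, C', S.N + a * (2 * r * ρ / (1 - r * ρ)),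
    S.t * ((1 - ρ) / (1 + ρ)), S.σ + κ, κ, R2⟩, ?_, rfl, rfl, rfl, rfl, rfl, hR21, ?_⟩
  · refine ⟨?_, ?_, ?_, hσκ, hR'0.trans hR21, hR22, geo_cont_next S hS a r hr hr1 n, hC'0, hC', ?_, ?_, ?_, ?_, ?_, hR23⟩
    · have := hS.hN
      have e := mul_nonneg ha0.le hv0
      show 1 ≤ S.N + a * (2 * r * ρ / (1 - r * ρ))
      linarith
    · have := hS.ht
      show 0 < S.t * ((1 - ρ) / (1 + ρ))
      have e1 : 0 < (1 - ρ) / (1 + ρ) := div_pos (by linarith) (by linarith)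
      exact mul_pos this e1
    · have := hS.hσ
      show 0 ≤ S.σ + κ
      linarith
    · -- s1
      rintro ⟨j, l⟩ z hz h0
      have e1 : (S.nd j).Y z = w j l := (hcβ ⟨j, l⟩ z hz).1 h0
      have e2 := hβε ⟨j, l⟩ z hz h0
      have e3 := ht1 j z hz e2
      have e4 : psi r ((S.nd j).Y z ^ n j) = ((2 * r * ρ / (1 - r * ρ) : ℝ) : ℂ) := by
        rw [e1, hwpow j l]
        unfold psi
        push_cast
        ring
      have e5 := geo_re S a r x0 ha0.le n κ hxa hx0.le z j _ e4 (fun i hi => hψ i z ((ht2 i j hi z hz e2).1.trans hq1))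
      show S.N + a * (2 * r * ρ / (1 - r * ρ)) - (S.σ + κ) ≤ (nextH S a r n z).re
      linarith
    · -- s2
      rintro ⟨i, l⟩ ⟨j, m⟩ hij z hz hi0 hj0
      have e1 : (S.nd i).Y z = w i l := (hcβ ⟨i, l⟩ z hz).1 hi0
      have e2 : (S.nd j).Y z = w j m := (hcβ ⟨j, m⟩ z hz).1 hj0
      by_cases hc : i = j
      · subst hc
        rw [e1] at e2
        exact hij (by rw [hwinj i e2])
      · have e3 := hβε ⟨i, l⟩ z hz hi0
        have e4 := hβε ⟨j, m⟩ z hz hj0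
        exact absurd e3 (not_le.2 (ht2 i j hc z hz e4).2)
    · -- s3
      intro G hG q' hq'0 hq'1 hGq
      have e1 : ∀ j, ‖G ((S.nd j).Φ 0)‖ ≤ q' ^ ((1 - ρ) / (1 + ρ)) := by
        intro j
        have hmaps : Set.MapsTo (fun v : ℂ => (S.nd j).Φ (v, 0)) (Metric.ball 0 1) BB := by
          intro v hv
          exact (S.nd j).mapB _ (geo_w_BB (mem_ball_zero_iff.1 hv))
        have hd : DifferentiableOn ℂ (fun v : ℂ => G ((S.nd j).Φ (v, 0))) (Metric.ball 0 1) := by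
          apply hG.1.comp _ hmaps
          apply (S.nd j).diffΦ.comp _ (fun v hv => geo_w_BB (mem_ball_zero_iff.1 hv))
          apply DifferentiableOn.prodMk differentiableOn_id (differentiableOn_const _)
        have e2 := h4 (fun v => G ((S.nd j).Φ (v, 0))) hd
          (fun v hv => hG.2 _ ((S.nd j).mapB _ (geo_w_BB hv))) (n j) (hnn3 j) ρ hρpos hρ1 q' hq'0 hq'1 ?_
        · exact e2
        · intro v hv
          obtain ⟨l, rfl⟩ := hwsurj j v hv
          have e3 := hGq ⟨j, l⟩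
          change ‖G ((nc ⟨j, l⟩).Φ 0)‖ ≤ q' at e3
          rw [hcΦ ⟨j, l⟩] at e3
          exact e3
      have e2 : 0 < (1 - ρ) / (1 + ρ) := div_pos (by linarith) (by linarith)
      have e3 := hS.s3 G hG (q' ^ ((1 - ρ) / (1 + ρ))) (Real.rpow_pos_of_pos hq'0 _)
        (Real.rpow_le_one hq'0.le hq'1 e2.le) e1
      rw [← Real.rpow_mul hq'0.le, mul_comm] at e3
      exact e3
    · -- s4
      refine ⟨fun p => C p.1 * sw (w p.1 p.2), ?_, ?_, ?_⟩
      · intro p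
        exact mul_nonneg (hC0 _) (Real.sqrt_nonneg _)
      · intro p v hv
        exact hcδ p (C p.1) (hC p.1) v hv
      · show ∑ p : (Σ j, Fin (n j)), (C p.1 * sw (w p.1 p.2)) ^ 2 ≤ 1
        rw [Fintype.sum_sigma]
        have e1 : ∀ j, ∑ l, (C j * sw (w j l)) ^ 2 ≤ C j ^ 2 * (2 * Real.log (1 / ρ)) := by
          intro j
          have e2 : ∀ l, (C j * sw (w j l)) ^ 2 = C j ^ 2 * (1 - ‖w j l‖ ^ 2) := by
            intro l
            rw [mul_pow]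
            unfold sw
            rw [Real.sq_sqrt (hw0 j l)]
          rw [Finset.sum_congr rfl (fun l _ => e2 l), ← Finset.mul_sum]
          exact mul_le_mul_of_nonneg_left (hwsum j) (sq_nonneg _)
        refine (Finset.sum_le_sum (fun j _ => e1 j)).trans ?_
        rw [← Finset.sum_mul, ← hA]
        linarith
    · -- s5
      show 1 - κ ≤ ∏ p : (Σ j, Fin (n j)), ‖(nc p).β 0‖
      have hsum : ∑ p : (Σ j, Fin (n j)), 2 * (1 - ‖w p.1 p.2‖ ^ 2) / (1 - ‖(S.nd p.1).Y 0‖) ≤ κ := by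
        rw [Fintype.sum_sigma]
        have e1 : ∀ j, ∑ l, 2 * (1 - ‖w j l‖ ^ 2) / (1 - ‖(S.nd j).Y 0‖) ≤
            4 * Real.log (1 / ρ) * (1 / (1 - ‖(S.nd j).Y 0‖)) := by
          intro j
          have e2 : ∀ l, 2 * (1 - ‖w j l‖ ^ 2) / (1 - ‖(S.nd j).Y 0‖) =
              (2 * (1 / (1 - ‖(S.nd j).Y 0‖))) * (1 - ‖w j l‖ ^ 2) := by
            intro l
            ring
          rw [Finset.sum_congr rfl (fun l _ => e2 l), ← Finset.mul_sum]
          have e3 : 0 ≤ 1 / (1 - ‖(S.nd j).Y 0‖) := div_nonneg zero_le_one (by have := hY0 j; linarith)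
          have e4 := mul_le_mul_of_nonneg_left (hwsum j) (mul_nonneg zero_le_two e3)
          linarith
        refine (Finset.sum_le_sum (fun j _ => e1 j)).trans ?_
        rw [← Finset.mul_sum, ← hB]
        exact h4B
      have hx0' : ∀ p : (Σ j, Fin (n j)), 0 ≤ 2 * (1 - ‖w p.1 p.2‖ ^ 2) / (1 - ‖(S.nd p.1).Y 0‖) := by
        intro p
        have e1 := hY0 p.1
        exact div_nonneg (mul_nonneg zero_le_two (hw0 _ _)) (by linarith)
      have e2 := geo_prod_bound (Finset.univ : Finset (Σ j, Fin (n j)))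
        (fun p => 2 * (1 - ‖w p.1 p.2‖ ^ 2) / (1 - ‖(S.nd p.1).Y 0‖)) (fun p => ‖(nc p).β 0‖)
        (fun p _ => hx0' p) ?_ ?_
      · linarith
      · intro p _
        have e3 := Finset.single_le_sum (fun p _ => hx0' p) (Finset.mem_univ p)
        linarith
      · intro p _
        have e3 := hc1 p
        have e4 : ‖(nc p).β 0‖ ^ 2 ≤ ‖(nc p).β 0‖ := by
          nlinarith [norm_nonneg ((nc p).β 0), hβ1 p]
        linarith
  · intro z hz
    exact geo_small S a r x0 ha0.le n κ hxa hκ.le z (fun i => hψ i z ((hq22 i z hz).trans (hq2' i)))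

end

end DA91
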