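import Pool.Agent.Lib.MP_e91a1a_an.DA.Stm

/-!
# MP_e91a1a_an : families with the Gram matrix of the kernel vectors (piece B1)
-/

open scoped ComplexConjugate Topology
open Filter

namespace DA91

noncomputable section

private theorem gram_dense (h2 : S_inj) :
    DenseRange (Finsupp.linearCombination ℂ (fun z : BB => ker z.1)) := by
  have h1 : (Submodule.span ℂ (Set.range fun z : BB => ker z.1)).topologicalClosure = ⊤ := by
    rw [Submodule.topologicalClosure_eq_top_iff, Submodule.eq_bot_iff]
    intro F hF
    refine h2 F fun z hz => ?_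
    exact (Submodule.mem_orthogonal _ _).1 hF (ker z) (Submodule.subset_span ⟨⟨z, hz⟩, rfl⟩)
  intro x
  have h3 : Set.range (Finsupp.linearCombination ℂ (fun z : BB => ker z.1)) =
      ((Submodule.span ℂ (Set.range fun z : BB => ker z.1) : Submodule ℂ HH) : Set HH) := by
    rw [← Finsupp.range_linearCombination]
    rfl
  rw [h3, ← Submodule.topologicalClosure_coe, h1]
  exact Set.mem_univ _

private theorem gram_inner {ξ : ℂ × ℂ → HH}
    (h : ∀ z ∈ BB, ∀ w ∈ BB, inner ℂ (ξ z) (ξ w) = inner ℂ (ker z) (ker w)) (c d : BB →₀ ℂ) :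
    inner ℂ (Finsupp.linearCombination ℂ (fun z : BB => ξ z.1) c)
      (Finsupp.linearCombination ℂ (fun z : BB => ξ z.1) d) =
    inner ℂ (Finsupp.linearCombination ℂ (fun z : BB => ker z.1) c)
      (Finsupp.linearCombination ℂ (fun z : BB => ker z.1) d) := by
  induction c using Finsupp.induction_linear with
  | zero => simp only [map_zero, inner_zero_left]
  | add c c' hc hc' => rw [map_add, map_add, inner_add_left, inner_add_left, hc, hc']
  | single z a =>
    rw [Finsupp.linearCombination_single, Finsupp.linearCombination_single, inner_smul_left,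
      inner_smul_left]
    congr 1
    induction d using Finsupp.induction_linear with
    | zero => simp only [map_zero, inner_zero_right]
    | add c c' hc hc' => rw [map_add, map_add, inner_add_right, inner_add_right, hc, hc']
    | single w b =>
      rw [Finsupp.linearCombination_single, Finsupp.linearCombination_single, inner_smul_right,
        inner_smul_right, h z.1 z.2 w.1 w.2]

theorem piece_gram (h2 : S_inj) : S_gram := by
  intro ξ h
  have hd := gram_dense h2
  have hn : ∀ c : BB →₀ ℂ, ‖Finsupp.linearCombination ℂ (fun z : BB => ξ z.1) c‖ =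
      ‖Finsupp.linearCombination ℂ (fun z : BB => ker z.1) c‖ := by
    intro c
    have h3 := gram_inner h c c
    rw [inner_self_eq_norm_sq_to_K, inner_self_eq_norm_sq_to_K] at h3
    have h4 : ‖Finsupp.linearCombination ℂ (fun z : BB => ξ z.1) c‖ ^ 2 =
        ‖Finsupp.linearCombination ℂ (fun z : BB => ker z.1) c‖ ^ 2 := by
      exact_mod_cast h3
    exact (sq_eq_sq₀ (norm_nonneg _) (norm_nonneg _)).1 h4
  have hb : ∀ c : BB →₀ ℂ, ‖Finsupp.linearCombination ℂ (fun z : BB => ξ z.1) c‖ ≤
      1 * ‖Finsupp.linearCombination ℂ (fun z : BB => ker z.1) c‖ := by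
    intro c
    rw [hn c, one_mul]
  let W : HH →L[ℂ] HH := (Finsupp.linearCombination ℂ (fun z : BB => ξ z.1)).extendOfNorm
    (Finsupp.linearCombination ℂ (fun z : BB => ker z.1))
  have hW : ∀ c : BB →₀ ℂ, W (Finsupp.linearCombination ℂ (fun z : BB => ker z.1) c) =
      Finsupp.linearCombination ℂ (fun z : BB => ξ z.1) c := fun c =>
    LinearMap.extendOfNorm_eq hd ⟨1, hb⟩ c
  have hiso : ∀ x : HH, ‖W x‖ = ‖x‖ := by
    intro x
    refine hd.induction_on (p := fun x => ‖W x‖ = ‖x‖) x ?_ ?_
    · exact isClosed_eq W.continuous.norm continuous_norm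
    · intro c
      rw [hW c, hn c]
  refine ⟨⟨W.toLinearMap, hiso⟩, fun z hz => ?_⟩
  have h5 := hW (Finsupp.single ⟨z, hz⟩ 1)
  rw [Finsupp.linearCombination_single, Finsupp.linearCombination_single, one_smul,
    one_smul] at h5
  exact h5

end

end DA91
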