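import Pool.Agent.Lib.MP_e91a1a_an.DA.Stm

/-!
# MP_e91a1a_an : a vector is determined by its function
-/

open scoped ComplexConjugate Topology
open Filter

namespace DA91

noncomputable section

/-- a power series which vanishes near `0` -/
private theorem inj_ps (a : ℕ → ℂ) {r : ℝ} (hr : 0 < r)
    (h : ∀ x : ℂ, ‖x‖ < r → HasSum (fun n => a n * x ^ n) 0) (n : ℕ) : a n = 0 := by
  have h1 : HasFPowerSeriesAt (0 : ℂ → ℂ) (FormalMultilinearSeries.ofScalars ℂ a) 0 := by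
    rw [hasFPowerSeriesAt_iff]
    filter_upwards [Metric.ball_mem_nhds (0 : ℂ) hr] with x hx
    simpa [mul_comm] using h x (by simpa using hx)
  have h2 := congrArg (fun p => FormalMultilinearSeries.coeff p n) h1.eq_zero
  have h3 : FormalMultilinearSeries.coeff (0 : FormalMultilinearSeries ℂ ℂ ℂ) n = 0 := rfl
  rw [h3] at h2
  simpa using h2

private theorem inj_wt (p : ℕ × ℕ) : (wt p : ℂ) ≠ 0 := by
  have h : 0 < wt p := Real.sqrt_pos.2 (by exact_mod_cast Nat.choose_pos (Nat.le_add_right _ _))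
  exact_mod_cast h.ne'

theorem piece_inj (h1 : S_ker) : S_inj := by
  intro F hF
  obtain ⟨-, -, hs, -⟩ := h1
  have hsum : ∀ x y : ℂ, ‖x‖ < 1 / 2 → ‖y‖ < 1 / 2 →
      HasSum (fun p : ℕ × ℕ => (wt p : ℂ) * x ^ p.1 * y ^ p.2 * F p) 0 := by
    intro x y hx hy
    have hz : (x, y) ∈ BB := by
      change ‖x‖ ^ 2 + ‖y‖ ^ 2 < 1
      nlinarith [norm_nonneg x, norm_nonneg y]
    have h := hs (x, y) hz F
    rwa [hF _ hz] at h
  have hfib : ∀ y : ℂ, ‖y‖ < 1 / 2 → ∀ a, Summable fun b : ℕ => (wt (a, b) : ℂ) * F (a, b) * y ^ b := by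
    intro y hy a
    have h := ((hsum (1 / 4) y (by norm_num) hy).summable.prod_factor a).mul_left ((4 : ℂ) ^ a)
    refine h.congr fun b => ?_
    have h4 : (4 : ℂ) ^ a * (1 / 4) ^ a = 1 := by
      rw [← mul_pow]
      norm_num
    calc (4 : ℂ) ^ a * ((wt (a, b) : ℂ) * (1 / 4) ^ a * y ^ b * F (a, b))
        = ((4 : ℂ) ^ a * (1 / 4) ^ a) * ((wt (a, b) : ℂ) * F (a, b) * y ^ b) := by ring
      _ = _ := by rw [h4, one_mul]
  have hc : ∀ y : ℂ, ‖y‖ < 1 / 2 → ∀ a, ∑' b : ℕ, (wt (a, b) : ℂ) * F (a, b) * y ^ b = 0 := by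
    intro y hy
    refine inj_ps (fun a => ∑' b : ℕ, (wt (a, b) : ℂ) * F (a, b) * y ^ b)
      (show (0 : ℝ) < 1 / 2 by norm_num) fun x hx => ?_
    refine (hsum x y hx hy).prod_fiberwise fun a => ?_
    have h := (hfib y hy a).hasSum.mul_right (x ^ a)
    refine h.congr_fun fun b => ?_
    ring
  have hz : ∀ a b, (wt (a, b) : ℂ) * F (a, b) = 0 := by
    intro a
    refine inj_ps (fun b => (wt (a, b) : ℂ) * F (a, b)) (show (0 : ℝ) < 1 / 2 by norm_num)
      fun y hy => ?_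
    have h := (hfib y hy a).hasSum
    rwa [hc y hy a] at h
  apply lp.ext
  funext p
  obtain ⟨a, b⟩ := p
  have h := (mul_eq_zero.1 (hz a b)).resolve_left (inj_wt (a, b))
  simpa using h

end

end DA91
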