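import Pool.Agent.Lib.MP_e91a1a_an.DA.Stm

open scoped ComplexConjugate Topology
open Filter

namespace DA91

noncomputable section

/-- the vanishing on the disc gives vanishing coordinates on the first axis -/
private lemma kill_coord (h1 : S_ker) (h2 : S_inj) (F : HH)
    (hF : ∀ w : ℂ, ‖w‖ < 1 → ev F (w, 0) = 0) (a : ℕ) : F (a, 0) = 0 := by
  classical
  obtain ⟨_, _, hsum, _⟩ := h1
  have h2pos : (0 : ℝ) < (2 : ENNReal).toReal := by norm_num
  have hs : Summable (fun p : ℕ × ℕ => ‖F p‖ ^ (2 : ENNReal).toReal) :=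
    (lp.memℓp F).summable h2pos
  have hmem : Memℓp (fun p : ℕ × ℕ => if p.2 = 0 then F p else (0 : ℂ)) 2 := by
    rw [memℓp_gen_iff h2pos]
    refine Summable.of_nonneg_of_le (fun p => by positivity) (fun p => ?_) hs
    split_ifs
    · exact le_rfl
    · rw [norm_zero, Real.zero_rpow h2pos.ne']
      positivity
  let F0 : HH := ⟨fun p => if p.2 = 0 then F p else 0, hmem⟩
  have hF0 : F0 = 0 := by
    refine h2 F0 (fun z hz => ?_)
    have hz' : ‖z.1‖ ^ 2 + ‖z.2‖ ^ 2 < 1 := hz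
    have hz1 : ‖z.1‖ < 1 := by
      nlinarith [norm_nonneg z.1, sq_nonneg ‖z.2‖]
    have hzB : ((z.1, 0) : ℂ × ℂ) ∈ BB := by
      show ‖z.1‖ ^ 2 + ‖(0 : ℂ)‖ ^ 2 < 1
      rw [norm_zero]
      nlinarith [sq_nonneg ‖z.2‖]
    have e1 := hsum z hz F0
    have e2 := hsum (z.1, 0) hzB F
    rw [hF z.1 hz1] at e2
    have e3 : (fun p : ℕ × ℕ => (wt p : ℂ) * z.1 ^ p.1 * z.2 ^ p.2 * F0 p)
        = (fun p : ℕ × ℕ => (wt p : ℂ) * ((z.1, 0) : ℂ × ℂ).1 ^ p.1 *
          ((z.1, 0) : ℂ × ℂ).2 ^ p.2 * F p) := by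
      funext p
      show (wt p : ℂ) * z.1 ^ p.1 * z.2 ^ p.2 * (if p.2 = 0 then F p else 0)
        = (wt p : ℂ) * z.1 ^ p.1 * (0 : ℂ) ^ p.2 * F p
      split_ifs with hp
      · simp [hp]
      · simp [hp]
    rw [e3] at e1
    exact e1.unique e2
  have h3 : F0 (a, 0) = 0 := by rw [hF0]; rfl
  exact h3

private lemma kill_single (M : HH →L[ℂ] HH)
    (hM1 : ∀ (F : HH) (a b : ℕ), (M F) (a + 1, b) = (Real.sqrt ((a + 1) / (a + b + 1)) : ℂ) * F (a, b))
    (hM0 : ∀ (F : HH) (b : ℕ), (M F) (0, b) = 0) (a b : ℕ) (c : ℂ) :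
    M (lp.single 2 ((a, b) : ℕ × ℕ) c)
      = lp.single 2 ((a + 1, b) : ℕ × ℕ) ((Real.sqrt ((a + 1) / (a + b + 1)) : ℂ) * c) := by
  ext p
  obtain ⟨x, y⟩ := p
  rcases x with _ | x
  · rw [hM0, lp.single_apply_ne]
    intro h
    have := congrArg Prod.fst h
    simp at this
  · rw [hM1]
    by_cases h : (x, y) = (a, b)
    · obtain ⟨rfl, rfl⟩ := Prod.mk.inj h
      rw [lp.single_apply_self, lp.single_apply_self]
    · rw [lp.single_apply_ne _ _ _ h, lp.single_apply_ne, mul_zero]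
      intro h'
      apply h
      have h1 := congrArg Prod.fst h'
      have h2 := congrArg Prod.snd h'
      simp only at h1 h2
      rw [Nat.succ_injective h1, h2]

private lemma kill_pow (M : HH →L[ℂ] HH)
    (hM1 : ∀ (F : HH) (a b : ℕ), (M F) (a + 1, b) = (Real.sqrt ((a + 1) / (a + b + 1)) : ℂ) * F (a, b))
    (hM0 : ∀ (F : HH) (b : ℕ), (M F) (0, b) = 0) (a b : ℕ) (hb : 1 ≤ b) (c : ℂ) (n : ℕ) :
    ∃ c' : ℂ, (M ^ n) (lp.single 2 ((a, b) : ℕ × ℕ) c) = lp.single 2 ((a + n, b) : ℕ × ℕ) c' ∧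
      ‖c'‖ ^ 2 ≤ ‖c‖ ^ 2 * ((a + 1 : ℝ) / (a + n + 1)) := by
  induction n with
  | zero =>
    refine ⟨c, rfl, ?_⟩
    have : ((a : ℝ) + 1) / (a + ((0 : ℕ) : ℝ) + 1) = 1 := by
      rw [Nat.cast_zero, add_zero, div_self]
      positivity
    rw [this, mul_one]
  | succ n ih =>
    obtain ⟨c', h1, h2⟩ := ih
    refine ⟨(Real.sqrt (((a + n : ℕ) + 1) / ((a + n : ℕ) + b + 1)) : ℂ) * c', ?_, ?_⟩
    · rw [pow_succ', ContinuousLinearMap.mul_apply, h1, kill_single M hM1 hM0]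
      rfl
    · rw [norm_mul, mul_pow, Complex.norm_real, Real.norm_of_nonneg (Real.sqrt_nonneg _),
        Real.sq_sqrt (by positivity)]
      have hb' : (1 : ℝ) ≤ b := by exact_mod_cast hb
      push_cast
      have e1 : ((a : ℝ) + n + 1) / (a + n + b + 1) ≤ (a + n + 1) / (a + n + 2) := by
        apply div_le_div_of_nonneg_left (by positivity) (by positivity)
        linarith
      calc ((a : ℝ) + n + 1) / (a + n + b + 1) * ‖c'‖ ^ 2
          ≤ (a + n + 1) / (a + n + 2) * (‖c‖ ^ 2 * ((a + 1 : ℝ) / (a + n + 1))) := by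
            apply mul_le_mul e1 h2 (by positivity) (by positivity)
        _ = ‖c‖ ^ 2 * ((a + 1 : ℝ) / (a + (n + 1) + 1)) := by
            have h3 : (a : ℝ) + n + 1 ≠ 0 := by positivity
            have h4 : (a : ℝ) + n + 2 ≠ 0 := by positivity
            have h5 : (a : ℝ) + (n + 1) + 1 ≠ 0 := by positivity
            field_simp
            ring

private lemma kill_tendsto_single (M : HH →L[ℂ] HH)
    (hM1 : ∀ (F : HH) (a b : ℕ), (M F) (a + 1, b) = (Real.sqrt ((a + 1) / (a + b + 1)) : ℂ) * F (a, b))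
    (hM0 : ∀ (F : HH) (b : ℕ), (M F) (0, b) = 0) (a b : ℕ) (hb : 1 ≤ b) (c : ℂ) :
    Tendsto (fun n => (M ^ n) (lp.single 2 ((a, b) : ℕ × ℕ) c)) atTop (𝓝 0) := by
  rw [tendsto_zero_iff_norm_tendsto_zero]
  have hsq : Tendsto (fun n : ℕ => ‖c‖ ^ 2 * ((a + 1 : ℝ) / (a + n + 1))) atTop (𝓝 0) := by
    have h1 : Tendsto (fun n : ℕ => (a : ℝ) + n + 1) atTop atTop := by
      apply tendsto_atTop_add_const_right
      apply tendsto_atTop_add_const_left
      exact tendsto_natCast_atTop_atTop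
    have h2 := (h1.const_div_atTop (a + 1 : ℝ)).const_mul (‖c‖ ^ 2)
    rw [mul_zero] at h2
    exact h2
  have hsq' : Tendsto (fun n : ℕ => Real.sqrt (‖c‖ ^ 2 * ((a + 1 : ℝ) / (a + n + 1)))) atTop (𝓝 0) := by
    have := (Real.continuous_sqrt.tendsto 0).comp hsq
    rw [Real.sqrt_zero] at this
    exact this
  refine squeeze_zero (fun n => norm_nonneg _) (fun n => ?_) hsq'
  obtain ⟨c', h1, h2⟩ := kill_pow M hM1 hM0 a b hb c n
  rw [h1, lp.norm_single (by norm_num)]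
  exact Real.le_sqrt_of_sq_le h2

/-- [A11] High powers of `z₁` kill everything that vanishes on `z₂ = 0`. -/
theorem piece_kill (h1 : S_ker) (h2 : S_inj) (h3 : S_ops) : S_kill := by
  classical
  intro F hF ε hε
  obtain ⟨M, M₂, hev, _, hcon, _, hM1, hM0, _⟩ := h3
  have hM : ∀ G : HH, ‖M G‖ ≤ ‖G‖ := by
    intro G
    have := hcon G 0
    rw [map_zero, add_zero, norm_zero] at this
    have h5 : ‖M G‖ ^ 2 ≤ ‖G‖ ^ 2 := by linarith
    exact (sq_le_sq₀ (norm_nonneg _) (norm_nonneg _)).1 h5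
  have hMn : ∀ (n : ℕ) (G : HH), ‖(M ^ n) G‖ ≤ ‖G‖ := by
    intro n
    induction n with
    | zero => intro G; exact le_rfl
    | succ n ih =>
      intro G
      rw [pow_succ', ContinuousLinearMap.mul_apply]
      exact (hM _).trans (ih G)
  -- multiplication
  have hevn : ∀ (n : ℕ) (G : HH), ∀ z ∈ BB, ev ((M ^ n) G) z = z.1 ^ n * ev G z := by
    intro n
    induction n with
    | zero => intro G z _; rw [pow_zero, pow_zero, one_mul]; rfl
    | succ n ih =>
      intro G z hz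
      rw [pow_succ', ContinuousLinearMap.mul_apply, hev _ z hz, ih G z hz, pow_succ']
      ring
  -- finite truncations
  have hsum := lp.hasSum_single (p := 2) (by norm_num) F
  rw [HasSum, Metric.tendsto_nhds] at hsum
  obtain ⟨s, hs⟩ := (hsum (ε / 2) (by positivity)).exists
  rw [dist_eq_norm] at hs
  have hlim : Tendsto (fun n => (M ^ n) (∑ i ∈ s, lp.single 2 i (F i))) atTop (𝓝 0) := by
    have e1 : (fun n => (M ^ n) (∑ i ∈ s, lp.single 2 i (F i)))
        = fun n => ∑ i ∈ s, (M ^ n) (lp.single 2 i (F i)) := by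
      funext n; rw [map_sum]
    rw [e1]
    have e2 : (0 : HH) = ∑ i ∈ s, 0 := by simp
    rw [e2]
    refine tendsto_finset_sum _ (fun i _ => ?_)
    obtain ⟨a, b⟩ := i
    rcases Nat.eq_zero_or_pos b with hb | hb
    · subst hb
      rw [kill_coord h1 h2 F hF a, lp.single_zero]
      simp only [map_zero]
      exact tendsto_const_nhds
    · exact kill_tendsto_single M hM1 hM0 a b hb _
  rw [Metric.tendsto_atTop] at hlim
  obtain ⟨n0, hn0⟩ := hlim (ε / 2) (by positivity)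
  refine ⟨n0, fun n hn G hG => ?_⟩
  have hGe : G = (M ^ n) F := by
    have h6 : G - (M ^ n) F = 0 := by
      refine h2 _ (fun z hz => ?_)
      have h7 : ev (G - (M ^ n) F) z = ev G z - ev ((M ^ n) F) z := by
        simp only [ev, inner_sub_right]
      rw [h7, hG z hz, hevn n F z hz, sub_self]
    exact sub_eq_zero.1 h6
  have h8 := hn0 n hn
  rw [dist_zero_right] at h8
  have h9 : (M ^ n) F = (M ^ n) (∑ i ∈ s, lp.single 2 i (F i))
      - (M ^ n) ((∑ i ∈ s, lp.single 2 i (F i)) - F) := by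
    rw [← map_sub]
    congr 1
    abel
  rw [hGe, h9]
  calc ‖(M ^ n) (∑ i ∈ s, lp.single 2 i (F i)) - (M ^ n) ((∑ i ∈ s, lp.single 2 i (F i)) - F)‖
      ≤ ‖(M ^ n) (∑ i ∈ s, lp.single 2 i (F i))‖ + ‖(M ^ n) ((∑ i ∈ s, lp.single 2 i (F i)) - F)‖ :=
        norm_sub_le _ _
    _ ≤ ε / 2 + ε / 2 := add_le_add h8.le ((hMn n _).trans hs.le)
    _ = ε := by ring

end

end DA91
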