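import Pool.Agent.Lib.MP_e91a1a_an.DA.Stm

/-!
# MP_e91a1a_an, piece A10 : functions of the first coordinate only
-/

open scoped ComplexConjugate Topology
open Filter

namespace DA91

noncomputable section

private theorem lift_geom (n : ℕ) (hn : 0 < n) (ζ : ℂ) (hζ : IsPrimitiveRoot ζ n) (a b : ℕ)
    (ha : a < n) (hb : b < n) :
    ∑ j ∈ Finset.range n, ζ ^ (j * a) * conj (ζ ^ (j * b)) = if a = b then (n : ℂ) else 0 := by
  have h1 : ζ * conj ζ = 1 := by
    rw [Complex.mul_conj, Complex.normSq_eq_norm_sq, hζ.norm'_eq_one hn.ne']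
    simp
  have h0 : ζ ≠ 0 := hζ.ne_zero hn.ne'
  have h2 : conj ζ = ζ⁻¹ := by
    rw [eq_comm, inv_eq_of_mul_eq_one_right h1]
  have h3 : ∀ j : ℕ, ζ ^ (j * a) * conj (ζ ^ (j * b)) = (ζ ^ a * (ζ⁻¹) ^ b) ^ j := by
    intro j
    rw [map_pow, h2, mul_pow, ← pow_mul, ← pow_mul, mul_comm a j, mul_comm b j]
  simp only [h3]
  split_ifs with hab
  · subst hab
    have : ζ ^ a * ζ⁻¹ ^ a = 1 := by
      rw [← mul_pow, mul_inv_cancel₀ h0, one_pow]
    rw [this]
    simp
  · have hne : ζ ^ a * ζ⁻¹ ^ b - 1 ≠ 0 := by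
      intro h
      have h4 : ζ ^ a * ζ⁻¹ ^ b = 1 := sub_eq_zero.1 h
      have h5 : ζ ^ a = ζ ^ b := by
        have h6 := congrArg (fun x => x * ζ ^ b) h4
        simp only [one_mul] at h6
        rw [mul_assoc, ← mul_pow, inv_mul_cancel₀ h0, one_pow, mul_one] at h6
        exact h6
      exact hab (hζ.pow_inj ha hb h5)
    have h7 := geom_sum_mul (ζ ^ a * ζ⁻¹ ^ b) n
    have h8 : (ζ ^ a * ζ⁻¹ ^ b) ^ n = 1 := by
      rw [mul_pow, ← pow_mul, ← pow_mul, mul_comm a n, mul_comm b n, pow_mul, pow_mul, inv_pow,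
        hζ.pow_eq_one]
      simp
    rw [h8, sub_self] at h7
    exact (mul_eq_zero.1 h7).resolve_right hne

private theorem lift_parseval (n : ℕ) (hn : 0 < n) (ζ : ℂ) (hζ : IsPrimitiveRoot ζ n) (c : ℕ → ℂ) :
    ∑ j ∈ Finset.range n, ‖∑ a ∈ Finset.range n, c a * ζ ^ (j * a)‖ ^ 2 =
      n * ∑ a ∈ Finset.range n, ‖c a‖ ^ 2 := by
  have key : ∀ z : ℂ, ((‖z‖ ^ 2 : ℝ) : ℂ) = z * conj z := by
    intro z
    rw [Complex.mul_conj, Complex.normSq_eq_norm_sq]
  have h1 : ((∑ j ∈ Finset.range n, ‖∑ a ∈ Finset.range n, c a * ζ ^ (j * a)‖ ^ 2 : ℝ) : ℂ) =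
      ((n * ∑ a ∈ Finset.range n, ‖c a‖ ^ 2 : ℝ) : ℂ) := by
    rw [Complex.ofReal_sum, Complex.ofReal_mul, Complex.ofReal_sum]
    simp only [key, map_sum, Finset.sum_mul_sum]
    rw [Finset.sum_comm, Complex.ofReal_natCast, Finset.mul_sum]
    refine Finset.sum_congr rfl fun a ha => ?_
    rw [Finset.sum_comm]
    have h2 : ∀ b ∈ Finset.range n, ∑ j ∈ Finset.range n,
        c a * ζ ^ (j * a) * conj (c b * ζ ^ (j * b)) = if a = b then (n : ℂ) * (c a * conj (c b)) else 0 := by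
      intro b hb
      have h3 := lift_geom n hn ζ hζ a b (Finset.mem_range.1 ha) (Finset.mem_range.1 hb)
      have h4 : ∀ j ∈ Finset.range n, c a * ζ ^ (j * a) * conj (c b * ζ ^ (j * b)) =
          (c a * conj (c b)) * (ζ ^ (j * a) * conj (ζ ^ (j * b))) := by
        intro j _
        rw [map_mul]
        ring
      rw [Finset.sum_congr rfl h4, ← Finset.mul_sum, h3]
      split_ifs <;> ring
    rw [Finset.sum_congr rfl h2, Finset.sum_ite_eq, if_pos ha]
  exact_mod_cast h1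

/-- a bounded polynomial on a circle -/
private theorem lift_poly (n : ℕ) (hn : 0 < n) (c : ℕ → ℂ) (s B : ℝ) (hs : 0 ≤ s) (hB : 0 ≤ B)
    (h : ∀ w : ℂ, ‖w‖ = s → ‖∑ a ∈ Finset.range n, c a * w ^ a‖ ≤ B) :
    ∑ a ∈ Finset.range n, ‖c a‖ ^ 2 * s ^ (2 * a) ≤ B ^ 2 := by
  have hζ := Complex.isPrimitiveRoot_exp n hn.ne'
  set ζ := Complex.exp (2 * Real.pi * Complex.I / n) with hζd
  have h1 := lift_parseval n hn ζ hζ (fun a => c a * (s : ℂ) ^ a)
  have h2 : ∀ j ∈ Finset.range n, ‖∑ a ∈ Finset.range n, c a * (s : ℂ) ^ a * ζ ^ (j * a)‖ ^ 2 ≤ B ^ 2 := by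
    intro j _
    have h3 : ∑ a ∈ Finset.range n, c a * (s : ℂ) ^ a * ζ ^ (j * a) =
        ∑ a ∈ Finset.range n, c a * ((s : ℂ) * ζ ^ j) ^ a := by
      refine Finset.sum_congr rfl fun a _ => ?_
      rw [mul_pow, ← pow_mul, mul_assoc]
    rw [h3]
    have h4 : ‖(s : ℂ) * ζ ^ j‖ = s := by
      rw [norm_mul, norm_pow, hζ.norm'_eq_one hn.ne', one_pow, mul_one, Complex.norm_real,
        Real.norm_of_nonneg hs]
    exact pow_le_pow_left₀ (norm_nonneg _) (h _ h4) 2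
  have h5 := Finset.sum_le_sum h2
  rw [h1, Finset.sum_const, Finset.card_range, nsmul_eq_mul] at h5
  have hn' : (0 : ℝ) < n := by exact_mod_cast hn
  have h6 := le_of_mul_le_mul_left h5 hn'
  refine le_trans (le_of_eq ?_) h6
  refine Finset.sum_congr rfl fun a _ => ?_
  rw [norm_mul, norm_pow, Complex.norm_real, Real.norm_of_nonneg hs, mul_pow, ← pow_mul, mul_comm a 2]

private theorem lift_coef (g : ℂ → ℂ) (c : ℕ → ℂ) (M : ℝ) (hM : 0 ≤ M)
    (hg : ∀ w : ℂ, ‖w‖ < 1 → ‖g w‖ ≤ M)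
    (hc : ∀ w : ℂ, ‖w‖ < 1 → HasSum (fun a => c a * w ^ a) (g w)) (m : ℕ) :
    ∑ a ∈ Finset.range m, ‖c a‖ ^ 2 ≤ M ^ 2 := by
  -- bound on circles
  have h1 : ∀ s : ℝ, 0 ≤ s → s < 1 → ∑ a ∈ Finset.range m, ‖c a‖ ^ 2 * s ^ (2 * a) ≤ M ^ 2 := by
    intro s hs hs1
    -- summability of the norms
    have hsum : Summable (fun a => ‖c a‖ * s ^ a) := by
      have hx := (hc (s : ℂ) (by rw [Complex.norm_real, Real.norm_of_nonneg hs]; exact hs1)).summable.norm
      refine hx.congr fun a => ?_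
      rw [norm_mul, norm_pow, Complex.norm_real, Real.norm_of_nonneg hs]
    have h2 : ∀ ε > 0, ∑ a ∈ Finset.range m, ‖c a‖ ^ 2 * s ^ (2 * a) ≤ (M + ε) ^ 2 := by
      intro ε hε
      have h3 := hsum.hasSum.tendsto_sum_nat
      obtain ⟨N, hN⟩ := (Metric.tendsto_atTop.1 h3) ε hε
      let n := max (max N m) 1
      have hn : 0 < n := lt_of_lt_of_le one_pos (le_max_right _ _)
      have hnN : N ≤ n := (le_max_left _ _).trans (le_max_left _ _)
      have hnm : m ≤ n := (le_max_right _ _).trans (le_max_left _ _)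
      have h4 : ∀ w : ℂ, ‖w‖ = s → ‖∑ a ∈ Finset.range n, c a * w ^ a‖ ≤ M + ε := by
        intro w hw
        have hw1 : ‖w‖ < 1 := by rw [hw]; exact hs1
        have h5 := hc w hw1
        have h6 : ‖g w - ∑ a ∈ Finset.range n, c a * w ^ a‖ ≤ ε := by
          have h7 := h5.summable.sum_add_tsum_nat_add n
          rw [h5.tsum_eq] at h7
          rw [← h7, add_sub_cancel_left]
          have h8 : Summable (fun a => ‖c (a + n) * w ^ (a + n)‖) := by
            have := (summable_nat_add_iff n).2 hsum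
            refine this.congr fun a => ?_
            rw [norm_mul, norm_pow, hw]
          refine (norm_tsum_le_tsum_norm h8).trans ?_
          have h9 := hsum.sum_add_tsum_nat_add n
          have h10 := hN n hnN
          rw [Real.dist_eq, abs_sub_comm, ← h9, add_sub_cancel_left] at h10
          have h11 : ∀ a, ‖c (a + n) * w ^ (a + n)‖ = ‖c (a + n)‖ * s ^ (a + n) := by
            intro a
            rw [norm_mul, norm_pow, hw]
          rw [tsum_congr h11]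
          exact (le_abs_self _).trans h10.le
        calc ‖∑ a ∈ Finset.range n, c a * w ^ a‖ = ‖g w - (g w - ∑ a ∈ Finset.range n, c a * w ^ a)‖ := by
              rw [sub_sub_cancel]
          _ ≤ ‖g w‖ + ‖g w - ∑ a ∈ Finset.range n, c a * w ^ a‖ := norm_sub_le _ _
          _ ≤ M + ε := add_le_add (hg w hw1) h6
      refine le_trans ?_ (lift_poly n hn c s (M + ε) hs (by positivity) h4)
      refine Finset.sum_le_sum_of_subset_of_nonneg (Finset.range_mono hnm) fun a _ _ => ?_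
      positivity
    have h12 : Tendsto (fun ε : ℝ => (M + ε) ^ 2) (𝓝[>] 0) (𝓝 ((M + 0) ^ 2)) := by
      apply Filter.Tendsto.mono_left _ nhdsWithin_le_nhds
      exact ((continuous_const.add continuous_id).pow 2).tendsto 0
    rw [add_zero] at h12
    exact ge_of_tendsto h12 (eventually_nhdsWithin_of_forall fun ε hε => h2 ε hε)
  have h13 : Tendsto (fun s : ℝ => ∑ a ∈ Finset.range m, ‖c a‖ ^ 2 * s ^ (2 * a)) (𝓝[<] 1)
      (𝓝 (∑ a ∈ Finset.range m, ‖c a‖ ^ 2 * (1 : ℝ) ^ (2 * a))) := by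
    apply Filter.Tendsto.mono_left _ nhdsWithin_le_nhds
    have : Continuous (fun s : ℝ => ∑ a ∈ Finset.range m, ‖c a‖ ^ 2 * s ^ (2 * a)) := by fun_prop
    exact this.tendsto 1
  simp only [one_pow, mul_one] at h13
  refine le_of_tendsto h13 ?_
  have h14 : ∀ᶠ s : ℝ in 𝓝[<] 1, 0 ≤ s := by
    apply nhdsWithin_le_nhds
    exact (eventually_gt_nhds (show (0 : ℝ) < 1 by norm_num)).mono fun s hs => hs.le
  filter_upwards [h14, self_mem_nhdsWithin] with s hs hs1
  exact h1 s hs hs1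

theorem piece_lift (h1 : S_ker) : S_lift := by
  intro g hg M hM hgM
  obtain ⟨-, -, h3, -⟩ := h1
  let c : ℕ → ℂ := fun a => (a.factorial : ℂ)⁻¹ * iteratedDeriv a g 0
  have hc : ∀ w : ℂ, ‖w‖ < 1 → HasSum (fun a => c a * w ^ a) (g w) := by
    intro w hw
    have h4 := Complex.hasSum_taylorSeries_on_ball hg (z := w) (by simpa using hw)
    refine h4.congr_fun ?_
    intro a
    simp only [sub_zero, smul_eq_mul, c]
    ring
  have hsum := lift_coef g c M hM hgM hc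
  let G0 : ℕ × ℕ → ℂ := fun p => if p.2 = 0 then c p.1 else 0
  have hG : ∀ s : Finset (ℕ × ℕ), ∑ p ∈ s, ‖G0 p‖ ^ 2 ≤ M ^ 2 := by
    intro s
    obtain ⟨m, hm⟩ : ∃ m, ∀ p ∈ s, p.1 < m := by
      refine ⟨s.sup (fun p => p.1 + 1), fun p hp => ?_⟩
      exact Nat.lt_of_succ_le (Finset.le_sup (f := fun p : ℕ × ℕ => p.1 + 1) hp)
    calc ∑ p ∈ s, ‖G0 p‖ ^ 2 ≤ ∑ p ∈ (Finset.range m) ×ˢ (insert 0 (s.image Prod.snd)), ‖G0 p‖ ^ 2 := by
          refine Finset.sum_le_sum_of_subset_of_nonneg ?_ fun p _ _ => by positivity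
          intro p hp
          rw [Finset.mem_product]
          exact ⟨Finset.mem_range.2 (hm p hp), Finset.mem_insert_of_mem (Finset.mem_image_of_mem _ hp)⟩
      _ = ∑ a ∈ Finset.range m, ∑ b ∈ insert 0 (s.image Prod.snd), ‖G0 (a, b)‖ ^ 2 := Finset.sum_product _ _ _
      _ = ∑ a ∈ Finset.range m, ‖c a‖ ^ 2 := by
          refine Finset.sum_congr rfl fun a _ => ?_
          rw [Finset.sum_eq_single_of_mem 0 (Finset.mem_insert_self _ _)]
          · simp [G0]
          · intro b _ hb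
            simp [G0, hb]
      _ ≤ M ^ 2 := hsum m
  have h2 : (2 : ENNReal).toReal = 2 := by simp
  have hmem : Memℓp G0 2 := by
    refine memℓp_gen' (C := M ^ 2) fun s => ?_
    rw [h2]
    have := hG s
    exact_mod_cast this
  refine ⟨⟨G0, hmem⟩, ?_, ?_⟩
  · refine lp.norm_le_of_forall_sum_le (by rw [h2]; norm_num) hM fun s => ?_
    rw [h2]
    have := hG s
    exact_mod_cast this
  · intro z hz
    have hz1 : ‖z.1‖ < 1 := by
      have h5 : ‖z.1‖ ^ 2 + ‖z.2‖ ^ 2 < 1 := hz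
      have h6 : ‖z.1‖ ^ 2 < 1 := by nlinarith [sq_nonneg ‖z.2‖]
      exact (sq_lt_one_iff₀ (norm_nonneg _)).1 h6
    have h7 := h3 z hz ⟨G0, hmem⟩
    have h8 := hc z.1 hz1
    have hinj : Function.Injective (fun a : ℕ => ((a, 0) : ℕ × ℕ)) := by
      intro a b h
      exact congrArg Prod.fst h
    have h9 := (hinj.hasSum_iff (f := fun p : ℕ × ℕ => (wt p : ℂ) * z.1 ^ p.1 * z.2 ^ p.2 *
        (⟨G0, hmem⟩ : HH) p) (a := ev ⟨G0, hmem⟩ z) (by
      rintro ⟨a, b⟩ hab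
      have hb : b ≠ 0 := by
        intro h
        apply hab
        exact ⟨a, by rw [h]⟩
      change (wt (a, b) : ℂ) * z.1 ^ a * z.2 ^ b * G0 (a, b) = 0
      simp [G0, hb])).2 h7
    refine h9.unique ?_
    refine h8.congr_fun ?_
    intro a
    change (wt (a, 0) : ℂ) * z.1 ^ a * z.2 ^ 0 * G0 (a, 0) = c a * z.1 ^ a
    simp [G0, wt]
    ring

end

end DA91
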