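import Pool.Agent.Lib.MP_e91a1a_an.DA.Stm3

open scoped ComplexConjugate Topology ComplexOrder
open Filter DruryArveson

namespace DA91

noncomputable section

private lemma liftMul_pr_mem {d : ℕ} (hd : 2 ≤ d) (z : Ball d) :
    pr hd (z : EuclideanSpace ℂ (Fin d)) ∈ BB := by
  have hz : ‖(z : EuclideanSpace ℂ (Fin d))‖ < 1 := mem_ball_zero_iff.1 z.2
  have hz2 : ‖(z : EuclideanSpace ℂ (Fin d))‖ ^ 2 < 1 := by
    nlinarith [norm_nonneg (z : EuclideanSpace ℂ (Fin d))]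
  rw [EuclideanSpace.norm_sq_eq] at hz2
  have hne : (⟨0, by omega⟩ : Fin d) ≠ ⟨1, by omega⟩ := by
    intro h
    have := congrArg Fin.val h
    simp at this
  have hle : ∑ i ∈ ({⟨0, by omega⟩, ⟨1, by omega⟩} : Finset (Fin d)),
      ‖(z : EuclideanSpace ℂ (Fin d)) i‖ ^ 2 ≤ ∑ i, ‖(z : EuclideanSpace ℂ (Fin d)) i‖ ^ 2 :=
    Finset.sum_le_sum_of_subset_of_nonneg (Finset.subset_univ _) (fun _ _ _ => by positivity)
  rw [Finset.sum_pair hne] at hle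
  exact lt_of_le_of_lt hle hz2

private lemma liftMul_kip_lt {z w : ℂ × ℂ} (hz : z ∈ BB) (hw : w ∈ BB) : ‖kip z w‖ < 1 := by
  have hz' : ‖z.1‖ ^ 2 + ‖z.2‖ ^ 2 < 1 := hz
  have hw' : ‖w.1‖ ^ 2 + ‖w.2‖ ^ 2 < 1 := hw
  have h1 : ‖kip z w‖ ≤ ‖z.1‖ * ‖w.1‖ + ‖z.2‖ * ‖w.2‖ := by
    refine (norm_add_le _ _).trans ?_
    rw [norm_mul, norm_mul, RCLike.norm_conj, RCLike.norm_conj]
  have h2 : ‖z.1‖ * ‖w.1‖ + ‖z.2‖ * ‖w.2‖ < 1 := by
    nlinarith [sq_nonneg (‖z.1‖ - ‖w.1‖), sq_nonneg (‖z.2‖ - ‖w.2‖)]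
  exact lt_of_le_of_lt h1 h2

/-- [F4] Lifting contractive multipliers from `d = 2` to `d ≥ 2`. -/
theorem piece_liftMul (h1 : S_psd) (h2 : S_psdMul) (h3 : S_mulPsd) : S_liftMul := by
  intro d hd H _ _ _ _ hH m hm
  refine h2 d H hH (fun z : Ball d => m (pr hd z)) 1 zero_le_one ?_
  let e : Ball d → BB := fun z => ⟨pr hd z, liftMul_pr_mem hd z⟩
  have hA := (h3 m hm).submatrix e
  have hB := (h1 d).2.2 hd
  have hAB := hA.hadamard hB
  have hE : (Matrix.of fun z w : Ball d => (((1 : ℝ) ^ 2 : ℝ) - m (pr hd z) * conj (m (pr hd w))) * Kd d z w)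
      = Matrix.hadamard ((Matrix.of fun z w : BB => (1 - m z * conj (m w)) * (1 / (1 - kip z w))).submatrix e e)
        (Matrix.of fun z w : Ball d => (1 - kip (pr hd z) (pr hd w)) * Kd d z w) := by
    ext z w
    have hne : (1 : ℂ) - kip (pr hd z) (pr hd w) ≠ 0 := by
      intro h
      have h4 := liftMul_kip_lt (liftMul_pr_mem hd z) (liftMul_pr_mem hd w)
      rw [← sub_eq_zero.1 h, norm_one] at h4
      exact lt_irrefl _ h4
    show (((1 : ℝ) ^ 2 : ℝ) - m (pr hd z) * conj (m (pr hd w))) * Kd d z w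
      = ((1 - m (pr hd z) * conj (m (pr hd w))) * (1 / (1 - kip (pr hd z) (pr hd w)))) *
        ((1 - kip (pr hd z) (pr hd w)) * Kd d z w)
    rw [one_pow, Complex.ofReal_one]
    field_simp
  rw [hE]
  exact hAB

end

end DA91
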