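import Pool.Agent.Lib.MP_e91a1a_an.DA.Stm

/-!
# MP_e91a1a_an : bounded and pointwise convergent sequences converge weakly (piece A5)
-/

open scoped ComplexConjugate Topology
open Filter

namespace DA91

noncomputable section

private theorem lim_dense (h2 : S_inj) :
    (Submodule.span ℂ (ker '' BB)).topologicalClosure = ⊤ := by
  rw [Submodule.topologicalClosure_eq_top_iff, Submodule.eq_bot_iff]
  intro F hF
  refine h2 F fun z hz => ?_
  exact (Submodule.mem_orthogonal _ _).1 hF (ker z) (Submodule.subset_span ⟨z, hz, rfl⟩)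

private theorem lim_span {F : ℕ → HH} {g : ℂ × ℂ → ℂ}
    (hg : ∀ z ∈ BB, Tendsto (fun n => ev (F n) z) atTop (𝓝 (g z))) (K : HH)
    (hK : K ∈ Submodule.span ℂ (ker '' BB)) : CauchySeq (fun n => inner ℂ K (F n)) := by
  suffices h : ∃ c : ℂ, Tendsto (fun n => inner ℂ K (F n)) atTop (𝓝 c) by
    obtain ⟨c, hc⟩ := h
    exact hc.cauchySeq
  induction hK using Submodule.span_induction with
  | mem x hx =>
    obtain ⟨z, hz, rfl⟩ := hx
    exact ⟨g z, hg z hz⟩
  | zero => exact ⟨0, by simp⟩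
  | add x y _ _ hx hy =>
    obtain ⟨c, hc⟩ := hx
    obtain ⟨d, hd⟩ := hy
    refine ⟨c + d, ?_⟩
    have h := hc.add hd
    refine h.congr fun n => ?_
    rw [inner_add_left]
  | smul a x _ hx =>
    obtain ⟨c, hc⟩ := hx
    refine ⟨conj a * c, ?_⟩
    have h := hc.const_mul (conj a)
    refine h.congr fun n => ?_
    rw [inner_smul_left]

private theorem lim_cauchy (h2 : S_inj) {C : ℝ} {F : ℕ → HH} (hF : ∀ n, ‖F n‖ ≤ C)
    {g : ℂ × ℂ → ℂ} (hg : ∀ z ∈ BB, Tendsto (fun n => ev (F n) z) atTop (𝓝 (g z))) (K : HH) :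
    CauchySeq (fun n => inner ℂ K (F n)) := by
  have hC : 0 ≤ C := (norm_nonneg _).trans (hF 0)
  rw [Metric.cauchySeq_iff']
  intro ε hε
  have hmem : K ∈ closure ((Submodule.span ℂ (ker '' BB) : Submodule ℂ HH) : Set HH) := by
    rw [← Submodule.topologicalClosure_coe, lim_dense h2]
    exact Set.mem_univ _
  have hδ : 0 < ε / (3 * (C + 1)) := by positivity
  obtain ⟨K', hK', hd⟩ := Metric.mem_closure_iff.1 hmem _ hδ
  obtain ⟨N, hN⟩ := Metric.cauchySeq_iff'.1 (lim_span hg K' hK') (ε / 3) (by positivity)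
  have key : ∀ n, ‖inner ℂ K (F n) - inner ℂ K' (F n)‖ ≤ ε / 3 := by
    intro n
    rw [← inner_sub_left]
    refine (norm_inner_le_norm _ _).trans ?_
    rw [dist_eq_norm] at hd
    calc ‖K - K'‖ * ‖F n‖ ≤ ε / (3 * (C + 1)) * C :=
          mul_le_mul hd.le (hF n) (norm_nonneg _) hδ.le
      _ ≤ ε / (3 * (C + 1)) * (C + 1) := mul_le_mul_of_nonneg_left (by linarith) hδ.le
      _ = ε / 3 := by field_simp
  refine ⟨N, fun n hn => ?_⟩
  have h3 := hN n hn
  rw [dist_eq_norm] at h3 ⊢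
  have h4 : inner ℂ K (F n) - inner ℂ K (F N) = (inner ℂ K (F n) - inner ℂ K' (F n)) +
      (inner ℂ K' (F n) - inner ℂ K' (F N)) - (inner ℂ K (F N) - inner ℂ K' (F N)) := by ring
  rw [h4]
  have h5 := norm_sub_le ((inner ℂ K (F n) - inner ℂ K' (F n)) +
      (inner ℂ K' (F n) - inner ℂ K' (F N))) (inner ℂ K (F N) - inner ℂ K' (F N))
  have h6 := norm_add_le (inner ℂ K (F n) - inner ℂ K' (F n))
      (inner ℂ K' (F n) - inner ℂ K' (F N))
  have h7 := key n
  have h8 := key N
  linarith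

theorem piece_lim (h2 : S_inj) : S_lim := by
  intro C F hF g hg
  have hC : 0 ≤ C := (norm_nonneg _).trans (hF 0)
  have hconv : ∀ K : HH, ∃ c : ℂ, Tendsto (fun n => inner ℂ (F n) K) atTop (𝓝 c) := by
    intro K
    obtain ⟨c, hc⟩ := cauchySeq_tendsto_of_complete (lim_cauchy h2 hF hg K)
    refine ⟨conj c, ?_⟩
    have h := (Complex.continuous_conj.tendsto c).comp hc
    refine h.congr fun n => ?_
    simp only [Function.comp_apply]
    rw [inner_conj_symm]
  choose ℓ hℓ using hconv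
  let T : ℕ → (HH →L[ℂ] ℂ) := fun n => InnerProductSpace.toDual ℂ HH (F n)
  have hT : ∀ n K, T n K = inner ℂ (F n) K := fun n K => InnerProductSpace.toDual_apply_apply
  have hlim : Tendsto (fun n K => T n K) atTop (𝓝 ℓ) := by
    rw [tendsto_pi_nhds]
    intro K
    exact hℓ K
  let L : HH →L[ℂ] ℂ := continuousLinearMapOfTendsto T hlim
  have hL : ∀ K, L K = ℓ K := fun _ => rfl
  let G : HH := (InnerProductSpace.toDual ℂ HH).symm L
  have hG : ∀ K, inner ℂ G K = ℓ K := fun K => InnerProductSpace.toDual_symm_apply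
  have hG' : ∀ K : HH, Tendsto (fun n => inner ℂ K (F n)) atTop (𝓝 (inner ℂ K G)) := by
    intro K
    have h := (Complex.continuous_conj.tendsto (ℓ K)).comp (hℓ K)
    rw [← hG K, inner_conj_symm] at h
    refine h.congr fun n => ?_
    simp only [Function.comp_apply]
    rw [inner_conj_symm]
  refine ⟨G, ?_, ?_, hG'⟩
  · have h1 : ‖G‖ = ‖L‖ := LinearIsometryEquiv.norm_map _ _
    rw [h1]
    refine ContinuousLinearMap.opNorm_le_bound _ hC fun K => ?_
    rw [hL]
    refine le_of_tendsto (hℓ K).norm (Eventually.of_forall fun n => ?_)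
    exact (norm_inner_le_norm _ _).trans (mul_le_mul_of_nonneg_right (hF n) (norm_nonneg _))
  · intro z hz
    exact tendsto_nhds_unique (hG' (ker z)) (hg z hz)

end

end DA91
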