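import Pool.Agent.Lib.MP_e91a1a_an.DA.Stm2

open scoped ComplexConjugate Topology
open Filter

namespace DA91

/-- the zero vector point lies in the ball -/
private lemma zero_mem : (0 : ℂ × ℂ) ∈ BB := by simp [BB]

theorem piece_main (h1 : S_ker) (h2 : S_inj) (h3 : S_diff) (h4 : S_mulAlg) (h5 : S_vec) (h6 : S_conv)
    (h7 : S_dense) : S_main := by
  obtain ⟨f, hf0, hfcyc, δ₀, hδ₀, hbad⟩ := h5
  obtain ⟨θ, hθ, hfθ, hθ2, hχ⟩ := h6 f
  obtain ⟨hc, hprod, hadd, hcongr, hmono, hbd⟩ := h4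
  have hm0 : ∀ z ∈ BB, ev f z * θ z ≠ 0 := fun z hz => mul_ne_zero (hf0 z hz) (hθ z hz).1
  -- approximation of `one`
  have hone : ∀ ε > 0, ∃ F G : HH, (∀ z ∈ BB, ev G z = (ev f z * θ z) * ev F z) ∧ ‖G - one‖ ≤ ε := by
    intro ε hε
    obtain ⟨χ, C, hC0, hχm, G0, hG0, hG0n⟩ := hχ (ε / 2) (by positivity)
    -- multiplier χ θ with constant 2 C
    have hχθ : Mul (fun z => χ z * θ z) (C * 2) := hprod χ θ C 2 hχm hθ2 hC0 (by norm_num)
    obtain ⟨m, Cm, hCm0, hm, G1, hG1, hG1n⟩ := hfcyc (ε / (2 * (C * 2 + 1))) (by positivity)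
    -- F = χ m one
    have hχmm : Mul (fun z => χ z * m z) (C * Cm) := hprod χ m C Cm hχm hm hC0 hCm0
    obtain ⟨F, -, hF⟩ := hχmm one
    -- G = χ θ G1
    obtain ⟨G, -, hG⟩ := hχθ G1
    refine ⟨F, G, ?_, ?_⟩
    · intro z hz
      rw [hG z hz, hF z hz, hG1 z hz, h1.2.2.2.1 z hz]
      ring
    · -- G - one = χθ (G1 - one) + (G0 - one)
      obtain ⟨D, hDn, hD⟩ := hχθ (G1 - one)
      have hsub : ∀ (A B : HH) (z : ℂ × ℂ), ev (A - B) z = ev A z - ev B z := by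
        intro A B z
        simp [ev]
      have hadd' : ∀ (A B : HH) (z : ℂ × ℂ), ev (A + B) z = ev A z + ev B z := by
        intro A B z
        simp [ev]
      have key : G - one = D + (G0 - one) := by
        have : G - one - (D + (G0 - one)) = 0 := by
          apply h2
          intro z hz
          rw [hsub, hsub, hadd', hsub, hG z hz, hD z hz, hsub, hG0 z hz, h1.2.2.2.1 z hz]
          ring
        exact sub_eq_zero.mp this
      rw [key]
      have h2C : 0 < C * 2 + 1 := by positivity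
      calc ‖D + (G0 - one)‖ ≤ ‖D‖ + ‖G0 - one‖ := norm_add_le _ _
        _ ≤ C * 2 * ‖G1 - one‖ + ε / 2 := by gcongr
        _ ≤ C * 2 * (ε / (2 * (C * 2 + 1))) + ε / 2 := by gcongr
        _ ≤ ε / 2 + ε / 2 := by
            gcongr
            rw [mul_div_assoc', div_le_div_iff₀ (by positivity) (by norm_num)]
            nlinarith
        _ = ε := by ring
  refine ⟨fun z => ev f z * θ z, hfθ, hm0, h7 _ hone, Real.exp (-δ₀), by
    rw [Real.exp_lt_one_iff]; linarith, ?_⟩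
  intro φ hφd hφ0 ⟨C, hφC⟩ hφm
  -- the vector representing m
  obtain ⟨Mv, -, hMv⟩ := hfθ one
  have hMv' : ∀ z ∈ BB, ev Mv z = ev f z * θ z := by
    intro z hz
    rw [hMv z hz, h1.2.2.2.1 z hz, mul_one]
  have hdiff : DifferentiableOn ℂ (fun z => φ z * (ev f z * θ z)) BB := by
    have : DifferentiableOn ℂ (fun z => φ z * ev Mv z) BB := hφd.mul (h3 Mv)
    exact this.congr (fun z hz => by rw [hMv' z hz])
  refine hbad (fun z => φ z * (ev f z * θ z)) ⟨hdiff, fun z hz => ⟨mul_ne_zero (hφ0 z hz) (hm0 z hz), hφm z hz⟩⟩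
    ⟨C * 2, fun z hz => ?_⟩
  have hC : 0 ≤ C := (norm_nonneg _).trans (hφC 0 zero_mem)
  calc ‖φ z * (ev f z * θ z)‖ = ‖φ z‖ * (‖ev f z‖ * ‖θ z‖) := by rw [norm_mul, norm_mul]
    _ ≤ C * (‖ev f z‖ * 2) := by
        gcongr
        · exact hφC z hz
        · exact (hθ z hz).2
    _ = C * 2 * ‖ev f z‖ := by ring

end DA91
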