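import Pool.Agent.Lib.MP_e91a1a_an.DA.Stm

/-! [A7] Algebra of multipliers. -/

open scoped ComplexConjugate Topology
open Filter

namespace DA91

noncomputable section

private theorem mulAlg_mul (m m' : ℂ × ℂ → ℂ) (C C' : ℝ) (h : Mul m C) (h' : Mul m' C')
    (hC : 0 ≤ C) : Mul (fun z => m z * m' z) (C * C') := by
  intro F
  obtain ⟨G', h1, h2⟩ := h' F
  obtain ⟨G, h3, h4⟩ := h G'
  refine ⟨G, ?_, fun z hz => ?_⟩
  · calc ‖G‖ ≤ C * ‖G'‖ := h3
      _ ≤ C * (C' * ‖F‖) := mul_le_mul_of_nonneg_left h1 hC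
      _ = C * C' * ‖F‖ := by ring
  · rw [h4 z hz, h2 z hz]; ring

private theorem mulAlg_const (c : ℂ) : Mul (fun _ => c) ‖c‖ := by
  intro F
  refine ⟨c • F, (norm_smul c F).le, fun z _ => ?_⟩
  unfold ev
  rw [inner_smul_right]

private theorem mulAlg_pow (m : ℂ × ℂ → ℂ) (C : ℝ) (h : Mul m C) (hC : 0 ≤ C) (n : ℕ) :
    Mul (fun z => m z ^ n) (C ^ n) := by
  induction n with
  | zero =>
    have := mulAlg_const 1
    rw [norm_one] at this
    simpa using this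
  | succ n ih =>
    have := mulAlg_mul m (fun z => m z ^ n) C (C ^ n) h ih hC
    intro F
    obtain ⟨G, h1, h2⟩ := this F
    refine ⟨G, ?_, fun z hz => ?_⟩
    · rw [pow_succ']; exact h1
    · rw [h2 z hz]
      change m z * m z ^ n * ev F z = m z ^ (n + 1) * ev F z
      rw [pow_succ']

theorem piece_mulAlg (h1 : S_ker) (h2 : S_inj) : S_mulAlg := by
  have _ := h2
  obtain ⟨-, -, -, hone, hnorm, -, -⟩ := h1
  refine ⟨mulAlg_const, fun m m' C C' h h' hC _ => mulAlg_mul m m' C C' h h' hC, ?_, ?_, ?_, ?_⟩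
  · intro m m' C C' h h' F
    obtain ⟨G, h1, h2⟩ := h F
    obtain ⟨G', h3, h4⟩ := h' F
    refine ⟨G + G', ?_, fun z hz => ?_⟩
    · calc ‖G + G'‖ ≤ ‖G‖ + ‖G'‖ := norm_add_le _ _
        _ ≤ C * ‖F‖ + C' * ‖F‖ := add_le_add h1 h3
        _ = (C + C') * ‖F‖ := by ring
    · have h5 : ev (G + G') z = ev G z + ev G' z := by
        unfold ev
        rw [inner_add_right]
      rw [h5, h2 z hz, h4 z hz]; ring
  · intro m m' C h hm F
    obtain ⟨G, h1, h2⟩ := h F
    exact ⟨G, h1, fun z hz => by rw [h2 z hz, hm z hz]⟩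
  · intro m C C' h hCC F
    obtain ⟨G, h1, h2⟩ := h F
    exact ⟨G, h1.trans (mul_le_mul_of_nonneg_right hCC (norm_nonneg F)), h2⟩
  · intro m C h hC z hz
    by_contra hlt
    rw [not_le] at hlt
    have hx : 0 < ‖m z‖ := lt_of_le_of_lt hC hlt
    have hb : ∀ n : ℕ, 1 ≤ ‖ker z‖ * (C / ‖m z‖) ^ n := by
      intro n
      obtain ⟨G, h3, h4⟩ := mulAlg_pow m C h hC n one
      have h5 := h4 z hz
      rw [hone z hz, mul_one] at h5
      have h6 : ‖ev G z‖ ≤ ‖ker z‖ * ‖G‖ := norm_inner_le_norm _ _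
      rw [h5, norm_pow] at h6
      rw [hnorm, mul_one] at h3
      have h7 : ‖m z‖ ^ n ≤ ‖ker z‖ * C ^ n :=
        h6.trans (mul_le_mul_of_nonneg_left h3 (norm_nonneg _))
      rw [div_pow, ← mul_div_assoc, le_div_iff₀ (pow_pos hx n), one_mul]
      exact h7
    have hlim : Tendsto (fun n : ℕ => ‖ker z‖ * (C / ‖m z‖) ^ n) atTop (𝓝 (‖ker z‖ * 0)) :=
      (tendsto_pow_atTop_nhds_zero_of_lt_one (div_nonneg hC hx.le)
        ((div_lt_one hx).2 hlt)).const_mul _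
    rw [mul_zero] at hlim
    have := ge_of_tendsto hlim (Eventually.of_forall hb)
    linarith

end

end DA91
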