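import Pool.Agent.Lib.MP_e91a1a_an.DA.Stm

open scoped ComplexConjugate Topology Nat
open Filter

namespace DA91

private theorem pe_geo (r : ℝ) (hr : 0 < r) (hr1 : r < 1) (w : ℂ) (hw : ‖w‖ ≤ 1) :
    HasSum (fun k : ℕ => (r : ℂ) ^ k * w ^ k) (1 - r * w)⁻¹ := by
  have h : ‖(r : ℂ) * w‖ < 1 := by
    rw [norm_mul, Complex.norm_real, Real.norm_of_nonneg hr.le]
    nlinarith [norm_nonneg w]
  simpa [mul_pow] using hasSum_geometric_of_norm_lt_one h

private theorem pe_geo' (r : ℝ) (hr : 0 < r) (hr1 : r < 1) (c : ℝ) :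
    HasSum (fun k : ℕ => c * r ^ k) (c * (1 - r)⁻¹) :=
  (hasSum_geometric_of_lt_one hr.le hr1).mul_left c

private theorem pe_exp (h1 : S_mulAlg) (h2 : S_mulFC) (m : ℂ × ℂ → ℂ) (C : ℝ) (hm : Mul m C)
    (hC : 0 ≤ C) : Mul (fun z => Complex.exp (m z)) (Real.exp C) := by
  have hs : HasSum (fun k : ℕ => ‖((1 : ℂ) / (k ! : ℂ))‖ * C ^ k) (Real.exp C) := by
    have h3 := NormedSpace.expSeries_div_hasSum_exp (𝔸 := ℝ) C
    rw [← Real.exp_eq_exp_ℝ] at h3
    have e : (fun k : ℕ => ‖((1 : ℂ) / (k ! : ℂ))‖ * C ^ k) = fun k : ℕ => C ^ k / (k ! : ℝ) := by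
      funext k
      rw [norm_div, norm_one, Complex.norm_natCast]; ring
    rw [e]
    exact h3
  have h := h2 m C hm hC (fun k => (1 : ℂ) / (k ! : ℂ)) hs.summable
  rw [hs.tsum_eq] at h
  refine h1.2.2.2.1 _ _ _ h fun z _ => ?_
  have := NormedSpace.expSeries_div_hasSum_exp (𝔸 := ℂ) (m z)
  rw [← Complex.exp_eq_exp_ℂ] at this
  rw [← this.tsum_eq]
  refine tsum_congr fun k => ?_
  ring

private theorem pe_psi (h1 : S_mulAlg) (h2 : S_mulFC) (r : ℝ) (hr : 0 < r) (hr1 : r < 1)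
    (m : ℂ × ℂ → ℂ) (hm : Mul m 1) : Mul (fun z => psi r (m z)) (2 * r / (1 - r)) := by
  have hk : Mul (fun z => ∑' k : ℕ, (2 * r * (r : ℂ) ^ k) * m z ^ k) (2 * r / (1 - r)) := by
    have hs : HasSum (fun k : ℕ => ‖(2 * r * (r : ℂ) ^ k)‖ * (1 : ℝ) ^ k) (2 * r / (1 - r)) := by
      have := pe_geo' r hr hr1 (2 * r)
      rw [← div_eq_mul_inv] at this
      convert this using 2 with k
      rw [norm_mul, norm_mul, norm_pow, Complex.norm_real, Real.norm_of_nonneg hr.le]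
      simp
    have h := h2 m 1 hm zero_le_one (fun k : ℕ => (2 * r * (r : ℂ) ^ k)) hs.summable
    rwa [hs.tsum_eq] at h
  have hp := h1.2.1 m _ _ _ hm hk zero_le_one (by
    have : 0 < 1 - r := by linarith
    positivity)
  rw [one_mul] at hp
  refine h1.2.2.2.1 _ _ _ hp fun z hz => ?_
  have hz1 : ‖m z‖ ≤ 1 := h1.2.2.2.2.2 m 1 hm zero_le_one z hz
  have hg := (pe_geo r hr hr1 (m z) hz1).mul_left (2 * (r : ℂ))
  have e : ∑' k : ℕ, (2 * r * (r : ℂ) ^ k) * m z ^ k = 2 * (r : ℂ) * (1 - r * m z)⁻¹ := by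
    rw [← hg.tsum_eq]
    exact tsum_congr fun k => by ring
  simp only [e, psi]
  rw [div_eq_mul_inv]; ring

private theorem pe_E (u : ℂ) : Complex.exp u - 1 = u * ∑' k : ℕ, (1 / ((k + 1) ! : ℂ)) * u ^ k := by
  have h := NormedSpace.expSeries_div_hasSum_exp (𝔸 := ℂ) u
  rw [← Complex.exp_eq_exp_ℂ] at h
  have h' := (hasSum_nat_add_iff' (f := fun n : ℕ => u ^ n / (n ! : ℂ)) 1).2 h
  simp only [Finset.range_one, Finset.sum_singleton, pow_zero, Nat.factorial_zero, Nat.cast_one,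
    div_one] at h'
  rw [← h'.tsum_eq, ← tsum_mul_left]
  refine tsum_congr fun k => ?_
  rw [pow_succ]; ring

private theorem pe_sumE (U : ℝ) (hU : 0 ≤ U) :
    Summable (fun k : ℕ => ‖(1 / ((k + 1) ! : ℂ))‖ * U ^ k) := by
  have h : Summable (fun k : ℕ => U ^ k / (k ! : ℝ)) := Real.summable_pow_div_factorial U
  refine Summable.of_nonneg_of_le (fun k => by positivity) (fun k => ?_) h
  rw [norm_div, norm_one, Complex.norm_natCast, div_mul_eq_mul_div, one_mul]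
  have h1 : ((k ! : ℕ) : ℝ) ≤ (((k + 1) ! : ℕ) : ℝ) := by
    exact_mod_cast Nat.factorial_le (Nat.le_succ k)
  have h2 : (0 : ℝ) < ((k ! : ℕ) : ℝ) := by exact_mod_cast Nat.factorial_pos k
  exact div_le_div_of_nonneg_left (by positivity) h2 h1

/-- [A9] The special functions. -/
theorem piece_mulExp (h1 : S_mulAlg) (h2 : S_mulFC) : S_mulExp := by
  refine ⟨pe_exp h1 h2, fun r hr hr1 m hm => pe_psi h1 h2 r hr hr1 m hm, ?_⟩
  intro a r ha hr hr1
  set U : ℝ := ‖(-(a : ℂ))‖ * (2 * r / (1 - r)) with hUdef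
  have h1r : 0 < 1 - r := by linarith
  have hU : 0 ≤ U := by positivity
  have hs1 : Summable (fun k : ℕ => ‖(-(2 * a * r) * (r : ℂ) ^ k)‖ * (1 : ℝ) ^ k) := by
    have := (pe_geo' r hr hr1 (2 * a * r)).summable
    convert this using 2 with k
    rw [norm_mul, norm_neg, norm_mul, norm_mul, norm_pow, Complex.norm_real, Complex.norm_real,
      Real.norm_of_nonneg hr.le, Real.norm_of_nonneg ha.le]
    simp
  refine ⟨(∑' k : ℕ, ‖(-(2 * a * r) * (r : ℂ) ^ k)‖ * (1 : ℝ) ^ k) *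
      (∑' k : ℕ, ‖(1 / ((k + 1) ! : ℂ))‖ * U ^ k), ?_,
    fun w => (∑' k : ℕ, (-(2 * a * r) * (r : ℂ) ^ k) * w ^ k) *
      (∑' k : ℕ, (1 / ((k + 1) ! : ℂ)) * (-(a : ℂ) * psi r w) ^ k), ?_, ?_⟩
  · exact mul_nonneg (tsum_nonneg fun k => by positivity) (tsum_nonneg fun k => by positivity)
  · intro w hw
    have hg := (pe_geo r hr hr1 w hw.le).mul_left (-(2 * (a : ℂ) * r))
    have e : ∑' k : ℕ, (-(2 * a * r) * (r : ℂ) ^ k) * w ^ k =
        -(2 * (a : ℂ) * r) * (1 - r * w)⁻¹ := by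
      rw [← hg.tsum_eq]
      exact tsum_congr fun k => by ring
    have hx : Xf a r w = Complex.exp (-(a : ℂ) * psi r w) := rfl
    rw [hx, pe_E]
    beta_reduce
    rw [e]
    have hp : psi r w = 2 * r * w * (1 - r * w)⁻¹ := by simp only [psi]; rw [div_eq_mul_inv]
    generalize (∑' k : ℕ, (1 / ((k + 1) ! : ℂ)) * (-(a : ℂ) * psi r w) ^ k) = T
    rw [hp]; ring
  · intro m hm
    have hA : Mul (fun z => -(a : ℂ) * psi r (m z)) U :=
      h1.2.1 _ _ _ _ (h1.1 (-(a : ℂ))) (pe_psi h1 h2 r hr hr1 m hm) (norm_nonneg _)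
        (by positivity)
    have hB := h2 _ U hA hU (fun k : ℕ => (1 / ((k + 1) ! : ℂ))) (pe_sumE U hU)
    have hC := h2 m 1 hm zero_le_one (fun k : ℕ => (-(2 * a * r) * (r : ℂ) ^ k)) hs1
    exact h1.2.1 _ _ _ _ hC hB (tsum_nonneg fun k => by positivity)
      (tsum_nonneg fun k => by positivity)

end DA91
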