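import Pool.Agent.Lib.MP_e91a1a_an.DA.Stm

/-!
# MP_e91a1a_an : power series of multipliers [A8]
-/

open scoped ComplexConjugate Topology
open Filter

namespace DA91

private theorem mulFC_pow (h3 : S_mulAlg) (m : ℂ × ℂ → ℂ) (C : ℝ) (hm : Mul m C) (hC : 0 ≤ C)
    (k : ℕ) : Mul (fun z => m z ^ k) (C ^ k) := by
  obtain ⟨hc, hmul, -, -, -, -⟩ := h3
  induction k with
  | zero => simpa using hc 1
  | succ k ih =>
    have h := hmul _ _ _ _ ih hm (pow_nonneg hC k) hC
    simpa only [pow_succ] using h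

private theorem mulFC_sum (h3 : S_mulAlg) (m : ℂ × ℂ → ℂ) (C : ℝ) (hm : Mul m C) (hC : 0 ≤ C)
    (c : ℕ → ℂ) (n : ℕ) : Mul (fun z => ∑ k ∈ Finset.range n, c k * m z ^ k)
      (∑ k ∈ Finset.range n, ‖c k‖ * C ^ k) := by
  have hpow := mulFC_pow h3 m C hm hC
  obtain ⟨hc, hmul, hadd, -, -, -⟩ := h3
  induction n with
  | zero => simpa using hc 0
  | succ n ih =>
    have h1 := hmul _ _ _ _ (hc (c n)) (hpow n) (norm_nonneg _) (pow_nonneg hC n)
    have h2 := hadd _ _ _ _ ih h1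
    simpa only [Finset.sum_range_succ] using h2

theorem piece_mulFC (h3 : S_mulAlg) (h4 : S_mulLim) : S_mulFC := by
  intro m C hm hC c hs
  have hsum := mulFC_sum h3 m C hm hC c
  obtain ⟨-, -, -, -, hmono, hbd⟩ := h3
  refine h4 _ (fun n z => ∑ k ∈ Finset.range n, c k * m z ^ k) _ (fun n => ?_) fun z hz => ?_
  · refine hmono _ _ _ (hsum n) ?_
    exact hs.sum_le_tsum _ fun k _ => mul_nonneg (norm_nonneg _) (pow_nonneg hC k)
  · have hz' := hbd m C hm hC z hz
    have h5 : Summable (fun k => c k * m z ^ k) := by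
      refine Summable.of_norm_bounded hs fun k => ?_
      rw [norm_mul, norm_pow]
      exact mul_le_mul_of_nonneg_left (pow_le_pow_left₀ (norm_nonneg _) hz' k) (norm_nonneg _)
    exact h5.hasSum.tendsto_sum_nat

end DA91
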