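import Pool.Agent.Lib.MP_e91a1a_an.DA.Stm2

/-!
# [E1] Multiplication by the kernel function
-/

open scoped ComplexConjugate Topology
open Filter

namespace DA91

theorem piece_mulKer (_h1 : S_ker) (_h2 : S_inj) (h3 : S_ops) (h4 : S_mulAlg) (h5 : S_mulFC) :
    S_mulKer := by
  obtain ⟨M₁, M₂, hM1, hM2, hn, -⟩ := h3
  obtain ⟨-, -, -, hcongr, -, hbound⟩ := h4
  intro z hz
  have hz' : ‖z.1‖ ^ 2 + ‖z.2‖ ^ 2 < 1 := hz
  obtain ⟨ρ, hρ⟩ : ∃ ρ : ℝ, ρ = Real.sqrt (‖z.1‖ ^ 2 + ‖z.2‖ ^ 2) := ⟨_, rfl⟩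
  have hs0 : 0 ≤ ‖z.1‖ ^ 2 + ‖z.2‖ ^ 2 := by positivity
  have hρ0 : 0 ≤ ρ := by rw [hρ]; exact Real.sqrt_nonneg _
  have hρ2 : ρ ^ 2 = ‖z.1‖ ^ 2 + ‖z.2‖ ^ 2 := by rw [hρ]; exact Real.sq_sqrt hs0
  have hρ1 : ρ < 1 := by
    have : ρ ^ 2 < 1 := by rw [hρ2]; exact hz'
    exact (sq_lt_one_iff₀ hρ0).1 this
  have hm : Mul (fun u => kip u z) ρ := by
    intro F
    refine ⟨M₁ (conj z.1 • F) + M₂ (conj z.2 • F), ?_, fun u hu => ?_⟩
    · refine le_of_sq_le_sq ?_ (mul_nonneg hρ0 (norm_nonneg _))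
      refine (hn _ _).trans (le_of_eq ?_)
      rw [norm_smul, norm_smul, RCLike.norm_conj, RCLike.norm_conj, mul_pow, mul_pow, mul_pow, hρ2]
      ring
    · have e1 := hM1 (conj z.1 • F) u hu
      have e2 := hM2 (conj z.2 • F) u hu
      unfold ev at e1 e2 ⊢
      rw [inner_add_right, e1, e2, inner_smul_right, inner_smul_right]
      unfold kip
      ring
  have hsum : Summable fun k : ℕ => ‖(1 : ℂ)‖ * ρ ^ k := by
    simp only [norm_one, one_mul]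
    exact summable_geometric_of_lt_one hρ0 hρ1
  have hmul := h5 (fun u => kip u z) ρ hm hρ0 (fun _ => 1) hsum
  refine ⟨∑' k : ℕ, ‖(1 : ℂ)‖ * ρ ^ k, tsum_nonneg fun k => by positivity, ?_⟩
  refine hcongr _ _ _ hmul fun u hu => ?_
  have hb : ‖kip u z‖ < 1 := lt_of_le_of_lt (hbound _ _ hm hρ0 u hu) hρ1
  simp only [one_mul]
  rw [tsum_geometric_of_norm_lt_one hb, one_div]

end DA91
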