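import Pool.Agent.Lib.MP_e91a1a_an.DA.Stm

open scoped ComplexConjugate Topology
open Filter

namespace DA91

/-- [A6] Pointwise limits of multipliers. -/
theorem piece_mulLim (h1 : S_lim) : S_mulLim := by
  intro C m μ hm hμ F
  choose G hG hG' using fun n => hm n F
  obtain ⟨H, hH, hH', -⟩ := h1 (C * ‖F‖) G hG (fun z => μ z * ev F z) (by
    intro z hz
    have e : (fun n => ev (G n) z) = fun n => m n z * ev F z := by
      funext n; exact hG' n z hz
    rw [e]
    exact (hμ z hz).mul_const _)
  exact ⟨H, hH, hH'⟩

end DA91
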