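import Pool.Agent.Lib.MP_e91a1a_an.DA.Stm3

/-!
# MP_e91a1a_an : contractive multipliers of the model have positive semidefinite kernels
-/

open scoped ComplexConjugate Topology ComplexOrder
open Filter

namespace DA91

private theorem mulPsd_kip (z w : ℂ × ℂ) : conj (kip z w) = kip w z := by
  simp only [kip, map_add, map_mul, Complex.conj_conj]
  ring

private theorem mulPsd_gram (hK : ∀ z ∈ BB, ∀ w ∈ BB, inner ℂ (ker z) (ker w) = 1 / (1 - kip z w))
    (s : Finset BB) (a : BB → ℂ) :
    inner ℂ (∑ j ∈ s, a j • ker (j : ℂ × ℂ)) (∑ j ∈ s, a j • ker (j : ℂ × ℂ)) =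
      ∑ i ∈ s, ∑ j ∈ s, conj (a i) * a j * (1 / (1 - kip i j)) := by
  rw [sum_inner]
  refine Finset.sum_congr rfl fun i _ => ?_
  rw [inner_sum]
  refine Finset.sum_congr rfl fun j _ => ?_
  rw [inner_smul_left, inner_smul_right, hK _ i.2 _ j.2]
  ring

/-- [F3] -/
theorem piece_mulPsd (h1 : S_ker) (_h2 : S_inj) : S_mulPsd := by
  intro m hm
  obtain ⟨-, hK, -⟩ := h1
  refine ⟨?_, ?_⟩
  · ext z w
    simp only [Matrix.conjTranspose_apply, Matrix.of_apply, Complex.star_def, map_mul, map_sub,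
      map_one, map_div₀, Complex.conj_conj, mulPsd_kip]
    ring
  · intro x
    set A : HH := x.sum fun j xj => xj • ker (j : ℂ × ℂ) with hA
    set B : HH := x.sum fun j xj => (xj * conj (m j)) • ker (j : ℂ × ℂ) with hB
    have hev : ∀ (F : HH) (z : ℂ × ℂ), ev F z = inner ℂ (ker z) F := fun _ _ => rfl
    -- the value of the quadratic form
    have hval : (x.sum fun i xi => x.sum fun j xj => star xi *
        (Matrix.of fun z w : BB => (1 - m z * conj (m w)) * (1 / (1 - kip z w))) i j * xj) =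
        inner ℂ A A - inner ℂ B B := by
      rw [hA, hB, Finsupp.sum, Finsupp.sum, Finsupp.sum, mulPsd_gram hK, mulPsd_gram hK,
        ← Finset.sum_sub_distrib]
      refine Finset.sum_congr rfl fun i _ => ?_
      rw [Finsupp.sum, ← Finset.sum_sub_distrib]
      refine Finset.sum_congr rfl fun j _ => ?_
      simp only [map_mul, Complex.conj_conj, Complex.star_def, Matrix.of_apply]
      ring
    rw [hval]
    -- the inequality
    obtain ⟨G, hG1, hG2⟩ := hm B
    have hAG : inner ℂ A G = inner ℂ B B := by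
      simp only [hA, Finsupp.sum, sum_inner, inner_smul_left]
      conv_rhs => rw [hB, Finsupp.sum, sum_inner]
      refine Finset.sum_congr rfl fun j _ => ?_
      rw [← hev, hG2 _ j.2, hev, inner_smul_left, hB]
      simp only [map_mul, Complex.conj_conj]
      simp only [Finsupp.sum]
      ring
    have hBA : ‖B‖ ≤ ‖A‖ := by
      by_contra hc
      have hc : ‖A‖ < ‖B‖ := not_le.1 hc
      have hB0 : 0 < ‖B‖ := lt_of_le_of_lt (norm_nonneg _) hc
      have h3 : ‖B‖ ^ 2 ≤ ‖A‖ * ‖B‖ := by
        have h4 : ‖(inner ℂ A G : ℂ)‖ ≤ ‖A‖ * ‖G‖ := norm_inner_le_norm A G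
        rw [hAG, inner_self_eq_norm_sq_to_K] at h4
        simp only [Complex.coe_algebraMap, norm_pow, Complex.norm_real, norm_norm] at h4
        exact h4.trans (mul_le_mul_of_nonneg_left (by simpa using hG1) (norm_nonneg _))
      nlinarith
    rw [inner_self_eq_norm_sq_to_K, inner_self_eq_norm_sq_to_K]
    have h5 : ‖B‖ ^ 2 ≤ ‖A‖ ^ 2 := pow_le_pow_left₀ (norm_nonneg _) hBA 2
    simp only [Complex.coe_algebraMap]
    rw [← Complex.ofReal_pow, ← Complex.ofReal_pow, ← Complex.ofReal_sub]
    exact Complex.zero_le_real.2 (sub_nonneg.2 h5)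

end DA91
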