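import Pool.Agent.Lib.MP_e91a1a_an.DA.Stm

/-!
# [B3] `Y` and `β` are contractive multipliers
-/

open scoped ComplexConjugate Topology
open Filter

namespace DA91

private theorem mulY_BB_KK {z : ℂ × ℂ} (h : z ∈ BB) : z ∈ KK := by
  have h1 : ‖z.1‖ ^ 2 + ‖z.2‖ ^ 2 < 1 := h
  exact h1.le

private theorem mulY_delta_ne (nd : Node) (z : ℂ × ℂ) (hz : z ∈ BB) : nd.δ z ≠ 0 := by
  intro h
  have h1 := nd.gram z hz z hz
  rw [h, zero_mul, zero_mul] at h1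
  have h2 : kip (nd.Φ z) (nd.Φ z) = ((‖(nd.Φ z).1‖ ^ 2 + ‖(nd.Φ z).2‖ ^ 2 : ℝ) : ℂ) := by
    unfold kip
    rw [Complex.mul_conj, Complex.mul_conj, Complex.normSq_eq_norm_sq, Complex.normSq_eq_norm_sq]
    push_cast
    ring
  have h3 : ‖(nd.Φ z).1‖ ^ 2 + ‖(nd.Φ z).2‖ ^ 2 < 1 := nd.mapB z hz
  rw [h2] at h1
  have h4 : ((‖(nd.Φ z).1‖ ^ 2 + ‖(nd.Φ z).2‖ ^ 2 : ℝ) : ℂ) = 1 := (sub_eq_zero.1 h1.symm).symm
  have h5 : ‖(nd.Φ z).1‖ ^ 2 + ‖(nd.Φ z).2‖ ^ 2 = 1 := by exact_mod_cast h4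
  linarith

private theorem mulY_transport (h3 : S_unit) (nd : Node) (m : ℂ × ℂ → ℂ) (hm : Mul m 1) :
    Mul (fun u => m (nd.Ψ u)) 1 := by
  intro F
  obtain ⟨G1, hG1, hG1'⟩ := (h3 nd).1 F
  obtain ⟨G2, hG2, hG2'⟩ := hm G1
  obtain ⟨F3, hF3, hF3'⟩ := (h3 nd).2 G2
  refine ⟨F3, ?_, fun u hu => ?_⟩
  · rw [← hF3, ← hG1]
    exact hG2
  · have hz : nd.Ψ u ∈ BB := nd.mapB' u hu
    have h1 := hF3' (nd.Ψ u) hz
    have h2 := hG2' (nd.Ψ u) hz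
    have h4 := hG1' (nd.Ψ u) hz
    rw [nd.rinv u (mulY_BB_KK hu)] at h1 h4
    rw [h4, h1] at h2
    have h5 : nd.δ (nd.Ψ u) * ev F3 u = nd.δ (nd.Ψ u) * (m (nd.Ψ u) * ev F u) := by
      rw [h2]
      ring
    exact mul_left_cancel₀ (mulY_delta_ne nd _ hz) h5

theorem piece_mulY (_h1 : S_inj) (h2 : S_ops) (h3 : S_unit) : S_mulY := by
  obtain ⟨M₁, M₂, hM1, hM2, hn, -⟩ := h2
  intro nd
  have e1 : Mul (fun z => z.1) 1 := by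
    intro F
    refine ⟨M₁ F, ?_, hM1 F⟩
    have h := hn F 0
    rw [map_zero, add_zero, norm_zero] at h
    rw [one_mul]
    refine le_of_sq_le_sq ?_ (norm_nonneg _)
    simpa using h
  have e2 : Mul (fun z => z.2) 1 := by
    intro F
    refine ⟨M₂ F, ?_, hM2 F⟩
    have h := hn 0 F
    rw [map_zero, zero_add, norm_zero] at h
    rw [one_mul]
    refine le_of_sq_le_sq ?_ (norm_nonneg _)
    simpa using h
  exact ⟨mulY_transport h3 nd _ e1, mulY_transport h3 nd _ e2⟩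

end DA91
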