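import Pool.Agent.Lib.MP_e91a1a_an.DA.Stm

set_option autoImplicit false

/-!
# MP_e91a1a_an : the coordinate multiplication operators
-/

open scoped ComplexConjugate Topology
open Filter

namespace DA91

noncomputable section

private theorem ops_hasSum (F : HH) : HasSum (fun p => ‖F p‖ ^ 2) (‖F‖ ^ 2) := by
  have h := lp.hasSum_norm (E := fun _ : ℕ × ℕ => ℂ) (p := 2) (by norm_num) F
  simpa using h

private theorem ops_mem (f : ℕ × ℕ → ℂ) (h : Summable (fun p => ‖f p‖ ^ 2)) : Memℓp f 2 :=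
  memℓp_gen (by simpa using h)

private theorem ops_le {c : ℕ × ℕ → ℝ} (hc0 : ∀ p, 0 ≤ c p) (hc : ∀ p, c p ≤ 1) (x : ℂ)
    (p : ℕ × ℕ) : ‖(c p : ℂ) * x‖ ^ 2 ≤ ‖x‖ ^ 2 := by
  rw [norm_mul, Complex.norm_real, Real.norm_eq_abs, abs_of_nonneg (hc0 p), mul_pow]
  have h1 : c p ^ 2 ≤ 1 := pow_le_one₀ (hc0 p) (hc p)
  have h2 : 0 ≤ ‖x‖ ^ 2 := by positivity
  nlinarith

/-- weighted composition -/
private theorem ops_pull (τ : ℕ × ℕ → ℕ × ℕ) (hτ : Function.Injective τ) (c : ℕ × ℕ → ℝ)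
    (hc0 : ∀ p, 0 ≤ c p) (hc : ∀ p, c p ≤ 1) :
    ∃ A : HH →L[ℂ] HH, ∀ (F : HH) (p : ℕ × ℕ), (A F) p = (c p : ℂ) * F (τ p) := by
  have hs : ∀ F : HH, Summable (fun p => ‖(c p : ℂ) * F (τ p)‖ ^ 2) := fun F =>
    Summable.of_nonneg_of_le (fun _ => by positivity) (fun p => ops_le hc0 hc (F (τ p)) p)
      ((ops_hasSum F).summable.comp_injective hτ)
  let L : HH →ₗ[ℂ] HH :=
    { toFun := fun F => ⟨fun p => (c p : ℂ) * F (τ p), ops_mem _ (hs F)⟩
      map_add' := fun F G => by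
        apply lp.ext
        funext p
        change (c p : ℂ) * (F (τ p) + G (τ p)) = (c p : ℂ) * F (τ p) + (c p : ℂ) * G (τ p)
        rw [mul_add]
      map_smul' := fun k F => by
        apply lp.ext
        funext p
        change (c p : ℂ) * (k * F (τ p)) = k * ((c p : ℂ) * F (τ p))
        ring }
  refine ⟨L.mkContinuous 1 fun F => ?_, fun F p => rfl⟩
  rw [one_mul]
  have h2 : ‖L F‖ ^ 2 ≤ ‖F‖ ^ 2 := hasSum_le_inj τ hτ (fun _ _ => by positivity)
    (fun p => ops_le hc0 hc (F (τ p)) p) (ops_hasSum (L F)) (ops_hasSum F)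
  exact (pow_le_pow_iff_left₀ (norm_nonneg _) (norm_nonneg _) (by norm_num)).1 h2

/-- its adjoint -/
private theorem ops_push (τ : ℕ × ℕ → ℕ × ℕ) (hτ : Function.Injective τ) (c : ℕ × ℕ → ℝ)
    (A : HH →L[ℂ] HH) (hA : ∀ (F : HH) (p : ℕ × ℕ), (A F) p = (c p : ℂ) * F (τ p)) (F : HH) :
    (∀ p, (ContinuousLinearMap.adjoint A F) (τ p) = (c p : ℂ) * F p) ∧
      ∀ q, q ∉ Set.range τ → (ContinuousLinearMap.adjoint A F) q = 0 := by
  have key : ∀ (G : HH) (q : ℕ × ℕ), G q = inner ℂ (lp.single 2 q (1 : ℂ) : HH) G := by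
    intro G q
    rw [lp.inner_single_left]
    simp
  constructor
  · intro p
    rw [key (ContinuousLinearMap.adjoint A F), ContinuousLinearMap.adjoint_inner_right]
    have h1 : A (lp.single 2 (τ p) (1 : ℂ)) = lp.single 2 p (c p : ℂ) := by
      apply lp.ext
      funext p'
      rw [hA]
      by_cases h : p' = p
      · subst h
        rw [lp.single_apply_self, lp.single_apply_self, mul_one]
      · have e1 : (lp.single 2 (τ p) (1 : ℂ) : HH) (τ p') = 0 :=
          lp.single_apply_ne 2 _ _ (fun h' => h (hτ h'))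
        have e2 : (lp.single 2 p (c p : ℂ) : HH) p' = 0 := lp.single_apply_ne 2 _ _ h
        rw [e1, e2, mul_zero]
    rw [h1, lp.inner_single_left]
    simp [mul_comm]
  · intro q hq
    rw [key (ContinuousLinearMap.adjoint A F), ContinuousLinearMap.adjoint_inner_right]
    have h1 : A (lp.single 2 q (1 : ℂ)) = 0 := by
      apply lp.ext
      funext p'
      have e1 : (lp.single 2 q (1 : ℂ) : HH) (τ p') = 0 :=
        lp.single_apply_ne 2 _ _ (fun h' => hq ⟨p', h'⟩)
      rw [hA, e1, mul_zero]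
      rfl
    rw [h1, inner_zero_left]

private def ops_c1 (p : ℕ × ℕ) : ℝ := Real.sqrt ((p.1 + 1) / (p.1 + p.2 + 1))
private def ops_c2 (p : ℕ × ℕ) : ℝ := Real.sqrt ((p.2 + 1) / (p.1 + p.2 + 1))
private def ops_t1 (p : ℕ × ℕ) : ℕ × ℕ := (p.1 + 1, p.2)
private def ops_t2 (p : ℕ × ℕ) : ℕ × ℕ := (p.1, p.2 + 1)

private theorem ops_t1_inj : Function.Injective ops_t1 := by
  rintro ⟨a, b⟩ ⟨a', b'⟩ h
  simp only [ops_t1, Prod.mk.injEq] at h
  ext <;> simp <;> omega

private theorem ops_t2_inj : Function.Injective ops_t2 := by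
  rintro ⟨a, b⟩ ⟨a', b'⟩ h
  simp only [ops_t2, Prod.mk.injEq] at h
  ext <;> simp <;> omega

private theorem ops_c1_le (p : ℕ × ℕ) : ops_c1 p ≤ 1 := by
  unfold ops_c1
  rw [Real.sqrt_le_one]
  rw [div_le_one (by positivity)]
  have : (0 : ℝ) ≤ p.2 := Nat.cast_nonneg _
  linarith

private theorem ops_c2_le (p : ℕ × ℕ) : ops_c2 p ≤ 1 := by
  unfold ops_c2
  rw [Real.sqrt_le_one]
  rw [div_le_one (by positivity)]
  have : (0 : ℝ) ≤ p.1 := Nat.cast_nonneg _
  linarith

private theorem ops_w1 (p : ℕ × ℕ) : wt (ops_t1 p) * ops_c1 p = wt p := by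
  obtain ⟨a, b⟩ := p
  unfold wt ops_c1 ops_t1
  rw [← Real.sqrt_mul (Nat.cast_nonneg _)]
  congr 1
  have h := Nat.add_one_mul_choose_eq (a + b) a
  have h' : ((a : ℝ) + b + 1) * ((a + b).choose a : ℕ) = ((a + b + 1).choose (a + 1) : ℕ) * (a + 1) := by
    exact_mod_cast h
  have e : a + 1 + b = a + b + 1 := by ring
  simp only [e]
  field_simp
  linarith

private theorem ops_w2 (p : ℕ × ℕ) : wt (ops_t2 p) * ops_c2 p = wt p := by
  obtain ⟨a, b⟩ := p
  unfold wt ops_c2 ops_t2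
  rw [← Real.sqrt_mul (Nat.cast_nonneg _)]
  congr 1
  have h := Nat.choose_mul_succ_eq (a + b) a
  have e1 : a + b + 1 - a = b + 1 := by omega
  rw [e1] at h
  have h' : ((a + b).choose a : ℕ) * ((a : ℝ) + b + 1) = ((a + b + 1).choose a : ℕ) * (b + 1) := by
    exact_mod_cast h
  have e : a + (b + 1) = a + b + 1 := by ring
  simp only [e]
  field_simp
  linarith

theorem piece_ops (h1 : S_ker) : S_ops := by
  obtain ⟨A, hA⟩ := ops_pull ops_t1 ops_t1_inj ops_c1 (fun p => Real.sqrt_nonneg _) ops_c1_le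
  obtain ⟨B, hB⟩ := ops_pull ops_t2 ops_t2_inj ops_c2 (fun p => Real.sqrt_nonneg _) ops_c2_le
  have hA' := ops_push ops_t1 ops_t1_inj ops_c1 A hA
  have hB' := ops_push ops_t2 ops_t2_inj ops_c2 B hB
  have hadj1 : ContinuousLinearMap.adjoint (ContinuousLinearMap.adjoint A) = A :=
    ContinuousLinearMap.adjoint_adjoint A
  have hadj2 : ContinuousLinearMap.adjoint (ContinuousLinearMap.adjoint B) = B :=
    ContinuousLinearMap.adjoint_adjoint B
  have hn1 : ∀ b : ℕ, ((0 : ℕ), b) ∉ Set.range ops_t1 := by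
    rintro b ⟨⟨a', b'⟩, h⟩
    simp [ops_t1] at h
  have hn2 : ∀ a : ℕ, (a, (0 : ℕ)) ∉ Set.range ops_t2 := by
    rintro b ⟨⟨a', b'⟩, h⟩
    simp [ops_t2] at h
  have k1 : ∀ (F : HH) (a b : ℕ), (ContinuousLinearMap.adjoint A F) (a + 1, b) =
      (Real.sqrt ((a + 1) / (a + b + 1)) : ℂ) * F (a, b) := fun F a b => (hA' F).1 (a, b)
  have k2 : ∀ (F : HH) (b : ℕ), (ContinuousLinearMap.adjoint A F) (0, b) = 0 :=
    fun F b => (hA' F).2 _ (hn1 b)
  have k3 : ∀ (F : HH) (a b : ℕ), (ContinuousLinearMap.adjoint B F) (a, b + 1) =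
      (Real.sqrt ((b + 1) / (a + b + 1)) : ℂ) * F (a, b) := fun F a b => (hB' F).1 (a, b)
  have k4 : ∀ (F : HH) (a : ℕ), (ContinuousLinearMap.adjoint B F) (a, 0) = 0 :=
    fun F b => (hB' F).2 _ (hn2 b)
  have k5 : ∀ (F : HH) (a b : ℕ), (A F) (a, b) =
      (Real.sqrt ((a + 1) / (a + b + 1)) : ℂ) * F (a + 1, b) := fun F a b => hA F (a, b)
  have k6 : ∀ (F : HH) (a b : ℕ), (B F) (a, b) =
      (Real.sqrt ((b + 1) / (a + b + 1)) : ℂ) * F (a, b + 1) := fun F a b => hB F (a, b)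
  have hsq : ∀ x y : ℝ, 0 ≤ x / y → (Real.sqrt (x / y) : ℂ) * (Real.sqrt (x / y) : ℂ) = (x / y : ℝ) := by
    intro x y h
    rw [← Complex.ofReal_mul, Real.mul_self_sqrt h]
  -- decomposition
  have hdec : ∀ F : HH, F = (F (0, 0)) • one + ContinuousLinearMap.adjoint A (A F) +
      ContinuousLinearMap.adjoint B (B F) := by
    intro F
    apply lp.ext
    funext p
    obtain ⟨a, b⟩ := p
    change F (a, b) = F (0, 0) * one (a, b) + (ContinuousLinearMap.adjoint A (A F)) (a, b) +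
      (ContinuousLinearMap.adjoint B (B F)) (a, b)
    rcases a with _ | a
    · rcases b with _ | b
      · rw [k2, k4]
        have : one (0, 0) = 1 := lp.single_apply_self 2 _ _
        rw [this]
        ring
      · rw [k2, k3, k6]
        have : one (0, b + 1) = 0 := lp.single_apply_ne 2 _ _ (by simp)
        rw [this, ← mul_assoc, hsq _ _ (by positivity)]
        have e : ((b : ℝ) + 1) / (((0 : ℕ) : ℝ) + b + 1) = 1 := by
          rw [Nat.cast_zero, zero_add, div_self (by positivity)]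
        rw [e]
        simp
    · have h0 : one (a + 1, b) = 0 := lp.single_apply_ne 2 _ _ (by simp)
      rcases b with _ | b
      · rw [k1, k4, k5, h0, ← mul_assoc, hsq _ _ (by positivity)]
        have e : ((a : ℝ) + 1) / ((a : ℝ) + ((0 : ℕ) : ℝ) + 1) = 1 := by
          rw [Nat.cast_zero, add_zero, div_self (by positivity)]
        rw [e]
        simp
      · rw [k1, k3, k5, k6, h0, ← mul_assoc, ← mul_assoc, hsq _ _ (by positivity),
          hsq _ _ (by positivity), mul_zero, zero_add, ← add_mul, ← Complex.ofReal_add]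
        have e : ((a : ℝ) + 1) / ((a : ℝ) + ((b + 1 : ℕ) : ℝ) + 1) +
            ((b : ℝ) + 1) / (((a + 1 : ℕ) : ℝ) + (b : ℝ) + 1) = 1 := by
          push_cast
          have e1 : (a : ℝ) + 1 + b + 1 = a + (b + 1) + 1 := by ring
          rw [e1, ← add_div, div_eq_one_iff_eq (by positivity)]
          ring
        rw [e]
        simp
  -- values
  have hev : ∀ (M : HH →L[ℂ] HH) (τ : ℕ × ℕ → ℕ × ℕ), Function.Injective τ →
      ∀ c : ℕ × ℕ → ℝ, (∀ (F : HH) p, (M F) (τ p) = (c p : ℂ) * F p) →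
      (∀ (F : HH) q, q ∉ Set.range τ → (M F) q = 0) → ∀ (ζ : ℂ) (z : ℂ × ℂ), z ∈ BB →
      (∀ p, (wt (τ p) : ℂ) * z.1 ^ (τ p).1 * z.2 ^ (τ p).2 * (c p : ℂ) =
        ζ * ((wt p : ℂ) * z.1 ^ p.1 * z.2 ^ p.2)) → ∀ F : HH, ev (M F) z = ζ * ev F z := by
    intro M τ hτ c hM hM' ζ z hz hw F
    have h2 := h1.2.2.1 z hz (M F)
    rw [← Function.Injective.hasSum_iff hτ (by
      intro q hq
      rw [hM' F q hq, mul_zero])] at h2
    have h3 := (h1.2.2.1 z hz F).mul_left ζ
    refine h2.unique ?_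
    refine h3.congr_fun ?_
    intro p
    simp only [Function.comp]
    rw [hM]
    have := hw p
    linear_combination (F p) * this
  refine ⟨ContinuousLinearMap.adjoint A, ContinuousLinearMap.adjoint B, ?_, ?_, ?_, ?_, k1, k2, k3,
    k4, ?_, ?_⟩
  · intro F z hz
    refine hev _ ops_t1 ops_t1_inj ops_c1 (fun F p => (hA' F).1 p) (fun F q hq => (hA' F).2 q hq)
      z.1 z hz (fun p => ?_) F
    have e : (wt p : ℂ) = (wt (ops_t1 p) : ℂ) * (ops_c1 p : ℂ) := by
      rw [← Complex.ofReal_mul, ops_w1]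
    rw [e]
    simp only [ops_t1]
    ring
  · intro F z hz
    refine hev _ ops_t2 ops_t2_inj ops_c2 (fun F p => (hB' F).1 p) (fun F q hq => (hB' F).2 q hq)
      z.2 z hz (fun p => ?_) F
    have e : (wt p : ℂ) = (wt (ops_t2 p) : ℂ) * (ops_c2 p : ℂ) := by
      rw [← Complex.ofReal_mul, ops_w2]
    rw [e]
    simp only [ops_t2]
    ring
  · intro F G
    obtain ⟨H, hH⟩ : ∃ H, H = ContinuousLinearMap.adjoint A F + ContinuousLinearMap.adjoint B G :=
      ⟨_, rfl⟩
    rw [← hH]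
    -- the column
    have hcol : ‖A H‖ ^ 2 + ‖B H‖ ^ 2 ≤ ‖H‖ ^ 2 := by
      have e1 : (inner ℂ H H : ℂ) = (inner ℂ H ((H (0, 0)) • one) : ℂ) +
          inner ℂ H (ContinuousLinearMap.adjoint A (A H)) +
          inner ℂ H (ContinuousLinearMap.adjoint B (B H)) := by
        rw [← inner_add_right, ← inner_add_right, ← hdec H]
      rw [ContinuousLinearMap.adjoint_inner_right, ContinuousLinearMap.adjoint_inner_right,
        inner_smul_right, inner_self_eq_norm_sq_to_K, inner_self_eq_norm_sq_to_K,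
        inner_self_eq_norm_sq_to_K] at e1
      have e2 : (inner ℂ H one : ℂ) = conj (H (0, 0)) := by
        rw [← inner_conj_symm]
        have : (inner ℂ one H : ℂ) = H (0, 0) := by
          unfold one
          rw [lp.inner_single_left]
          simp
        rw [this]
      rw [e2, Complex.mul_conj] at e1
      have e3 := congrArg Complex.re e1
      simp only [Complex.coe_algebraMap, Complex.add_re, ← Complex.ofReal_pow,
        Complex.ofReal_re] at e3
      have := Complex.normSq_nonneg (H (0, 0))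
      linarith
    have hin : ‖H‖ ^ 2 ≤ ‖A H‖ * ‖F‖ + ‖B H‖ * ‖G‖ := by
      have e1 : (inner ℂ H H : ℂ) = inner ℂ (A H) F + inner ℂ (B H) G := by
        conv_lhs => rw [hH]
        rw [inner_add_right, ← hH, ContinuousLinearMap.adjoint_inner_right,
          ContinuousLinearMap.adjoint_inner_right]
      have e2 : ‖(inner ℂ H H : ℂ)‖ = ‖H‖ ^ 2 := by
        rw [inner_self_eq_norm_sq_to_K, norm_pow]
        simp
      rw [← e2, e1]
      exact (norm_add_le _ _).trans (add_le_add (norm_inner_le_norm _ _) (norm_inner_le_norm _ _))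
    have a1 := norm_nonneg (A H)
    have a2 := norm_nonneg (B H)
    have a3 := norm_nonneg F
    have a4 := norm_nonneg G
    have a5 := norm_nonneg H
    nlinarith [sq_nonneg (‖A H‖ - ‖F‖), sq_nonneg (‖B H‖ - ‖G‖)]
  · intro F
    rw [hadj1, hadj2]
    exact hdec F
  · intro F a b
    rw [hadj1]
    exact k5 F a b
  · intro F a b
    rw [hadj2]
    exact k6 F a b

end

end DA91
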