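import Pool.Agent.Lib.MP_e91a1a_an.DA.Stm2

/-!
# MP_e91a1a_an, piece E2: polynomials are multipliers, and they are dense
-/

set_option autoImplicit false

open scoped ComplexConjugate Topology
open Filter

namespace DA91

noncomputable section

private theorem ppl_coord (h2 : S_ops) : Mul (fun z => z.1) 1 ∧ Mul (fun z => z.2) 1 := by
  obtain ⟨M₁, M₂, e1, e2, e3, _⟩ := h2
  refine ⟨fun F => ⟨M₁ F, ?_, e1 F⟩, fun F => ⟨M₂ F, ?_, e2 F⟩⟩
  · have h := e3 F 0
    rw [map_zero, add_zero, norm_zero] at h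
    rw [one_mul]
    refine le_of_sq_le_sq ?_ (norm_nonneg _)
    linarith
  · have h := e3 0 F
    rw [map_zero, zero_add, norm_zero] at h
    rw [one_mul]
    refine le_of_sq_le_sq ?_ (norm_nonneg _)
    linarith

private theorem ppl_pow (h3 : S_mulAlg) (m : ℂ × ℂ → ℂ) (hm : Mul m 1) (a : ℕ) :
    Mul (fun z => m z ^ a) 1 := by
  obtain ⟨c1, c2, _, c4, _, _⟩ := h3
  induction a with
  | zero =>
    have := c1 1
    rw [norm_one] at this
    exact c4 _ _ _ this fun z _ => by simp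
  | succ a ih =>
    have := c2 _ _ _ _ ih hm (by norm_num) (by norm_num)
    rw [mul_one] at this
    exact c4 _ _ _ this fun z _ => by ring

private theorem ppl_sum (h2 : S_ops) (h3 : S_mulAlg) (F : HH) (s : Finset (ℕ × ℕ)) :
    ∃ C : ℝ, 0 ≤ C ∧ Mul (fun z => ∑ p ∈ s, (wt p : ℂ) * z.1 ^ p.1 * z.2 ^ p.2 * F p) C := by
  obtain ⟨x1, x2⟩ := ppl_coord h2
  have hp1 := ppl_pow h3 _ x1
  have hp2 := ppl_pow h3 _ x2
  obtain ⟨c1, c2, c3, c4, _, _⟩ := h3
  classical
  induction s using Finset.induction_on with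
  | empty =>
    have := c1 0
    rw [norm_zero] at this
    exact ⟨0, le_rfl, c4 _ _ _ this fun z _ => by simp⟩
  | insert p s hp ih =>
    obtain ⟨C, hC, hM⟩ := ih
    have t1 := c2 _ _ _ _ (hp1 p.1) (hp2 p.2) (by norm_num) (by norm_num)
    have t2 := c2 _ _ _ _ (c1 ((wt p : ℂ) * F p)) t1 (norm_nonneg _) (by norm_num)
    have t3 := c3 _ _ _ _ t2 hM
    refine ⟨_, by positivity, c4 _ _ _ t3 fun z _ => ?_⟩
    rw [Finset.sum_insert hp]
    ring

/-- [E2] Polynomials are multipliers, and they are dense. -/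
theorem piece_poly (h1 : S_ker) (h2 : S_ops) (h3 : S_mulAlg) : S_poly := by
  refine ⟨fun F hF => ?_, fun F => ?_⟩
  · have hsum := h1.2.2.1
    obtain ⟨C, hC, hM⟩ := ppl_sum h2 h3 F hF.toFinset
    obtain ⟨_, _, _, c4, _, _⟩ := h3
    refine ⟨C, hC, c4 _ _ _ hM fun z hz => ?_⟩
    rw [← (hsum z hz F).tsum_eq, tsum_eq_sum]
    intro p hp
    have : F p = 0 := by
      by_contra h
      exact hp ((Set.Finite.mem_toFinset hF).2 h)
    rw [this, mul_zero]
  · obtain ⟨e⟩ : Nonempty (ℕ ≃ ℕ × ℕ) := ⟨Nat.pairEquiv.symm⟩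
    obtain ⟨g, hg⟩ : ∃ g : ℕ × ℕ → HH, ∀ p, g p = lp.single 2 p (F p) := ⟨_, fun _ => rfl⟩
    have hs : HasSum g F := by
      have h := lp.hasSum_single (E := fun _ : ℕ × ℕ => ℂ) (p := 2) (by norm_num) F
      have hg' : g = fun p => lp.single 2 p (F p) := funext hg
      rw [hg']
      exact h
    have hs' : HasSum (g ∘ e) F := e.hasSum_iff.2 hs
    refine ⟨fun n => ∑ i ∈ Finset.range n, (g ∘ e) i, fun n => ?_, hs'.tendsto_sum_nat⟩
    refine Set.Finite.subset ((Finset.range n).image e).finite_toSet fun p hp => ?_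
    by_contra hne
    apply hp
    have h4 : ∀ i ∈ Finset.range n, ((g ∘ e) i) p = 0 := by
      intro i hi
      have hpi : p ≠ e i := by
        rintro rfl
        exact hne (Finset.mem_coe.2 (Finset.mem_image_of_mem e hi))
      show (g (e i)) p = 0
      rw [hg, lp.single_apply_ne _ _ _ hpi]
    show (∑ i ∈ Finset.range n, (g ∘ e) i : HH) p = 0
    rw [lp.coeFn_sum, Finset.sum_apply]
    exact Finset.sum_eq_zero h4

end

end DA91
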