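import Pool.Agent.Lib.MP_e91a1a_an.DA.Stm3

/-! [F0] Positive semidefinite kernels. -/

open scoped ComplexConjugate Topology ComplexOrder
open Filter DruryArveson

namespace DA91

noncomputable section

/-- rank one kernels -/
private theorem psd_rank {X : Type} (g : X → ℂ) :
    (Matrix.of fun z w : X => g z * conj (g w)).PosSemidef := by
  refine ⟨?_, fun x => ?_⟩
  · ext z w
    simp [mul_comm]
  · have h : (x.sum fun i xi => x.sum fun j xj =>
        star xi * (Matrix.of fun z w : X => g z * conj (g w)) i j * xj) =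
        (x.sum fun i xi => star xi * g i) * star (x.sum fun i xi => star xi * g i) := by
      unfold Finsupp.sum
      rw [star_sum, Finset.sum_mul_sum]
      refine Finset.sum_congr rfl fun i _ => Finset.sum_congr rfl fun j _ => ?_
      simp only [Matrix.of_apply, star_mul', RCLike.star_def]
      simp
      ring
    rw [h]
    exact mul_star_self_nonneg _

private theorem psd_one {X : Type} : (Matrix.of fun _ _ : X => (1 : ℂ)).PosSemidef := by
  have h := psd_rank (fun _ : X => (1 : ℂ))
  simpa using h

/-- pointwise limits -/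
private theorem psd_lim {X : Type} (M : ℕ → Matrix X X ℂ) (K : Matrix X X ℂ)
    (hM : ∀ n, (M n).PosSemidef) (hK : ∀ z w, Tendsto (fun n => M n z w) atTop (𝓝 (K z w))) :
    K.PosSemidef := by
  refine ⟨?_, fun x => ?_⟩
  · ext z w
    have h1 : Tendsto (fun n => star (M n w z)) atTop (𝓝 (star (K w z))) :=
      (continuous_star.tendsto _).comp (hK w z)
    have h2 : (fun n => star (M n w z)) = fun n => M n z w := by
      funext n
      exact (hM n).1.apply z w
    rw [h2] at h1
    exact tendsto_nhds_unique h1 (hK z w)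
  · have h1 : Tendsto (fun n => x.sum fun i xi => x.sum fun j xj => star xi * M n i j * xj) atTop
        (𝓝 (x.sum fun i xi => x.sum fun j xj => star xi * K i j * xj)) := by
      unfold Finsupp.sum
      refine tendsto_finsetSum _ fun i _ => tendsto_finsetSum _ fun j _ => ?_
      exact ((hK i j).const_mul _).mul_const _
    exact ge_of_tendsto h1 (Eventually.of_forall fun n => (hM n).2 x)

private theorem psd_sum {X ι : Type} (s : Finset ι) (M : ι → Matrix X X ℂ)
    (h : ∀ i ∈ s, (M i).PosSemidef) : (∑ i ∈ s, M i).PosSemidef :=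
  Matrix.posSemidef_sum s h

/-- the inner product kernel -/
private theorem psd_inner {d : ℕ} {X : Type} (v : X → EuclideanSpace ℂ (Fin d)) :
    (Matrix.of fun z w : X => inner ℂ (v w) (v z)).PosSemidef := by
  have h := psd_sum Finset.univ (fun i : Fin d =>
    (Matrix.of fun z w : X => v z i * conj (v w i))) (fun i _ => psd_rank (fun z => v z i))
  have he : (Matrix.of fun z w : X => inner ℂ (v w) (v z)) =
      ∑ i : Fin d, (Matrix.of fun z w : X => v z i * conj (v w i)) := by
    ext z w
    rw [Matrix.sum_apply]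
    simp [PiLp.inner_apply]
  rw [he]
  exact h

private theorem psd_norm {d : ℕ} (z w : Ball d) :
    ‖(inner ℂ (w : EuclideanSpace ℂ (Fin d)) (z : EuclideanSpace ℂ (Fin d)) : ℂ)‖ < 1 := by
  have hz : ‖(z : EuclideanSpace ℂ (Fin d))‖ < 1 := by
    have := z.2
    rwa [mem_ball_zero_iff] at this
  have hw : ‖(w : EuclideanSpace ℂ (Fin d))‖ < 1 := by
    have := w.2
    rwa [mem_ball_zero_iff] at this
  have h := norm_inner_le_norm (𝕜 := ℂ) (w : EuclideanSpace ℂ (Fin d))
    (z : EuclideanSpace ℂ (Fin d))
  have h1 := norm_nonneg (z : EuclideanSpace ℂ (Fin d))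
  have h2 := norm_nonneg (w : EuclideanSpace ℂ (Fin d))
  nlinarith

private theorem psd_ne {d : ℕ} (z w : Ball d) :
    (1 : ℂ) - inner ℂ (w : EuclideanSpace ℂ (Fin d)) (z : EuclideanSpace ℂ (Fin d)) ≠ 0 := by
  intro h
  have h1 := psd_norm z w
  rw [← sub_eq_zero.1 h, norm_one] at h1
  exact lt_irrefl _ h1

private theorem psd_pow {X : Type} (A : Matrix X X ℂ) (hA : A.PosSemidef) (n : ℕ) :
    (Matrix.of fun z w : X => A z w ^ n).PosSemidef := by
  induction n with
  | zero => simpa using psd_one (X := X)
  | succ n ih =>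
    have he : (Matrix.of fun z w : X => A z w ^ (n + 1)) =
        A.hadamard (Matrix.of fun z w : X => A z w ^ n) := by
      ext z w
      simp [pow_succ']
    rw [he]
    exact hA.hadamard ih

private theorem psd_K (d : ℕ) : (Matrix.of (Kd d)).PosSemidef := by
  have hA := psd_inner (X := Ball d) (fun z => (z : EuclideanSpace ℂ (Fin d)))
  refine psd_lim (fun N => ∑ n ∈ Finset.range N, Matrix.of fun z w : Ball d =>
    (Matrix.of fun z w : Ball d => inner ℂ (w : EuclideanSpace ℂ (Fin d))
      (z : EuclideanSpace ℂ (Fin d))) z w ^ n) _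
    (fun N => psd_sum _ _ fun n _ => psd_pow _ hA n) ?_
  intro z w
  have h := (hasSum_geometric_of_norm_lt_one (psd_norm z w)).tendsto_sum_nat
  have h2 : Kd d z w = (1 - inner ℂ (w : EuclideanSpace ℂ (Fin d))
      (z : EuclideanSpace ℂ (Fin d)))⁻¹ := by
    unfold Kd
    rw [one_div]
  rw [Matrix.of_apply, h2]
  refine h.congr fun N => ?_
  rw [Matrix.sum_apply]
  rfl

theorem piece_psd : S_psd := by
  intro d
  have hK := psd_K d
  refine ⟨hK, fun a => ?_, fun hd => ?_⟩
  · -- `‖a‖² + (‖a‖² ⟨z,w⟩ - ⟨z,a⟩⟨a,w⟩) K`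
    have h1 := (Matrix.posSemidef_opNorm_smul_gram_sub_gram (𝕜 := ℂ)
      (fun z : Ball d => (z : EuclideanSpace ℂ (Fin d)))
      (innerSL ℂ (a : EuclideanSpace ℂ (Fin d)))).transpose
    have h2 := psd_rank (fun _ : Ball d => ((‖(a : EuclideanSpace ℂ (Fin d))‖ : ℝ) : ℂ))
    have h3 := h2.add (h1.hadamard hK)
    refine (congrArg Matrix.PosSemidef ?_).mpr h3
    ext z w
    have hne := psd_ne z w
    simp only [Matrix.of_apply, Matrix.add_apply, Matrix.hadamard_apply, Matrix.transpose_apply,
      Matrix.sub_apply, Matrix.smul_apply, Matrix.gram_apply, innerSL_apply_norm,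
      Function.comp_apply, innerSL_apply_apply, Complex.conj_ofReal, RCLike.inner_apply,
      Complex.real_smul]
    unfold Kd
    field_simp
    push_cast
    ring
  · -- `1 + ⟨z'',w''⟩ K`
    have h1 := psd_sum (Finset.univ.filter fun i : Fin d => 2 ≤ i.val) (fun i : Fin d =>
      (Matrix.of fun z w : Ball d => (z : EuclideanSpace ℂ (Fin d)) i *
        conj ((w : EuclideanSpace ℂ (Fin d)) i)))
      (fun i _ => psd_rank (fun z : Ball d => (z : EuclideanSpace ℂ (Fin d)) i))
    have h3 := (psd_one (X := Ball d)).add (h1.hadamard hK)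
    refine (congrArg Matrix.PosSemidef ?_).mpr h3
    ext z w
    have hne := psd_ne z w
    have hsplit : (inner ℂ (w : EuclideanSpace ℂ (Fin d)) (z : EuclideanSpace ℂ (Fin d)) : ℂ) =
        kip (pr hd z) (pr hd w) + ∑ i ∈ Finset.univ.filter (fun i : Fin d => 2 ≤ i.val),
          (z : EuclideanSpace ℂ (Fin d)) i * conj ((w : EuclideanSpace ℂ (Fin d)) i) := by
      rw [PiLp.inner_apply]
      simp only [RCLike.inner_apply]
      rw [← Finset.sum_filter_add_sum_filter_not Finset.univ (fun i : Fin d => 2 ≤ i.val),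
        add_comm]
      congr 1
      have : (Finset.univ.filter fun i : Fin d => ¬ 2 ≤ i.val) =
          {(⟨0, by omega⟩ : Fin d), (⟨1, by omega⟩ : Fin d)} := by
        ext i
        simp only [Finset.mem_filter, Finset.mem_univ, true_and, Finset.mem_insert,
          Finset.mem_singleton, Fin.ext_iff]
        omega
      rw [this, Finset.sum_pair (by simp [Fin.ext_iff])]
      rfl
    simp only [Matrix.of_apply, Matrix.add_apply, Matrix.hadamard_apply, Matrix.sum_apply]
    unfold Kd
    rw [← sub_eq_iff_eq_add'.2 hsplit]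
    field_simp
    ring

end

end DA91
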