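import Pool.Agent.Lib.MP_e91a1a_an.DA.Stm3

/-!
# MP_e91a1a_an, piece F2 : a positive semidefinite kernel gives a multiplier
-/

open scoped ComplexConjugate Topology ComplexOrder
open Filter DruryArveson

namespace DA91

noncomputable section

/-- a functional with prescribed values -/
private theorem psdMul_functional {X H : Type*} [NormedAddCommGroup H] [InnerProductSpace ℂ H]
    (k : X → H) (a : X → ℂ) (M : ℝ) (hM : 0 ≤ M)
    (h : ∀ c : X →₀ ℂ, ‖Finsupp.linearCombination ℂ a c‖ ≤ M * ‖Finsupp.linearCombination ℂ k c‖) :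
    ∃ φ : H →L[ℂ] ℂ, (∀ i, φ (k i) = a i) ∧ ‖φ‖ ≤ M := by
  classical
  set K := Finsupp.linearCombination ℂ k with hK
  set A := Finsupp.linearCombination ℂ a with hA
  have hker : LinearMap.ker K ≤ LinearMap.ker A := by
    intro c hc
    rw [LinearMap.mem_ker] at hc ⊢
    have := h c
    rw [hc, norm_zero, mul_zero] at this
    exact norm_le_zero_iff.1 this
  let φ0 : LinearMap.range K →ₗ[ℂ] ℂ :=
    ((LinearMap.ker K).liftQ A hker) ∘ₗ (K.quotKerEquivRange.symm : LinearMap.range K →ₗ[ℂ] _)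
  have hφ0 : ∀ c : X →₀ ℂ, φ0 ⟨K c, LinearMap.mem_range_self K c⟩ = A c := by
    intro c
    change ((LinearMap.ker K).liftQ A hker) (K.quotKerEquivRange.symm ⟨K c, _⟩) = A c
    rw [LinearMap.quotKerEquivRange_symm_apply_image]
    rfl
  have hb : ∀ x : LinearMap.range K, ‖φ0 x‖ ≤ M * ‖x‖ := by
    rintro ⟨_, c, rfl⟩
    rw [hφ0]
    exact h c
  obtain ⟨φ, h1, h2⟩ := exists_extension_norm_eq (LinearMap.range K) (φ0.mkContinuous M hb)
  refine ⟨φ, fun i => ?_, ?_⟩
  · have h3 : K (Finsupp.single i 1) = k i := by simp [hK]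
    have h4 := h1 ⟨K (Finsupp.single i 1), LinearMap.mem_range_self K _⟩
    rw [LinearMap.mkContinuous_apply, hφ0] at h4
    have h5 : A (Finsupp.single i 1) = a i := by simp [hA]
    rw [h5] at h4
    rw [← h4]
    change φ (k i) = φ (K (Finsupp.single i 1))
    rw [h3]
  · rw [h2]
    exact LinearMap.mkContinuous_norm_le _ hM _

theorem piece_psdMul : S_psdMul := by
  intro d H _ _ _ _ hDA m C hC hpsd
  -- the inner products of the kernel functions
  have hin : ∀ z w : Ball d, inner ℂ (RKHS.kerFun H z (1 : ℂ)) (RKHS.kerFun H w (1 : ℂ)) = Kd d z w := by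
    intro z w
    rw [RKHS.kerFun_inner, RKHS.kerFun_apply]
    rw [show RKHS.kernel H z w 1 = Kd d z w from hDA z w]
    simp
  -- the norm inequality
  have hnorm : ∀ c : Ball d →₀ ℂ,
      ‖∑ i ∈ c.support, (c i * conj (m i)) • RKHS.kerFun H i (1 : ℂ)‖ ^ 2 ≤
        (C * ‖∑ i ∈ c.support, c i • RKHS.kerFun H i (1 : ℂ)‖) ^ 2 := by
    intro c
    have key : ∀ a : Ball d → ℂ, ((‖∑ i ∈ c.support, a i • RKHS.kerFun H i (1 : ℂ)‖ ^ 2 : ℝ) : ℂ) =
        ∑ i ∈ c.support, ∑ j ∈ c.support, conj (a i) * a j * Kd d i j := by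
      intro a
      have h1 := inner_self_eq_norm_sq_to_K (𝕜 := ℂ) (∑ i ∈ c.support, a i • RKHS.kerFun H i (1 : ℂ))
      rw [show ((‖∑ i ∈ c.support, a i • RKHS.kerFun H i (1 : ℂ)‖ ^ 2 : ℝ) : ℂ) =
        ((‖∑ i ∈ c.support, a i • RKHS.kerFun H i (1 : ℂ)‖ : ℝ) : ℂ) ^ 2 by push_cast; rfl]
      refine h1.symm.trans ?_
      rw [sum_inner]
      refine Finset.sum_congr rfl fun i _ => ?_
      rw [inner_sum]
      refine Finset.sum_congr rfl fun j _ => ?_
      rw [inner_smul_left, inner_smul_right, hin]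
      ring
    have h2 := hpsd.2 c
    have h3 : (((C * ‖∑ i ∈ c.support, c i • RKHS.kerFun H i (1 : ℂ)‖) ^ 2 -
        ‖∑ i ∈ c.support, (c i * conj (m i)) • RKHS.kerFun H i (1 : ℂ)‖ ^ 2 : ℝ) : ℂ) =
        c.sum fun i xi => c.sum fun j xj => star xi * (Matrix.of fun z w : Ball d =>
          ((C ^ 2 : ℝ) - m z * conj (m w)) * Kd d z w) i j * xj := by
      rw [Complex.ofReal_sub, key, mul_pow, Complex.ofReal_mul, key]
      unfold Finsupp.sum
      rw [Finset.mul_sum, ← Finset.sum_sub_distrib]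
      refine Finset.sum_congr rfl fun i _ => ?_
      rw [Finset.mul_sum, ← Finset.sum_sub_distrib]
      refine Finset.sum_congr rfl fun j _ => ?_
      change _ = conj (c i) * (((C ^ 2 : ℝ) - m i * conj (m j)) * Kd d i j) * c j
      rw [map_mul, Complex.conj_conj]
      ring
    rw [← h3] at h2
    have h4 := Complex.zero_le_real.1 h2
    linarith
  have hnorm' : ∀ c : Ball d →₀ ℂ,
      ‖∑ i ∈ c.support, (c i * conj (m i)) • RKHS.kerFun H i (1 : ℂ)‖ ≤
        C * ‖∑ i ∈ c.support, c i • RKHS.kerFun H i (1 : ℂ)‖ := fun c =>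
    (pow_le_pow_iff_left₀ (norm_nonneg _) (mul_nonneg hC (norm_nonneg _)) two_ne_zero).1 (hnorm c)
  -- the product vector
  have hmain : ∀ f : H, ∃ g : H, (∀ z, g z = m z * f z) ∧ ‖g‖ ≤ C * ‖f‖ := by
    intro f
    obtain ⟨φ, h1, h2⟩ := psdMul_functional (fun z : Ball d => RKHS.kerFun H z (1 : ℂ))
      (fun z => conj (m z * f z)) (C * ‖f‖) (mul_nonneg hC (norm_nonneg _)) (by
      intro c
      have h3 : Finsupp.linearCombination ℂ (fun z : Ball d => conj (m z * f z)) c =
          inner ℂ f (∑ i ∈ c.support, (c i * conj (m i)) • RKHS.kerFun H i (1 : ℂ)) := by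
        rw [Finsupp.linearCombination_apply, inner_sum]
        unfold Finsupp.sum
        refine Finset.sum_congr rfl fun i _ => ?_
        rw [inner_smul_right, RKHS.inner_kerFun]
        change c i * conj (m i * f i) = c i * conj (m i) * inner ℂ (f i) 1
        rw [map_mul]
        simp
        ring
      rw [h3]
      refine (norm_inner_le_norm _ _).trans ?_
      have h4 := mul_le_mul_of_nonneg_left (hnorm' c) (norm_nonneg f)
      refine h4.trans (le_of_eq ?_)
      rw [Finsupp.linearCombination_apply]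
      unfold Finsupp.sum
      ring)
    refine ⟨(InnerProductSpace.toDual ℂ H).symm φ, fun z => ?_, ?_⟩
    · have h5 : inner ℂ ((InnerProductSpace.toDual ℂ H).symm φ) (RKHS.kerFun H z (1 : ℂ)) =
          conj (m z * f z) := by
        rw [InnerProductSpace.toDual_symm_apply]
        exact h1 z
      rw [RKHS.inner_kerFun] at h5
      have h6 : conj (((InnerProductSpace.toDual ℂ H).symm φ) z) = conj (m z * f z) := by
        rw [← h5]
        simp
      exact (starRingEnd ℂ).injective h6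
    · rw [LinearIsometryEquiv.norm_map]
      exact h2
  refine ⟨fun f => ?_, fun f g hg => ?_⟩
  · obtain ⟨g, hg, -⟩ := hmain f
    exact ⟨g, hg⟩
  · obtain ⟨g', hg', h7⟩ := hmain f
    have : g = g' := RKHS.ext fun z => by rw [hg, hg']
    rw [this]
    exact h7

end

end DA91
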