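import Pool.Agent.Lib.MP_e91a1a_an.DA.Stm2

/-! [C5] The first stage. -/

open scoped ComplexConjugate Topology
open Filter

namespace DA91

noncomputable section

/-- the identity node -/
private def rootNode : Node where
  Φ := id
  Ψ := id
  δ := fun _ => 1
  mapK := fun _ h => h
  mapK' := fun _ h => h
  mapB := fun _ h => h
  mapB' := fun _ h => h
  linv := fun _ _ => rfl
  rinv := fun _ _ => rfl
  contΦ := continuousOn_id
  contΨ := continuousOn_id
  contδ := continuousOn_const
  diffΦ := differentiableOn_id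
  gram := fun z _ w _ => by simp

/-- the first stage -/
private def rootStage : Stage where
  ι := Unit
  fin := inferInstance
  nd := fun _ => rootNode
  h := fun _ => 1
  Ch := 1
  N := 1
  t := 1
  σ := 0
  ε := 1
  R := 0

theorem piece_root (h1 : S_mulAlg) : S_root := by
  refine ⟨rootStage, ?_, rfl, rfl, rfl, rfl⟩
  refine
    { hN := le_refl (1 : ℝ)
      ht := zero_lt_one (α := ℝ)
      hσ := le_refl (0 : ℝ)
      hσ1 := zero_lt_one (α := ℝ)
      hR := le_refl (0 : ℝ)
      hR1 := zero_lt_one (α := ℝ)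
      cont := continuousOn_const
      hCh := zero_le_one (α := ℝ)
      mul := ?_
      s1 := ?_
      s2 := ?_
      s3 := ?_
      s4 := ?_
      s5 := ?_
      s6 := ?_ }
  · have h := h1.1 1
    rw [norm_one] at h
    exact h
  · intro j z _ _
    change (1 : ℝ) - 0 ≤ (1 : ℂ).re
    norm_num
  · intro i j hij
    exact absurd (Subsingleton.elim (α := Unit) i j) hij
  · intro G _ q _ _ hG
    have h := hG ()
    change ‖G 0‖ ≤ q at h
    change ‖G 0‖ ≤ q ^ (1 : ℝ)
    rw [Real.rpow_one]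
    exact h
  · refine ⟨fun _ => 1, fun _ => zero_le_one, fun j w _ => ?_, ?_⟩
    · change ‖(1 : ℂ)‖ ≤ 1
      rw [norm_one]
    · change ∑ _j : Unit, (1 : ℝ) ^ 2 ≤ 1
      simp
  · change (1 : ℝ) - 1 ≤ ∏ _j : Unit, ‖(0 : ℂ)‖
    simp
  · intro j
    change ‖(0 : ℂ)‖ ^ 2 + ‖(0 : ℂ)‖ ^ 2 ≤ (0 : ℝ) ^ 2
    simp

end

end DA91
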