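import Pool.Agent.Lib.MP_e91a1a_an.DA.Stm

open scoped ComplexConjugate Topology
open Filter

namespace DA91

/-- [B10] Roots of `ρ`. -/
theorem piece_roots : S_roots := by
  intro n hn ρ hρ hρ1
  have hn0 : n ≠ 0 := by omega
  haveI : NeZero n := ⟨hn0⟩
  obtain ⟨s, hs0, hsn⟩ : ∃ s : ℝ, 0 < s ∧ s ^ n = ρ :=
    ⟨ρ ^ ((n : ℝ)⁻¹), Real.rpow_pos_of_pos hρ _, Real.rpow_inv_natCast_pow hρ.le hn0⟩
  have hs1 : s < 1 := by
    by_contra h
    have h1 : 1 ≤ s ^ n := one_le_pow₀ (not_lt.1 h)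
    linarith
  have hsC : (s : ℂ) ≠ 0 := by exact_mod_cast hs0.ne'
  have hprim := Complex.isPrimitiveRoot_exp n hn0
  set ζ : ℂ := Complex.exp (2 * Real.pi * Complex.I / n) with hζ
  have hζn : ‖ζ‖ = 1 := hprim.norm'_eq_one hn0
  have hnorm : ∀ l : Fin n, ‖(s : ℂ) * ζ ^ (l : ℕ)‖ = s := by
    intro l
    rw [norm_mul, norm_pow, hζn, one_pow, mul_one, Complex.norm_real, Real.norm_of_nonneg hs0.le]
  refine ⟨fun l => (s : ℂ) * ζ ^ (l : ℕ), ?_, ?_, ?_, ?_, ?_⟩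
  · intro l l' h
    have h1 := mul_left_cancel₀ hsC h
    exact Fin.ext (hprim.pow_inj l.2 l'.2 h1)
  · intro l
    show ((s : ℂ) * ζ ^ (l : ℕ)) ^ n = (ρ : ℂ)
    rw [mul_pow, ← pow_mul, mul_comm (l : ℕ) n, pow_mul, hprim.pow_eq_one, one_pow, mul_one, ← hsn]
    push_cast; rfl
  · intro v hv
    have h1 : (v / s) ^ n = 1 := by
      rw [div_pow, hv, ← hsn]
      push_cast
      exact div_self (pow_ne_zero _ hsC)
    obtain ⟨i, hi, h2⟩ := hprim.eq_pow_of_pow_eq_one h1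
    refine ⟨⟨i, hi⟩, ?_⟩
    show (s : ℂ) * ζ ^ i = v
    rw [h2]
    field_simp
  · intro l
    show ‖(s : ℂ) * ζ ^ (l : ℕ)‖ < 1
    rw [hnorm l]; exact hs1
  · intro l
    show n * (1 - ‖(s : ℂ) * ζ ^ (l : ℕ)‖ ^ 2) ≤ 2 * Real.log (1 / ρ)
    rw [hnorm l]
    have h1 := Real.log_le_sub_one_of_pos (x := s ^ 2) (by positivity)
    rw [Real.log_pow] at h1
    have h2 : (n : ℝ) * Real.log s = Real.log ρ := by rw [← hsn, Real.log_pow]
    have h3 : Real.log (1 / ρ) = - Real.log ρ := by rw [one_div, Real.log_inv]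
    rw [h3, ← h2]
    have h4 : (0 : ℝ) ≤ n := Nat.cast_nonneg n
    push_cast at h1
    nlinarith [mul_le_mul_of_nonneg_left h1 h4]

end DA91
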