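import Pool.Agent.Lib.MP_e91a1a_an.DA.Stm2

/-!
# [E3] Sarason function of a polynomial
-/

open scoped ComplexConjugate Topology
open Filter

namespace DA91

private theorem sar_ev_add (F G : HH) (z : ℂ × ℂ) : ev (F + G) z = ev F z + ev G z := by
  unfold ev; rw [inner_add_right]

private theorem sar_ev_sub (F G : HH) (z : ℂ × ℂ) : ev (F - G) z = ev F z - ev G z := by
  unfold ev; rw [inner_sub_right]

private theorem sar_ev_smul (c : ℂ) (F : HH) (z : ℂ × ℂ) : ev (c • F) z = c * ev F z := by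
  unfold ev; rw [inner_smul_right]

private theorem sar_ev_eq (hinj : S_inj) {F G : HH} (h : ∀ z ∈ BB, ev F z = ev G z) : F = G :=
  sub_eq_zero.1 (hinj _ fun z hz => by rw [sar_ev_sub, h z hz, sub_self])

/-- powers of a multiplication operator -/
private theorem sar_pow (M : HH →L[ℂ] HH) (c : ℂ × ℂ → ℂ) (hM : ∀ F : HH, ∀ z ∈ BB, ev (M F) z = c z * ev F z)
    (a : ℕ) : ∀ F : HH, ∀ z ∈ BB, ev ((M ^ a) F) z = c z ^ a * ev F z := by
  induction a with
  | zero => intro F z _; simp
  | succ a ih =>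
    intro F z hz
    rw [pow_succ, ContinuousLinearMap.mul_apply, ih (M F) z hz, hM F z hz, pow_succ]
    ring

/-- the operator of multiplication by the polynomial `F` -/
private noncomputable def sarOp (M₁ M₂ : HH →L[ℂ] HH) (s : Finset (ℕ × ℕ)) (F : HH) : HH →L[ℂ] HH :=
  ∑ p ∈ s, ((wt p : ℂ) * F p) • (M₁ ^ p.1 * M₂ ^ p.2)

private theorem sarOp_ev (hk : S_ker) (M₁ M₂ : HH →L[ℂ] HH)
    (h1 : ∀ F : HH, ∀ z ∈ BB, ev (M₁ F) z = z.1 * ev F z)
    (h2 : ∀ F : HH, ∀ z ∈ BB, ev (M₂ F) z = z.2 * ev F z) (s : Finset (ℕ × ℕ)) (F : HH)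
    (hs : ∀ p, p ∉ s → F p = 0) (g : HH) (z : ℂ × ℂ) (hz : z ∈ BB) :
    ev (sarOp M₁ M₂ s F g) z = ev F z * ev g z := by
  have e1 : ev F z = ∑ p ∈ s, (wt p : ℂ) * z.1 ^ p.1 * z.2 ^ p.2 * F p := by
    refine (hk.2.2.1 z hz F).unique (hasSum_sum_of_ne_finset_zero fun p hp => ?_)
    rw [hs p hp, mul_zero]
  have e2 : ev (sarOp M₁ M₂ s F g) z =
      ∑ p ∈ s, ((wt p : ℂ) * F p) * ev ((M₁ ^ p.1 * M₂ ^ p.2) g) z := by
    unfold sarOp ev
    rw [ContinuousLinearMap.sum_apply, inner_sum]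
    refine Finset.sum_congr rfl fun p _ => ?_
    rw [ContinuousLinearMap.smul_apply, inner_smul_right]
  rw [e2, e1, Finset.sum_mul]
  refine Finset.sum_congr rfl fun p _ => ?_
  rw [ContinuousLinearMap.mul_apply, sar_pow M₁ (fun z => z.1) h1 p.1 _ z hz,
    sar_pow M₂ (fun z => z.2) h2 p.2 _ z hz]
  ring

/-! ### finitely supported vectors -/

private theorem fs_add {F G : HH} (hF : FinSupp F) (hG : FinSupp G) : FinSupp (F + G) := by
  refine (hF.union hG).subset fun p hp => ?_
  by_contra hc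
  simp only [Set.mem_union, Set.mem_setOf_eq, not_or, not_not] at hc
  apply hp
  rw [lp.coeFn_add, Pi.add_apply, hc.1, hc.2, add_zero]

private theorem fs_smul {F : HH} (c : ℂ) (hF : FinSupp F) : FinSupp (c • F) := by
  refine hF.subset fun p hp => ?_
  intro hc
  apply hp
  rw [lp.coeFn_smul, Pi.smul_apply, hc, smul_zero]

private theorem fs_zero : FinSupp (0 : HH) := by
  refine Set.finite_empty.subset fun p hp => ?_
  exact hp (by rw [lp.coeFn_zero, Pi.zero_apply])

private theorem fs_sum {ι : Type} (s : Finset ι) (f : ι → HH) (h : ∀ i ∈ s, FinSupp (f i)) :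
    FinSupp (∑ i ∈ s, f i) := by
  classical
  induction s using Finset.induction_on with
  | empty => simpa using fs_zero
  | insert a s ha ih =>
    rw [Finset.sum_insert ha]
    exact fs_add (h a (Finset.mem_insert_self _ _)) (ih fun i hi => h i (Finset.mem_insert_of_mem hi))

private theorem fs_one : FinSupp one := by
  refine (Set.finite_singleton ((0, 0) : ℕ × ℕ)).subset fun p hp => ?_
  by_contra hc
  apply hp
  unfold one
  rw [lp.single_apply]
  exact Pi.single_eq_of_ne hc _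

private theorem fs_pow {M : HH →L[ℂ] HH} (h : ∀ F, FinSupp F → FinSupp (M F)) (a : ℕ) :
    ∀ F, FinSupp F → FinSupp ((M ^ a) F) := by
  induction a with
  | zero => intro F hF; simpa using hF
  | succ a ih =>
    intro F hF
    rw [pow_succ, ContinuousLinearMap.mul_apply]
    exact ih _ (h F hF)

theorem piece_sarason (h1 : S_ker) (h2 : S_inj) (h3 : S_ops) (_h4 : S_mulAlg) (h5 : S_poly)
    (_h6 : S_mulKer) : S_sarason := by
  obtain ⟨M₁, M₂, hM1, hM2, hrow, hdec, -, -, -, -, ha1, ha2⟩ := h3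
  intro F hF
  -- the operators
  have hop : ∀ G : HH, ∀ hG : FinSupp G, ∀ g : HH, ∀ z ∈ BB,
      ev (sarOp M₁ M₂ hG.toFinset G g) z = ev G z * ev g z := by
    intro G hG g z hz
    refine sarOp_ev h1 M₁ M₂ hM1 hM2 _ G (fun p hp => ?_) g z hz
    by_contra hc
    exact hp (hG.mem_toFinset.2 hc)
  obtain ⟨T, hT⟩ : ∃ T : HH →L[ℂ] HH, T = sarOp M₁ M₂ hF.toFinset F := ⟨_, rfl⟩
  have hTev : ∀ g : HH, ∀ z ∈ BB, ev (T g) z = ev F z * ev g z := by
    rw [hT]; exact hop F hF
  have fs1 : ∀ G : HH, FinSupp G → FinSupp (star M₁ G) := by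
    intro G hG
    have h : Set.Finite ((fun p : ℕ × ℕ => (p.1 + 1, p.2)) ⁻¹' {p | G p ≠ 0}) := by
      refine Set.Finite.preimage (fun p _ q _ hpq => ?_) hG
      have e := Prod.ext_iff.1 hpq
      exact Prod.ext (by simpa using e.1) (by simpa using e.2)
    refine h.subset fun p hp hc => ?_
    apply hp
    have := ha1 G p.1 p.2
    rw [ContinuousLinearMap.star_eq_adjoint, this, hc, mul_zero]
  have fs2 : ∀ G : HH, FinSupp G → FinSupp (star M₂ G) := by
    intro G hG
    have h : Set.Finite ((fun p : ℕ × ℕ => (p.1, p.2 + 1)) ⁻¹' {p | G p ≠ 0}) := by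
      refine Set.Finite.preimage (fun p _ q _ hpq => ?_) hG
      have e := Prod.ext_iff.1 hpq
      exact Prod.ext (by simpa using e.1) (by simpa using e.2)
    refine h.subset fun p hp hc => ?_
    apply hp
    have := ha2 G p.1 p.2
    rw [ContinuousLinearMap.star_eq_adjoint, this, hc, mul_zero]
  have hTs : FinSupp (ContinuousLinearMap.adjoint T F) := by
    rw [← ContinuousLinearMap.star_eq_adjoint, hT]
    unfold sarOp
    rw [star_sum, ContinuousLinearMap.sum_apply]
    refine fs_sum _ _ fun p _ => ?_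
    have e : star (M₁ ^ p.1 * M₂ ^ p.2) = star M₂ ^ p.2 * star M₁ ^ p.1 := by
      rw [star_mul, star_pow, star_pow]
    rw [star_smul, e, ContinuousLinearMap.smul_apply, ContinuousLinearMap.mul_apply]
    exact fs_smul _ (fs_pow fs2 _ _ (fs_pow fs1 _ _ hF))
  obtain ⟨V, hV⟩ : ∃ V : HH, V = (2 : ℂ) • ContinuousLinearMap.adjoint T F + (-((‖F‖ : ℂ) ^ 2)) • one :=
    ⟨_, rfl⟩
  have hVfs : FinSupp V := by rw [hV]; exact fs_add (fs_smul _ hTs) (fs_smul _ fs_one)
  have hgV : ∀ g : HH, inner ℂ g V = 2 * inner ℂ (T g) F - (‖F‖ : ℂ) ^ 2 * conj (g (0, 0)) := by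
    intro g
    rw [hV, inner_add_right, inner_smul_right, inner_smul_right,
      ContinuousLinearMap.adjoint_inner_right, ← inner_conj_symm g one, h1.2.2.2.2.2.1 g,
      h1.2.2.2.2.2.2 g]
    ring
  refine ⟨V, hVfs, ?_, ?_⟩
  · intro z hz G hG
    have hGT : G = T (ker z) := by
      refine sar_ev_eq h2 fun u hu => ?_
      rw [hG u hu, hTev _ u hu]
      congr 1
      exact (h1.2.1 u hu z hz).symm
    have h7 : ev V z = inner ℂ (ker z) V := rfl
    have h8 : inner ℂ (ker z) one = (1 : ℂ) := h1.2.2.2.1 z hz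
    rw [h7, hV, inner_add_right, inner_smul_right, inner_smul_right,
      ContinuousLinearMap.adjoint_inner_right, h8, hGT]
    ring
  · -- the inequality
    obtain ⟨TV, hTV⟩ : ∃ TV : HH →L[ℂ] HH, TV = sarOp M₁ M₂ hVfs.toFinset V := ⟨_, rfl⟩
    have hTVev : ∀ g : HH, ∀ z ∈ BB, ev (TV g) z = ev V z * ev g z := by
      rw [hTV]; exact hop V hVfs
    have comm : ∀ (T' : HH →L[ℂ] HH) (c : ℂ × ℂ → ℂ), (∀ g : HH, ∀ z ∈ BB, ev (T' g) z = c z * ev g z) →
        (∀ g, T' (M₁ g) = M₁ (T' g)) ∧ ∀ g, T' (M₂ g) = M₂ (T' g) := by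
      intro T' c h
      constructor
      · intro g
        refine sar_ev_eq h2 fun z hz => ?_
        rw [h _ z hz, hM1 _ z hz, hM1 _ z hz, h _ z hz]
        ring
      · intro g
        refine sar_ev_eq h2 fun z hz => ?_
        rw [h _ z hz, hM2 _ z hz, hM2 _ z hz, h _ z hz]
        ring
    obtain ⟨cT1, cT2⟩ := comm T _ hTev
    obtain ⟨cV1, cV2⟩ := comm TV _ hTVev
    have hT1 : T one = F := by
      refine sar_ev_eq h2 fun z hz => ?_
      rw [hTev _ z hz, h1.2.2.2.1 z hz, mul_one]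
    have hTV1 : TV one = V := by
      refine sar_ev_eq h2 fun z hz => ?_
      rw [hTVev _ z hz, h1.2.2.2.1 z hz, mul_one]
    have key : ∀ n : ℕ, ∀ g : HH, (∀ p : ℕ × ℕ, n ≤ p.1 + p.2 → g p = 0) →
        ‖T g‖ ^ 2 ≤ (inner ℂ g (TV g)).re := by
      intro n
      induction n with
      | zero =>
        intro g hg
        have : g = 0 := by
          ext p
          rw [lp.coeFn_zero, Pi.zero_apply]
          exact hg p (Nat.zero_le _)
        rw [this]
        simp
      | succ n ih =>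
        intro g hg
        obtain ⟨g1, hg1⟩ : ∃ g1 : HH, g1 = ContinuousLinearMap.adjoint M₁ g := ⟨_, rfl⟩
        obtain ⟨g2, hg2⟩ : ∃ g2 : HH, g2 = ContinuousLinearMap.adjoint M₂ g := ⟨_, rfl⟩
        have d : g = (g (0, 0)) • one + M₁ g1 + M₂ g2 := by rw [hg1, hg2]; exact hdec g
        obtain ⟨g0, hg0⟩ : ∃ g0 : ℂ, g0 = g (0, 0) := ⟨_, rfl⟩
        rw [← hg0] at d
        have i1 := ih g1 (fun p hp => by
          have := ha1 g p.1 p.2
          rw [hg1, this, hg (p.1 + 1, p.2) (by simp only; omega), mul_zero])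
        have i2 := ih g2 (fun p hp => by
          have := ha2 g p.1 p.2
          rw [hg2, this, hg (p.1, p.2 + 1) (by simp only; omega), mul_zero])
        have eT : T g = g0 • F + (M₁ (T g1) + M₂ (T g2)) := by
          conv_lhs => rw [d]
          rw [map_add, map_add, map_smul, hT1, cT1, cT2, add_assoc]
        have eV : TV g = g0 • V + (M₁ (TV g1) + M₂ (TV g2)) := by
          conv_lhs => rw [d]
          rw [map_add, map_add, map_smul, hTV1, cV1, cV2, add_assoc]
        have n1 : ‖T g‖ ^ 2 = ‖g0 • F‖ ^ 2 + 2 * (inner ℂ (g0 • F) (M₁ (T g1) + M₂ (T g2))).re +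
            ‖M₁ (T g1) + M₂ (T g2)‖ ^ 2 := by
          rw [eT]
          exact norm_add_sq (𝕜 := ℂ) _ _
        have n2 := hrow (T g1) (T g2)
        have n3 : (inner ℂ (g0 • F) (T g)).re = ‖g0 • F‖ ^ 2 +
            (inner ℂ (g0 • F) (M₁ (T g1) + M₂ (T g2))).re := by
          rw [eT, inner_add_right, Complex.add_re]
          congr 1
          exact inner_self_eq_norm_sq (𝕜 := ℂ) _
        have n4 : (inner ℂ g (TV g)).re = (inner ℂ g (g0 • V)).re + ((inner ℂ g1 (TV g1)).re +
            (inner ℂ g2 (TV g2)).re) := by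
          rw [eV, inner_add_right, inner_add_right, Complex.add_re, Complex.add_re,
            ← ContinuousLinearMap.adjoint_inner_left M₁, ← ContinuousLinearMap.adjoint_inner_left M₂,
            ← hg1, ← hg2]
        have n5 : (inner ℂ g (g0 • V)).re = 2 * (inner ℂ (g0 • F) (T g)).re - ‖g0 • F‖ ^ 2 := by
          have n6 : (inner ℂ (g0 • F) (T g)).re = (g0 * inner ℂ (T g) F).re := by
            rw [← inner_smul_right]
            exact inner_re_symm (𝕜 := ℂ) _ _
          have n7 : ‖g0 • F‖ ^ 2 = (g0 * ((‖F‖ : ℂ) ^ 2 * conj g0)).re := by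
            have : g0 * ((‖F‖ : ℂ) ^ 2 * conj g0) = ((‖g0 • F‖ ^ 2 : ℝ) : ℂ) := by
              rw [norm_smul, mul_pow]
              push_cast
              rw [← Complex.mul_conj']
              ring
            rw [this, Complex.ofReal_re]
          rw [inner_smul_right, hgV, ← hg0, n6, n7, ← Complex.re_ofReal_mul, ← Complex.sub_re]
          congr 1
          push_cast
          ring
        rw [n1, n4, n5, n3]
        linarith
    intro g Fg Vg hFg hVg
    have e1 : Fg = T g := sar_ev_eq h2 fun z hz => by rw [hFg z hz, hTev g z hz]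
    have e2 : Vg = TV g := sar_ev_eq h2 fun z hz => by rw [hVg z hz, hTVev g z hz]
    rw [e1, e2]
    obtain ⟨P, hP1, hP2⟩ := h5.2 g
    have hle : ∀ n, ‖T (P n)‖ ^ 2 ≤ (inner ℂ (P n) (TV (P n))).re := by
      intro n
      obtain ⟨N, hN⟩ := ((hP1 n).image (fun p : ℕ × ℕ => p.1 + p.2)).bddAbove
      refine key (N + 1) (P n) fun p hp => ?_
      by_contra hc
      have := hN ⟨p, hc, rfl⟩
      simp only at this
      omega
    have t1 : Tendsto (fun n => ‖T (P n)‖ ^ 2) atTop (𝓝 (‖T g‖ ^ 2)) :=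
      (((T.continuous.tendsto g).comp hP2).norm).pow 2
    have t2 : Tendsto (fun n => (inner ℂ (P n) (TV (P n))).re) atTop (𝓝 (inner ℂ g (TV g)).re) :=
      (Complex.continuous_re.tendsto _).comp (hP2.inner ((TV.continuous.tendsto g).comp hP2))
    exact le_of_tendsto_of_tendsto' t1 t2 hle

end DA91
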