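import Pool.Agent.Lib.MP_e91a1a_an.DA.Stm
import Pool.Agent.Lib.MP_e91a1a_an.DA.P_inj

/-!
# Piece C1: sequential choice of the exponents
-/

open scoped ComplexConjugate Topology
open Filter

namespace DA91

private theorem sq_psi (r : ℝ) (hr : 0 < r) (hr1 : r < 1) (v : ℂ) (hv : ‖v‖ ≤ 1) :
    ‖psi r v‖ ≤ 2 / (1 - r) * ‖v‖ := by
  unfold psi
  have h1 : 1 - r ≤ ‖1 - (r : ℂ) * v‖ := by
    have := norm_sub_norm_le (1 : ℂ) ((r : ℂ) * v)
    rw [norm_one, norm_mul, Complex.norm_real, Real.norm_of_nonneg hr.le] at this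
    nlinarith
  have h0 : 0 < 1 - r := by linarith
  rw [norm_div, div_le_iff₀ (by linarith), norm_mul, norm_mul, Complex.norm_real,
    Real.norm_of_nonneg hr.le, Complex.norm_ofNat]
  have h2 : 2 / (1 - r) * ‖v‖ * (1 - r) ≤ 2 / (1 - r) * ‖v‖ * ‖1 - (r : ℂ) * v‖ := by
    gcongr
  have h3 : 2 / (1 - r) * ‖v‖ * (1 - r) = 2 * ‖v‖ := by
    field_simp
  rw [h3] at h2
  have h4 : 2 * r * ‖v‖ ≤ 2 * ‖v‖ := by
    have := norm_nonneg v
    nlinarith
  linarith

private theorem sq_X (a r : ℝ) (ha : 0 < a) (hr : 0 < r) (hr1 : r < 1) (v : ℂ) (hv : ‖v‖ ≤ 1) :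
    ‖Xf a r v‖ ≤ Real.exp (a * (2 / (1 - r)) * ‖v‖) := by
  unfold Xf
  rw [Complex.norm_exp]
  apply Real.exp_le_exp.2
  refine (Complex.re_le_norm _).trans ?_
  rw [norm_mul, norm_neg, Complex.norm_real, Real.norm_of_nonneg ha.le, mul_assoc]
  exact mul_le_mul_of_nonneg_left (sq_psi r hr hr1 v hv) ha.le

private theorem sq_tendsto (a r : ℝ) (y : ℂ) (hy : ‖y‖ < 1) (c : ℂ) :
    Tendsto (fun n : ℕ => (Xf a r (y ^ n) - 1) * c) atTop (𝓝 0) := by
  have h1 : Tendsto (fun n : ℕ => y ^ n) atTop (𝓝 0) := tendsto_pow_atTop_nhds_zero_of_norm_lt_one hy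
  have h2 : ContinuousAt (fun w : ℂ => (Xf a r w - 1) * c) 0 := by
    unfold Xf psi
    have h3 : (1 : ℂ) - (r : ℂ) * 0 ≠ 0 := by simp
    have h4 : ContinuousAt (fun w : ℂ => 2 * (r : ℂ) * w / (1 - r * w)) 0 :=
      ContinuousAt.div (by fun_prop) (by fun_prop) h3
    fun_prop
  have h3 := h2.tendsto.comp h1
  have h4 : (Xf a r 0 - 1) * c = 0 := by
    unfold Xf psi
    simp
  rw [h4] at h3
  exact h3

private theorem sq_ev_add (F G : HH) (z : ℂ × ℂ) : ev (F + G) z = ev F z + ev G z := by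
  unfold ev
  exact inner_add_right _ _ _

theorem piece_seq (h1 : S_asym) (h2 : S_lim) (h3 : S_ballY) (h4 : S_ker) : S_seq := by
  classical
  intro ι _ nd a r ha hr hr1 f b Q q0 D hQ hq0 hq1 hD hδ hf hb hY κ hκ n0
  set c : ℝ := a * (2 / (1 - r)) with hc
  have h1r : 0 < 1 - r := by linarith
  have hc0 : 0 < c := by positivity
  -- choice of N1
  obtain ⟨N1, hN1⟩ : ∃ N1 : ℕ, (Fintype.card ι : ℝ) * (c * q0 ^ N1) ≤ Real.log (1 + κ) := by
    have t1 : Tendsto (fun n : ℕ => (Fintype.card ι : ℝ) * (c * q0 ^ n)) atTop (𝓝 0) := by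
      have := (tendsto_pow_atTop_nhds_zero_of_lt_one hq0 hq1).const_mul c
      have := this.const_mul (Fintype.card ι : ℝ)
      simpa using this
    have t2 : 0 < Real.log (1 + κ) := Real.log_pos (by linarith)
    exact (t1.eventually (ge_mem_nhds t2)).exists
  have hE0 : 0 < Real.exp a + 1 := by positivity
  set L : ℝ := Q * (1 + κ) * (Real.exp a + 1) with hL
  have hL0 : 0 ≤ L := by positivity
  have key : ∀ s : Finset ι, ∀ κ' > 0, ∀ m0 : ℕ, N1 ≤ m0 → ∃ n : ι → ℕ, (∀ j, m0 ≤ n j) ∧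
      ∃ f' b' : HH,
      (∀ z ∈ BB, ev f' z = ev f z * ∏ j ∈ s, Xf a r ((nd j).Y z ^ n j)) ∧
      (∀ z ∈ BB, ev b' z = ev b z * ∏ j ∈ s, Xf a r ((nd j).Y z ^ n j)) ∧
      ‖f' - f‖ ^ 2 ≤ L ^ 2 * ∑ j ∈ s, D j ^ 2 + κ' ∧ ‖b' - b‖ ≤ κ' := by
    intro s
    induction s using Finset.induction_on with
    | empty =>
      intro κ' hκ' m0 _
      refine ⟨fun _ => m0, fun _ => le_rfl, f, b, ?_, ?_, ?_, ?_⟩
      · intro z _
        simp
      · intro z _
        simp
      · simp only [sub_self, norm_zero, Finset.sum_empty, mul_zero, zero_add]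
        norm_num
        exact hκ'.le
      · simp only [sub_self, norm_zero]
        exact hκ'.le
    | insert j s hjs ih =>
      intro κ' hκ' m0 hm0
      obtain ⟨n, hn, f1, b1, hf1, hb1, hfn, hbn⟩ := ih (κ' / 2) (by positivity) m0 hm0
      have hBB : ∀ w : ℂ, ‖w‖ < 1 → (nd j).Φ (w, 0) ∈ BB := by
        intro w hw
        apply (nd j).mapB
        show ‖w‖ ^ 2 + ‖(0 : ℂ)‖ ^ 2 < 1
        rw [norm_zero]
        have := norm_nonneg w
        nlinarith
      -- the product on the disc of j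
      have hprod : ∀ w : ℂ, ‖w‖ < 1 →
          ‖∏ i ∈ s, Xf a r ((nd i).Y ((nd j).Φ (w, 0)) ^ n i)‖ ≤ 1 + κ := by
        intro w hw
        rw [norm_prod]
        have e1 : ∀ i ∈ s, ‖Xf a r ((nd i).Y ((nd j).Φ (w, 0)) ^ n i)‖ ≤
            Real.exp (c * q0 ^ N1) := by
          intro i hi
          have hij : i ≠ j := by
            rintro rfl
            exact hjs hi
          have e2 := hY i j hij w hw
          have e3 : ‖(nd i).Y ((nd j).Φ (w, 0)) ^ n i‖ ≤ q0 ^ N1 := by
            rw [norm_pow]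
            calc ‖(nd i).Y ((nd j).Φ (w, 0))‖ ^ n i ≤ q0 ^ n i :=
                  pow_le_pow_left₀ (norm_nonneg _) e2 _
              _ ≤ q0 ^ N1 := pow_le_pow_of_le_one hq0 hq1.le (hm0.trans (hn i))
          have e4 : ‖(nd i).Y ((nd j).Φ (w, 0)) ^ n i‖ ≤ 1 :=
            e3.trans (pow_le_one₀ hq0 hq1.le)
          refine (sq_X a r ha hr hr1 _ e4).trans (Real.exp_le_exp.2 ?_)
          exact mul_le_mul_of_nonneg_left e3 hc0.le
        calc ∏ i ∈ s, ‖Xf a r ((nd i).Y ((nd j).Φ (w, 0)) ^ n i)‖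
            ≤ ∏ _i ∈ s, Real.exp (c * q0 ^ N1) :=
              Finset.prod_le_prod (fun _ _ => norm_nonneg _) e1
          _ = Real.exp (s.card * (c * q0 ^ N1)) := by
              rw [Finset.prod_const, ← Real.exp_nat_mul]
          _ ≤ Real.exp (Real.log (1 + κ)) := by
              apply Real.exp_le_exp.2
              refine le_trans ?_ hN1
              have : (s.card : ℝ) ≤ (Fintype.card ι : ℝ) := by
                exact_mod_cast Finset.card_le_univ s
              have h0 : 0 ≤ c * q0 ^ N1 := by positivity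
              exact mul_le_mul_of_nonneg_right this h0
          _ = 1 + κ := Real.exp_log (by linarith)
      have hM : ∀ w : ℂ, ‖w‖ < 1 →
          ‖(nd j).δ (w, 0) * ev f1 ((nd j).Φ (w, 0))‖ ≤ D j * (Q * (1 + κ)) := by
        intro w hw
        rw [norm_mul, hf1 _ (hBB w hw), norm_mul]
        exact mul_le_mul (hδ j w hw) (mul_le_mul (hf j w hw) (hprod w hw) (norm_nonneg _) hQ)
          (by positivity) (hD j)
      have hM' : ∀ w : ℂ, ‖w‖ < 1 →
          ‖(nd j).δ (w, 0) * ev b1 ((nd j).Φ (w, 0))‖ ≤ 0 := by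
        intro w hw
        rw [hb1 _ (hBB w hw), hb j w hw, zero_mul, mul_zero, norm_zero]
      have hDQ : 0 ≤ D j * (Q * (1 + κ)) := mul_nonneg (hD j) (by positivity)
      -- small ε
      set M : ℝ := D j * (Q * (1 + κ)) * (Real.exp a + 1) with hMdef
      have hM0 : 0 ≤ M := mul_nonneg hDQ hE0.le
      obtain ⟨ε, hε0, hε⟩ : ∃ ε : ℝ, 0 < ε ∧ (M + ε) ^ 2 ≤ M ^ 2 + κ' / 4 := by
        refine ⟨min 1 (κ' / (4 * (2 * M + 1))), by positivity, ?_⟩
        set ε := min 1 (κ' / (4 * (2 * M + 1))) with hεd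
        have e1 : ε ≤ 1 := min_le_left _ _
        have e2 : ε ≤ κ' / (4 * (2 * M + 1)) := min_le_right _ _
        have e0 : 0 < ε := by positivity
        rw [le_div_iff₀ (by positivity)] at e2
        nlinarith
      obtain ⟨n1, hn1⟩ := h1 (nd j) a r ha hr hr1 f1 _ hDQ hM ε hε0
      obtain ⟨n2, hn2⟩ := h1 (nd j) a r ha hr hr1 b1 0 le_rfl hM' (κ' / 2) (by positivity)
      choose! Dv hDv1 hDv2 using hn1
      -- weak convergence
      have hBall := h3 (nd j)
      have hlim : Tendsto (fun k : ℕ => inner ℂ (f1 - f) (Dv (n1 + k))) atTop (𝓝 0) := by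
        obtain ⟨G, _, hG2, hG3⟩ := h2 (M + ε) (fun k => Dv (n1 + k))
          (fun k => by
            refine (hDv2 (n1 + k) (by omega)).trans (le_of_eq ?_)
            rw [hMdef])
          (fun _ => 0) (fun z hz => by
            have e1 := sq_tendsto a r ((nd j).Y z) (hBall.2.1 z hz) (ev f1 z)
            have e2 : Tendsto (fun k : ℕ => n1 + k) atTop atTop :=
              tendsto_atTop_mono (fun k => Nat.le_add_left k n1) tendsto_id
            refine (e1.comp e2).congr fun k => ?_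
            exact (hDv1 (n1 + k) (by omega) z hz).symm)
        have hG0 : G = 0 := piece_inj h4 G hG2
        have := hG3 (f1 - f)
        rw [hG0, inner_zero_right] at this
        exact this
      obtain ⟨k, hk0, hk⟩ : ∃ k : ℕ, n2 + m0 ≤ k ∧ ‖inner ℂ (f1 - f) (Dv (n1 + k))‖ ≤ κ' / 8 := by
        have e1 := (tendsto_zero_iff_norm_tendsto_zero.1 hlim).eventually
          (ge_mem_nhds (show (0 : ℝ) < κ' / 8 by positivity))
        exact ((eventually_ge_atTop (n2 + m0)).and e1).exists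
      obtain ⟨Db, hDb1, hDb2⟩ := hn2 (n1 + k) (by omega)
      have hne : ∀ i ∈ s, i ≠ j := by
        rintro i hi rfl
        exact hjs hi
      refine ⟨Function.update n j (n1 + k), ?_, f1 + Dv (n1 + k), b1 + Db, ?_, ?_, ?_, ?_⟩
      · intro i
        by_cases hi : i = j
        · subst hi
          rw [Function.update_self]
          omega
        · rw [Function.update_of_ne hi]
          exact hn i
      · intro z hz
        rw [Finset.prod_insert hjs, Function.update_self, sq_ev_add, hDv1 _ (by omega) z hz,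
          Finset.prod_congr rfl (fun i hi => by rw [Function.update_of_ne (hne i hi)]), hf1 z hz]
        ring
      · intro z hz
        rw [Finset.prod_insert hjs, Function.update_self, sq_ev_add, hDb1 z hz,
          Finset.prod_congr rfl (fun i hi => by rw [Function.update_of_ne (hne i hi)]), hb1 z hz]
        ring
      · have e1 : f1 + Dv (n1 + k) - f = (f1 - f) + Dv (n1 + k) := by abel
        rw [e1, norm_add_sq (𝕜 := ℂ), Finset.sum_insert hjs]
        have e2 : RCLike.re (inner ℂ (f1 - f) (Dv (n1 + k))) ≤ κ' / 8 :=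
          (RCLike.re_le_norm _).trans hk
        have e3 : ‖Dv (n1 + k)‖ ^ 2 ≤ M ^ 2 + κ' / 4 := by
          refine le_trans ?_ hε
          exact pow_le_pow_left₀ (norm_nonneg _) (hDv2 (n1 + k) (by omega)) 2
        have e4 : M ^ 2 = L ^ 2 * D j ^ 2 := by
          rw [hMdef, hL]
          ring
        rw [e4] at e3
        have e5 : L ^ 2 * (D j ^ 2 + ∑ i ∈ s, D i ^ 2) + κ' =
          L ^ 2 * D j ^ 2 + L ^ 2 * ∑ i ∈ s, D i ^ 2 + κ' := by ring
        rw [e5]
        linarith
      · have e1 : b1 + Db - b = (b1 - b) + Db := by abel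
        rw [e1]
        refine (norm_add_le _ _).trans ?_
        have e2 : ‖Db‖ ≤ κ' / 2 := by
          refine hDb2.trans (le_of_eq ?_)
          ring
        linarith
  obtain ⟨n, hn, f', b', e1, e2, e3, e4⟩ := key Finset.univ κ hκ (max N1 n0) (le_max_left _ _)
  exact ⟨n, fun j => (le_max_right _ _).trans (hn j), f', b', e1, e2, e3, e4⟩

end DA91
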