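import Pool.Agent.Lib.MP_e91a1a_an.DA.Stm2

/-!
# MP_e91a1a_an, piece C4 : the step
-/

open scoped ComplexConjugate Topology
open Filter

namespace DA91

noncomputable section

private theorem step_arith (N η κ σ A : ℝ) (hκ : 0 < κ) (hη : 0 < η) (hη2 : η ≤ 1 / 2) (hN : 1 ≤ N)
    (hκ1 : κ ≤ Real.exp (-(2 * η * N))) (hσ : σ < 1) (hA : 0 ≤ A) (hA1 : A ≤ 1) :
    (Real.exp (-(N - σ)) * (1 + κ) * (Real.exp ((1 - η) * N) + 1)) ^ 2 * A + κ ≤
      (11 * Real.exp (-(η * N))) ^ 2 := by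
  have h1 : κ ≤ 1 := by
    refine hκ1.trans (Real.exp_le_one_iff.2 ?_)
    have : 0 ≤ 2 * η * N := by positivity
    linarith
  have h2 : Real.exp (-(N - σ)) * (1 + κ) * (Real.exp ((1 - η) * N) + 1) ≤
      4 * Real.exp 1 * Real.exp (-(η * N)) := by
    have h3 : Real.exp (-(N - σ)) ≤ Real.exp (1 - N) := Real.exp_le_exp.2 (by linarith)
    have h4 : Real.exp ((1 - η) * N) + 1 ≤ 2 * Real.exp ((1 - η) * N) := by
      have : 1 ≤ Real.exp ((1 - η) * N) := Real.one_le_exp (by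
        apply mul_nonneg <;> linarith)
      linarith
    have h5 : Real.exp (1 - N) * Real.exp ((1 - η) * N) = Real.exp 1 * Real.exp (-(η * N)) := by
      rw [← Real.exp_add, ← Real.exp_add]
      congr 1
      ring
    calc Real.exp (-(N - σ)) * (1 + κ) * (Real.exp ((1 - η) * N) + 1)
        ≤ Real.exp (1 - N) * 2 * (2 * Real.exp ((1 - η) * N)) := by
          have h6 : Real.exp (-(N - σ)) * (1 + κ) ≤ Real.exp (1 - N) * 2 :=
            mul_le_mul h3 (by linarith) (by linarith) (Real.exp_pos _).le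
          exact mul_le_mul h6 h4 (by positivity) (by positivity)
      _ = 4 * (Real.exp (1 - N) * Real.exp ((1 - η) * N)) := by ring
      _ = 4 * Real.exp 1 * Real.exp (-(η * N)) := by rw [h5]; ring
  have h7 : 0 ≤ Real.exp (-(N - σ)) * (1 + κ) * (Real.exp ((1 - η) * N) + 1) := by positivity
  have h8 := pow_le_pow_left₀ h7 h2 2
  have h9 : Real.exp (-(2 * η * N)) = Real.exp (-(η * N)) ^ 2 := by
    rw [← Real.exp_nat_mul]
    congr 1
    push_cast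
    ring
  have h10 : Real.exp 1 ≤ 2.7182818286 := Real.exp_one_lt_d9.le
  have h11 : 0 ≤ Real.exp 1 := (Real.exp_pos _).le
  have h12 : Real.exp 1 ^ 2 ≤ 7.5 := by
    have := pow_le_pow_left₀ h11 h10 2
    refine this.trans (by norm_num)
  have h13 : 0 ≤ Real.exp (-(η * N)) ^ 2 := by positivity
  have h14 : (Real.exp (-(N - σ)) * (1 + κ) * (Real.exp ((1 - η) * N) + 1)) ^ 2 * A ≤
      120 * Real.exp (-(η * N)) ^ 2 := by
    calc _ ≤ (Real.exp (-(N - σ)) * (1 + κ) * (Real.exp ((1 - η) * N) + 1)) ^ 2 * 1 :=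
          mul_le_mul_of_nonneg_left hA1 (by positivity)
      _ ≤ (4 * Real.exp 1 * Real.exp (-(η * N))) ^ 2 := by rw [mul_one]; exact h8
      _ = 16 * Real.exp 1 ^ 2 * Real.exp (-(η * N)) ^ 2 := by ring
      _ ≤ 120 * Real.exp (-(η * N)) ^ 2 := by
          apply mul_le_mul_of_nonneg_right _ h13
          linarith
  rw [h9] at hκ1
  calc _ ≤ 120 * Real.exp (-(η * N)) ^ 2 + Real.exp (-(η * N)) ^ 2 := add_le_add h14 hκ1
    _ = (11 * Real.exp (-(η * N))) ^ 2 := by ring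

private theorem step_disc (w : ℂ) (hw : ‖w‖ < 1) : ((w, 0) : ℂ × ℂ) ∈ BB ∧ ((w, 0) : ℂ × ℂ) ∈ KK := by
  have h : ‖w‖ ^ 2 < 1 := by
    have := norm_nonneg w
    nlinarith
  constructor
  · show ‖w‖ ^ 2 + ‖(0 : ℂ)‖ ^ 2 < 1
    simpa using h
  · show ‖w‖ ^ 2 + ‖(0 : ℂ)‖ ^ 2 ≤ 1
    simpa using h.le

theorem piece_step (h1 : S_ker) (_h2 : S_inj) (h3 : S_geo) (h4 : S_seq) (h5 : S_blaschke) (h6 : S_tube)
    (_h7 : S_ballY) (h8 : S_mulAlg) (h9 : S_mulExp) : S_step := by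
  intro S hS η κ R' hη hη2 hκ hκ1 hσκ hR hR1
  obtain ⟨ρ₀, hρ0, hρ1, hgeo⟩ := h3 S hS η κ R' hη hη2 hκ hσκ hR hR1
  refine ⟨ρ₀, hρ0, hρ1, ?_⟩
  intro ρ r hρ hρ' hr hr1
  obtain ⟨n0, hn0⟩ := hgeo ρ r hρ hρ' hr hr1
  letI := S.fin
  -- the vector f
  obtain ⟨hconst, hprod, -, hcong, -, -⟩ := h8
  have hm : Mul (fun z => (-1 : ℂ) * S.h z) (‖(-1 : ℂ)‖ * S.Ch) :=
    hprod (fun _ => -1) S.h ‖(-1 : ℂ)‖ S.Ch (hconst (-1)) hS.mul (norm_nonneg _) hS.hCh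
  have hexp := h9.1 _ _ hm (mul_nonneg (norm_nonneg _) hS.hCh)
  obtain ⟨f, -, hf⟩ := hexp one
  have hone : ∀ z ∈ BB, ev one z = 1 := h1.2.2.2.1
  have hf' : ∀ z ∈ BB, ev f z = Complex.exp (-S.h z) := by
    intro z hz
    rw [hf z hz, hone z hz, mul_one]
    congr 1
    ring
  -- the vector b
  obtain ⟨b, hb, hb1, hb2⟩ := h5 S.ι S.nd S.ε hS.s5
  -- the constants
  obtain ⟨D, hD0, hD1, hD2⟩ := hS.s4
  obtain ⟨ε₀, hε₀, q, hq0, hq1, htube1, htube2⟩ := h6 S.ι S.nd S.h (S.N - S.σ) hS.cont hS.s1 hS.s2 1 one_pos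
  have hdisc : ∀ j, ∀ w : ℂ, ‖w‖ < 1 → (S.nd j).Φ (w, 0) ∈ BB ∧ (S.nd j).Φ (w, 0) ∈ KK ∧
      (S.nd j).β ((S.nd j).Φ (w, 0)) = 0 := by
    intro j w hw
    obtain ⟨hB, hK⟩ := step_disc w hw
    refine ⟨(S.nd j).mapB _ hB, (S.nd j).mapK _ hK, ?_⟩
    show ((S.nd j).Ψ ((S.nd j).Φ (w, 0))).2 = 0
    rw [(S.nd j).linv _ hK]
  have ha : 0 < (1 - η) * S.N := by
    apply mul_pos
    · linarith
    · linarith [hS.hN]
  obtain ⟨n, hn, f', b', hf1, hb3, hf2, hb4⟩ := h4 S.ι S.nd ((1 - η) * S.N) r ha hr hr1 f b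
    (Real.exp (-(S.N - S.σ))) q D (Real.exp_pos _).le hq0 hq1 hD0 hD1
    (by
      intro j w hw
      obtain ⟨hB, hK, hβ⟩ := hdisc j w hw
      rw [hf' _ hB, Complex.norm_exp, Complex.neg_re]
      exact Real.exp_le_exp.2 (neg_le_neg (hS.s1 j _ hK hβ)))
    hb2
    (by
      intro i j hij w hw
      obtain ⟨hB, hK, hβ⟩ := hdisc j w hw
      exact (htube2 i j hij _ hK (by rw [hβ, norm_zero]; exact hε₀.le)).1)
    κ hκ n0
  obtain ⟨S', hS', hh, hN', ht', hσ', hε', hR', hclose⟩ := hn0 n hn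
  have hprodX : ∀ z, Complex.exp (S.h z - S'.h z) =
      ∏ j, Xf ((1 - η) * S.N) r ((S.nd j).Y z ^ n j) := by
    intro z
    have e1 : S.h z - S'.h z = ∑ j, (-(((1 - η) * S.N : ℝ) : ℂ) * psi r ((S.nd j).Y z ^ n j)) := by
      rw [hh, nextH, ← Finset.mul_sum]
      ring
    rw [e1, Complex.exp_sum]
    rfl
  refine ⟨S', hS', hN', ht', hσ', hε', hR', hclose, f, f', b, b', hf', ?_, ?_, hb, hb1, ?_, hb4⟩
  · intro z hz
    rw [hf1 z hz, hf' z hz, ← hprodX z, ← Complex.exp_add]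
    congr 1
    ring
  · have hA : 0 ≤ ∑ j, D j ^ 2 := Finset.sum_nonneg fun j _ => sq_nonneg _
    have h10 := hf2.trans (step_arith S.N η κ S.σ (∑ j, D j ^ 2) hκ hη hη2 hS.hN hκ1 hS.hσ1 hA hD2)
    exact (pow_le_pow_iff_left₀ (norm_nonneg _) (by positivity) (two_ne_zero)).1 h10
  · intro z hz
    rw [hb3 z hz, hprodX z]

end

end DA91
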