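import Pool.Agent.Lib.MP_e91a1a_an.DA.Stm2

/-!
# MP_e91a1a_an : the tower of stages [D1]
-/

open scoped ComplexConjugate Topology
open Filter

namespace DA91

private theorem tower_id {ρ η u : ℝ} (hρ : 1 + ρ ≠ 0) (hu : 1 - u ≠ 0) :
    (1 - ρ) / (1 + ρ) * (1 + (1 - η) * (2 * u / (1 - u))) =
      (1 - ρ) / (1 + ρ) * η + (1 - η) * ((1 - ρ) * (1 + u) / ((1 + ρ) * (1 - u))) := by
  field_simp
  ring

private theorem tower_p {p : ℝ} (hp0 : 0 < p) (hp1 : p ≤ 1) :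
    (1 + p / 2) / 2 ≤ (1 + p) / 2 * (1 - p / 8) ^ 2 := by
  have e : (1 + p) / 2 * (1 - p / 8) ^ 2 - (1 + p / 2) / 2 =
      ((15 / 64) * (p * (1 - p)) + p / 64 + p ^ 3 / 64) / 2 := by ring
  have e1 : 0 ≤ p * (1 - p) := mul_nonneg hp0.le (by linarith)
  have e2 : 0 < p ^ 3 := pow_pos hp0 3
  linarith

/-- choice of `r` -/
private theorem tower_r {ρ η : ℝ} (h0 : 0 < ρ) (h1 : ρ < 1) (e0 : 0 < η) (e1 : η ≤ 1 / 2) :
    ∃ r : ℝ, 0 < r ∧ r < 1 ∧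
      (1 - η) ^ 2 ≤ (1 - ρ) / (1 + ρ) * (1 + (1 - η) * (2 * r * ρ / (1 - r * ρ))) := by
  have p1 : 0 < (1 - ρ) * (1 + ρ) := by apply mul_pos <;> linarith
  have p2 : (1 - ρ) * (1 + ρ) < 1 := by nlinarith [mul_pos h0 h0]
  have p3 : η * ((1 - ρ) * (1 + ρ)) ≤ 1 / 2 := by nlinarith
  have p4 : 0 < η * ((1 - ρ) * (1 + ρ)) := mul_pos e0 p1
  obtain ⟨s, hs⟩ : ∃ s : ℝ, s = η * ((1 - ρ) * (1 + ρ)) / 2 := ⟨_, rfl⟩
  have s0 : 0 < s := by rw [hs]; linarith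
  have s1 : s < 1 := by rw [hs]; linarith
  refine ⟨1 - s, by linarith, by linarith, ?_⟩
  have u1 : 0 < 1 - (1 - s) * ρ := by nlinarith [mul_pos s0 h0]
  have hρ : 0 < 1 + ρ := by linarith
  -- the key inequality
  have key : (1 - η) * ((1 + ρ) * (1 - (1 - s) * ρ)) ≤ (1 - ρ) * (1 + (1 - s) * ρ) := by
    have e : (1 - ρ) * (1 + (1 - s) * ρ) - (1 - η) * ((1 + ρ) * (1 - (1 - s) * ρ)) =
        2 * s - s * ρ * ((1 - ρ) + (1 - η) * (1 + ρ)) := by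
      rw [hs]; ring
    have b1 : (1 - ρ) + (1 - η) * (1 + ρ) ≤ 2 := by nlinarith [mul_pos e0 hρ]
    have b2 : s * ρ * ((1 - ρ) + (1 - η) * (1 + ρ)) ≤ s * ρ * 2 :=
      mul_le_mul_of_nonneg_left b1 (mul_pos s0 h0).le
    have b3 : s * ρ ≤ s := by nlinarith
    linarith
  have e2 : (1 - ρ) / (1 + ρ) * (1 + (1 - η) * (2 * (1 - s) * ρ / (1 - (1 - s) * ρ))) =
      (1 - ρ) / (1 + ρ) * η +
        (1 - η) * ((1 - ρ) * (1 + (1 - s) * ρ) / ((1 + ρ) * (1 - (1 - s) * ρ))) := by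
    rw [mul_assoc 2 (1 - s) ρ]
    exact tower_id hρ.ne' u1.ne'
  rw [e2]
  have e3 : 1 - η ≤ (1 - ρ) * (1 + (1 - s) * ρ) / ((1 + ρ) * (1 - (1 - s) * ρ)) := by
    rw [le_div_iff₀ (mul_pos hρ u1)]
    exact key
  have e4 : 0 ≤ (1 - ρ) / (1 + ρ) * η := by
    apply mul_nonneg _ e0.le
    apply div_nonneg <;> linarith
  have e5 : (1 - η) * (1 - η) ≤
      (1 - η) * ((1 - ρ) * (1 + (1 - s) * ρ) / ((1 + ρ) * (1 - (1 - s) * ρ))) :=
    mul_le_mul_of_nonneg_left e3 (by linarith)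
  nlinarith

/-- choice of `ρ` -/
private theorem tower_rho {ρ₀ t M : ℝ} (h1 : ρ₀ < 1) (ht : 0 < t) (hM : 0 < M) :
    ∃ ρ : ℝ, ρ₀ < ρ ∧ ρ < 1 ∧ 1 / 3 ≤ ρ ∧ M ≤ 1 / (2 * (t * ((1 - ρ) / (1 + ρ)))) := by
  have p1 : 0 < 1 / (2 * (M * t)) := by positivity
  obtain ⟨δ, hδ, d1, d2, d3⟩ : ∃ δ : ℝ, 0 < δ ∧ δ < 1 - ρ₀ ∧ δ ≤ 2 / 3 ∧ δ ≤ 1 / (2 * (M * t)) := by
    refine ⟨min ((1 - ρ₀) / 2) (min (2 / 3) (1 / (2 * (M * t)))), ?_, ?_, ?_, ?_⟩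
    · refine lt_min (by linarith) (lt_min (by norm_num) p1)
    · exact lt_of_le_of_lt (min_le_left _ _) (by linarith)
    · exact (min_le_right _ _).trans (min_le_left _ _)
    · exact (min_le_right _ _).trans (min_le_right _ _)
  refine ⟨1 - δ, by linarith, by linarith, by linarith, ?_⟩
  have e1 : 0 < 1 + (1 - δ) := by linarith
  have e2 : 1 - (1 - δ) = δ := by ring
  rw [e2]
  have e3 : 0 < 2 * (t * (δ / (1 + (1 - δ)))) := by positivity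
  rw [le_div_iff₀ e3]
  have e4 : δ / (1 + (1 - δ)) ≤ δ := by
    rw [div_le_iff₀ e1]
    nlinarith
  have e5 : δ * (2 * (M * t)) ≤ 1 := by
    rwa [le_div_iff₀ (by positivity)] at d3
  have e6 : M * (2 * (t * (δ / (1 + (1 - δ))))) ≤ M * (2 * (t * δ)) := by gcongr
  calc M * (2 * (t * (δ / (1 + (1 - δ))))) ≤ M * (2 * (t * δ)) := e6
    _ = δ * (2 * (M * t)) := by ring
    _ ≤ 1 := e5

/-- the exponential beats a linear bound -/
private theorem tower_exp {c B ε x : ℝ} (hc : 0 < c) (_hB : 0 ≤ B) (hε : 0 < ε) (hx : 0 < x)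
    (h : 11 * B / (c * ε) ≤ x) : 11 * Real.exp (-(c * x)) * B ≤ ε := by
  have h1 : c * x ≤ Real.exp (c * x) := by linarith [Real.add_one_le_exp (c * x)]
  have h2 : 0 < c * x := mul_pos hc hx
  rw [Real.exp_neg, ← div_eq_mul_inv, div_mul_eq_mul_div, div_le_iff₀ (Real.exp_pos _)]
  rw [div_le_iff₀ (mul_pos hc hε)] at h
  calc 11 * B ≤ x * (c * ε) := h
    _ = ε * (c * x) := by ring
    _ ≤ ε * Real.exp (c * x) := mul_le_mul_of_nonneg_left h1 hε.le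

/-- the invariants of the tower -/
private def TInv (k : ℕ) (x : Stage × ℝ) : Prop :=
  x.1.Good ∧ (1 + (1 / 2 : ℝ) ^ k) / 2 ≤ x.1.t * x.1.N ∧ x.1.t ≤ (1 / 2 : ℝ) ^ k ∧
    x.1.σ ≤ (1 - (1 / 2 : ℝ) ^ k) / 2 ∧ x.1.ε ≤ (1 / 4 : ℝ) ^ k ∧ 0 ≤ x.2 ∧
    11 * Real.exp (-((1 / 2 : ℝ) ^ (k + 3) * x.1.N)) * x.2 ≤ (1 / 2 : ℝ) ^ k

/-- the relation between consecutive stages -/
private def TRel (k : ℕ) (x x' : Stage × ℝ) : Prop :=
  x'.2 = max x.2 (Real.exp x.1.Ch) ∧ x.1.R ≤ x'.1.R ∧ 1 - (1 / 2 : ℝ) ^ (k + 1) ≤ x'.1.R ∧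
    (∀ z : ℂ × ℂ, ‖z.1‖ ^ 2 + ‖z.2‖ ^ 2 ≤ x.1.R ^ 2 →
      ‖x'.1.h z - x.1.h z‖ ≤ (1 / 4 : ℝ) ^ (k + 1)) ∧
    ∃ f f' b b' : HH, (∀ z ∈ BB, ev f z = Complex.exp (-x.1.h z)) ∧
      (∀ z ∈ BB, ev f' z = Complex.exp (-x'.1.h z)) ∧
      ‖f' - f‖ ≤ 11 * Real.exp (-((1 / 2 : ℝ) ^ (k + 3) * x.1.N)) ∧ Mul (ev b) 1 ∧
      ‖b - one‖ ^ 2 ≤ 2 * (1 / 4 : ℝ) ^ k ∧
      (∀ z ∈ BB, ev b' z = ev b z * Complex.exp (x.1.h z - x'.1.h z)) ∧
      ‖b' - b‖ ≤ (1 / 4 : ℝ) ^ (k + 1)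

private theorem tower_step (h2 : S_step) (k : ℕ) (x : Stage × ℝ) (hx : TInv k x) :
    ∃ x', TInv (k + 1) x' ∧ TRel k x x' := by
  obtain ⟨S, B⟩ := x
  obtain ⟨hS, hNt, htk, hσk, hεk, hB, hL⟩ := hx
  simp only at hS hNt htk hσk hεk hB hL
  -- small powers
  obtain ⟨p, hp⟩ : ∃ p : ℝ, p = (1 / 2 : ℝ) ^ k := ⟨_, rfl⟩
  have hp0 : 0 < p := by rw [hp]; positivity
  have hp1 : p ≤ 1 := by rw [hp]; exact pow_le_one₀ (by norm_num) (by norm_num)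
  have hpη : (1 / 2 : ℝ) ^ (k + 3) = p / 8 := by rw [pow_add, ← hp]; norm_num; ring
  have hp' : (1 / 2 : ℝ) ^ (k + 1) = p / 2 := by rw [pow_succ, ← hp]; ring
  have h4 : (1 / 4 : ℝ) ^ k = p ^ 2 := by
    rw [hp, ← pow_mul, mul_comm k 2, pow_mul]; norm_num
  have h4' : (1 / 4 : ℝ) ^ (k + 1) = p ^ 2 / 4 := by rw [pow_succ, h4]; ring
  obtain ⟨κ, hκ⟩ : ∃ κ : ℝ, κ = min (p ^ 2 / 16) (Real.exp (-(2 * (p / 8) * S.N))) := ⟨_, rfl⟩
  have κ0 : 0 < κ := by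
    rw [hκ]; exact lt_min (by positivity) (Real.exp_pos _)
  have κ1 : κ ≤ p ^ 2 / 16 := by rw [hκ]; exact min_le_left _ _
  have κ2 : κ ≤ Real.exp (-(2 * (p / 8) * S.N)) := by rw [hκ]; exact min_le_right _ _
  have hpp : p ^ 2 ≤ p := by nlinarith
  rw [← hp] at hNt htk hσk
  have hp2 : 0 < p ^ 2 := by positivity
  have hσκ : S.σ + κ < 1 := by linarith
  obtain ⟨ρ₀, hρ0, hρ1, hstep⟩ := h2 S hS (p / 8) κ (max S.R (1 - p / 2)) (by linarith)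
    (by linarith) κ0 κ2 hσκ (le_max_left _ _) (max_lt hS.hR1 (by linarith))
  -- the bound for the next stage
  obtain ⟨B', hB'⟩ : ∃ B' : ℝ, B' = max B (Real.exp S.Ch) := ⟨_, rfl⟩
  have B'0 : 0 < B' := by rw [hB']; exact lt_max_of_lt_right (Real.exp_pos _)
  have hM : 0 < 11 * B' / ((p / 16) * (p / 2)) := by positivity
  obtain ⟨ρ, r1, r2, r3, r4⟩ := tower_rho hρ1 hS.ht hM
  have ρ0 : 0 < ρ := by linarith
  obtain ⟨r, q0, q1, q2⟩ := tower_r ρ0 r2 (η := p / 8) (by linarith) (by linarith)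
  obtain ⟨S', hS', eN, et, eσ, eε, eR, hh, f, f', b, b', hf, hf', hff, hb, hb1, hb', hbb⟩ :=
    hstep ρ r r1 r2 q0 q1
  have hN0 : 0 < S.N := by linarith [hS.hN]
  have ht' : 0 < S'.t := hS'.ht
  have htN : (1 + p / 2) / 2 ≤ S'.t * S'.N := by
    have e1 : S'.t * S'.N = (S.t * S.N) *
        ((1 - ρ) / (1 + ρ) * (1 + (1 - p / 8) * (2 * r * ρ / (1 - r * ρ)))) := by
      rw [et, eN]; ring
    rw [e1]
    have e2 : (1 + p) / 2 * (1 - p / 8) ^ 2 ≤ (S.t * S.N) *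
        ((1 - ρ) / (1 + ρ) * (1 + (1 - p / 8) * (2 * r * ρ / (1 - r * ρ)))) := by
      refine mul_le_mul hNt q2 (by positivity) ?_
      exact mul_nonneg hS.ht.le hN0.le
    exact (tower_p hp0 hp1).trans e2
  have htN2 : 1 / (2 * S'.t) ≤ S'.N := by
    rw [div_le_iff₀ (by positivity)]
    have e3 : S'.N * (2 * S'.t) = 2 * (S'.t * S'.N) := by ring
    rw [e3]
    linarith
  have hN' : 11 * B' / ((p / 16) * (p / 2)) ≤ S'.N := by
    refine le_trans r4 ?_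
    rw [← et]
    exact htN2
  refine ⟨(S', B'), ⟨hS', ?_, ?_, ?_, ?_, B'0.le, ?_⟩, hB', ?_, ?_, ?_, f, f', b, b', hf, hf', ?_,
    hb, ?_, hb', ?_⟩
  · simp only; rw [hp']; exact htN
  · simp only; rw [hp', et]
    have e1 : (1 - ρ) / (1 + ρ) ≤ 1 / 2 := by
      rw [div_le_iff₀ (by linarith)]; linarith
    have e2 : S.t * ((1 - ρ) / (1 + ρ)) ≤ S.t * (1 / 2) :=
      mul_le_mul_of_nonneg_left e1 hS.ht.le
    linarith
  · simp only; rw [hp', eσ]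
    linarith
  · simp only; rw [h4', eε]
    linarith
  · simp only
    have e1 : (1 / 2 : ℝ) ^ (k + 1 + 3) = p / 16 := by
      rw [show k + 1 + 3 = (k + 3) + 1 by ring, pow_succ, hpη]; ring
    rw [e1, hp']
    exact tower_exp (by positivity) B'0.le (by positivity) (by linarith [hS'.hN]) hN'
  · exact (le_max_left _ _).trans eR
  · simp only; rw [hp']; exact (le_max_right _ _).trans eR
  · intro z hz
    simp only at hz ⊢
    rw [h4']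
    refine (hh z (hz.trans ?_)).trans (by linarith)
    exact pow_le_pow_left₀ hS.hR (le_max_left _ _) 2
  · simp only; rw [hpη]; exact hff
  · rw [h4]
    rw [h4] at hεk
    linarith
  · rw [h4']
    linarith

theorem piece_tower (h1 : S_inj) (h2 : S_step) (h3 : S_root) : S_tower := by
  obtain ⟨S0, hS0, hN0, ht0, hσ0, hε0⟩ := h3
  have hI0 : TInv 0 (S0, (0 : ℝ)) := by
    refine ⟨hS0, ?_, ?_, ?_, ?_, le_rfl, ?_⟩ <;> simp [hN0, ht0, hσ0, hε0]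
  choose F hF using tower_step h2
  let seq : (k : ℕ) → {x : Stage × ℝ // TInv k x} := fun k =>
    Nat.rec ⟨(S0, (0 : ℝ)), hI0⟩ (fun k x => ⟨F k x.1 x.2, (hF k x.1 x.2).1⟩) k
  have hI : ∀ k, TInv k (seq k).1 := fun k => (seq k).2
  have hR : ∀ k, TRel k (seq k).1 (seq (k + 1)).1 := fun k => (hF k (seq k).1 (seq k).2).2
  generalize hseq : (fun k => (seq k).1) = s at *
  have hI' : ∀ k, TInv k (s k) := by intro k; rw [← hseq]; exact hI k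
  have hR' : ∀ k, TRel k (s k) (s (k + 1)) := by intro k; rw [← hseq]; exact hR k
  clear hI hR hseq seq hF F
  choose hB hRR hR1 hh f f' b b' hf hf' hff hb hb1 hb' hbb using hR'
  have hff' : ∀ k, f' k = f (k + 1) := by
    intro k
    rw [← sub_eq_zero]
    refine h1 _ fun z hz => ?_
    have e : ev (f' k - f (k + 1)) z = ev (f' k) z - ev (f (k + 1)) z := inner_sub_right _ _ _
    rw [e, hf' k z hz, hf (k + 1) z hz, sub_self]
  have hBj : ∀ k j, j < k → Real.exp (s j).1.Ch ≤ (s k).2 := by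
    intro k
    induction k with
    | zero => intro j hj; omega
    | succ k ih =>
      intro j hj
      rw [hB k]
      rcases Nat.lt_succ_iff_lt_or_eq.1 hj with h | rfl
      · exact (ih j h).trans (le_max_left _ _)
      · exact le_max_right _ _
  refine ⟨fun k => (s k).1, fun k => (hI' k).1, fun k => ?_, fun k => ?_, ?_, fun k => hRR k,
    fun k => hR1 k, fun k => hh k, f, b, b', hf, fun k j hj => ?_, hb, fun k => hb1 k, hb',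
    fun k => hbb k⟩
  · have h4 := (hI' k).2.2.2.1
    have h5 : (0 : ℝ) < (1 / 2 : ℝ) ^ k := by positivity
    linarith
  · have h4 := (hI' k).2.1
    have h5 : (0 : ℝ) < (1 / 2 : ℝ) ^ k := by positivity
    linarith
  · refine squeeze_zero (fun k => (hI' k).1.ht.le) (fun k => (hI' k).2.2.1) ?_
    exact tendsto_pow_atTop_nhds_zero_of_lt_one (by norm_num) (by norm_num)
  · rw [← hff' k]
    have e1 := hff k
    have e2 := hBj k j hj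
    have e3 := (hI' k).2.2.2.2.2.2
    calc ‖f' k - f k‖ * Real.exp (s j).1.Ch
        ≤ (11 * Real.exp (-((1 / 2 : ℝ) ^ (k + 3) * (s k).1.N))) * (s k).2 :=
          mul_le_mul e1 e2 (Real.exp_pos _).le (by positivity)
      _ ≤ (1 / 2 : ℝ) ^ k := e3

end DA91
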