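import Pool.Agent.Lib.MP_e91a1a_an.DA.Stm

/-!
# [B9] Tubes
-/

open scoped ComplexConjugate Topology
open Filter

namespace DA91

private theorem tube_compact : IsCompact KK := by
  have hcl : IsClosed KK := by
    have hc : Continuous fun z : ℂ × ℂ => ‖z.1‖ ^ 2 + ‖z.2‖ ^ 2 := by fun_prop
    exact isClosed_le hc continuous_const
  have hbd : Bornology.IsBounded KK := by
    refine (Metric.isBounded_closedBall (x := (0 : ℂ × ℂ)) (r := 1)).subset fun z hz => ?_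
    rw [mem_closedBall_zero_iff, Prod.norm_def]
    have hz' : ‖z.1‖ ^ 2 + ‖z.2‖ ^ 2 ≤ 1 := hz
    have h1 : ‖z.1‖ ^ 2 ≤ 1 := by nlinarith [sq_nonneg ‖z.2‖]
    have h2 : ‖z.2‖ ^ 2 ≤ 1 := by nlinarith [sq_nonneg ‖z.1‖]
    exact max_le ((sq_le_one_iff₀ (norm_nonneg _)).1 h1) ((sq_le_one_iff₀ (norm_nonneg _)).1 h2)
  exact Metric.isCompact_of_isClosed_isBounded hcl hbd

private theorem tube_lem (b g : ℂ × ℂ → ℝ) (hb : ContinuousOn b KK) (hg : ContinuousOn g KK)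
    (hb0 : ∀ z ∈ KK, 0 ≤ b z) (h : ∀ z ∈ KK, b z = 0 → 0 < g z) :
    ∃ e : ℝ, 0 < e ∧ ∀ z ∈ KK, b z < e → e ≤ g z := by
  have hne : KK.Nonempty := ⟨0, by
    change ‖(0 : ℂ)‖ ^ 2 + ‖(0 : ℂ)‖ ^ 2 ≤ 1
    simp⟩
  have hc : ContinuousOn (fun z => max (b z) (g z)) KK := fun z hz => (hb z hz).max (hg z hz)
  obtain ⟨z0, hz0, hmin⟩ := tube_compact.exists_isMinOn hne hc
  refine ⟨max (b z0) (g z0), ?_, fun z hz hbz => ?_⟩
  · rcases (hb0 z0 hz0).lt_or_eq with h1 | h1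
    · exact lt_max_of_lt_left h1
    · exact lt_max_of_lt_right (h z0 hz0 h1.symm)
  · have h1 : max (b z0) (g z0) ≤ max (b z) (g z) := hmin hz
    rcases le_max_iff.1 h1 with h2 | h2
    · exact absurd hbz (not_lt.2 h2)
    · exact h2

theorem piece_tube (_h1 : S_ballY) : S_tube := by
  intro ι _ nd h N' hh hN hsep κ hκ
  have hβc : ∀ j, ContinuousOn (fun z => ‖(nd j).β z‖) KK := by
    intro j
    exact (continuous_snd.comp_continuousOn (nd j).contΨ).norm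
  have hA : ∀ j, ∃ e : ℝ, 0 < e ∧ ∀ z ∈ KK, ‖(nd j).β z‖ < e → N' - κ ≤ (h z).re := by
    intro j
    obtain ⟨e, he, he'⟩ := tube_lem (fun z => ‖(nd j).β z‖) (fun z => (h z).re - (N' - κ)) (hβc j)
      ((Complex.continuous_re.comp_continuousOn hh).sub continuousOn_const)
      (fun z _ => norm_nonneg _) (fun z hz h0 => by
        have := hN j z hz (norm_eq_zero.1 h0)
        linarith)
    refine ⟨e, he, fun z hz hb => ?_⟩
    have := he' z hz hb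
    linarith
  have hB : ∀ i j, ∃ e : ℝ, 0 < e ∧ (i ≠ j → ∀ z ∈ KK, ‖(nd j).β z‖ < e → e ≤ ‖(nd i).β z‖) := by
    intro i j
    by_cases hij : i = j
    · exact ⟨1, one_pos, fun hc => absurd hij hc⟩
    · obtain ⟨e, he, he'⟩ := tube_lem (fun z => ‖(nd j).β z‖) (fun z => ‖(nd i).β z‖) (hβc j)
        (hβc i) (fun z _ => norm_nonneg _) (fun z hz h0 =>
          norm_pos_iff.2 (hsep j i (Ne.symm hij) z hz (norm_eq_zero.1 h0)))
      exact ⟨e, he, fun _ => he'⟩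
  choose eA hA1 hA2 using hA
  choose eB hB1 hB2 using hB
  have hev : ∀ᶠ e in 𝓝[>] (0 : ℝ), (∀ j, e < eA j) ∧ (∀ i j, e < eB i j) ∧ e < 1 ∧ 0 < e := by
    have h1 : ∀ x : ℝ, 0 < x → ∀ᶠ e in 𝓝[>] (0 : ℝ), e < x := fun x hx =>
      (Ioo_mem_nhdsGT hx : Set.Ioo 0 x ∈ 𝓝[>] (0 : ℝ)) |> fun hm => by
        filter_upwards [hm] with e he using he.2
    refine (eventually_all.2 fun j => h1 _ (hA1 j)).and ((eventually_all.2 fun i =>
      eventually_all.2 fun j => h1 _ (hB1 i j)).and ((h1 1 one_pos).and ?_))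
    exact self_mem_nhdsWithin
  obtain ⟨e, he1, he2, he3, he4⟩ := hev.exists
  refine ⟨e / 2, by linarith, Real.sqrt (1 - e ^ 2), Real.sqrt_nonneg _, ?_, ?_, ?_⟩
  · rw [Real.sqrt_lt' one_pos]
    nlinarith
  · intro j z hz hb
    exact hA2 j z hz (by have := he1 j; linarith)
  · intro i j hij z hz hb
    have h1 := hB2 i j hij z hz (by have := he2 i j; linarith)
    have h2 : e < ‖(nd i).β z‖ := lt_of_lt_of_le (he2 i j) h1
    refine ⟨?_, by linarith⟩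
    apply Real.le_sqrt_of_sq_le
    have h3 : ‖((nd i).Ψ z).1‖ ^ 2 + ‖((nd i).Ψ z).2‖ ^ 2 ≤ 1 := (nd i).mapK' z hz
    have h4 : e ^ 2 ≤ ‖(nd i).β z‖ ^ 2 := pow_le_pow_left₀ he4.le h2.le 2
    change ‖((nd i).Ψ z).1‖ ^ 2 ≤ 1 - e ^ 2
    change e ^ 2 ≤ ‖((nd i).Ψ z).2‖ ^ 2 at h4
    linarith

end DA91
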