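import Pool.Agent.Lib.MP_e91a1a_an.DA.Stm

/-!
# MP_e91a1a_an : the unitary of a node [B2]
-/

open scoped ComplexConjugate Topology
open Filter

namespace DA91

private theorem unit_kip {z w : ℂ × ℂ} (hz : z ∈ BB) (hw : w ∈ BB) : 1 - kip z w ≠ 0 := by
  intro h
  have h1 : kip z w = 1 := (sub_eq_zero.1 h).symm
  have h2 : ‖kip z w‖ ≤ ‖z.1‖ * ‖w.1‖ + ‖z.2‖ * ‖w.2‖ := by
    unfold kip
    refine (norm_add_le _ _).trans ?_
    simp
  rw [h1, norm_one] at h2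
  have hz' : ‖z.1‖ ^ 2 + ‖z.2‖ ^ 2 < 1 := hz
  have hw' : ‖w.1‖ ^ 2 + ‖w.2‖ ^ 2 < 1 := hw
  nlinarith [sq_nonneg (‖z.1‖ - ‖w.1‖), sq_nonneg (‖z.2‖ - ‖w.2‖)]

private theorem unit_adj (W : HH →ₗᵢ[ℂ] HH) (F : HH) :
    ∃ G : HH, ‖G‖ ≤ ‖F‖ ∧ ∀ x : HH, inner ℂ x G = inner ℂ (W x) F := by
  refine ⟨ContinuousLinearMap.adjoint W.toContinuousLinearMap F, ?_, fun x => ?_⟩
  · refine (ContinuousLinearMap.le_opNorm _ _).trans ?_
    have h1 : ‖ContinuousLinearMap.adjoint W.toContinuousLinearMap‖ ≤ 1 := by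
      rw [LinearIsometryEquiv.norm_map]
      exact W.norm_toContinuousLinearMap_le
    have := norm_nonneg F
    nlinarith
  · rw [ContinuousLinearMap.adjoint_inner_right]
    rfl

/-- the transformation given by a cocycle -/
private theorem unit_aux (h1 : S_ker) (h3 : S_gram) (P : ℂ × ℂ → ℂ × ℂ) (d : ℂ × ℂ → ℂ)
    (hP : ∀ z ∈ BB, P z ∈ BB)
    (hg : ∀ z ∈ BB, ∀ w ∈ BB, d z * conj (d w) * (1 - kip z w) = 1 - kip (P z) (P w)) (F : HH) :
    ∃ G : HH, ‖G‖ ≤ ‖F‖ ∧ ∀ z ∈ BB, ev G z = d z * ev F (P z) := by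
  obtain ⟨-, hk, -, -, -, -, -⟩ := h1
  obtain ⟨W, hW⟩ := h3 (fun z => conj (d z) • ker (P z)) (fun z hz w hw => by
    have e1 := hg z hz w hw
    have e2 := unit_kip (hP z hz) (hP w hw)
    have e3 := unit_kip hz hw
    simp only [inner_smul_left, inner_smul_right, Complex.conj_conj]
    rw [hk _ (hP z hz) _ (hP w hw), hk _ hz _ hw, ← e1]
    have e4 : d z * conj (d w) ≠ 0 := by
      intro h
      rw [h, zero_mul] at e1
      exact e2 e1.symm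
    have e5 := left_ne_zero_of_mul e4
    have e6 := right_ne_zero_of_mul e4
    field_simp)
  obtain ⟨G, hG, hG'⟩ := unit_adj W F
  refine ⟨G, hG, fun z hz => ?_⟩
  unfold ev
  rw [hG', hW z hz, inner_smul_left, Complex.conj_conj]

private theorem unit_ext (h2 : S_inj) {F G : HH} (h : ∀ z ∈ BB, ev F z = ev G z) : F = G := by
  rw [← sub_eq_zero]
  refine h2 _ fun z hz => ?_
  have e : ev (F - G) z = ev F z - ev G z := inner_sub_right _ _ _
  rw [e, h z hz, sub_self]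

theorem piece_unit (h1 : S_ker) (h2 : S_inj) (h3 : S_gram) : S_unit := by
  intro nd
  have hδ : ∀ z ∈ BB, nd.δ z ≠ 0 := by
    intro z hz h
    have e1 := nd.gram z hz z hz
    rw [h, zero_mul, zero_mul] at e1
    exact unit_kip (nd.mapB z hz) (nd.mapB z hz) e1.symm
  have hK : ∀ z ∈ BB, z ∈ KK := by
    intro z hz
    have h : ‖z.1‖ ^ 2 + ‖z.2‖ ^ 2 < 1 := hz
    exact h.le
  have A := unit_aux h1 h3 nd.Φ nd.δ nd.mapB nd.gram
  have B := unit_aux h1 h3 nd.Ψ (fun z => (nd.δ (nd.Ψ z))⁻¹) nd.mapB' (fun z hz w hw => by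
    have e1 := nd.gram _ (nd.mapB' z hz) _ (nd.mapB' w hw)
    rw [nd.rinv z (hK z hz), nd.rinv w (hK w hw)] at e1
    have e2 := hδ _ (nd.mapB' z hz)
    have e3 : conj (nd.δ (nd.Ψ w)) ≠ 0 := by
      rw [map_ne_zero]
      exact hδ _ (nd.mapB' w hw)
    simp only [map_inv₀]
    rw [← e1]
    field_simp)
  have first : ∀ F : HH, ∃ G : HH, ‖G‖ = ‖F‖ ∧ ∀ z ∈ BB, ev G z = nd.δ z * ev F (nd.Φ z) := by
    intro F
    obtain ⟨G, hG, hG'⟩ := A F
    obtain ⟨F', hF, hF'⟩ := B G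
    have e : F' = F := unit_ext h2 fun z hz => by
      rw [hF' z hz, hG' _ (nd.mapB' z hz), nd.rinv z (hK z hz)]
      exact inv_mul_cancel_left₀ (hδ _ (nd.mapB' z hz)) _
    rw [e] at hF
    exact ⟨G, le_antisymm hG hF, hG'⟩
  refine ⟨first, fun G => ?_⟩
  obtain ⟨F, hF, hF'⟩ := B G
  have hFG : ∀ z ∈ BB, ev G z = nd.δ z * ev F (nd.Φ z) := by
    intro z hz
    rw [hF' _ (nd.mapB z hz), nd.linv z (hK z hz)]
    exact (mul_inv_cancel_left₀ (hδ z hz) _).symm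
  obtain ⟨G2, hG2, hG2'⟩ := first F
  have e : G2 = G := unit_ext h2 fun z hz => by rw [hG2' z hz, hFG z hz]
  rw [e] at hG2
  exact ⟨F, hG2, hFG⟩

end DA91
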