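import Pool.Agent.Lib.MP_e91a1a_an.DA.Stm2

/-!
# MP_e91a1a_an : the limit vector (piece D2)
-/

open scoped ComplexConjugate Topology
open Filter

namespace DA91

noncomputable section

private theorem vec_ev_add (F G : HH) (z : ℂ × ℂ) : ev (F + G) z = ev F z + ev G z := by
  unfold ev
  rw [inner_add_right]

private theorem vec_ev_sub (F G : HH) (z : ℂ × ℂ) : ev (F - G) z = ev F z - ev G z := by
  unfold ev
  rw [inner_sub_right]

private theorem vec_ev_tendsto {F : ℕ → HH} {G : HH} (h : Tendsto F atTop (𝓝 G)) (z : ℂ × ℂ) :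
    Tendsto (fun k => ev (F k) z) atTop (𝓝 (ev G z)) := by
  unfold ev
  exact tendsto_const_nhds.inner h

/-- a geometric telescope -/
private theorem vec_tele {E : ℝ} {F : ℕ → HH} {k : ℕ}
    (h : ∀ i, k < i → ‖F (i + 1) - F i‖ * E ≤ (1 / 2 : ℝ) ^ i) (hE : 0 ≤ E) (n : ℕ) :
    ‖F (k + 1 + n) - F (k + 1)‖ * E ≤ (1 / 2 : ℝ) ^ k * (1 - (1 / 2 : ℝ) ^ n) := by
  induction n with
  | zero => simp
  | succ n ih =>
    have h1 := h (k + 1 + n) (by omega)
    have h2 : F (k + 1 + (n + 1)) - F (k + 1) =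
        (F (k + 1 + n + 1) - F (k + 1 + n)) + (F (k + 1 + n) - F (k + 1)) := by
      rw [show k + 1 + (n + 1) = k + 1 + n + 1 from rfl]
      abel
    have h3 : ‖F (k + 1 + (n + 1)) - F (k + 1)‖ ≤
        ‖F (k + 1 + n + 1) - F (k + 1 + n)‖ + ‖F (k + 1 + n) - F (k + 1)‖ := by
      rw [h2]
      exact norm_add_le _ _
    have h4 := mul_le_mul_of_nonneg_right h3 hE
    have h5 : (1 / 2 : ℝ) ^ (k + 1 + n) = (1 / 2 : ℝ) ^ k * ((1 / 2 : ℝ) * (1 / 2 : ℝ) ^ n) := by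
      rw [pow_add, pow_add, pow_one, mul_assoc]
    have h6 : (1 / 2 : ℝ) ^ (n + 1) = (1 / 2 : ℝ) * (1 / 2 : ℝ) ^ n := by
      rw [pow_succ]
      ring
    rw [h5] at h1
    rw [h6]
    linarith

/-- the functions `h k` change by at most `1/2` -/
private theorem vec_h {S : ℕ → Stage} (hR0 : ∀ k, 0 ≤ (S k).R)
    (hR : ∀ k, (S k).R ≤ (S (k + 1)).R)
    (hh : ∀ k, ∀ z : ℂ × ℂ, ‖z.1‖ ^ 2 + ‖z.2‖ ^ 2 ≤ (S k).R ^ 2 →
      ‖(S (k + 1)).h z - (S k).h z‖ ≤ (1 / 4 : ℝ) ^ (k + 1))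
    (k : ℕ) (z : ℂ × ℂ) (hz : ‖z.1‖ ^ 2 + ‖z.2‖ ^ 2 ≤ (S k).R ^ 2) (n : ℕ) :
    ‖(S (k + n)).h z - (S k).h z‖ ≤ 1 / 3 * (1 - (1 / 4 : ℝ) ^ n) := by
  have hmono : ∀ n, (S k).R ≤ (S (k + n)).R := by
    intro n
    induction n with
    | zero => exact le_rfl
    | succ n ih => exact ih.trans (hR (k + n))
  induction n with
  | zero => simp
  | succ n ih =>
    have h1 : ‖z.1‖ ^ 2 + ‖z.2‖ ^ 2 ≤ (S (k + n)).R ^ 2 :=
      hz.trans (pow_le_pow_left₀ (hR0 k) (hmono n) 2)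
    have h2 := hh (k + n) z h1
    have h3 : (S (k + (n + 1))).h z - (S k).h z =
        ((S (k + n + 1)).h z - (S (k + n)).h z) + ((S (k + n)).h z - (S k).h z) := by
      rw [show k + (n + 1) = k + n + 1 from rfl]
      ring
    have h4 : (1 / 4 : ℝ) ^ (k + n + 1) ≤ (1 / 4 : ℝ) ^ (n + 1) :=
      pow_le_pow_of_le_one (by norm_num) (by norm_num) (by omega)
    have h5 : (1 / 4 : ℝ) ^ (n + 1) = 1 / 4 * (1 / 4 : ℝ) ^ n := by
      rw [pow_succ]
      ring
    rw [h3]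
    refine (norm_add_le _ _).trans ?_
    rw [h5] at h4 ⊢
    linarith

theorem piece_vec (h4 : S_mulAlg) (h5 : S_mulExp) (h6 : S_tower) : S_vec := by
  obtain ⟨S, hgood, hσ, htN, ht0, hR, hR1, hh, f, b, b', hf, hff, hb, hb1, hb', hbb⟩ := h6
  have hR0 : ∀ k, 0 ≤ (S k).R := fun k => (hgood k).hR
  have hE : ∀ k, 1 ≤ Real.exp ((S k).Ch) := fun k => Real.one_le_exp (hgood k).hCh
  -- the limit
  have hcau : CauchySeq (fun k => f (k + 1)) := by
    refine cauchySeq_of_le_geometric (1 / 2) (1 / 2) (by norm_num) fun n => ?_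
    have h1 := hff (n + 1) 0 (by omega)
    have h2 := mul_le_mul_of_nonneg_left (hE 0) (norm_nonneg (f (n + 1 + 1) - f (n + 1)))
    rw [mul_one] at h2
    rw [dist_comm, dist_eq_norm]
    have h3 : (1 / 2 : ℝ) * (1 / 2 : ℝ) ^ n = (1 / 2 : ℝ) ^ (n + 1) := by
      rw [pow_succ]
      ring
    rw [h3]
    exact h2.trans h1
  obtain ⟨F, hF⟩ := cauchySeq_tendsto_of_complete hcau
  have hF' : Tendsto f atTop (𝓝 F) := (tendsto_add_atTop_iff_nat 1).1 hF
  have hFk : ∀ k, Tendsto (fun n => f (k + n)) atTop (𝓝 F) := by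
    intro k
    have h1 := (tendsto_add_atTop_iff_nat k).2 hF'
    refine h1.congr fun n => ?_
    rw [add_comm]
  have hdiff := vec_h hR0 hR hh
  have hdiff' : ∀ k (z : ℂ × ℂ), ‖z.1‖ ^ 2 + ‖z.2‖ ^ 2 ≤ (S k).R ^ 2 → ∀ n,
      |((S (k + n)).h z).re - ((S k).h z).re| ≤ 1 / 2 := by
    intro k z hz n
    rw [← Complex.sub_re]
    refine (Complex.abs_re_le_norm _).trans ((hdiff k z hz n).trans ?_)
    have : 0 ≤ (1 / 4 : ℝ) ^ n := by positivity
    linarith
  have hnorm : ∀ k, ∀ z ∈ BB, ‖ev (f k) z‖ = Real.exp (-((S k).h z).re) := by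
    intro k z hz
    rw [hf k z hz, Complex.norm_exp, Complex.neg_re]
  have hlow : ∀ k, ∀ z ∈ BB, ‖z.1‖ ^ 2 + ‖z.2‖ ^ 2 ≤ (S k).R ^ 2 →
      Real.exp (-((S k).h z).re - 1 / 2) ≤ ‖ev F z‖ := by
    intro k z hz hzk
    refine ge_of_tendsto (vec_ev_tendsto (hFk k) z).norm (Eventually.of_forall fun n => ?_)
    rw [hnorm (k + n) z hz]
    apply Real.exp_le_exp.2
    have := (abs_le.1 (hdiff' k z hzk n)).2
    linarith
  have hup : ∀ k, ∀ z ∈ BB, ‖z.1‖ ^ 2 + ‖z.2‖ ^ 2 ≤ (S k).R ^ 2 →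
      ‖ev F z‖ ≤ Real.exp (-((S k).h z).re + 1 / 2) := by
    intro k z hz hzk
    refine le_of_tendsto (vec_ev_tendsto (hFk k) z).norm (Eventually.of_forall fun n => ?_)
    rw [hnorm (k + n) z hz]
    apply Real.exp_le_exp.2
    have := (abs_le.1 (hdiff' k z hzk n)).1
    linarith
  refine ⟨F, ?_, ?_, 1 / 2, by norm_num, ?_⟩
  · -- no zeros
    intro z hz hzero
    have hz1 : ‖z.1‖ ^ 2 + ‖z.2‖ ^ 2 < 1 := hz
    have hex : ∃ k, ‖z.1‖ ^ 2 + ‖z.2‖ ^ 2 ≤ (S k).R ^ 2 := by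
      have h1 : Tendsto (fun k : ℕ => (1 - (1 / 2 : ℝ) ^ (k + 1)) ^ 2) atTop (𝓝 ((1 - 0) ^ 2)) := by
        refine Tendsto.pow (tendsto_const_nhds.sub ?_) 2
        exact (tendsto_add_atTop_iff_nat 1).2
          (tendsto_pow_atTop_nhds_zero_of_lt_one (by norm_num) (by norm_num))
      have h2 : ∀ᶠ k : ℕ in atTop, ‖z.1‖ ^ 2 + ‖z.2‖ ^ 2 < (1 - (1 / 2 : ℝ) ^ (k + 1)) ^ 2 :=
        h1.eventually_const_lt (by norm_num; exact hz1)
      obtain ⟨k, hk⟩ := h2.exists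
      refine ⟨k + 1, hk.le.trans (pow_le_pow_left₀ ?_ (hR1 k) 2)⟩
      have : (1 / 2 : ℝ) ^ (k + 1) ≤ 1 := pow_le_one₀ (by norm_num) (by norm_num)
      linarith
    obtain ⟨k, hk⟩ := hex
    have h1 := hlow k z hz hk
    rw [hzero, norm_zero] at h1
    exact absurd h1 (not_le.2 (Real.exp_pos _))
  · -- cyclic
    intro ε hε
    have h1 : Tendsto (fun k : ℕ => 4 * (1 / 2 : ℝ) ^ k) atTop (𝓝 (4 * 0)) :=
      (tendsto_pow_atTop_nhds_zero_of_lt_one (by norm_num) (by norm_num)).const_mul 4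
    rw [mul_zero] at h1
    obtain ⟨k, hk⟩ := (h1.eventually_lt_const hε).exists
    have hmE : Mul (fun z => Complex.exp ((S k).h z)) (Real.exp ((S k).Ch)) :=
      h5.1 _ _ (hgood k).mul (hgood k).hCh
    have hm : Mul (fun z => ev (b k) z * Complex.exp ((S k).h z)) (1 * Real.exp ((S k).Ch)) :=
      h4.2.1 _ _ _ _ (hb k) hmE zero_le_one (Real.exp_pos _).le
    refine ⟨_, _, by positivity, hm, ?_⟩
    obtain ⟨D, hD, hD'⟩ := hm (F - f (k + 1))
    refine ⟨D + b' k, ?_, ?_⟩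
    · intro z hz
      have h7 : Complex.exp ((S k).h z - (S (k + 1)).h z) =
          Complex.exp ((S k).h z) * Complex.exp (-(S (k + 1)).h z) := by
        rw [← Complex.exp_add, sub_eq_add_neg]
      rw [vec_ev_add, hD' z hz, vec_ev_sub, hb' k z hz, hf (k + 1) z hz, h7]
      ring
    · have h2 : ‖F - f (k + 1)‖ * Real.exp ((S k).Ch) ≤ (1 / 2 : ℝ) ^ k := by
        have h3 : Tendsto (fun n => ‖f (k + 1 + n) - f (k + 1)‖ * Real.exp ((S k).Ch)) atTop
            (𝓝 (‖F - f (k + 1)‖ * Real.exp ((S k).Ch))) :=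
          (((hFk (k + 1)).sub_const (f (k + 1))).norm).mul_const _
        refine le_of_tendsto h3 (Eventually.of_forall fun n => ?_)
        refine (vec_tele (fun i hi => hff i k hi) (Real.exp_pos _).le n).trans ?_
        have h7 : 0 ≤ (1 / 2 : ℝ) ^ k := by positivity
        have h8 : 0 ≤ (1 / 2 : ℝ) ^ n := by positivity
        nlinarith
      have h3 : ‖D‖ ≤ (1 / 2 : ℝ) ^ k := by
        refine hD.trans ?_
        rw [one_mul, mul_comm]
        exact h2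
      have h7 : ‖b k - one‖ ≤ 2 * (1 / 2 : ℝ) ^ k := by
        refine le_of_sq_le_sq ?_ (by positivity)
        refine (hb1 k).trans ?_
        rw [mul_pow, ← pow_mul, mul_comm k 2, pow_mul]
        norm_num
      have h8 : ‖b' k - b k‖ ≤ (1 / 2 : ℝ) ^ k := by
        refine (hbb k).trans ?_
        calc (1 / 4 : ℝ) ^ (k + 1) ≤ (1 / 4 : ℝ) ^ k :=
              pow_le_pow_of_le_one (by norm_num) (by norm_num) (by omega)
          _ ≤ (1 / 2 : ℝ) ^ k := pow_le_pow_left₀ (by norm_num) (by norm_num) k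
      have h9 : D + b' k - one = D + (b' k - b k) + (b k - one) := by abel
      rw [h9]
      have h10 := norm_add_le (D + (b' k - b k)) (b k - one)
      have h11 := norm_add_le D (b' k - b k)
      linarith
  · -- the bad estimate
    intro G hG hC
    obtain ⟨C, hC⟩ := hC
    set C' : ℝ := max C 1 with hC'
    have hC1 : 1 ≤ C' := le_max_right _ _
    have hC0 : 0 < C' := by linarith
    have htpos : ∀ k, 0 < (S k).t := fun k => (hgood k).ht
    have h1 : Tendsto (fun k => (S k).t * (Real.log C' + 1)) atTop (𝓝 (0 * (Real.log C' + 1))) :=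
      ht0.mul_const _
    rw [zero_mul] at h1
    have h2 : Tendsto (fun k => Real.exp ((S k).t * (Real.log C' + 1) - 1 / 2)) atTop
        (𝓝 (Real.exp (0 - 1 / 2))) :=
      (Real.continuous_exp.tendsto _).comp (h1.sub_const _)
    rw [zero_sub] at h2
    refine ge_of_tendsto h2 ?_
    filter_upwards [h1.eventually_lt_const (show (0 : ℝ) < 1 / 2 by norm_num)] with k hk
    have hNk : Real.log C' + 1 < (S k).N := by
      have h3 := hk.trans_le (htN k)
      exact lt_of_mul_lt_mul_left h3 (htpos k).le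
    have hq : C' * Real.exp (1 - (S k).N) = Real.exp (Real.log C' + 1 - (S k).N) := by
      rw [add_sub_assoc, Real.exp_add, Real.exp_log hC0]
    have hq0 : 0 < C' * Real.exp (1 - (S k).N) := by positivity
    have hq1 : C' * Real.exp (1 - (S k).N) ≤ 1 := by
      rw [hq]
      exact Real.exp_le_one_iff.2 (by linarith)
    have h3 : ‖G 0‖ ≤ (C' * Real.exp (1 - (S k).N)) ^ (S k).t := by
      refine (hgood k).s3 G hG _ hq0 hq1 fun j => ?_
      have h0B : (0 : ℂ × ℂ) ∈ BB := by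
        change ‖(0 : ℂ × ℂ).1‖ ^ 2 + ‖(0 : ℂ × ℂ).2‖ ^ 2 < 1
        simp
      have h0K : (0 : ℂ × ℂ) ∈ KK := by
        change ‖(0 : ℂ × ℂ).1‖ ^ 2 + ‖(0 : ℂ × ℂ).2‖ ^ 2 ≤ 1
        simp
      have hyB := ((S k).nd j).mapB 0 h0B
      have hyK := ((S k).nd j).mapK 0 h0K
      have hβ : ((S k).nd j).β (((S k).nd j).Φ 0) = 0 := by
        unfold Node.β
        rw [((S k).nd j).linv 0 h0K]
        rfl
      have h7 := (hgood k).s1 j _ hyK hβ
      have h8 := hup k _ hyB ((hgood k).s6 j)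
      have h9 : ‖ev F (((S k).nd j).Φ 0)‖ ≤ Real.exp (1 - (S k).N) := by
        refine h8.trans (Real.exp_le_exp.2 ?_)
        have := hσ k
        linarith
      refine (hC _ hyB).trans ?_
      calc C * ‖ev F (((S k).nd j).Φ 0)‖ ≤ C' * ‖ev F (((S k).nd j).Φ 0)‖ :=
            mul_le_mul_of_nonneg_right (le_max_left _ _) (norm_nonneg _)
        _ ≤ C' * Real.exp (1 - (S k).N) := mul_le_mul_of_nonneg_left h9 hC0.le
    refine h3.trans ?_
    rw [hq, ← Real.exp_mul]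
    apply Real.exp_le_exp.2
    have := htN k
    nlinarith

end

end DA91
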