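import Pool.Agent.Lib.MP_e91a1a_an.DA.P_ker
import Pool.Agent.Lib.MP_e91a1a_an.DA.P_inj
import Pool.Agent.Lib.MP_e91a1a_an.DA.P_diff
import Pool.Agent.Lib.MP_e91a1a_an.DA.P_ops
import Pool.Agent.Lib.MP_e91a1a_an.DA.P_lim
import Pool.Agent.Lib.MP_e91a1a_an.DA.P_mulLim
import Pool.Agent.Lib.MP_e91a1a_an.DA.P_mulAlg
import Pool.Agent.Lib.MP_e91a1a_an.DA.P_mulFC
import Pool.Agent.Lib.MP_e91a1a_an.DA.P_mulExp
import Pool.Agent.Lib.MP_e91a1a_an.DA.P_lift
import Pool.Agent.Lib.MP_e91a1a_an.DA.P_kill
import Pool.Agent.Lib.MP_e91a1a_an.DA.P_split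
import Pool.Agent.Lib.MP_e91a1a_an.DA.P_asym0
import Pool.Agent.Lib.MP_e91a1a_an.DA.P_gram
import Pool.Agent.Lib.MP_e91a1a_an.DA.P_unit
import Pool.Agent.Lib.MP_e91a1a_an.DA.P_mulY
import Pool.Agent.Lib.MP_e91a1a_an.DA.P_asym
import Pool.Agent.Lib.MP_e91a1a_an.DA.P_elem
import Pool.Agent.Lib.MP_e91a1a_an.DA.P_comp
import Pool.Agent.Lib.MP_e91a1a_an.DA.P_child
import Pool.Agent.Lib.MP_e91a1a_an.DA.P_ballY
import Pool.Agent.Lib.MP_e91a1a_an.DA.P_tube
import Pool.Agent.Lib.MP_e91a1a_an.DA.P_roots
import Pool.Agent.Lib.MP_e91a1a_an.DA.P_har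
import Pool.Agent.Lib.MP_e91a1a_an.DA.P_seq
import Pool.Agent.Lib.MP_e91a1a_an.DA.P_blaschke
import Pool.Agent.Lib.MP_e91a1a_an.DA.P_geo
import Pool.Agent.Lib.MP_e91a1a_an.DA.P_step
import Pool.Agent.Lib.MP_e91a1a_an.DA.P_root
import Pool.Agent.Lib.MP_e91a1a_an.DA.P_tower
import Pool.Agent.Lib.MP_e91a1a_an.DA.P_vec
import Pool.Agent.Lib.MP_e91a1a_an.DA.P_mulKer
import Pool.Agent.Lib.MP_e91a1a_an.DA.P_poly
import Pool.Agent.Lib.MP_e91a1a_an.DA.P_sarason
import Pool.Agent.Lib.MP_e91a1a_an.DA.P_accr
import Pool.Agent.Lib.MP_e91a1a_an.DA.P_accrAll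
import Pool.Agent.Lib.MP_e91a1a_an.DA.P_conv
import Pool.Agent.Lib.MP_e91a1a_an.DA.P_dense
import Pool.Agent.Lib.MP_e91a1a_an.DA.P_main
import Pool.Agent.Lib.MP_e91a1a_an.DA.P_psd
import Pool.Agent.Lib.MP_e91a1a_an.DA.P_exists
import Pool.Agent.Lib.MP_e91a1a_an.DA.P_psdMul
import Pool.Agent.Lib.MP_e91a1a_an.DA.P_mulPsd
import Pool.Agent.Lib.MP_e91a1a_an.DA.P_liftMul
import Pool.Agent.Lib.MP_e91a1a_an.DA.P_embed
import Pool.Agent.Lib.MP_e91a1a_an.DA.P_cyc
import Pool.Agent.Lib.MP_e91a1a_an.DA.P_elemMul
import Pool.Agent.Lib.MP_e91a1a_an.DA.P_final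

namespace DA91

theorem all_ker : S_ker := piece_ker
theorem all_inj : S_inj := piece_inj all_ker
theorem all_diff : S_diff := piece_diff all_ker
theorem all_ops : S_ops := piece_ops all_ker
theorem all_lim : S_lim := piece_lim all_inj
theorem all_mulLim : S_mulLim := piece_mulLim all_lim
theorem all_mulAlg : S_mulAlg := piece_mulAlg all_ker all_inj
theorem all_mulFC : S_mulFC := piece_mulFC all_mulAlg all_mulLim
theorem all_mulExp : S_mulExp := piece_mulExp all_mulAlg all_mulFC
theorem all_lift : S_lift := piece_lift all_ker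
theorem all_kill : S_kill := piece_kill all_ker all_inj all_ops
theorem all_split : S_split := piece_split all_ker
theorem all_asym0 : S_asym0 :=
  piece_asym0 all_ker all_inj all_diff all_ops all_mulAlg all_mulExp all_lift all_kill all_split
theorem all_gram : S_gram := piece_gram all_inj
theorem all_unit : S_unit := piece_unit all_ker all_inj all_gram
theorem all_mulY : S_mulY := piece_mulY all_inj all_ops all_unit
theorem all_asym : S_asym := piece_asym all_inj all_asym0 all_unit
theorem all_elem : S_elem := piece_elem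
theorem all_comp : S_comp := piece_comp
theorem all_child : S_child := piece_child all_elem all_comp
theorem all_ballY : S_ballY := piece_ballY
theorem all_tube : S_tube := piece_tube all_ballY
theorem all_roots : S_roots := piece_roots
theorem all_har : S_har := piece_har
theorem all_seq : S_seq := piece_seq all_asym all_lim all_ballY all_ker
theorem all_blaschke : S_blaschke := piece_blaschke all_ker all_inj all_mulAlg all_mulY
theorem all_geo : S_geo :=
  piece_geo all_tube all_ballY all_roots all_har all_child all_mulY all_mulAlg all_mulExp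
theorem all_step : S_step :=
  piece_step all_ker all_inj all_geo all_seq all_blaschke all_tube all_ballY all_mulAlg all_mulExp
theorem all_root : S_root := piece_root all_mulAlg
theorem all_tower : S_tower := piece_tower all_inj all_step all_root
theorem all_vec : S_vec := piece_vec all_mulAlg all_mulExp all_tower
theorem all_mulKer : S_mulKer := piece_mulKer all_ker all_inj all_ops all_mulAlg all_mulFC
theorem all_poly : S_poly := piece_poly all_ker all_ops all_mulAlg
theorem all_sarason : S_sarason := piece_sarason all_ker all_inj all_ops all_mulAlg all_poly all_mulKer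
theorem all_accr : S_accr := piece_accr all_ker all_inj all_mulAlg all_poly
theorem all_accrAll : S_accrAll :=
  piece_accrAll all_ker all_inj all_mulAlg all_mulLim all_poly all_mulKer all_sarason all_accr
theorem all_conv : S_conv := piece_conv all_ker all_mulAlg all_accrAll
theorem all_dense : S_dense := piece_dense all_ker all_inj all_mulAlg all_poly
theorem all_main : S_main :=
  piece_main all_ker all_inj all_diff all_mulAlg all_vec all_conv all_dense
theorem all_psd : S_psd := piece_psd
theorem all_exists : S_exists := piece_exists all_psd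
theorem all_psdMul : S_psdMul := piece_psdMul
theorem all_mulPsd : S_mulPsd := piece_mulPsd all_ker all_inj
theorem all_liftMul : S_liftMul := piece_liftMul all_psd all_psdMul all_mulPsd
theorem all_embed : S_embed := piece_embed all_ker all_inj
theorem all_cyc : S_cyc := piece_cyc all_psd all_psdMul
theorem all_elemMul : S_elemMul := piece_elemMul
theorem all_final : S_final :=
  piece_final all_ker all_diff all_main all_liftMul all_embed all_cyc all_elemMul

end DA91
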