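import Mathlib

/-!
# MP_e91a1a_an : concrete model of the Drury-Arveson space `H²_2`

`HH = ℓ²(ℕ × ℕ)`; the vector `F` stands for the holomorphic function
`ev F z = ∑ F (a,b) √(a+b choose a) z₁^a z₂^b` on the open unit ball `BB` of `ℂ²`.
-/

open scoped ComplexConjugate Topology
open Filter

namespace DA91

noncomputable section

/-- open unit ball of `ℂ²` -/
def BB : Set (ℂ × ℂ) := {z | ‖z.1‖ ^ 2 + ‖z.2‖ ^ 2 < 1}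

/-- closed unit ball of `ℂ²` -/
def KK : Set (ℂ × ℂ) := {z | ‖z.1‖ ^ 2 + ‖z.2‖ ^ 2 ≤ 1}

/-- `⟨z,w⟩ = z₁ w̄₁ + z₂ w̄₂` -/
def kip (z w : ℂ × ℂ) : ℂ := z.1 * conj w.1 + z.2 * conj w.2

/-- the model of `H²_2` -/
abbrev HH := lp (fun _ : ℕ × ℕ => ℂ) 2

/-- `√(a+b choose a)`, the norm of `z₁^a z₂^b` is `1 / wt (a,b)` -/
def wt (p : ℕ × ℕ) : ℝ := Real.sqrt ((p.1 + p.2).choose p.1)

/-- coordinates of the kernel vector at `z` -/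
def kfun (z : ℂ × ℂ) (p : ℕ × ℕ) : ℂ := conj ((wt p : ℂ) * z.1 ^ p.1 * z.2 ^ p.2)

open Classical in
/-- the kernel vector `k_z` (`0` outside the ball) -/
def ker (z : ℂ × ℂ) : HH := if h : Memℓp (kfun z) 2 then ⟨kfun z, h⟩ else 0

/-- the value of the function `F` at the point `z` -/
def ev (F : HH) (z : ℂ × ℂ) : ℂ := inner ℂ (ker z) F

/-- the constant function `1` -/
def one : HH := lp.single 2 ((0, 0) : ℕ × ℕ) (1 : ℂ)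

/-- `m` is a multiplier of `HH` of norm at most `C` -/
def Mul (m : ℂ × ℂ → ℂ) (C : ℝ) : Prop :=
  ∀ F : HH, ∃ G : HH, ‖G‖ ≤ C * ‖F‖ ∧ ∀ z ∈ BB, ev G z = m z * ev F z

/-- `ψ_r(w) = 2 r w / (1 - r w)`; `1 + Re ψ_r ≥ 0` is the Poisson kernel -/
def psi (r : ℝ) (w : ℂ) : ℂ := 2 * r * w / (1 - r * w)

/-- `X(w) = exp (-a ψ_r(w))` -/
def Xf (a r : ℝ) (w : ℂ) : ℂ := Complex.exp (-(a : ℂ) * psi r w)

/-- A node: an automorphism `Φ` of the ball with inverse `Ψ` and cocycle `δ`. -/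
structure Node where
  Φ : ℂ × ℂ → ℂ × ℂ
  Ψ : ℂ × ℂ → ℂ × ℂ
  δ : ℂ × ℂ → ℂ
  mapK : ∀ z ∈ KK, Φ z ∈ KK
  mapK' : ∀ z ∈ KK, Ψ z ∈ KK
  mapB : ∀ z ∈ BB, Φ z ∈ BB
  mapB' : ∀ z ∈ BB, Ψ z ∈ BB
  linv : ∀ z ∈ KK, Ψ (Φ z) = z
  rinv : ∀ z ∈ KK, Φ (Ψ z) = z
  contΦ : ContinuousOn Φ KK
  contΨ : ContinuousOn Ψ KK
  contδ : ContinuousOn δ KK
  diffΦ : DifferentiableOn ℂ Φ BB
  gram : ∀ z ∈ BB, ∀ w ∈ BB, δ z * conj (δ w) * (1 - kip z w) = 1 - kip (Φ z) (Φ w)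

/-- first coordinate of `Φ⁻¹`: unimodular exactly on the circle bounding the disc of the node -/
def Node.Y (n : Node) (z : ℂ × ℂ) : ℂ := (n.Ψ z).1

/-- second coordinate of `Φ⁻¹`: vanishes exactly on the disc of the node -/
def Node.β (n : Node) (z : ℂ × ℂ) : ℂ := (n.Ψ z).2

/-- `√(1 - |w|²)` -/
def sw (w : ℂ) : ℝ := Real.sqrt (1 - ‖w‖ ^ 2)

/-- elementary automorphism: maps `0` to `(w,0)` and the disc `z₂ = 0` onto the disc `z₁ = w` -/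
def Phw (w : ℂ) (z : ℂ × ℂ) : ℂ × ℂ :=
  ((w + z.2) / (1 + conj w * z.2), (sw w : ℂ) * z.1 / (1 + conj w * z.2))

/-- inverse of `Phw w` -/
def Psw (w : ℂ) (u : ℂ × ℂ) : ℂ × ℂ :=
  ((sw w : ℂ) * u.2 / (1 - conj w * u.1), (u.1 - w) / (1 - conj w * u.1))

/-- cocycle of `Phw w` -/
def dlw (w : ℂ) (z : ℂ × ℂ) : ℂ := (sw w : ℂ) / (1 + conj w * z.2)

/-- holomorphic, zero-free and bounded by one on the ball -/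
def Adm (G : ℂ × ℂ → ℂ) : Prop :=
  DifferentiableOn ℂ G BB ∧ ∀ z ∈ BB, G z ≠ 0 ∧ ‖G z‖ ≤ 1

/-- A stage of the construction (data). -/
structure Stage where
  ι : Type
  fin : Fintype ι
  nd : ι → Node
  h : ℂ × ℂ → ℂ
  Ch : ℝ
  N : ℝ
  t : ℝ
  σ : ℝ
  ε : ℝ
  R : ℝ

/-- The properties of a stage. -/
structure Stage.Good (S : Stage) : Prop where
  hN : 1 ≤ S.N
  ht : 0 < S.t
  hσ : 0 ≤ S.σ
  hσ1 : S.σ < 1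
  hR : 0 ≤ S.R
  hR1 : S.R < 1
  cont : ContinuousOn S.h KK
  hCh : 0 ≤ S.Ch
  mul : Mul S.h S.Ch
  s1 : ∀ j, ∀ z ∈ KK, (S.nd j).β z = 0 → S.N - S.σ ≤ (S.h z).re
  s2 : ∀ i j, i ≠ j → ∀ z ∈ KK, (S.nd i).β z = 0 → (S.nd j).β z ≠ 0
  s3 : ∀ G, Adm G → ∀ q : ℝ, 0 < q → q ≤ 1 → (∀ j, ‖G ((S.nd j).Φ 0)‖ ≤ q) → ‖G 0‖ ≤ q ^ S.t
  s4 : ∃ D : S.ι → ℝ, (∀ j, 0 ≤ D j) ∧ (∀ j w, ‖w‖ < 1 → ‖(S.nd j).δ (w, 0)‖ ≤ D j) ∧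
    (letI := S.fin; ∑ j, D j ^ 2 ≤ 1)
  s5 : letI := S.fin; 1 - S.ε ≤ ∏ j, ‖(S.nd j).β 0‖
  s6 : ∀ j, ‖((S.nd j).Φ 0).1‖ ^ 2 + ‖((S.nd j).Φ 0).2‖ ^ 2 ≤ S.R ^ 2

end

end DA91
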