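import Mathlib

/-!
# MP_e91a1a_an : definitions for the final statement

The Drury-Arveson space through Mathlib's class `RKHS` of reproducing kernel Hilbert spaces.
-/

open scoped Topology
open Filter

namespace DruryArveson

noncomputable section

/-- the open unit ball of `ℂ^d` -/
abbrev Ball (d : ℕ) : Type := Metric.ball (0 : EuclideanSpace ℂ (Fin d)) 1

/-- `H` is (a realisation of) the Drury-Arveson space `H²_d`: a Hilbert space of functions on the
open unit ball of `ℂ^d` (Mathlib's class `RKHS`) with reproducing kernel `k(z,w) = 1/(1 - ⟨z,w⟩)`,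
where `⟨z,w⟩ = ∑ z_i conj(w_i) = inner ℂ w z`. -/
def IsDruryArveson (d : ℕ) (H : Type) [NormedAddCommGroup H] [InnerProductSpace ℂ H]
    [CompleteSpace H] [RKHS ℂ H (Ball d) ℂ] : Prop :=
  ∀ z w : Ball d, RKHS.kernel H z w 1 =
    1 / (1 - inner ℂ (w : EuclideanSpace ℂ (Fin d)) (z : EuclideanSpace ℂ (Fin d)))

variable {d : ℕ} (H : Type) [NormedAddCommGroup H] [InnerProductSpace ℂ H] [CompleteSpace H]
  [RKHS ℂ H (Ball d) ℂ]

/-- `m` is a multiplier of `H`: `m f ∈ H` for every `f ∈ H`. -/
def IsMultiplier (m : Ball d → ℂ) : Prop := ∀ f : H, ∃ g : H, ∀ z, g z = m z * f z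

/-- `m` is a multiplier and the multiplication operator has norm at most `C`. -/
def MultNormLE (m : Ball d → ℂ) (C : ℝ) : Prop :=
  IsMultiplier H m ∧ ∀ f g : H, (∀ z, g z = m z * f z) → ‖g‖ ≤ C * ‖f‖

/-- `m` is a cyclic multiplier: the range `m H` is dense in `H`. -/
def IsCyclicMultiplier (m : Ball d → ℂ) : Prop :=
  IsMultiplier H m ∧ Dense {g : H | ∃ f : H, ∀ z, g z = m z * f z}

end

end DruryArveson
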