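import Pool.Agent.Lib.MP_e91a1a_an.DA.Stm2

/-!
# MP_e91a1a_an : accretivity for every vector
-/

open scoped ComplexConjugate Topology
open Filter

namespace DA91

private theorem accrAll_ev_sub (F G : HH) (z : ℂ × ℂ) : ev (F - G) z = ev F z - ev G z := by
  simp [ev]

private theorem accrAll_cont (z : ℂ × ℂ) {P : ℕ → HH} {F : HH} (h : Tendsto P atTop (𝓝 F)) :
    Tendsto (fun n => ev (P n) z) atTop (𝓝 (ev F z)) := by
  unfold ev
  exact tendsto_const_nhds.inner h

theorem piece_accrAll (h1 : S_ker) (h2 : S_inj) (h3 : S_mulAlg) (h4 : S_mulLim) (h5 : S_poly)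
    (h6 : S_mulKer) (h7 : S_sarason) (h8 : S_accr) : S_accrAll := by
  intro F
  obtain ⟨P, hP, hPF⟩ := h5.2 F
  choose Vn hVn hVn1 hVn2 using fun n => h7 (P n) (hP n)
  have hacc := fun n => h8 (P n) (Vn n) (hP n) (hVn n) (hVn2 n)
  have hlim : ∀ z : ℂ × ℂ, ∃ v : ℂ, z ∈ BB → Tendsto (fun n => ev (Vn n) z) atTop (𝓝 v) := by
    intro z
    by_cases hz : z ∈ BB
    swap
    · exact ⟨0, fun h => absurd h hz⟩
    obtain ⟨C, hC, hM⟩ := h6 z hz
    obtain ⟨G, hG1, hG2⟩ := hM F
    choose Gn hGn1 hGn2 using fun n => hM (P n)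
    have hconv : Tendsto Gn atTop (𝓝 G) := by
      rw [tendsto_iff_norm_sub_tendsto_zero]
      have h9 : ∀ n, ‖Gn n - G‖ ≤ C * ‖P n - F‖ := by
        intro n
        obtain ⟨D, hD1, hD2⟩ := hM (P n - F)
        have h10 : D - (Gn n - G) = 0 := by
          apply h2
          intro u hu
          rw [accrAll_ev_sub, accrAll_ev_sub, hD2 u hu, hGn2 n u hu, hG2 u hu, accrAll_ev_sub]
          ring
        rw [← sub_eq_zero.1 h10]
        exact hD1
      have h11 : Tendsto (fun n => C * ‖P n - F‖) atTop (𝓝 0) := by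
        have := (tendsto_iff_norm_sub_tendsto_zero.1 hPF).const_mul C
        simpa using this
      exact squeeze_zero (fun n => norm_nonneg _) h9 h11
    refine ⟨2 * inner ℂ G F - (‖F‖ : ℂ) ^ 2, fun _ => ?_⟩
    have h12 : ∀ n, ev (Vn n) z = 2 * inner ℂ (Gn n) (P n) - (‖P n‖ : ℂ) ^ 2 := by
      intro n
      refine hVn1 n z hz (Gn n) fun u hu => ?_
      rw [hGn2 n u hu, mul_comm]
    simp only [h12]
    refine Tendsto.sub ((hconv.inner hPF).const_mul 2) ?_
    exact ((Complex.continuous_ofReal.tendsto _).comp hPF.norm).pow 2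
  choose V hV using hlim
  have hre : ∀ z ∈ BB, 0 ≤ (V z).re := by
    intro z hz
    refine ge_of_tendsto' ((Complex.continuous_re.tendsto _).comp (hV z hz)) fun n => ?_
    exact (hacc n).1 z hz
  have hne : ∀ z ∈ BB, ∀ ε : ℝ, 0 < ε → 1 + (ε : ℂ) * V z ≠ 0 := by
    intro z hz ε hε h
    have h13 := congrArg Complex.re h
    have h14 := hre z hz
    simp at h13
    nlinarith [mul_nonneg hε.le h14]
  refine ⟨V, hre, fun ε hε => ?_, ?_⟩
  · refine h4 1 (fun n z => 1 / (1 + ε * ev (Vn n) z)) _ (fun n => (hacc n).2.1 ε hε)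
      fun z hz => ?_
    exact Tendsto.div tendsto_const_nhds (((hV z hz).const_mul _).const_add _) (hne z hz ε hε)
  · refine h4 1 (fun n z => 2 * ev (P n) z / (1 + ev (Vn n) z)) _ (fun n => (hacc n).2.2)
      fun z hz => ?_
    refine Tendsto.div ((accrAll_cont z hPF).const_mul 2) ((hV z hz).const_add _) ?_
    have := hne z hz 1 one_pos
    simpa using this

end DA91
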