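import Pool.Agent.Lib.MP_e91a1a_an.DA.Stm3

open scoped ComplexConjugate Topology ComplexOrder
open Filter DruryArveson

namespace DA91

private lemma zero_mem' : (0 : ℂ × ℂ) ∈ BB := by simp [BB]

theorem piece_final (h1 : S_ker) (h3 : S_diff) (h5 : S_main) (h6 : S_liftMul)
    (h7 : S_embed) (h8 : S_cyc) (h9 : S_elemMul) : S_final := by
  classical
  intro d hd H _ _ _ _ hH
  obtain ⟨m, hm, hm0, hdense, c, hc, hbad⟩ := h5
  obtain ⟨hemb, hpr, hpe, hJ, hJs⟩ := h7 d hd H hH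
  obtain ⟨⟨I, hI⟩, hcz, hnb, hbdd⟩ := h9 d H hH
  have hmul := h6 d hd H hH m hm
  have hI' : ∀ G : H, (∀ z : Ball d, G z = 1) → G = I := by
    intro G hG
    apply RKHS.ext
    intro z
    rw [hG z, hI z]
  refine ⟨fun z => m (pr hd z), ?_, hmul, c, hc, ?_⟩
  · refine h8 d H hH _ hmul.1 I hI ?_
    intro ε hε
    obtain ⟨F, G, hFG, hGn⟩ := hdense one ε hε
    obtain ⟨F', -, hF'⟩ := hJ F
    obtain ⟨G', -, hG'⟩ := hJ G
    obtain ⟨D, hDn, hD⟩ := hJ (G - one)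
    refine ⟨F', G', ?_, ?_⟩
    · intro z
      rw [hG' z, hF' z, hFG _ (hpr z)]
    · have hsub : ∀ (A B : HH) (z : ℂ × ℂ), ev (A - B) z = ev A z - ev B z := by
        intro A B z
        simp [ev]
      have : G' - I = D := by
        apply RKHS.ext
        intro z
        rw [RKHS.coe_sub, Pi.sub_apply, hD z, hsub, hG' z, hI z, h1.2.2.2.1 _ (hpr z)]
      rw [this, hDn]
      exact hGn
  · intro φ hφ hφm
    obtain ⟨Cφ, hCφ, hφC⟩ := hbdd φ hφ.1
    -- the function φ₂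
    have h0 : emb d 0 = 0 := by
      ext i
      simp [emb]
    set φ₂ : ℂ × ℂ → ℂ := fun w => if hw : emb d w ∈ Metric.ball (0 : EuclideanSpace ℂ (Fin d)) 1
      then φ ⟨emb d w, hw⟩ else 0 with hφ₂
    have hval : ∀ w (hw : w ∈ BB), φ₂ w = φ ⟨emb d w, hemb w hw⟩ := by
      intro w hw
      simp only [hφ₂]
      rw [dif_pos (hemb w hw)]
    obtain ⟨g, hg⟩ := hφ.1 I
    obtain ⟨F, hF⟩ := hJs g
    have hFφ : ∀ w ∈ BB, φ₂ w = ev F w := by
      intro w hw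
      rw [hval w hw, hF w hw (hemb w hw), hg, hI, mul_one]
    have hd2 : DifferentiableOn ℂ φ₂ BB := (h3 F).congr hFφ
    have hnz : ∀ z ∈ BB, φ₂ z ≠ 0 := by
      intro z hz
      rw [hval z hz]
      exact hcz φ hφ _
    have hb2 : ∃ C : ℝ, ∀ z ∈ BB, ‖φ₂ z‖ ≤ C := by
      refine ⟨Cφ, fun z hz => ?_⟩
      rw [hval z hz]
      exact hnb φ Cφ hCφ hφC _
    have hp : ∀ z ∈ BB, ‖φ₂ z * m z‖ ≤ 1 := by
      intro z hz
      have := hnb _ 1 zero_le_one hφm ⟨emb d z, hemb z hz⟩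
      rw [hval z hz]
      simpa [hpe z] using this
    have hfin := hbad φ₂ hd2 hnz hb2 hp
    have e1 : φ₂ 0 = φ ⟨0, by simp⟩ := by
      rw [hval 0 zero_mem']
      congr 1
      exact Subtype.ext h0
    have e2 : m (pr hd (0 : EuclideanSpace ℂ (Fin d))) = m 0 := by
      have := hpe 0
      rw [h0] at this
      rw [this]
    rw [e1, ← e2] at hfin
    exact hfin

end DA91
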