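import Pool.Agent.Lib.MP_e91a1a_an.DA.Stm

/-!
# MP_e91a1a_an : Harnack over the roots
-/

open scoped ComplexConjugate Topology
open Filter Metric

namespace DA91

/-- holomorphic logarithm on the disc -/
private theorem har_log (G : ℂ → ℂ) (hG : DifferentiableOn ℂ G (ball 0 1))
    (h0 : ∀ w ∈ ball (0:ℂ) 1, G w ≠ 0) :
    ∃ L : ℂ → ℂ, DifferentiableOn ℂ L (ball 0 1) ∧ ∀ w ∈ ball (0:ℂ) 1, Complex.exp (L w) = G w := by
  have hd : DifferentiableOn ℂ (fun w => deriv G w / G w) (ball 0 1) :=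
    (hG.deriv isOpen_ball).div hG h0
  obtain ⟨P, hP0, hP⟩ := hd.isExactOn_ball.with_val_at 0 (Complex.log (G 0))
  have hm0 : (0:ℂ) ∈ ball (0:ℂ) 1 := mem_ball_self one_pos
  have hPd : DifferentiableOn ℂ P (ball 0 1) := fun w hw =>
    (hP w hw).differentiableAt.differentiableWithinAt
  refine ⟨P, hPd, fun w hw => ?_⟩
  have hder : ∀ z ∈ ball (0:ℂ) 1, HasDerivAt (fun z => Complex.exp (- P z) * G z) 0 z := by
    intro z hz
    have h1 := (hP z hz).neg.cexp
    have h2 : HasDerivAt G (deriv G z) z :=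
      (hG.differentiableAt (isOpen_ball.mem_nhds hz)).hasDerivAt
    have h3 := h1.mul h2
    have h4 := h0 z hz
    have h5 : Complex.exp (-P z) * -(deriv G z / G z) * G z + Complex.exp (-P z) * deriv G z = 0 := by
      field_simp
      ring
    rw [← h5]
    exact h3
  have hc : Complex.exp (- P w) * G w = Complex.exp (- P 0) * G 0 := by
    refine isOpen_ball.is_const_of_deriv_eq_zero (convex_ball _ _).isPreconnected
      (f := fun z => Complex.exp (- P z) * G z) ?_ ?_ hw hm0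
    · exact fun z hz => (hder z hz).differentiableAt.differentiableWithinAt
    · exact fun z hz => (hder z hz).deriv
  rw [hP0, Complex.exp_neg, Complex.exp_neg, Complex.exp_log (h0 0 hm0),
    inv_mul_cancel₀ (h0 0 hm0)] at hc
  have h6 : G w = Complex.exp (P w) := by
    have h7 := Complex.exp_ne_zero (P w)
    field_simp at hc
    exact hc
  exact h6.symm

/-- Schwarz lemma for functions of `v ^ n` -/
private theorem har_schwarz (A : ℂ → ℂ) (hA : DifferentiableOn ℂ A (ball 0 1))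
    (hpos : ∀ w ∈ ball (0:ℂ) 1, 0 < (A w).re) (n : ℕ) (hn : 1 ≤ n) (ζ : ℂ)
    (hζ : IsPrimitiveRoot ζ n) (hinv : ∀ w ∈ ball (0:ℂ) 1, A (ζ * w) = A w) (v : ℂ)
    (hv : v ∈ ball (0:ℂ) 1) :
    (1 - ‖v‖ ^ n) * (A v).re ≤ (1 + ‖v‖ ^ n) * (A 0).re := by
  have hm0 : (0:ℂ) ∈ ball (0:ℂ) 1 := mem_ball_self one_pos
  have hden : ∀ w ∈ ball (0:ℂ) 1, A w + conj (A 0) ≠ 0 := by
    intro w hw h
    have h1 := hpos w hw
    have h2 := hpos 0 hm0
    have h3 := congrArg Complex.re h
    simp at h3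
    linarith
  set φ : ℂ → ℂ := fun w => (A w - A 0) / (A w + conj (A 0)) with hφ
  have hφd : DifferentiableOn ℂ φ (ball 0 1) := (hA.sub_const _).div (hA.add_const _) hden
  have hφ0 : φ 0 = 0 := by simp [hφ]
  have hmaps : Set.MapsTo φ (ball 0 1) (closedBall (φ 0) 1) := by
    intro w hw
    rw [hφ0, mem_closedBall_zero_iff, hφ]
    simp only
    rw [norm_div, div_le_one (norm_pos_iff.2 (hden w hw))]
    have h1 := hpos w hw
    have h2 := hpos 0 hm0
    rw [← Real.sqrt_sq (norm_nonneg (A w - A 0)), ← Real.sqrt_sq (norm_nonneg (A w + conj (A 0)))]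
    apply Real.sqrt_le_sqrt
    rw [← Complex.normSq_eq_norm_sq, ← Complex.normSq_eq_norm_sq, Complex.normSq_apply,
      Complex.normSq_apply]
    simp
    nlinarith
  have hφinv : ∀ w ∈ ball (0:ℂ) 1, φ (ζ * w) = φ w := by
    intro w hw
    simp only [hφ]
    rw [hinv w hw]
  have hζ1 : ‖ζ‖ = 1 := hζ.norm'_eq_one (by omega)
  have hlo : (fun w => φ w - φ 0) =o[𝓝 0] (fun w => ‖w - 0‖ ^ (n - 1)) := by
    rw [hφ0]
    simp only [sub_zero]
    have han : AnalyticAt ℂ φ 0 := hφd.analyticAt (isOpen_ball.mem_nhds hm0)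
    by_cases hz : ∀ᶠ z in 𝓝 (0:ℂ), φ z = 0
    · refine (Asymptotics.isLittleO_zero _ _).congr' ?_ (EventuallyEq.refl _ _)
      filter_upwards [hz] with z hz
      exact hz.symm
    · obtain ⟨m, g, hg1, hg2, hg3⟩ := han.exists_eventuallyEq_pow_smul_nonzero_iff.2 hz
      simp only [sub_zero, smul_eq_mul] at hg3
      have hζc : Tendsto (fun w : ℂ => ζ * w) (𝓝 0) (𝓝 0) := by
        have : Continuous (fun w : ℂ => ζ * w) := by fun_prop
        have h := this.tendsto 0
        simpa using h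
      have e1 : ∀ᶠ z in 𝓝[≠] (0:ℂ), ζ ^ m * g (ζ * z) = g z := by
        have h1 : ∀ᶠ z in 𝓝 (0:ℂ), φ (ζ * z) = (ζ * z) ^ m * g (ζ * z) := hζc.eventually hg3
        have h2 : ∀ᶠ z in 𝓝 (0:ℂ), z ∈ ball (0:ℂ) 1 := isOpen_ball.mem_nhds hm0
        filter_upwards [nhdsWithin_le_nhds h1, nhdsWithin_le_nhds hg3, nhdsWithin_le_nhds h2,
          self_mem_nhdsWithin] with z h3 h4 h5 h6
        rw [hφinv z h5, h4, mul_pow] at h3
        have h7 : z ^ m ≠ 0 := pow_ne_zero m h6
        have h8 : z ^ m * (ζ ^ m * g (ζ * z)) = z ^ m * g z := by rw [h3]; ring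
        exact mul_left_cancel₀ h7 h8
      have c1 : Tendsto (fun z => ζ ^ m * g (ζ * z)) (𝓝[≠] 0) (𝓝 (ζ ^ m * g 0)) := by
        have h9 : Tendsto (fun z => g (ζ * z)) (𝓝 0) (𝓝 (g 0)) :=
          (hg1.continuousAt.tendsto).comp hζc
        exact (h9.const_mul _).mono_left nhdsWithin_le_nhds
      have c2 : Tendsto g (𝓝[≠] 0) (𝓝 (g 0)) := hg1.continuousAt.tendsto.mono_left nhdsWithin_le_nhds
      have e2 : ζ ^ m * g 0 = g 0 := tendsto_nhds_unique (c1.congr' e1) c2
      have e3 : ζ ^ m = 1 := mul_right_cancel₀ hg2 (by rw [e2, one_mul])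
      have e4 : n ∣ m := hζ.dvd_of_pow_eq_one m e3
      have e5 : m ≠ 0 := by
        rintro rfl
        have := hg3.self_of_nhds
        rw [hφ0] at this
        simp at this
        exact hg2 this.symm
      have e6 : n - 1 < m := by
        have := Nat.le_of_dvd (Nat.pos_of_ne_zero e5) e4
        omega
      have o1 : (fun z : ℂ => z ^ m * g z) =O[𝓝 0] (fun z : ℂ => z ^ m) := by
        have : g =O[𝓝 0] (fun _ => (1:ℂ)) := hg1.continuousAt.tendsto.isBigO_one ℂ
        simpa using (Asymptotics.isBigO_refl (fun z : ℂ => z ^ m) (𝓝 0)).mul this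
      have o2 : (fun z : ℂ => z ^ m) =o[𝓝 0] (fun z : ℂ => z ^ (n-1)) :=
        Asymptotics.isLittleO_pow_pow e6
      have o3 : φ =o[𝓝 0] (fun z : ℂ => z ^ (n-1)) :=
        (o1.trans_isLittleO o2).congr' (by filter_upwards [hg3] with z hz; exact hz.symm)
          (EventuallyEq.refl _ _)
      have o4 := o3.norm_right
      simpa using o4
  have hS := Complex.dist_le_mul_div_pow_of_mapsTo_ball_of_isLittleO hφd hmaps hlo hv
  rw [hφ0, dist_zero_right, dist_zero_right, div_one, one_mul, Nat.sub_add_cancel hn] at hS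
  simp only [hφ] at hS
  rw [norm_div, div_le_iff₀ (norm_pos_iff.2 (hden v hv))] at hS
  set ρ : ℝ := ‖v‖ ^ n with hρ
  have hρ0 : 0 ≤ ρ := by positivity
  have hρ1 : ρ < 1 := by
    have := mem_ball_zero_iff.1 hv
    exact pow_lt_one₀ (norm_nonneg _) this (by omega)
  have h1 := hpos v hv
  have h2 := hpos 0 hm0
  have h3 : ‖A v - A 0‖ ^ 2 ≤ ρ ^ 2 * ‖A v + conj (A 0)‖ ^ 2 := by
    rw [← mul_pow]
    exact pow_le_pow_left₀ (norm_nonneg _) hS 2
  rw [← Complex.normSq_eq_norm_sq, ← Complex.normSq_eq_norm_sq, Complex.normSq_apply,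
    Complex.normSq_apply] at h3
  simp at h3
  have h4 : ((A v).re - (A 0).re) ^ 2 ≤ (ρ * ((A v).re + (A 0).re)) ^ 2 := by
    have h5 : 0 ≤ (1 - ρ ^ 2) * ((A v).im - (A 0).im) ^ 2 := by
      apply mul_nonneg _ (sq_nonneg _)
      nlinarith
    nlinarith
  have h6 := abs_le_of_sq_le_sq h4 (by positivity)
  have h7 := (abs_le.1 (abs_le_of_sq_le_sq h4 (by positivity))).2
  nlinarith

theorem piece_har : S_har := by
  intro G hG hG1 n hn ρ hρ0 hρ1 q hq0 hq1 hq
  obtain ⟨L, hL, hLG⟩ := har_log G hG fun w hw => (hG1 w (mem_ball_zero_iff.1 hw)).1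
  set ζ : ℂ := Complex.exp (2 * Real.pi * Complex.I / n) with hζdef
  have hζ : IsPrimitiveRoot ζ n := Complex.isPrimitiveRoot_exp n (by omega)
  have hζ1 : ‖ζ‖ = 1 := hζ.norm'_eq_one (by omega)
  have hζn : ζ ^ n = 1 := hζ.pow_eq_one
  have hball : ∀ (l : ℕ) (w : ℂ), w ∈ ball (0:ℂ) 1 → ζ ^ l * w ∈ ball (0:ℂ) 1 := by
    intro l w hw
    rw [mem_ball_zero_iff] at *
    rw [norm_mul, norm_pow, hζ1, one_pow, one_mul]
    exact hw
  have hm0 : (0:ℂ) ∈ ball (0:ℂ) 1 := mem_ball_self one_pos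
  have hre : ∀ w ∈ ball (0:ℂ) 1, (L w).re ≤ 0 := by
    intro w hw
    have h1 := (hG1 w (mem_ball_zero_iff.1 hw)).2
    rw [← hLG w hw, Complex.norm_exp] at h1
    exact Real.exp_le_one_iff.1 h1
  -- the averaged function
  have key : ∀ ε > 0, (1 - ρ) * (-Real.log q + ε) ≤ (1 + ρ) * (-(L 0).re + ε) := by
    intro ε hε
    set A : ℂ → ℂ := fun w => - (∑ l ∈ Finset.range n, L (ζ ^ l * w)) + (n * ε : ℝ) with hA
    have hnpos : (0:ℝ) < n := by exact_mod_cast hn
    have hAd : DifferentiableOn ℂ A (ball 0 1) := by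
      refine DifferentiableOn.add_const _ (DifferentiableOn.neg ?_)
      refine DifferentiableOn.fun_sum fun l _ => ?_
      refine hL.comp (by fun_prop) fun w hw => hball l w hw
    have hAre : ∀ w, (A w).re = - (∑ l ∈ Finset.range n, (L (ζ ^ l * w)).re) + n * ε := by
      intro w
      simp only [hA, Complex.add_re, Complex.neg_re, Complex.re_sum, Complex.ofReal_re]
    have hpos : ∀ w ∈ ball (0:ℂ) 1, 0 < (A w).re := by
      intro w hw
      rw [hAre]
      have : ∑ l ∈ Finset.range n, (L (ζ ^ l * w)).re ≤ 0 :=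
        Finset.sum_nonpos fun l _ => hre _ (hball l w hw)
      have h2 : 0 < n * ε := by positivity
      linarith
    have hinv : ∀ w ∈ ball (0:ℂ) 1, A (ζ * w) = A w := by
      intro w _
      simp only [hA]
      congr 2
      have h1 : ∀ l, L (ζ ^ l * (ζ * w)) = L (ζ ^ (l+1) * w) := by
        intro l; rw [pow_succ]; ring_nf
      simp only [h1]
      have h2 := Finset.sum_range_succ' (fun l => L (ζ ^ l * w)) n
      have h3 := Finset.sum_range_succ (fun l => L (ζ ^ l * w)) n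
      rw [h3] at h2
      simp only [hζn, pow_zero] at h2
      exact (add_right_cancel h2).symm
    -- the root
    set v : ℂ := ((ρ ^ ((1:ℝ) / n) : ℝ) : ℂ) with hv
    have hvn : v ^ n = (ρ : ℂ) := by
      rw [hv, ← Complex.ofReal_pow, ← Real.rpow_natCast, ← Real.rpow_mul hρ0.le,
        one_div_mul_cancel hnpos.ne', Real.rpow_one]
    have hvnorm : ‖v‖ ^ n = ρ := by
      rw [← norm_pow, hvn, Complex.norm_real, Real.norm_of_nonneg hρ0.le]
    have hvb : v ∈ ball (0:ℂ) 1 := by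
      rw [mem_ball_zero_iff]
      by_contra hcon
      have h1 : 1 ≤ ‖v‖ ^ n := one_le_pow₀ (not_lt.1 hcon)
      rw [hvnorm] at h1
      linarith
    have h1 := har_schwarz A hAd hpos n hn ζ hζ hinv v hvb
    rw [hvnorm, hAre, hAre] at h1
    have h2 : ∑ l ∈ Finset.range n, (L (ζ ^ l * v)).re ≤ n * Real.log q := by
      have : ∀ l ∈ Finset.range n, (L (ζ ^ l * v)).re ≤ Real.log q := by
        intro l _
        have h3 : ‖G (ζ ^ l * v)‖ ≤ q := by
          apply hq
          rw [mul_pow, ← pow_mul, mul_comm l n, pow_mul, hζn, one_pow, one_mul, hvn]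
        rw [← hLG _ (hball l v hvb), Complex.norm_exp] at h3
        rwa [Real.le_log_iff_exp_le hq0]
      have h4 := Finset.sum_le_card_nsmul _ _ _ this
      simpa using h4
    have h3 : ∑ l ∈ Finset.range n, (L (ζ ^ l * 0)).re = n * (L 0).re := by simp
    rw [h3] at h1
    have h5 : 0 ≤ 1 - ρ := by linarith
    have h6 : (1 - ρ) * (n * (-Real.log q + ε)) ≤ (1 + ρ) * (n * (-(L 0).re + ε)) := by
      have h7 : (1 - ρ) * (n * (-Real.log q + ε)) ≤
          (1 - ρ) * (-∑ l ∈ Finset.range n, (L (ζ ^ l * v)).re + n * ε) := by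
        apply mul_le_mul_of_nonneg_left _ h5
        linarith
      calc _ ≤ _ := h7
        _ ≤ _ := h1
        _ = _ := by ring
    have h8 : n * ((1 - ρ) * (-Real.log q + ε)) ≤ n * ((1 + ρ) * (-(L 0).re + ε)) := by
      linarith
    exact le_of_mul_le_mul_left h8 hnpos
  have key2 : (1 - ρ) * (-Real.log q) ≤ (1 + ρ) * (-(L 0).re) := by
    refine le_of_forall_pos_le_add fun ε hε => ?_
    have h1 := key (ε / 2) (by positivity)
    nlinarith
  have h1 : ‖G 0‖ = Real.exp (L 0).re := by rw [← hLG 0 hm0, Complex.norm_exp]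
  rw [h1, Real.rpow_def_of_pos hq0]
  apply Real.exp_le_exp.2
  have h2 : (0:ℝ) < 1 + ρ := by linarith
  rw [← mul_div_assoc, le_div_iff₀ h2]
  linarith

end DA91
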