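import Pool.Agent.Lib.MP_e91a1a_an.DA.Stm

open scoped ComplexConjugate Topology
open Filter

namespace DA91

private theorem ker_sum_real {x y : ℝ} (hx : 0 ≤ x) (hy : 0 ≤ y) (h : x + y < 1) :
    Summable fun p : ℕ × ℕ => ((p.1 + p.2).choose p.1 : ℝ) * x ^ p.1 * y ^ p.2 := by
  rw [← (Finset.HasAntidiagonal.sigmaAntidiagonalEquivProd (A := ℕ)).summable_iff]
  have hs : ∀ n, ∑ c : Finset.HasAntidiagonal.antidiagonal n,
      (((c.1.1 + c.1.2).choose c.1.1 : ℝ) * x ^ c.1.1 * y ^ c.1.2) = (x + y) ^ n := by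
    intro n
    rw [(Commute.all x y).add_pow', ← Finset.sum_coe_sort (Finset.HasAntidiagonal.antidiagonal n)
      (fun m : ℕ × ℕ => n.choose m.1 • (x ^ m.1 * y ^ m.2))]
    refine Finset.sum_congr rfl fun c _ => ?_
    rw [Finset.HasAntidiagonal.mem_antidiagonal.1 c.2, nsmul_eq_mul]
    ring
  refine (summable_sigma_of_nonneg ?_).2 ⟨fun n => ?_, ?_⟩
  · rintro ⟨n, c⟩
    exact mul_nonneg (mul_nonneg (Nat.cast_nonneg _) (pow_nonneg hx _)) (pow_nonneg hy _)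
  · exact (hasSum_fintype _).summable
  · refine (summable_geometric_of_lt_one (add_nonneg hx hy) h).congr fun n => ?_
    rw [tsum_fintype]
    exact (hs n).symm

private theorem ker_sum {x y : ℂ} (h : ‖x‖ + ‖y‖ < 1) :
    HasSum (fun p : ℕ × ℕ => ((p.1 + p.2).choose p.1 : ℂ) * x ^ p.1 * y ^ p.2)
      (1 / (1 - (x + y))) := by
  have hsum : Summable fun p : ℕ × ℕ => ((p.1 + p.2).choose p.1 : ℂ) * x ^ p.1 * y ^ p.2 := by
    apply Summable.of_norm
    refine (ker_sum_real (norm_nonneg x) (norm_nonneg y) h).congr fun p => ?_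
    rw [norm_mul, norm_mul, norm_pow, norm_pow, Complex.norm_natCast]
  have hs : ∀ n, ∑ c : Finset.HasAntidiagonal.antidiagonal n,
      (((c.1.1 + c.1.2).choose c.1.1 : ℂ) * x ^ c.1.1 * y ^ c.1.2) = (x + y) ^ n := by
    intro n
    rw [(Commute.all x y).add_pow', ← Finset.sum_coe_sort (Finset.HasAntidiagonal.antidiagonal n)
      (fun m : ℕ × ℕ => n.choose m.1 • (x ^ m.1 * y ^ m.2))]
    refine Finset.sum_congr rfl fun c _ => ?_
    rw [Finset.HasAntidiagonal.mem_antidiagonal.1 c.2, nsmul_eq_mul]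
    ring
  have h1 := (Finset.HasAntidiagonal.sigmaAntidiagonalEquivProd (A := ℕ)).hasSum_iff.2 hsum.hasSum
  have h2 := h1.sigma (g := fun n => (x + y) ^ n) (fun n => by
    rw [← hs n]
    exact hasSum_fintype _)
  have h3 : HasSum (fun n => (x + y) ^ n) (1 - (x + y))⁻¹ :=
    hasSum_geometric_of_norm_lt_one ((norm_add_le _ _).trans_lt h)
  rw [one_div, h3.unique h2]
  exact hsum.hasSum

private theorem wt_sq (p : ℕ × ℕ) : (wt p : ℂ) * (wt p : ℂ) = ((p.1 + p.2).choose p.1 : ℂ) := by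
  unfold wt
  rw [← Complex.ofReal_mul, Real.mul_self_sqrt (Nat.cast_nonneg _)]
  simp

private theorem ker_mem {z : ℂ × ℂ} (hz : z ∈ BB) : Memℓp (kfun z) 2 := by
  apply memℓp_gen
  have h := ker_sum_real (sq_nonneg ‖z.1‖) (sq_nonneg ‖z.2‖) hz
  refine h.congr fun p => ?_
  unfold kfun wt
  rw [RCLike.norm_conj, norm_mul, norm_mul, norm_pow, norm_pow, Complex.norm_real,
    Real.norm_of_nonneg (Real.sqrt_nonneg _), ENNReal.toReal_ofNat, Real.rpow_two, mul_pow,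
    mul_pow, Real.sq_sqrt (Nat.cast_nonneg _)]
  ring

private theorem ker_apply {z : ℂ × ℂ} (hz : z ∈ BB) (p : ℕ × ℕ) : (ker z) p = kfun z p := by
  unfold ker
  rw [dif_pos (ker_mem hz)]

private theorem ker_cs {z w : ℂ × ℂ} (hz : z ∈ BB) (hw : w ∈ BB) :
    ‖z.1 * conj w.1‖ + ‖z.2 * conj w.2‖ < 1 := by
  rw [norm_mul, norm_mul, RCLike.norm_conj, RCLike.norm_conj]
  have h1 : ‖z.1‖ ^ 2 + ‖z.2‖ ^ 2 < 1 := hz
  have h2 : ‖w.1‖ ^ 2 + ‖w.2‖ ^ 2 < 1 := hw
  nlinarith [sq_nonneg (‖z.1‖ - ‖w.1‖), sq_nonneg (‖z.2‖ - ‖w.2‖)]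

private theorem ker_zero : (0 : ℂ × ℂ) ∈ BB := by
  show ‖(0 : ℂ)‖ ^ 2 + ‖(0 : ℂ)‖ ^ 2 < 1
  norm_num

theorem piece_ker : S_ker := by
  have hev : ∀ z ∈ BB, ∀ F : HH,
      HasSum (fun p : ℕ × ℕ => (wt p : ℂ) * z.1 ^ p.1 * z.2 ^ p.2 * F p) (ev F z) := by
    intro z hz F
    have h := lp.hasSum_inner (𝕜 := ℂ) (ker z) F
    refine h.congr_fun fun p => ?_
    rw [RCLike.inner_apply, ker_apply hz, kfun, RCLike.conj_conj]
    ring
  have hev0 : ∀ F : HH, ev F 0 = F (0, 0) := by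
    intro F
    have h1 := hev 0 ker_zero F
    have h2 : HasSum (fun p : ℕ × ℕ =>
        (wt p : ℂ) * (0 : ℂ × ℂ).1 ^ p.1 * (0 : ℂ × ℂ).2 ^ p.2 * F p)
        ((wt ((0, 0) : ℕ × ℕ) : ℂ) * (0 : ℂ × ℂ).1 ^ (0 : ℕ) * (0 : ℂ × ℂ).2 ^ (0 : ℕ) *
          F ((0, 0) : ℕ × ℕ)) := by
      refine hasSum_single ((0, 0) : ℕ × ℕ) fun p hp => ?_
      obtain ⟨a, b⟩ := p
      rcases Nat.eq_zero_or_pos a with rfl | ha
      · rcases Nat.eq_zero_or_pos b with rfl | hb
        · exact absurd rfl hp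
        · simp [hb.ne']
      · simp [ha.ne']
    rw [h1.unique h2]
    simp [wt]
  have hone : ∀ F : HH, inner ℂ one F = F (0, 0) := by
    intro F
    unfold one
    rw [lp.inner_single_left, RCLike.inner_apply, map_one, mul_one]
  refine ⟨fun z hz => ker_mem hz, ?_, hev, ?_, ?_, ?_, hev0⟩
  · intro z hz w hw
    have h := lp.hasSum_inner (𝕜 := ℂ) (ker z) (ker w)
    have h2 := ker_sum (ker_cs hz hw)
    have h3 : HasSum (fun p : ℕ × ℕ => inner ℂ ((ker z) p) ((ker w) p))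
        (1 / (1 - kip z w)) := by
      refine h2.congr_fun fun p => ?_
      rw [RCLike.inner_apply, ker_apply hz, ker_apply hw, kfun, kfun, RCLike.conj_conj,
        ← wt_sq p, mul_pow, mul_pow, map_mul, map_mul, map_pow, map_pow, Complex.conj_ofReal]
      ring
    exact h.unique h3
  · intro z hz
    unfold ev one
    rw [lp.inner_single_right, RCLike.inner_apply, ker_apply hz, kfun, RCLike.conj_conj]
    simp [wt]
  · unfold one
    rw [lp.norm_single (by norm_num)]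
    simp
  · intro F
    rw [hone, hev0]

end DA91
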