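import Pool.Agent.Lib.MP_e91a1a_an.DA.Stm

/-!
# MP_e91a1a_an : splitting off the functions of the first variable [A12]
-/

open scoped ComplexConjugate Topology
open Filter

namespace DA91

private theorem split_mem (F : HH) : Memℓp (fun p : ℕ × ℕ => if p.2 = 0 then F p else 0) 2 := by
  refine memℓp_gen ?_
  have h := (lp.memℓp F).summable (by norm_num)
  refine h.of_nonneg_of_le (fun p => by positivity) fun p => ?_
  refine Real.rpow_le_rpow (norm_nonneg _) ?_ (by norm_num)
  split_ifs
  · exact le_rfl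
  · rw [norm_zero]; exact norm_nonneg _

theorem piece_split (h1 : S_ker) : S_split := by
  obtain ⟨-, -, hs, -, -, -, -⟩ := h1
  intro F
  have hK : ∀ w : ℂ, ‖w‖ < 1 → ((w, 0) : ℂ × ℂ) ∈ BB := by
    intro w hw
    have : ‖w‖ ^ 2 < 1 := by
      have := norm_nonneg w
      nlinarith
    simpa [BB] using this
  set F0 : HH := ⟨fun p : ℕ × ℕ => if p.2 = 0 then F p else 0, split_mem F⟩ with hF0
  have hv : ∀ p : ℕ × ℕ, F0 p = if p.2 = 0 then F p else 0 := fun p => rfl
  refine ⟨F0, F - F0, by abel, fun z hz => ?_, fun w hw => ?_⟩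
  · have hz1 : ‖z.1‖ < 1 := by
      have h2 : ‖z.1‖ ^ 2 + ‖z.2‖ ^ 2 < 1 := hz
      by_contra h3
      push Not at h3
      have := norm_nonneg z.2
      nlinarith
    have h2 := hs z hz F0
    have h3 := hs (z.1, 0) (hK z.1 hz1) F
    refine h2.unique ?_
    refine h3.congr_fun ?_
    intro p
    rw [hv]
    rcases Nat.eq_zero_or_pos p.2 with h4 | h4
    · simp [h4]
    · simp [h4.ne']
  · have h2 := hs (w, 0) (hK w hw) (F - F0)
    refine h2.unique ?_
    refine HasSum.congr_fun hasSum_zero ?_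
    intro p
    have h5 : (F - F0 : HH) p = F p - F0 p := rfl
    rw [h5, hv]
    rcases Nat.eq_zero_or_pos p.2 with h4 | h4
    · simp [h4]
    · simp [h4.ne']

end DA91
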