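import Pool.Agent.Lib.MP_e91a1a_an.DA.Defs

/-!
# Statements of the pieces for MP_e91a1a_an (the answer to Q1 is NO for d = 2)

Paper: /team-store/MP_e91a1a_paper.md.  Every `S_xx : Prop` is one piece; the pieces it needs are
hypotheses of the theorem to be proved (see the request).  Complete proofs in the docstrings.
-/

open scoped ComplexConjugate Topology
open Filter

namespace DA91

noncomputable section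

/-! ## A. The space -/

/-- [A1] Kernel vectors. Proof: `‖kfun z (a,b)‖² = choose (a+b) a |z₁|^{2a} |z₂|^{2b}`; summing over antidiagonals (binomial theorem,
`Finset.Nat.antidiagonal`, `summable_sum_mul_antidiagonal`/`HasSum.sigma`) gives `∑_n (|z₁|²+|z₂|²)^n < ∞`. The inner product of two
kernel vectors is `∑ choose (a+b) a (z₁ w̄₁)^a (z₂ w̄₂)^b = ∑_n (kip z w)^n = 1/(1 - kip z w)` (`|kip z w| < 1` by Cauchy-Schwarz).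
`ev F z = inner ℂ (ker z) F = ∑ conj (kfun z p) * F p`. `one` is the unit vector at `(0,0)`. -/
def S_ker : Prop :=
  (∀ z ∈ BB, Memℓp (kfun z) 2) ∧
  (∀ z ∈ BB, ∀ w ∈ BB, inner ℂ (ker z) (ker w) = 1 / (1 - kip z w)) ∧
  (∀ z ∈ BB, ∀ F : HH, HasSum (fun p : ℕ × ℕ => (wt p : ℂ) * z.1 ^ p.1 * z.2 ^ p.2 * F p) (ev F z)) ∧
  (∀ z ∈ BB, ev one z = 1) ∧ ‖one‖ = 1 ∧ (∀ F : HH, inner ℂ one F = ev F 0) ∧ (∀ F : HH, ev F 0 = F (0, 0))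

/-- [A2] A vector is determined by its function. Proof: by `S_ker`, `∑ F(a,b) wt(a,b) z₁^a z₂^b = 0` on the ball. For fixed `z₂`, `|z₂| < 1/2`,
this is a power series in `z₁` (`|z₁| < 1/2`) with coefficients `c_a(z₂) = ∑_b F(a,b) wt(a,b) z₂^b`, which vanishes, so all `c_a(z₂) = 0`
(identity theorem, e.g. `HasFPowerSeriesAt.eq_zero`, or a self-made lemma: if `∑ a_n x^n = 0` for `|x| < r`, summable, then all `a_n = 0`);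
again a power series in `z₂`, so `F(a,b) wt(a,b) = 0`, and `wt > 0`. -/
def S_inj : Prop := ∀ F : HH, (∀ z ∈ BB, ev F z = 0) → F = 0

/-- [A3] The functions are holomorphic on the ball. Proof: on `{|z₁|²+|z₂|² < R²}`, `R < 1`, the series of `S_ker` is dominated by
`|F p| * wt p |z₁|^{p.1} |z₂|^{p.2}`, hence (Cauchy-Schwarz) it converges locally uniformly: e.g. the partial sums over finite sets are
polynomials `ev F_s` (`F_s` = truncation of `F`) and `|ev F z - ev F_s z| ≤ ‖ker z‖ ‖F - F_s‖ ≤ ‖F - F_s‖ / √(1-R²)`;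
use `TendstoLocallyUniformlyOn.differentiableOn` along lines plus Hartogs/Osgood is NOT needed: `differentiableOn_tsum_of_summable_norm`
works for maps `ℂ × ℂ → ℂ`? (if it only exists for one variable, prove differentiability through the derivative series: `hasFDerivAt_tsum`,
or through analyticity: `FormalMultilinearSeries`). Any route is fine. -/
def S_diff : Prop := ∀ F : HH, DifferentiableOn ℂ (ev F) BB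

/-- [A4] Coordinate multiplication operators. `(M₁ F)(a+1,b) = √((a+1)/(a+b+1)) F(a,b)`, `(M₁ F)(0,b) = 0`, similarly `M₂`.
`‖M₁ F + M₂ G‖² ≤ ‖F‖² + ‖G‖²`: at `(a,b)`: `|√(a/(a+b)) F(a-1,b) + √(b/(a+b)) G(a,b-1)|² ≤ |F(a-1,b)|² + |G(a,b-1)|²` (Cauchy-Schwarz), sum over `(a,b)`.
`ev (M₁ F) z = z₁ ev F z` because `wt(a+1,b) √((a+1)/(a+b+1)) = wt(a,b)`. `M₁† F (a,b) = √((a+1)/(a+b+1)) F(a+1,b)` so that
`(M₁ M₁† F)(a,b) = a/(a+b) F(a,b)`; adding, `F = F(0,0) one + M₁ M₁† F + M₂ M₂† F`. -/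
def S_ops : Prop := ∃ M₁ M₂ : HH →L[ℂ] HH,
  (∀ F : HH, ∀ z ∈ BB, ev (M₁ F) z = z.1 * ev F z) ∧
  (∀ F : HH, ∀ z ∈ BB, ev (M₂ F) z = z.2 * ev F z) ∧
  (∀ F G : HH, ‖M₁ F + M₂ G‖ ^ 2 ≤ ‖F‖ ^ 2 + ‖G‖ ^ 2) ∧
  (∀ F : HH, F = (F (0, 0)) • one + M₁ (ContinuousLinearMap.adjoint M₁ F) + M₂ (ContinuousLinearMap.adjoint M₂ F)) ∧
  (∀ (F : HH) (a b : ℕ), (M₁ F) (a + 1, b) = (Real.sqrt ((a + 1) / (a + b + 1)) : ℂ) * F (a, b)) ∧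
  (∀ (F : HH) (b : ℕ), (M₁ F) (0, b) = 0) ∧
  (∀ (F : HH) (a b : ℕ), (M₂ F) (a, b + 1) = (Real.sqrt ((b + 1) / (a + b + 1)) : ℂ) * F (a, b)) ∧
  (∀ (F : HH) (a : ℕ), (M₂ F) (a, 0) = 0) ∧
  (∀ (F : HH) (a b : ℕ), (ContinuousLinearMap.adjoint M₁ F) (a, b) = (Real.sqrt ((a + 1) / (a + b + 1)) : ℂ) * F (a + 1, b)) ∧
  (∀ (F : HH) (a b : ℕ), (ContinuousLinearMap.adjoint M₂ F) (a, b) = (Real.sqrt ((b + 1) / (a + b + 1)) : ℂ) * F (a, b + 1))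

/-- [A5] Bounded + pointwise convergent sequences converge weakly. Proof: the kernel vectors span a dense subspace (`S_inj`: a vector orthogonal to all
`ker z`, `z ∈ BB`, is `0`). For `K` in the span `inner K (F n)` converges; by the bound and density it converges (Cauchy) for all `K`; the limit functional is
bounded by `C`, so it is `inner K G` (Riesz, `InnerProductSpace.toDual`), `‖G‖ ≤ C`. -/
def S_lim : Prop := ∀ (C : ℝ) (F : ℕ → HH), (∀ n, ‖F n‖ ≤ C) → ∀ g : ℂ × ℂ → ℂ,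
  (∀ z ∈ BB, Tendsto (fun n => ev (F n) z) atTop (𝓝 (g z))) →
  ∃ G : HH, ‖G‖ ≤ C ∧ (∀ z ∈ BB, ev G z = g z) ∧
    ∀ K : HH, Tendsto (fun n => inner ℂ K (F n)) atTop (𝓝 (inner ℂ K G))

/-- [A6] Pointwise limits of multipliers. Proof: apply `S_lim` to the vectors representing `m n * F`. -/
def S_mulLim : Prop := ∀ (C : ℝ) (m : ℕ → ℂ × ℂ → ℂ) (μ : ℂ × ℂ → ℂ), (∀ n, Mul (m n) C) →
  (∀ z ∈ BB, Tendsto (fun n => m n z) atTop (𝓝 (μ z))) → Mul μ C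

/-- [A7] Algebra of multipliers: constants, sums, products; congruence on the ball; a multiplier is bounded by its norm on the ball
(`‖m z‖ ≤ C`): the representing linear map `T` (unique by `S_inj`, linear, `‖T‖ ≤ C`) satisfies `T† (ker z) = conj (m z) • ker z`, `ker z ≠ 0`
(or: `|m(z)^n ev F z| ≤ C^n ‖F‖ ‖ker z‖` for all `n` with `F = one`). -/
def S_mulAlg : Prop :=
  (∀ c : ℂ, Mul (fun _ => c) ‖c‖) ∧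
  (∀ m m' C C', Mul m C → Mul m' C' → 0 ≤ C → 0 ≤ C' → Mul (fun z => m z * m' z) (C * C')) ∧
  (∀ m m' C C', Mul m C → Mul m' C' → Mul (fun z => m z + m' z) (C + C')) ∧
  (∀ m m' C, Mul m C → (∀ z ∈ BB, m z = m' z) → Mul m' C) ∧
  (∀ m C C', Mul m C → C ≤ C' → Mul m C') ∧
  (∀ m C, Mul m C → 0 ≤ C → ∀ z ∈ BB, ‖m z‖ ≤ C)

/-- [A8] Power series of multipliers. Proof: partial sums are multipliers with norm `≤ ∑ ‖c k‖ C^k` (`S_mulAlg`), apply `S_mulLim`. -/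
def S_mulFC : Prop := ∀ (m : ℂ × ℂ → ℂ) (C : ℝ), Mul m C → 0 ≤ C → ∀ c : ℕ → ℂ, Summable (fun k => ‖c k‖ * C ^ k) →
  Mul (fun z => ∑' k, c k * m z ^ k) (∑' k, ‖c k‖ * C ^ k)

/-- [A9] The special functions: exponentials, `ψ_r`, and the factor in `X(w) - 1 = w Q(w)`.  Proof: `S_mulFC` with the exponential series, the geometric series
`psi r w = ∑ 2 r^k w^k (k ≥ 1)`; `X(w)-1 = w · (-a · 2r/(1-rw)) · E(-a ψ_r(w))`, `E(u) = ∑ u^k/(k+1)! = (e^u-1)/u`.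
All bounds only use that `m` has multiplier norm at most one. -/
def S_mulExp : Prop :=
  (∀ m C, Mul m C → 0 ≤ C → Mul (fun z => Complex.exp (m z)) (Real.exp C)) ∧
  (∀ r : ℝ, 0 < r → r < 1 → ∀ m, Mul m 1 → Mul (fun z => psi r (m z)) (2 * r / (1 - r))) ∧
  (∀ a r : ℝ, 0 < a → 0 < r → r < 1 → ∃ CQ : ℝ, 0 ≤ CQ ∧ ∃ Q : ℂ → ℂ, (∀ w : ℂ, ‖w‖ < 1 → Xf a r w - 1 = w * Q w) ∧
    ∀ m, Mul m 1 → Mul (fun z => Q (m z)) CQ)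

/-- [A10] Functions of `z₁` only. Proof: Taylor coefficients `g w = ∑ g_a w^a` on the disc, Parseval on circles `|w| = s < 1`:
`∑ |g_a|² s^{2a} = (1/2π)∫ |g(s e^{iθ})|² dθ ≤ M²`, let `s → 1`: `∑ |g_a|² ≤ M²`; `G (a,0) = g_a`, `G (a,b) = 0` for `b ≥ 1` (`wt (a,0) = 1`). -/
def S_lift : Prop := ∀ g : ℂ → ℂ, DifferentiableOn ℂ g (Metric.ball 0 1) → ∀ M : ℝ, 0 ≤ M → (∀ w, ‖w‖ < 1 → ‖g w‖ ≤ M) →
  ∃ G : HH, ‖G‖ ≤ M ∧ ∀ z ∈ BB, ev G z = g z.1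

/-- [A11] High powers of `z₁` kill everything that vanishes on `z₂ = 0`. Proof: `ev F (w,0) = ∑_a F(a,0) w^a = 0` on the disc gives `F (a,0) = 0` for all `a`.
`G = M₁^n F` (`S_inj`) has `G(a+n,b) = F(a,b) ∏_{i=1}^n √((a+i)/(a+b+i))`, `G(a',b) = 0` for `a' < n`; for `b ≥ 1` the factor squared is at most
`∏ (a+i)/(a+i+1) = (a+1)/(a+n+1) → 0`; dominated convergence (`tendsto_tsum_of_dominated_convergence`), or: `F` is a limit of finitely supported vectors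
vanishing at all `(a,0)`, and multiplication by `z₁^n` is a contraction. -/
def S_kill : Prop := ∀ F : HH, (∀ w : ℂ, ‖w‖ < 1 → ev F (w, 0) = 0) → ∀ ε > 0, ∃ n0 : ℕ, ∀ n ≥ n0,
  ∀ G : HH, (∀ z ∈ BB, ev G z = z.1 ^ n * ev F z) → ‖G‖ ≤ ε

/-- [A12] Splitting `F = F₀ + F'` with `F₀` a function of `z₁` only: `F₀ (a,0) = F (a,0)`, `F₀ (a,b) = 0` for `b ≥ 1`. -/
def S_split : Prop := ∀ F : HH, ∃ F0 F' : HH, F = F0 + F' ∧ (∀ z ∈ BB, ev F0 z = ev F (z.1, 0)) ∧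
  (∀ w : ℂ, ‖w‖ < 1 → ev F' (w, 0) = 0)

/-- [A13] Asymptotic lemma for the root. Proof: `F = F₀ + F'` (`S_split`). `(X(z₁^n)-1) F₀` is the function `g(z₁)`, `g w = (X(w^n)-1) ev F (w,0)`,
`|g| ≤ (e^a + 1) M` because `Re ψ_r ≥ -1` on the disc: `S_lift` (holomorphy of `w ↦ ev F (w,0)`: `S_diff`). `(X(z₁^n)-1) F' = Q(z₁^n) z₁^n F'` has norm
`≤ CQ ‖z₁^n F'‖ → 0` by `S_mulExp` and `S_kill` (multiplication by `z₁^n` is a contraction by `S_ops`). -/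
def S_asym0 : Prop := ∀ a r : ℝ, 0 < a → 0 < r → r < 1 → ∀ (F : HH) (M : ℝ), 0 ≤ M → (∀ w : ℂ, ‖w‖ < 1 → ‖ev F (w, 0)‖ ≤ M) →
  ∀ ε > 0, ∃ n0 : ℕ, ∀ n ≥ n0, ∃ D : HH, (∀ z ∈ BB, ev D z = (Xf a r (z.1 ^ n) - 1) * ev F z) ∧ ‖D‖ ≤ M * (Real.exp a + 1) + ε

/-! ## B. Nodes -/

/-- [B1] General fact: a family with the same Gram matrix as the kernel vectors. Proof: on the span of `ker z` (`z ∈ BB`) define `W (∑ c_i ker z_i) = ∑ c_i ξ z_i`,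
well defined and isometric because the Gram matrices agree; extend to the closure of the span, which is everything by `S_inj`. -/
def S_gram : Prop := ∀ ξ : ℂ × ℂ → HH, (∀ z ∈ BB, ∀ w ∈ BB, inner ℂ (ξ z) (ξ w) = inner ℂ (ker z) (ker w)) →
  ∃ W : HH →ₗᵢ[ℂ] HH, ∀ z ∈ BB, W (ker z) = ξ z

/-- [B2] The unitary of a node. Proof: `ξ z = conj (δ z) • ker (Φ z)` has the Gram matrix of `ker` by `Node.gram` and `S_ker`; `G = W† F` satisfies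
`ev G z = inner (W (ker z)) F = δ z * ev F (Φ z)` and `‖G‖ ≤ ‖F‖`. The inverse node data (`Ψ`, `1/δ∘Ψ`) give the inverse contraction, so norms are equal
(`S_inj` for uniqueness; `δ z ≠ 0` on the ball by `Node.gram` with `w = z`). -/
def S_unit : Prop := ∀ nd : Node,
  (∀ F : HH, ∃ G : HH, ‖G‖ = ‖F‖ ∧ ∀ z ∈ BB, ev G z = nd.δ z * ev F (nd.Φ z)) ∧
  (∀ G : HH, ∃ F : HH, ‖G‖ = ‖F‖ ∧ ∀ z ∈ BB, ev G z = nd.δ z * ev F (nd.Φ z))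

/-- [B3] `Y` and `β` are contractive multipliers. Proof: by `S_unit` write `G` for the transform of `F`; transform `z₁ G` back. -/
def S_mulY : Prop := ∀ nd : Node, Mul nd.Y 1 ∧ Mul nd.β 1

/-- [B4] Asymptotic lemma for a node. Proof: transport `S_asym0` with `S_unit`: if `G = δ (F∘Φ)` then `ev G (w,0) = δ(w,0) ev F (Φ (w,0))`,
and `D` for `G` goes back to `D` for `F` because `Y (Φ z) = z₁`. -/
def S_asym : Prop := ∀ (nd : Node) (a r : ℝ), 0 < a → 0 < r → r < 1 → ∀ (F : HH) (M : ℝ), 0 ≤ M →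
  (∀ w : ℂ, ‖w‖ < 1 → ‖nd.δ (w, 0) * ev F (nd.Φ (w, 0))‖ ≤ M) →
  ∀ ε > 0, ∃ n0 : ℕ, ∀ n ≥ n0, ∃ D : HH, (∀ z ∈ BB, ev D z = (Xf a r (nd.Y z ^ n) - 1) * ev F z) ∧ ‖D‖ ≤ M * (Real.exp a + 1) + ε

/-- [B5] Elementary automorphism. All identities are algebra:
`(1+w̄z₂)(1+w ζ̄₂) - (w+z₂)(w̄+ζ̄₂) - s² z₁ζ̄₁ = s² (1 - z₁ζ̄₁ - z₂ζ̄₂)`, `s² = 1-|w|²`; `1 + w̄ z₂ ≠ 0` on the closed ball; `u₁ - w = s² z₂/(1+w̄z₂)`, `1 - w̄u₁ = s²/(1+w̄z₂)`. -/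
def S_elem : Prop := ∀ w : ℂ, ‖w‖ < 1 → ∃ nd : Node, nd.Φ = Phw w ∧ nd.Ψ = Psw w ∧ nd.δ = dlw w

/-- [B6] Composition of nodes (`δ = (δ₁ ∘ Φ₂) δ₂`). Immediate from the definition. -/
def S_comp : Prop := ∀ n₁ n₂ : Node, ∃ nd : Node, (∀ z, nd.Φ z = n₁.Φ (n₂.Φ z)) ∧ (∀ z, nd.Ψ z = n₂.Ψ (n₁.Ψ z)) ∧
  (∀ z, nd.δ z = n₁.δ (n₂.Φ z) * n₂.δ z)

/-- [B7] The child of a node at `w`. From `S_elem`, `S_comp`: the disc of the child is `{Y = w}`; `|β'(0)|² = 1 - (1-|Y(0)|²)(1-|w|²)/|1-w̄Y(0)|²`, and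
`|1-w̄Y(0)| ≥ 1-|Y(0)|`, `(1-|Y(0)|²)/(1-|Y(0)|)² ≤ 2/(1-|Y(0)|)`; `δ'(v,0) = δ(w, s v) · s`. -/
def S_child : Prop := ∀ (nd : Node) (w : ℂ), ‖w‖ < 1 → ∃ nc : Node,
  (nc.Φ 0 = nd.Φ (w, 0)) ∧
  (∀ z ∈ KK, nc.β z = 0 ↔ nd.Y z = w) ∧
  (∀ C : ℝ, (∀ z ∈ KK, ‖nd.δ z‖ ≤ C) → ∀ v : ℂ, ‖v‖ < 1 → ‖nc.δ (v, 0)‖ ≤ C * sw w) ∧
  (1 - 2 * (1 - ‖w‖ ^ 2) / (1 - ‖nd.Y 0‖) ≤ ‖nc.β 0‖ ^ 2)

/-- [B8] On the open ball `|Y| < 1`, uniformly on smaller closed balls (compactness), and `|Y|² + |β|² ≤ 1` on `KK`. -/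
def S_ballY : Prop := ∀ nd : Node, (∀ z ∈ KK, ‖nd.Y z‖ ^ 2 + ‖nd.β z‖ ^ 2 ≤ 1) ∧ (∀ z ∈ BB, ‖nd.Y z‖ < 1) ∧
  ∀ R : ℝ, R < 1 → 0 ≤ R → ∃ q : ℝ, 0 ≤ q ∧ q < 1 ∧ ∀ z : ℂ × ℂ, ‖z.1‖ ^ 2 + ‖z.2‖ ^ 2 ≤ R ^ 2 → ‖nd.Y z‖ ≤ q

/-- [B9] Tubes. Proof by compactness of `KK`: for `ε₀ → 0` the sets `{z ∈ KK : ‖β_j z‖ ≤ ε₀}` shrink to the disc `{β_j = 0}`, where `Re h ≥ N'`, and, for
`i ≠ j`, `β_i ≠ 0`, so `‖Y_i‖² ≤ 1 - ‖β_i‖² < 1`. (For each `j`, `i`: a continuous function on a compact set that is `> 0` where `β_j = 0`;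
take the minimum over the finitely many pairs.) -/
def S_tube : Prop := ∀ (ι : Type) [Fintype ι] (nd : ι → Node) (h : ℂ × ℂ → ℂ) (N' : ℝ), ContinuousOn h KK →
  (∀ j, ∀ z ∈ KK, (nd j).β z = 0 → N' ≤ (h z).re) →
  (∀ i j, i ≠ j → ∀ z ∈ KK, (nd i).β z = 0 → (nd j).β z ≠ 0) →
  ∀ κ > 0, ∃ ε₀ : ℝ, 0 < ε₀ ∧ ∃ q : ℝ, 0 ≤ q ∧ q < 1 ∧
    (∀ j, ∀ z ∈ KK, ‖(nd j).β z‖ ≤ ε₀ → N' - κ ≤ (h z).re) ∧
    (∀ i j, i ≠ j → ∀ z ∈ KK, ‖(nd j).β z‖ ≤ ε₀ → ‖(nd i).Y z‖ ≤ q ∧ ε₀ < ‖(nd i).β z‖)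

/-- [B10] Roots of `ρ`: `w_l = ρ^{1/n} e^{2πil/n}`; `n (1 - ρ^{2/n}) ≤ 2 log (1/ρ)` from `1 - x ≤ -log x`. -/
def S_roots : Prop := ∀ (n : ℕ), 1 ≤ n → ∀ ρ : ℝ, 0 < ρ → ρ < 1 → ∃ w : Fin n → ℂ, Function.Injective w ∧ (∀ l, w l ^ n = (ρ : ℂ)) ∧
  (∀ v : ℂ, v ^ n = (ρ : ℂ) → ∃ l, w l = v) ∧ (∀ l, ‖w l‖ < 1) ∧ (∀ l, n * (1 - ‖w l‖ ^ 2) ≤ 2 * Real.log (1 / ρ))

/-- [B11] Harnack over the roots. Proof: `G = exp (-g)` with `g` holomorphic on the disc, `Re g ≥ 0` (holomorphic logarithm on the disc), `g = ∑ c_m w^m`,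
`|c_m| ≤ 2 Re c_0` for `m ≥ 1` (Caratheodory: `c_m s^m = (1/π)∫ Re g(s e^{iθ}) e^{-imθ} dθ`). Averaging over the `n` roots `w_l`:
`(1/n)∑ g(w_l) = ∑_{j≥0} c_{nj} ρ^j`, so `(1/n) ∑ Re g(w_l) ≤ Re c_0 (1 + 2∑_{j≥1} ρ^j) = Re g(0) (1+ρ)/(1-ρ)`. If `|G(w_l)| ≤ q` then `Re g(w_l) ≥ -log q`, hence
`Re g(0) ≥ -(log q) (1-ρ)/(1+ρ)`. (Alternative: `P(v) = ∏_l G(e^{2πil/n} v)` is a function of `v^n`; Harnack for `-log|P|`.) -/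
def S_har : Prop := ∀ G : ℂ → ℂ, DifferentiableOn ℂ G (Metric.ball 0 1) → (∀ w, ‖w‖ < 1 → G w ≠ 0 ∧ ‖G w‖ ≤ 1) →
  ∀ n : ℕ, 1 ≤ n → ∀ ρ : ℝ, 0 < ρ → ρ < 1 → ∀ q : ℝ, 0 < q → q ≤ 1 → (∀ w : ℂ, w ^ n = (ρ : ℂ) → ‖G w‖ ≤ q) →
  ‖G 0‖ ≤ q ^ ((1 - ρ) / (1 + ρ))

/-! ## C. One step -/

/-- [C1] Sequential choice of the exponents. Proof: induction over finite subsets `s` of `ι` (all other exponents irrelevant): for every `κ > 0`, `n0` there are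
`n_j ≥ n0` such that the products over `s` satisfy `‖f'-f‖² ≤ (Q (1+κ)(e^a+1))² ∑_{j∈s} D_j² + κ`, `‖b'-b‖ ≤ κ`. First enlarge `n0` so that `|X(v)|^{card ι} ≤ 1+κ` for
`|v| ≤ q0^{n0}` (continuity of `X` at `0`, `X 0 = 1`; `|v| ≤ q0^n`, `q0 < 1`). Insert `j`: let `f1`, `b1` be the vectors for `s` (with `κ/2`); on the disc of `j`, `|f1| ≤ Q (1+κ)` as `|Y_i| ≤ q0`, so
`S_asym` with `M = D_j Q (1+κ)` gives `D_n = (X(Y_j^n)-1) f1` with `‖D_n‖ ≤ M (e^a+1) + ε` for large `n`; `b1` vanishes on the disc so `‖(X(Y_j^n)-1) b1‖ ≤ ε`.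
`D_n → 0` pointwise (`|Y_j| < 1` on `BB`, `S_ballY`) and bounded, so weakly (`S_lim`): `Re inner D_n (f1-f) → 0`;
`‖f1 + D_n - f‖² = ‖f1-f‖² + ‖D_n‖² + 2 Re inner D_n (f1 - f)`. -/
def S_seq : Prop := ∀ (ι : Type) [Fintype ι] (nd : ι → Node) (a r : ℝ), 0 < a → 0 < r → r < 1 →
  ∀ (f b : HH) (Q q0 : ℝ) (D : ι → ℝ), 0 ≤ Q → 0 ≤ q0 → q0 < 1 → (∀ j, 0 ≤ D j) →
  (∀ j w, ‖w‖ < 1 → ‖(nd j).δ (w, 0)‖ ≤ D j) →
  (∀ j w, ‖w‖ < 1 → ‖ev f ((nd j).Φ (w, 0))‖ ≤ Q) →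
  (∀ j w, ‖w‖ < 1 → ev b ((nd j).Φ (w, 0)) = 0) →
  (∀ i j, i ≠ j → ∀ w : ℂ, ‖w‖ < 1 → ‖(nd i).Y ((nd j).Φ (w, 0))‖ ≤ q0) →
  ∀ κ > 0, ∀ n0 : ℕ, ∃ n : ι → ℕ, (∀ j, n0 ≤ n j) ∧ ∃ f' b' : HH,
    (∀ z ∈ BB, ev f' z = ev f z * ∏ j, Xf a r ((nd j).Y z ^ n j)) ∧
    (∀ z ∈ BB, ev b' z = ev b z * ∏ j, Xf a r ((nd j).Y z ^ n j)) ∧
    ‖f' - f‖ ^ 2 ≤ (Q * (1 + κ) * (Real.exp a + 1)) ^ 2 * ∑ j, D j ^ 2 + κ ∧ ‖b' - b‖ ≤ κ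

/-- [C2] The product of the `β_j` (with phases) is a contractive multiplier and close to one. Proof: `c_j` of modulus one with `c_j β_j(0) = |β_j(0)|`;
`b = (∏ c_j β_j) one`, `‖b‖ ≤ 1`, `‖b - one‖² = ‖b‖² + 1 - 2 Re ev b 0 ≤ 2 - 2 ∏ |β_j(0)| ≤ 2 ε`. -/
def S_blaschke : Prop := ∀ (ι : Type) [Fintype ι] (nd : ι → Node) (ε : ℝ), 1 - ε ≤ ∏ j, ‖(nd j).β 0‖ →
  ∃ b : HH, Mul (ev b) 1 ∧ ‖b - one‖ ^ 2 ≤ 2 * ε ∧ (∀ j w, ‖w‖ < 1 → ev b ((nd j).Φ (w, 0)) = 0)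

end

end DA91
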