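import Pool.Agent.Lib.MP_e91a1a_an.DA.Stm

/-!
# Statements of the pieces for MP_e91a1a_an, part 2: the step, the limit vector, the multiplier

Paper: /team-store/MP_e91a1a_paper.md.
-/

open scoped ComplexConjugate Topology
open Filter

namespace DA91

noncomputable section

/-- the new exponent `h' = h + a ∑_j ψ_r(Y_j^{n_j})` -/
def nextH (S : Stage) (a r : ℝ) (n : S.ι → ℕ) (z : ℂ × ℂ) : ℂ :=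
  letI := S.fin
  S.h z + (a : ℂ) * ∑ j, psi r ((S.nd j).Y z ^ n j)

/-- [C3] The geometric part of the step. Data of the new stage: nodes = children of `j` (`S_child`) at the `n_j` roots of `ρ` (`S_roots`), index type
`Σ j, Fin (n j)`, `h' = nextH S ((1-η) N) r n`, `N' = N + (1-η) N · 2rρ/(1-rρ)`, `t' = t (1-ρ)/(1+ρ)`, `σ' = σ + κ`, `ε' = κ`, `R' ≤ R''`.
`ρ₀`: so near `1` that `2 log(1/ρ) ∑ C_j² ≤ 1` (`C_j ≥ ‖δ_j‖` on `KK`, compactness) and `4 log(1/ρ) ∑ 1/(1-|Y_j(0)|) ≤ κ`.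
`s1`: on the child disc `Y_j = w`, `w^{n_j} = ρ`, so `psi r (Y_j^{n_j}) = 2rρ/(1-rρ)` exactly; `‖β_j‖² ≤ 1-‖w‖² ≤ 2 log(1/ρ)/n_j ≤ ε₀²` so `z` is in the tube of `j` (`S_tube`
with `N' = N-σ`, `κ/2`): `Re h ≥ N-σ-κ/2` and `‖Y_i‖ ≤ q < 1` for `i ≠ j`, so the other terms `≥ -κ/2` for `n ≥ n0`.
`s2`: same `j`: different values of `Y_j`; different `j`: tubes are disjoint (`ε₀ < ‖β_i‖`). `s3`: `S_har` on `w ↦ G (Φ_j (w,0))` gives `‖G (Φ_j 0)‖ ≤ q^{(1-ρ)/(1+ρ)}`, then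
`S.s3`. `s4`: `D' = C_j · sw w`. `s5`: `∏ ‖β'(0)‖ ≥ ∏ ‖β'(0)‖² ≥ 1 - ∑ 2(1-‖w‖²)/(1-‖Y_j 0‖) ≥ 1-κ`. `s6`: finitely many points of `BB`. `cont`, `mul`: `S_mulY`, `S_mulExp`, `S_mulAlg`.
Last clause: `‖Y_j‖ ≤ q < 1` on the ball of radius `R'` (`S_ballY`), `n0` large. -/
def S_geo : Prop := ∀ S : Stage, S.Good → ∀ η κ R' : ℝ, 0 < η → η ≤ 1 / 2 → 0 < κ → S.σ + κ < 1 → S.R ≤ R' → R' < 1 →
  ∃ ρ₀ : ℝ, 0 < ρ₀ ∧ ρ₀ < 1 ∧ ∀ ρ r : ℝ, ρ₀ < ρ → ρ < 1 → 0 < r → r < 1 → ∃ n0 : ℕ, ∀ n : S.ι → ℕ, (∀ j, n0 ≤ n j) →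
    ∃ S' : Stage, S'.Good ∧ S'.h = nextH S ((1 - η) * S.N) r n ∧
      S'.N = S.N + (1 - η) * S.N * (2 * r * ρ / (1 - r * ρ)) ∧ S'.t = S.t * ((1 - ρ) / (1 + ρ)) ∧
      S'.σ = S.σ + κ ∧ S'.ε = κ ∧ R' ≤ S'.R ∧
      (∀ z : ℂ × ℂ, ‖z.1‖ ^ 2 + ‖z.2‖ ^ 2 ≤ R' ^ 2 → ‖S'.h z - S.h z‖ ≤ κ)

/-- [C4] The step. Proof: `S_geo` for the new stage, `S_seq` (with `a = (1-η) N`, `Q = e^{-(N-σ)}`, `f = exp(-h)` (`S_mulExp` applied to `one`), `b` from `S_blaschke`,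
`n0` from `S_geo`; `q0`: on the disc of `j` (`Y_i∘Φ_j` on `‖w‖<1`, and `β_j (Φ_j (w,0)) = 0`) use `S_tube`). `∏ Xf = exp(S.h - S'.h)`.
Norm: `(e^{-(N-σ)} (1+κ)(e^a+1))² + κ ≤ (e^{1-N}·2·2e^{(1-η)N})² + e^{-2ηN} ≤ 121 e^{-2ηN}`. -/
def S_step : Prop := ∀ S : Stage, S.Good → ∀ η κ R' : ℝ, 0 < η → η ≤ 1 / 2 → 0 < κ → κ ≤ Real.exp (-(2 * η * S.N)) →
  S.σ + κ < 1 → S.R ≤ R' → R' < 1 →
  ∃ ρ₀ : ℝ, 0 < ρ₀ ∧ ρ₀ < 1 ∧ ∀ ρ r : ℝ, ρ₀ < ρ → ρ < 1 → 0 < r → r < 1 →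
    ∃ S' : Stage, S'.Good ∧
      S'.N = S.N + (1 - η) * S.N * (2 * r * ρ / (1 - r * ρ)) ∧ S'.t = S.t * ((1 - ρ) / (1 + ρ)) ∧
      S'.σ = S.σ + κ ∧ S'.ε = κ ∧ R' ≤ S'.R ∧
      (∀ z : ℂ × ℂ, ‖z.1‖ ^ 2 + ‖z.2‖ ^ 2 ≤ R' ^ 2 → ‖S'.h z - S.h z‖ ≤ κ) ∧
      ∃ f f' b b' : HH, (∀ z ∈ BB, ev f z = Complex.exp (-S.h z)) ∧ (∀ z ∈ BB, ev f' z = Complex.exp (-S'.h z)) ∧
        ‖f' - f‖ ≤ 11 * Real.exp (-(η * S.N)) ∧ Mul (ev b) 1 ∧ ‖b - one‖ ^ 2 ≤ 2 * S.ε ∧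
        (∀ z ∈ BB, ev b' z = ev b z * Complex.exp (S.h z - S'.h z)) ∧ ‖b' - b‖ ≤ κ

/-- [C5] The first stage: `h = 1`, `N = 1`, `t = 1`, `σ = 0`, `ε = 1`, `R = 0`, one node, the root (`Φ = Ψ = id`, `δ = 1`), `D = 1`. -/
def S_root : Prop := ∃ S : Stage, S.Good ∧ S.N = 1 ∧ S.t = 1 ∧ S.σ = 0 ∧ S.ε = 1

/-! ## D. The limit vector -/

/-- [D1] The tower of stages. Proof: iterate `S_step` from `S_root` (recursion on a subtype carrying the invariants). At step `k` (stage `S k` known): `η = 2^{-k-3}`,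
`κ = min (4^{-k-2}) (exp (-2 η N_k))`, `R' = max R_k (1 - 2^{-k-1})`, then `ρ₀` is given; choose `ρ` in `(max ρ₀ (1/3), 1)` so near `1` that
`N_{k+1} ≥ 1/(2 t_{k+1}) = (1+ρ)/(2 (1-ρ) t_k)` is so large that `11 exp (-2^{-k-4} N_{k+1}) * exp (Ch_j) ≤ 2^{-k-1}` for all `j ≤ k`, then `r < 1` so near `1` that
`(1-ρ)/(1+ρ) * (1 + (1-η) 2rρ/(1-rρ)) ≥ (1-η)²` (the limit `r → 1` is `1 - 2ρη/(1+ρ) ≥ 1-η > (1-η)²`). Invariants: `t_k N_k ≥ (1+2^{-k})/2`, `t_k ≤ 2^{-k}`,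
`σ_k ≤ (1 - 2^{-k})/2`, `ε_k ≤ 4^{-k}`, `11 exp (-2^{-k-3} N_k) exp (Ch_j) ≤ 2^{-k}` for `j < k`. `f k`, `b k`, `b' k` from `S_step` (the `f'` of step `k` is the `f` of step `k+1` by `S_inj`). -/
def S_tower : Prop := ∃ S : ℕ → Stage, (∀ k, (S k).Good) ∧ (∀ k, (S k).σ ≤ 1 / 2) ∧ (∀ k, 1 / 2 ≤ (S k).t * (S k).N) ∧
  Tendsto (fun k => (S k).t) atTop (𝓝 0) ∧ (∀ k, (S k).R ≤ (S (k + 1)).R) ∧
  (∀ k, 1 - (1 / 2 : ℝ) ^ (k + 1) ≤ (S (k + 1)).R) ∧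
  (∀ k, ∀ z : ℂ × ℂ, ‖z.1‖ ^ 2 + ‖z.2‖ ^ 2 ≤ (S k).R ^ 2 → ‖(S (k + 1)).h z - (S k).h z‖ ≤ (1 / 4 : ℝ) ^ (k + 1)) ∧
  ∃ f b b' : ℕ → HH, (∀ k, ∀ z ∈ BB, ev (f k) z = Complex.exp (-(S k).h z)) ∧
    (∀ k j, j < k → ‖f (k + 1) - f k‖ * Real.exp ((S j).Ch) ≤ (1 / 2 : ℝ) ^ k) ∧
    (∀ k, Mul (ev (b k)) 1) ∧ (∀ k, ‖b k - one‖ ^ 2 ≤ 2 * (1 / 4 : ℝ) ^ k) ∧
    (∀ k, ∀ z ∈ BB, ev (b' k) z = ev (b k) z * Complex.exp ((S k).h z - (S (k + 1)).h z)) ∧ (∀ k, ‖b' k - b k‖ ≤ (1 / 4 : ℝ) ^ (k + 1))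

/-- [D2] The vector, from `S_tower`: `f = lim f_k` (Cauchy: `‖f_{k+1} - f_k‖ ≤ 2^{-k}` for `k ≥ 1` as `Ch ≥ 0`). `h_k` converges on `BB` (every point lies in the ball of radius `R_k` for large `k`),
so `ev f z = exp(-h z) ≠ 0`. Cyclic: `m = ev (b k) * exp (h_k)` is a multiplier with constant `exp (Ch_k)` (`S_mulExp`), `m f - one = m (f - f_{k+1}) + (b'_k - b_k) + (b_k - one)` because
`m f_{k+1} = b'_k`; `‖m (f - f_{k+1})‖ ≤ exp(Ch_k) ∑_{i > k} ‖f_{i+1} - f_i‖ ≤ 2^{-k}`. Bad: `δ₀ = 1/2`: at the centre `y = Φ_j 0` of a node of `S k`, `β_j y = 0` so `Re h_k(y) ≥ N_k - 1/2` (`s1`), `y` is in the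
ball of radius `R_k` (`s6`), `|h - h_k| ≤ ∑ 4^{-i-1} ≤ 1/2` there, hence `‖ev f y‖ ≤ exp (1 - N_k)`. If `‖G‖ ≤ C ‖ev f‖`, `C ≥ 1`, then with `q = C exp(1-N_k) ≤ 1` (large `k`; `N_k ≥ 1/(2 t_k) → ∞`)
`s3` gives `‖G 0‖ ≤ q^{t_k} = exp (t_k (log C + 1) - t_k N_k) ≤ exp (t_k (log C + 1) - 1/2)`; let `k → ∞`. -/
def S_vec : Prop := ∃ f : HH, (∀ z ∈ BB, ev f z ≠ 0) ∧
  (∀ ε > 0, ∃ (m : ℂ × ℂ → ℂ) (C : ℝ), 0 ≤ C ∧ Mul m C ∧ ∃ G : HH, (∀ z ∈ BB, ev G z = m z * ev f z) ∧ ‖G - one‖ ≤ ε) ∧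
  (∃ δ₀ : ℝ, 0 < δ₀ ∧ ∀ G, Adm G → (∃ C : ℝ, ∀ z ∈ BB, ‖G z‖ ≤ C * ‖ev f z‖) → ‖G 0‖ ≤ Real.exp (-δ₀))

/-! ## E. From the vector to a multiplier -/

/-- [E1] Multiplication by the kernel function `k_z(u) = 1/(1 - kip u z)`, `z ∈ BB`. Proof: `u ↦ kip u z` is a multiplier of norm `≤ √(|z₁|²+|z₂|²) < 1`
(`‖z̄₁ M₁ F + z̄₂ M₂ F‖² ≤ ‖z̄₁F‖² + ‖z̄₂F‖²`, `S_ops`); geometric series, `S_mulFC`. -/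
def S_mulKer : Prop := ∀ z ∈ BB, ∃ C : ℝ, 0 ≤ C ∧ Mul (fun u => 1 / (1 - kip u z)) C

/-- finitely supported vectors = polynomials -/
def FinSupp (F : HH) : Prop := {p : ℕ × ℕ | F p ≠ 0}.Finite

/-- [E2] Polynomials are multipliers, and they are dense. -/
def S_poly : Prop := (∀ F : HH, FinSupp F → ∃ C : ℝ, 0 ≤ C ∧ Mul (ev F) C) ∧
  (∀ F : HH, ∃ P : ℕ → HH, (∀ n, FinSupp (P n)) ∧ Tendsto P atTop (𝓝 F))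

/-- [E3] Sarason function of a polynomial. `V = 2 T† F - ‖F‖² one`, `T` = multiplication by `ev F` = `∑ F p wt p M₁^{p.1} M₂^{p.2}`; it is a polynomial
because the adjoints `M_j†` map polynomials to polynomials. First clause: `ev V z = 2 inner (T (ker z)) F - ‖F‖²` and `T (ker z) = G`.
Second: `A(g) := ‖T g‖² ≤ Re inner g (T_V g)`, first for `g` with `g (a,b) = 0` unless `a+b < n`, by induction on `n`: `g = g₀ one + ∑ M_j g_j`, `g_j = M_j† g` (degree `< n-1`), `T` commutes with `M_j`: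
`‖T g‖² = |g₀|²‖F‖² + 2 Re inner (g₀ F) (T g - g₀ F) + ‖∑ M_j T g_j‖² ≤ Re inner (g₀ V) g ... + ∑_j ‖T g_j‖²`
`≤ Re inner g (T_V (g₀ one)) + ∑_j Re inner g_j (T_V g_j) = Re inner g (T_V (g₀ one + ∑ M_j M_j† g)) = Re inner g (T_V g)`;
then for all `g` by density (both sides continuous). -/
def S_sarason : Prop := ∀ F : HH, FinSupp F → ∃ V : HH, FinSupp V ∧
  (∀ z ∈ BB, ∀ G : HH, (∀ u ∈ BB, ev G u = ev F u * (1 / (1 - kip u z))) → ev V z = 2 * inner ℂ G F - (‖F‖ : ℂ) ^ 2) ∧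
  (∀ g Fg Vg : HH, (∀ u ∈ BB, ev Fg u = ev F u * ev g u) → (∀ u ∈ BB, ev Vg u = ev V u * ev g u) → ‖Fg‖ ^ 2 ≤ (inner ℂ g Vg).re)

/-- [E4] Accretivity consequences (for polynomials). Proof: `Re ev V z ≥ 0`: `S_sarason` with `g = ker z`: `0 ≤ Re inner (ker z) (Vg) = Re (ev V z) ‖ker z‖²`.
Let `T_V` be the bounded operator of multiplication by `ev V` (`S_poly`, `S_inj` for linearity). `T = 1 + ε T_V` satisfies `Re inner g (T g) ≥ ‖g‖²`, so `‖T g‖ ≥ ‖g‖`, closed range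
(antilipschitz), and a vector orthogonal to the range is `0`; so for every `k` there is `g` with `T g = k`, `‖g‖ ≤ ‖k‖`, `ev g = ev k/(1+ε V)`.
Third clause: `g` with `g + V g = k` (`ε = 1`): `‖F g‖² ≤ Re inner g (V g) = Re inner g k - ‖g‖² ≤ ‖k‖²/4`. -/
def S_accr : Prop := ∀ F V : HH, FinSupp F → FinSupp V →
  (∀ g Fg Vg : HH, (∀ u ∈ BB, ev Fg u = ev F u * ev g u) → (∀ u ∈ BB, ev Vg u = ev V u * ev g u) → ‖Fg‖ ^ 2 ≤ (inner ℂ g Vg).re) →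
  (∀ z ∈ BB, 0 ≤ (ev V z).re) ∧ (∀ ε : ℝ, 0 < ε → Mul (fun z => 1 / (1 + ε * ev V z)) 1) ∧
  Mul (fun z => 2 * ev F z / (1 + ev V z)) 1

/-- [E5] The same for every vector `F`, `V z := 2 inner (k_z F) F - ‖F‖²`. Proof: polynomials `P n → F` (`S_poly`), `V_n` from `S_sarason`, `S_accr`; `ev (V_n) z → V z` because `P ↦ inner (k_z P) P` is
continuous (`S_mulKer`); `1 + ε V ≠ 0` since `Re V ≥ 0`; `S_mulLim`. -/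
def S_accrAll : Prop := ∀ F : HH, ∃ V : ℂ × ℂ → ℂ, (∀ z ∈ BB, 0 ≤ (V z).re) ∧
  (∀ ε : ℝ, 0 < ε → Mul (fun z => 1 / (1 + ε * V z)) 1) ∧ Mul (fun z => 2 * ev F z / (1 + V z)) 1

/-- [E6] Conversion. `θ = 2/(1+V)`, `χ = (1/(2ε'))(1 - (1-ε')/(1+ε'V))`, `χ θ = 1/(1+ε'V) = ev G`, `‖G‖ ≤ 1`, `ev G 0 → 1` as `ε' → 0`,
`‖G - one‖² = ‖G‖² + 1 - 2 Re ev G 0 ≤ 2 - 2 Re ev G 0`. -/
def S_conv : Prop := ∀ F : HH, ∃ θ : ℂ × ℂ → ℂ, (∀ z ∈ BB, θ z ≠ 0 ∧ ‖θ z‖ ≤ 2) ∧ Mul (fun z => ev F z * θ z) 1 ∧ Mul θ 2 ∧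
  ∀ ε > 0, ∃ (χ : ℂ × ℂ → ℂ) (C : ℝ), 0 ≤ C ∧ Mul χ C ∧ ∃ G : HH, (∀ z ∈ BB, ev G z = χ z * θ z) ∧ ‖G - one‖ ≤ ε

/-- [E7] If `one` can be approximated by `m * HH` then everything can. Proof: `g` polynomial (`S_poly`: dense, multiplication by `ev g` bounded):
`m (g G) - g = g (m G - one)`. -/
def S_dense : Prop := ∀ (m : ℂ × ℂ → ℂ), (∀ ε > 0, ∃ F G : HH, (∀ z ∈ BB, ev G z = m z * ev F z) ∧ ‖G - one‖ ≤ ε) →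
  ∀ g : HH, ∀ ε > 0, ∃ F G : HH, (∀ z ∈ BB, ev G z = m z * ev F z) ∧ ‖G - g‖ ≤ ε

/-- [E8] Main theorem for `d = 2` in the model. Proof: `f` from `S_vec`, `θ` from `S_conv`, `m = f θ`. Cyclic: `f F_n → one`, so `m F_n = θ (f F_n) → θ` and then
multiply by `χ`: `χ θ → one`; `S_dense`. Bad: `G = φ m` is `Adm` (holomorphic: `m = ev (representing vector)`), `‖G‖ ≤ 2 C ‖f‖`. -/
def S_main : Prop := ∃ m : ℂ × ℂ → ℂ, Mul m 1 ∧ (∀ z ∈ BB, m z ≠ 0) ∧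
  (∀ g : HH, ∀ ε > 0, ∃ F G : HH, (∀ z ∈ BB, ev G z = m z * ev F z) ∧ ‖G - g‖ ≤ ε) ∧
  ∃ c : ℝ, c < 1 ∧ ∀ φ : ℂ × ℂ → ℂ, DifferentiableOn ℂ φ BB → (∀ z ∈ BB, φ z ≠ 0) → (∃ C : ℝ, ∀ z ∈ BB, ‖φ z‖ ≤ C) →
    (∀ z ∈ BB, ‖φ z * m z‖ ≤ 1) → ‖φ 0 * m 0‖ ≤ c

end

end DA91
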