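import Pool.Agent.Lib.MP_e91a1a_an.DA.Stm2
import Pool.Agent.Lib.MP_e91a1a_an.DA.FDefs

/-!
# Statements of the pieces for MP_e91a1a_an, part 3: from the model (d = 2) to every d ≥ 2 and Mathlib's `RKHS`
-/

open scoped ComplexConjugate Topology ComplexOrder
open Filter DruryArveson

namespace DA91

noncomputable section

/-- the Drury-Arveson kernel on the ball of `ℂ^d` -/
def Kd (d : ℕ) (z w : Ball d) : ℂ :=
  1 / (1 - inner ℂ (w : EuclideanSpace ℂ (Fin d)) (z : EuclideanSpace ℂ (Fin d)))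

/-- the first two coordinates -/
def pr {d : ℕ} (hd : 2 ≤ d) (z : EuclideanSpace ℂ (Fin d)) : ℂ × ℂ := (z ⟨0, by omega⟩, z ⟨1, by omega⟩)

/-- `(z₁,z₂) ↦ (z₁,z₂,0,...,0)` -/
def emb (d : ℕ) (z : ℂ × ℂ) : EuclideanSpace ℂ (Fin d) :=
  WithLp.toLp 2 (fun i : Fin d => if i.val = 0 then z.1 else if i.val = 1 then z.2 else 0)

/-- [F0] Positive semidefinite kernels on the ball of `ℂ^d`: `⟨z,w⟩`; `‖a‖²⟨z,w⟩ - ⟨z,a⟩⟨a,w⟩` (Cauchy-Schwarz / projection on `a^⊥`); `K_d` (`= ∑ ⟨z,w⟩^n`, Schur product theorem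
`Matrix.PosSemidef.hadamard`, limits); and for `d ≥ 2` the quotient `K_d/K_2 = (1 - ⟨πz,πw⟩) K_d = 1 + ⟨z'',w''⟩ K_d`, `z'' = z - π z`. -/
def S_psd : Prop := ∀ d : ℕ,
  (Matrix.of (Kd d)).PosSemidef ∧
  (∀ a : Ball d, (Matrix.of fun z w : Ball d => (((‖(a : EuclideanSpace ℂ (Fin d))‖ ^ 2 : ℝ) : ℂ) -
     inner ℂ (a : EuclideanSpace ℂ (Fin d)) (z : EuclideanSpace ℂ (Fin d)) *
       conj (inner ℂ (a : EuclideanSpace ℂ (Fin d)) (w : EuclideanSpace ℂ (Fin d)))) * Kd d z w).PosSemidef) ∧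
  (∀ hd : 2 ≤ d, (Matrix.of fun z w : Ball d => (1 - kip (pr hd z) (pr hd w)) * Kd d z w).PosSemidef)

/-- [F1] Existence of the Drury-Arveson space as an `RKHS`: `RKHS.OfKernel` for `K z w = Kd d z w • 1` (`S_psd`, `RKHS.posSemidef_tfae`, `RKHS.OfKernel.kernel_ofKernel`), or directly:
the closed span of the vectors `φ(w) = (conj (w_{i_1} ⋯ w_{i_n}))_{words}` in `ℓ²(List (Fin d))`. -/
def S_exists : Prop := ∀ d : ℕ, ∃ (H : Type) (_ : NormedAddCommGroup H) (_ : InnerProductSpace ℂ H) (_ : CompleteSpace H)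
  (_ : RKHS ℂ H (Ball d) ℂ), IsDruryArveson d H

/-- [F2] A positive semidefinite kernel `(C² - m(z) conj m(w)) K(z,w)` gives a multiplier of norm `≤ C`. Proof: on the span of the kernel functions `k_w = RKHS.kerFun H w 1` the map
`∑ c_i k_{w_i} ↦ ∑ c_i conj (m w_i) k_{w_i}` is well defined with norm `≤ C` (that is the positivity), the span is dense (`RKHS.kerFun_dense`); the adjoint of its extension
is multiplication by `m`. -/
def S_psdMul : Prop := ∀ (d : ℕ) (H : Type) [NormedAddCommGroup H] [InnerProductSpace ℂ H] [CompleteSpace H]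
  [RKHS ℂ H (Ball d) ℂ], IsDruryArveson d H → ∀ (m : Ball d → ℂ) (C : ℝ), 0 ≤ C →
  (Matrix.of fun z w : Ball d => ((C ^ 2 : ℝ) - m z * conj (m w)) * Kd d z w).PosSemidef → MultNormLE H m C

/-- [F3] Conversely a contractive multiplier of the model has a positive semidefinite kernel. Proof: the operator `T` of multiplication by `m` (exists, linear by `S_inj`, `‖T‖ ≤ 1`) has
`T† (ker w) = conj (m w) • ker w`; `‖∑ c_i conj (m w_i) ker w_i‖ ≤ ‖∑ c_i ker w_i‖`. -/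
def S_mulPsd : Prop := ∀ m : ℂ × ℂ → ℂ, Mul m 1 →
  (Matrix.of fun z w : BB => (1 - m z * conj (m w)) * (1 / (1 - kip z w))).PosSemidef

/-- [F4] Lifting contractive multipliers from `d = 2` to `d ≥ 2`. Proof: Schur product of `S_mulPsd` (pulled back along `z ↦ pr z`, which maps the ball to `BB`) and the last kernel of
`S_psd` is `(1 - m m̄) K_d`; `S_psdMul` with `C = 1`. -/
def S_liftMul : Prop := ∀ (d : ℕ) (hd : 2 ≤ d) (H : Type) [NormedAddCommGroup H] [InnerProductSpace ℂ H] [CompleteSpace H]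
  [RKHS ℂ H (Ball d) ℂ], IsDruryArveson d H → ∀ m : ℂ × ℂ → ℂ, Mul m 1 →
  MultNormLE H (fun z : Ball d => m (pr hd z)) 1

/-- [F5] The isometric embedding of the model into `H²_d`. Proof: `J (ker w) = k_{emb w}` (same Gram matrix `1/(1-kip z w)`), extended by density (`S_inj`);
`(J F) z = inner (k_z) (J F)`, equal to `ev F (pr z)` for `F = ker w` because `⟨z, emb w⟩ = kip (pr z) w`, then by density. The adjoint is the restriction to `emb BB`:
`ev (J† f) w = inner (ker w) (J† f) = inner (J (ker w)) f = f (emb w)`. -/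
def S_embed : Prop := ∀ (d : ℕ) (hd : 2 ≤ d) (H : Type) [NormedAddCommGroup H] [InnerProductSpace ℂ H] [CompleteSpace H]
  [RKHS ℂ H (Ball d) ℂ], IsDruryArveson d H →
  (∀ w ∈ BB, emb d w ∈ Metric.ball (0 : EuclideanSpace ℂ (Fin d)) 1) ∧ (∀ z : Ball d, pr hd z ∈ BB) ∧ (∀ w : ℂ × ℂ, pr hd (emb d w) = w) ∧
  (∀ F : HH, ∃ G : H, ‖G‖ = ‖F‖ ∧ ∀ z : Ball d, G z = ev F (pr hd z)) ∧
  (∀ f : H, ∃ F : HH, ∀ w, w ∈ BB → ∀ (hw' : emb d w ∈ Metric.ball (0 : EuclideanSpace ℂ (Fin d)) 1), ev F w = f ⟨emb d w, hw'⟩)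

/-- [F6] Density of `m H` from the approximation of the constant `1`. Proof: the closure `N` of `m H` is a closed subspace, invariant under every multiplier. `T_a` := multiplication by
`⟨·,a⟩` has norm `≤ ‖a‖ < 1` (`S_psd` second clause + `S_psdMul`), and `k_a = ∑ T_a^n 1` (Neumann series), so all kernel functions are in `N`; `RKHS.kerFun_dense`. -/
def S_cyc : Prop := ∀ (d : ℕ) (H : Type) [NormedAddCommGroup H] [InnerProductSpace ℂ H] [CompleteSpace H]
  [RKHS ℂ H (Ball d) ℂ], IsDruryArveson d H → ∀ (m : Ball d → ℂ), IsMultiplier H m → ∀ I : H, (∀ z, I z = 1) →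
  (∀ ε > 0, ∃ F G : H, (∀ z, G z = m z * F z) ∧ ‖G - I‖ ≤ ε) → IsCyclicMultiplier H m

/-- [F7] Elementary facts: a cyclic multiplier has no zeros; a multiplier of norm `≤ C` is bounded by `C`; every multiplier is bounded (closed graph theorem, or uniform boundedness). -/
def S_elemMul : Prop := ∀ (d : ℕ) (H : Type) [NormedAddCommGroup H] [InnerProductSpace ℂ H] [CompleteSpace H]
  [RKHS ℂ H (Ball d) ℂ], IsDruryArveson d H →
  (∃ I : H, ∀ z, I z = 1) ∧
  (∀ m : Ball d → ℂ, IsCyclicMultiplier H m → ∀ z, m z ≠ 0) ∧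
  (∀ (m : Ball d → ℂ) (C : ℝ), 0 ≤ C → MultNormLE H m C → ∀ z, ‖m z‖ ≤ C) ∧
  (∀ m : Ball d → ℂ, IsMultiplier H m → ∃ C : ℝ, 0 ≤ C ∧ MultNormLE H m C)

/-- [F8] The final theorem: for every `d ≥ 2` the answer to Q1 is negative, with one constant `c < 1`. Proof: `m = m₂ ∘ pr` with `m₂` from `S_main`; multiplier: `S_liftMul`; cyclic: `S_cyc` (approximants
of `one` from `S_main`, moved by `S_embed`); given `φ` cyclic with `‖φ m‖ ≤ 1`, apply the last clause of `S_main` to `φ₂ w = φ (emb w)`: it is `ev` of a vector on `BB` (`φ = φ · 1 ∈ H`, `S_embed`), holomorphic (`S_diff`), zero-free,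
bounded. -/
def S_final : Prop := ∀ (d : ℕ), 2 ≤ d → ∀ (H : Type) [NormedAddCommGroup H] [InnerProductSpace ℂ H] [CompleteSpace H]
  [RKHS ℂ H (Ball d) ℂ], IsDruryArveson d H →
  ∃ m : Ball d → ℂ, IsCyclicMultiplier H m ∧ MultNormLE H m 1 ∧ ∃ c : ℝ, c < 1 ∧
    ∀ φ : Ball d → ℂ, IsCyclicMultiplier H φ → MultNormLE H (fun z => φ z * m z) 1 →
      ‖φ ⟨0, by simp⟩ * m ⟨0, by simp⟩‖ ≤ c

end

end DA91
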